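import Pool.Agent.AT.Hess
import Pool.Agent.H25.RK.DGf
import Pool.Agent.S3.Gr6

/-!
# The amplitude of the tree at the critical point
-/

set_option autoImplicit false

namespace Pool.Agent.AT

set_option linter.unusedSectionVars false

open Pool.Agent.S3

open Pool.Agent.H63.VC hiding ext
open Pool.Agent.H63.VC3 Pool.Agent.H63.VC4 Pool.Agent.H63.VC6 Pool.Agent.H63.VC7 Complex
open Pool.Agent.H25.RK Pool.Agent.H63.GO Filter Topology MeasureTheory
open scoped BigOperators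

variable {m : ℕ} [Tr m]

namespace Cfg

variable (C : Cfg m)

/-- The integrand in the coordinates of the critical point. -/
noncomputable def Ph (M : ℕ) (z : C.Op ⊕ Fin m → ℂ) : ℂ :=
  (∏ i : C.Op, ((-1) ^ (M + 1) * gvu (C.r i) M (z (Sum.inl i)))) *
    ∏ j, (M * FM M (C.slz z (Tr.par j)) (C.slz z j.succ) (C.Yz z j))

/-- The power of `M`. -/
noncomputable def ex : ℝ :=
  ∑ j : Fin m, (1 + ((C.slc (Tr.par j)).ex + (C.slc j.succ).ex))

/-- The amplitude. -/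
noncomputable def am : ℂ :=
  (∏ i : C.Op, gau (C.uc i)) *
    ∏ j, ((C.slc (Tr.par j)).am (C.yc j) * (C.slc j.succ).am (C.yc j))

variable {C}

theorem uc_im (i : Fin (m + 1)) : (C.uc i).im = C.θ i := by
  unfold uc
  rw [ul_im]

theorem am_ne (h : C.Crit) : C.am ≠ 0 := by
  unfold am
  refine mul_ne_zero (Finset.prod_ne_zero_iff.mpr fun i _ => ?_)
    (Finset.prod_ne_zero_iff.mpr fun j _ => mul_ne_zero (Sl.am_ne _ _) (Sl.am_ne _ _))
  exact gau_ne (by rw [uc_im]; exact h.th0 i i.2) (by rw [uc_im]; exact h.th1 i i.2)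

theorem slc_ok (h : C.Crit) (hs : ∀ i ∉ C.Op, C.s i = 1 ∨ C.s i = -1) (i : Fin (m + 1)) :
    (C.slc i).ok := by
  unfold slc
  by_cases hi : i ∈ C.Op
  · rw [if_pos hi]
    have h1 : |(C.uc i).im| < Real.pi / 2 := by
      rw [uc_im, abs_lt]
      exact ⟨by linarith [Real.pi_pos, h.th0 i hi], h.th1 i hi⟩
    exact (gdv_re_lt h1).le
  · rw [if_neg hi]
    exact hs i hi

theorem slz_STo (h : C.Crit) {l : Filter (ℕ × (C.Op ⊕ Fin m → ℂ))}
    (hl : Tendsto (fun p : ℕ × (C.Op ⊕ Fin m → ℂ) => p.2) l (𝓝 (cp C.ac C.bc)))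
    (i : Fin (m + 1)) :
    STo l (fun p : ℕ × (C.Op ⊕ Fin m → ℂ) => C.slz p.2 i) (C.slc i) := by
  unfold slc slz
  by_cases hi : i ∈ C.Op
  · simp only [if_pos hi]
    refine ⟨fun p => gdv (C.uz p.2 i), fun p => rfl, ?_⟩
    have hc := (Hess_gz_an (zc_mem h) hi).continuousAt.tendsto
    rw [Hess_uz0] at hc
    exact hc.comp hl
  · simp only [if_neg hi]
    exact fun _ => rfl

theorem exp_V (M : ℕ) (z : C.Op ⊕ Fin m → ℂ) : exp (-(M * C.V z)) =
    (∏ i : C.Op, exp (-(M * wr (C.r i) (gdv (z (Sum.inl i)))))) *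
      ∏ j, exp (-(M * (sP (C.Yz z j) (C.slz z (Tr.par j)) + sP (C.Yz z j) (C.slz z j.succ)))) := by
  unfold V
  rw [← exp_sum, ← exp_sum, ← exp_add, Finset.sum_neg_distrib, Finset.sum_neg_distrib,
    ← Finset.mul_sum, ← Finset.mul_sum]
  congr 1
  ring

/-- The local limit of the integrand. -/
theorem Ph_lim (h : C.Crit) (hs : ∀ i ∉ C.Op, C.s i = 1 ∨ C.s i = -1) :
    Tendsto (fun p : ℕ × (C.Op ⊕ Fin m → ℂ) => C.Ph p.1 p.2 * exp (-(p.1 * C.V p.2)) /
      (((p.1 : ℝ) ^ C.ex : ℝ) : ℂ)) (atTop ×ˢ 𝓝 (cp C.ac C.bc)) (𝓝 C.am) := by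
  set l : Filter (ℕ × (C.Op ⊕ Fin m → ℂ)) := atTop ×ˢ 𝓝 (cp C.ac C.bc) with hldef
  have hM : Tendsto (fun p : ℕ × (C.Op ⊕ Fin m → ℂ) => p.1) l atTop := tendsto_fst
  have hl : Tendsto (fun p : ℕ × (C.Op ⊕ Fin m → ℂ) => p.2) l (𝓝 (cp C.ac C.bc)) := tendsto_snd
  have h1 : ∀ i : C.Op, Tendsto (fun p : ℕ × (C.Op ⊕ Fin m → ℂ) =>
      (-1) ^ (p.1 + 1) * gvu (C.r i) p.1 (p.2 (Sum.inl i)) *
        exp (-(p.1 * wr (C.r i) (gdv (p.2 (Sum.inl i)))))) l (𝓝 (gau (C.uc i))) := by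
    intro i
    have hu : Tendsto (fun p : ℕ × (C.Op ⊕ Fin m → ℂ) => p.2 (Sum.inl i)) l (𝓝 (C.uc i)) := by
      have h2 := ((continuous_apply (Sum.inl i : C.Op ⊕ Fin m)).tendsto (cp C.ac C.bc)).comp hl
      have e : (cp C.ac C.bc) (Sum.inl i) = C.uc i := by
        simp [cp, ac, bc, uc, ul]
      rw [e] at h2
      exact h2
    exact gvu_lim (C.r i) hM hu (by rw [uc_im]; exact h.th0 i i.2)
      (by rw [uc_im]; exact h.th1 i i.2)
  have h2 : ∀ j : Fin m, Tendsto (fun p : ℕ × (C.Op ⊕ Fin m → ℂ) =>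
      FM p.1 (C.slz p.2 (Tr.par j)) (C.slz p.2 j.succ) (C.Yz p.2 j) *
        exp (-(p.1 * (sP (C.Yz p.2 j) (C.slz p.2 (Tr.par j)) +
          sP (C.Yz p.2 j) (C.slz p.2 j.succ)))) /
        (((p.1 : ℝ) ^ ((C.slc (Tr.par j)).ex + (C.slc j.succ).ex) : ℝ) : ℂ)) l
      (𝓝 ((C.slc (Tr.par j)).am (C.yc j) * (C.slc j.succ).am (C.yc j))) := by
    intro j
    have hy : Tendsto (fun p : ℕ × (C.Op ⊕ Fin m → ℂ) => C.Yz p.2 j) l (𝓝 (C.yc j)) := by
      have h3 := (Hess_Yz_an C j (cp C.ac C.bc)).continuousAt.tendsto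
      rw [Hess_Yz0] at h3
      exact h3.comp hl
    exact FM_lim hM hy (slz_STo h hl (Tr.par j)) (slz_STo h hl j.succ) (h.dom j).1 (h.dom j).2
      (slc_ok h hs _) (slc_ok h hs _)
  have h3 := (tendsto_finsetProd Finset.univ fun i _ => h1 i).mul
    (tendsto_finsetProd Finset.univ fun j _ => h2 j)
  refine h3.congr' ?_
  filter_upwards [(eventually_ge_atTop 1).prod_inl (𝓝 (cp C.ac C.bc))] with p hp
  have hM0 : (0 : ℝ) < p.1 := by exact_mod_cast hp
  have hMc : (p.1 : ℂ) ≠ 0 := by exact_mod_cast hM0.ne'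
  have hex : (((p.1 : ℝ) ^ C.ex : ℝ) : ℂ) = ∏ j : Fin m, ((p.1 : ℂ) *
      (((p.1 : ℝ) ^ ((C.slc (Tr.par j)).ex + (C.slc j.succ).ex) : ℝ) : ℂ)) := by
    unfold ex
    rw [Real.rpow_sum_of_pos hM0, ofReal_prod]
    refine Finset.prod_congr rfl fun j _ => ?_
    rw [Real.rpow_add hM0, Real.rpow_one]
    push_cast
    rfl
  rw [exp_V, hex]
  unfold Ph
  rw [Finset.prod_mul_distrib, Finset.prod_div_distrib, Finset.prod_mul_distrib (f := fun j =>
    FM p.1 (C.slz p.2 (Tr.par j)) (C.slz p.2 j.succ) (C.Yz p.2 j)),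
    Finset.prod_mul_distrib (f := fun _ : Fin m => (p.1 : ℂ)),
    Finset.prod_mul_distrib (f := fun _ : Fin m => (p.1 : ℂ))]
  have hP : (∏ _j : Fin m, (p.1 : ℂ)) ≠ 0 := Finset.prod_ne_zero_iff.mpr fun _ _ => hMc
  have hQ : (∏ j : Fin m, (((p.1 : ℝ) ^ ((C.slc (Tr.par j)).ex + (C.slc j.succ).ex) : ℝ) : ℂ)) ≠
      0 := Finset.prod_ne_zero_iff.mpr fun _ _ => by
    exact_mod_cast (Real.rpow_pos_of_pos hM0 _).ne'
  field_simp

theorem gvu_continuousAt (r : ℝ) {M : ℕ} (hM : 0 < M) {u : ℂ} (h0 : 0 < u.im)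
    (h1 : u.im < Real.pi / 2) : ContinuousAt (gvu r M) u := by
  have h : |u.im| < Real.pi / 2 := abs_lt.mpr ⟨by linarith [Real.pi_pos], h1⟩
  have hpi : (Real.pi : ℂ) ≠ 0 := by exact_mod_cast Real.pi_ne_zero
  have hg : ContinuousAt gdv u := (gdv_hasDerivAt h).continuousAt
  have ho : ContinuousAt (fun u => om 2 M (gdv u)) u :=
    ContinuousAt.comp (f := gdv) (g := om 2 M)
      (om_diff (ww_ne_one hM (gdv_im_pos h0 h1))).continuousAt hg
  unfold gvu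
  refine ContinuousAt.mul (ContinuousAt.mul (ContinuousAt.mul ?_ ?_) ho) ?_
  · exact continuous_exp.continuousAt.comp (continuousAt_const.mul (hg.pow 2))
  · exact continuousAt_const.mul (continuous_sin.continuousAt.comp (continuousAt_const.mul hg))
  · exact continuousAt_const.div (continuousAt_const.mul continuous_cosh.continuousAt)
      (mul_ne_zero hpi (cosh_ne h))

theorem sdom_re {y : ℂ} {σ : Sl} (h : sdom y σ) : 0 < y.re ∧ y.re < 1 / 2 := by
  rcases σ with v | s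
  · have h' : 0 < y.re ∧ y.re < 1 / 2 ∧ fdom (y - v) ∧ fdom (y + v) := h
    exact ⟨h'.1, h'.2.1⟩
  · exact h

theorem sC_continuousAt (hs : ∀ i ∉ C.Op, C.s i = 1 ∨ C.s i = -1) {M : ℕ} (hM : 0 < M)
    {z : C.Op ⊕ Fin m → ℂ} (hz : z ∈ C.U) (j : Fin m) (i : Fin (m + 1))
    (h : sdom (C.Yz z j) (C.slz z i)) :
    ContinuousAt (fun z => sC M (C.Yz z j) (C.slz z i)) z := by
  have hM0 : (0 : ℝ) < M := by exact_mod_cast hM
  have hM2 : (0 : ℝ) < 1 / (2 * M) := by positivity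
  have hY : ContinuousAt (fun z => C.Yz z j) z := (Hess_Yz_an C j z).continuousAt
  obtain ⟨h1, h2⟩ := sdom_re h
  by_cases hi : i ∈ C.Op
  · have hsl : ∀ w, C.slz w i = .op (gdv (C.uz w i)) := fun w => by
      unfold slz
      rw [if_pos hi]
    simp only [hsl]
    have hg : ContinuousAt (fun z => gdv (C.uz z i)) z := (Hess_gz_an hz hi).continuousAt
    have hv : |(gdv (C.uz z i)).re| < 1 / 2 := gdv_re_lt (Hess_im hz hi)
    have hy : |(C.Yz z j).re| < 1 / 2 := abs_lt.mpr ⟨by linarith, h2⟩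
    have d := (qS_differentiableAt hM (y := C.Yz z j) (v := gdv (C.uz z i))
      (by linarith)).continuousAt
    exact ContinuousAt.comp (f := fun z => (C.Yz z j, gdv (C.uz z i)))
      (g := fun p : ℂ × ℂ => qS M p.1 p.2) d (hY.prodMk hg)
  · have hsl : ∀ w, C.slz w i = .cl (C.s i) := fun w => by
      unfold slz
      rw [if_neg hi]
    simp only [hsl]
    have d := (sC_differentiableAt hM (σ := .cl (C.s i)) (hs i hi) (y := C.Yz z j)
      (by linarith) (by linarith)).continuousAt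
    exact ContinuousAt.comp (f := fun z => C.Yz z j) (g := fun y => sC M y (.cl (C.s i))) d hY

theorem FM_continuousAt (hs : ∀ i ∉ C.Op, C.s i = 1 ∨ C.s i = -1) {M : ℕ} (hM : 0 < M)
    {z : C.Op ⊕ Fin m → ℂ} (hz : z ∈ C.U) (j : Fin m) :
    ContinuousAt (fun z => FM M (C.slz z (Tr.par j)) (C.slz z j.succ) (C.Yz z j)) z := by
  have hM0 : (0 : ℝ) < M := by exact_mod_cast hM
  have hM2 : (0 : ℝ) < 1 / M := by positivity
  have hY : ContinuousAt (fun z => C.Yz z j) z := (Hess_Yz_an C j z).continuousAt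
  obtain ⟨h1, h2⟩ := sdom_re (hz.2 j).1
  have d := (Cc_differentiableAt hM (y := C.Yz z j) (by linarith) (by linarith)).continuousAt
  unfold FM
  exact (ContinuousAt.comp (f := fun z => C.Yz z j) (g := Cc 2 1 M) d hY).mul
    ((sC_continuousAt hs hM hz j _ (hz.2 j).1).mul (sC_continuousAt hs hM hz j _ (hz.2 j).2))

theorem Ph_cont (hs : ∀ i ∉ C.Op, C.s i = 1 ∨ C.s i = -1) {M : ℕ} (hM : 0 < M) :
    ContinuousOn (C.Ph M) C.U := by
  intro z hz
  apply ContinuousAt.continuousWithinAt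
  unfold Ph
  refine ContinuousAt.mul ?_ ?_
  · refine tendsto_finsetProd Finset.univ fun i _ => ?_
    have hc : ContinuousAt (fun z : C.Op ⊕ Fin m → ℂ => z (Sum.inl i)) z :=
      (continuous_apply _).continuousAt
    exact (ContinuousAt.comp (f := fun z : C.Op ⊕ Fin m → ℂ => z (Sum.inl i))
      (g := gvu (C.r i) M) (gvu_continuousAt (C.r i) hM (hz.1 i).1 (hz.1 i).2) hc).const_mul _
  · refine tendsto_finsetProd Finset.univ fun j _ => ?_
    exact (FM_continuousAt hs hM hz j).const_mul _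

/-- The amplitude at the critical point. -/
theorem Ph_ALim (h : C.Crit) (hs : ∀ i ∉ C.Op, C.s i = 1 ∨ C.s i = -1) :
    ALim C.V C.Ph C.ex (cp C.ac C.bc) := ALim_of_prod (am_ne h) (Ph_lim h hs)

/-- The neighbourhood of the critical point. -/
theorem Ph_bound (h : C.Crit) (hs : ∀ i ∉ C.Op, C.s i = 1 ∨ C.s i = -1) :
    ∃ U' : Set (C.Op ⊕ Fin m → ℂ), IsOpen U' ∧ cp C.ac C.bc ∈ U' ∧ U' ⊆ C.U ∧
      (∃ K : ℝ, 0 < K ∧ ∀ᶠ M : ℕ in atTop, ∀ z ∈ U',
        ‖C.Ph M z‖ ≤ K * (M : ℝ) ^ C.ex * Real.exp (M * (C.V z).re)) ∧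
      ∀ᶠ M in atTop, ContinuousOn (C.Ph M) U' := by
  obtain ⟨U, hU, hz, K, hK, hb⟩ := bound_of_prod (Ph_lim h hs)
  refine ⟨U ∩ C.U, hU.inter U_open, ⟨hz, zc_mem h⟩, Set.inter_subset_right, ⟨K, hK, ?_⟩, ?_⟩
  · filter_upwards [hb] with M hM z hz'
    exact hM z hz'.1
  · filter_upwards [eventually_ge_atTop 1] with M hM
    exact (Ph_cont hs (by omega)).mono Set.inter_subset_right

/-! ### The interface -/

/-- The power of `M`: one for each edge and `3 / 2` for each closed end. -/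
noncomputable def eA (C : Cfg m) : ℝ := m + 3 / 2 * ((m : ℝ) + 1 - C.Op.card)

theorem ex_eq_eA (hinc : ∀ i, i ∉ C.Op → ∃ j, inc (Tr.par (m := m)) Fin.succ i = {j}) :
    C.ex = C.eA := by
  unfold ex eA
  rw [Finset.sum_add_distrib]
  have h1 : ∑ _j : Fin m, (1 : ℝ) = m := by simp
  rw [h1]
  congr 1
  have h2 := sum_inc (Tr.par (m := m)) Fin.succ
    (fun j => (Tr.ne j)) (fun i (_ : Fin m) => (C.slc i).ex)
  rw [← h2]
  have h3 : ∀ i, ∑ _j ∈ inc (Tr.par (m := m)) Fin.succ i, (C.slc i).ex =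
      if i ∈ C.Op then 0 else 3 / 2 := by
    intro i
    by_cases hi : i ∈ C.Op
    · rw [if_pos hi]
      apply Finset.sum_eq_zero
      intro j _
      unfold slc
      rw [if_pos hi]
      rfl
    · rw [if_neg hi]
      obtain ⟨j, hj⟩ := hinc i hi
      rw [hj, Finset.sum_singleton]
      unfold slc
      rw [if_neg hi]
      rfl
  simp only [h3]
  rw [Finset.sum_ite, Finset.sum_const_zero, zero_add, Finset.sum_const, nsmul_eq_mul]
  have h4 : (Finset.univ.filter fun i : Fin (m + 1) => i ∉ C.Op) = C.Opᶜ := by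
    ext i
    simp
  have h5 : C.Op.card ≤ m + 1 := by
    have := Finset.card_le_univ C.Op
    rwa [Fintype.card_fin] at this
  rw [h4, Finset.card_compl, Fintype.card_fin, Nat.cast_sub h5]
  push_cast
  ring

/-- The amplitude near the critical point. -/
structure AmpOut (C : Cfg m) : Prop where
  lim : ALim C.V C.Ph C.eA (cp C.ac C.bc)
  nb : ∃ U' : Set (C.Op ⊕ Fin m → ℂ), IsOpen U' ∧ cp C.ac C.bc ∈ U' ∧ U' ⊆ C.U ∧
    (∀ᶠ M in atTop, ContinuousOn (C.Ph M) U') ∧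
    ∃ K : ℝ, 0 < K ∧ ∀ᶠ M : ℕ in atTop, ∀ z ∈ U',
      ‖C.Ph M z‖ ≤ K * (M : ℝ) ^ C.eA * Real.exp (M * (C.V z).re)

theorem amp (hC : C.Crit) (hs : ∀ i, i ∉ C.Op → C.s i = 1 ∨ C.s i = -1)
    (hinc : ∀ i, i ∉ C.Op → ∃ j, inc (Tr.par (m := m)) Fin.succ i = {j}) : C.AmpOut := by
  have he := ex_eq_eA hinc
  refine ⟨?_, ?_⟩
  · rw [← he]
    exact Ph_ALim hC hs
  · obtain ⟨U', h1, h2, h3, h4, h5⟩ := Ph_bound hC hs
    rw [← he]
    exact ⟨U', h1, h2, h3, h5, h4⟩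

end Cfg

end Pool.Agent.AT
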