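import Pool.Agent.AT.CritCfg

/-!
# The neighbours of a vertex of a tree
-/

set_option autoImplicit false

namespace Pool.Agent.AT

open Pool.Agent.H63.VC7
open scoped BigOperators

variable {m : ℕ} [Tr m]

theorem oth_inj {i : Fin (m + 1)} {j j' : Fin m}
    (h : j ∈ inc (Tr.par (m := m)) Fin.succ i) (h' : j' ∈ inc (Tr.par (m := m)) Fin.succ i)
    (e : oth j i = oth j' i) : j = j' := by
  rcases mem_inc h with e1 | e1 <;> rcases mem_inc h' with e2 | e2
  · have h1 : oth j i = j.succ := by rw [e1, oth_cs]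
    have h2 : oth j' i = j'.succ := by rw [e2, oth_cs]
    rw [h1, h2] at e
    exact Fin.succ_injective _ e
  · have h1 : oth j i = j.succ := by rw [e1, oth_cs]
    have h2 : oth j' i = Tr.par j' := by rw [e2, oth_su]
    rw [h1, h2] at e
    have h3 := Tr.lt j
    have h4 := Tr.lt j'
    rw [← e1, e] at h3
    rw [← e2] at h4
    exact absurd h3 (not_lt.2 h4.le)
  · have h1 : oth j i = Tr.par j := by rw [e1, oth_su]
    have h2 : oth j' i = j'.succ := by rw [e2, oth_cs]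
    rw [h1, h2] at e
    have h3 := Tr.lt j
    have h4 := Tr.lt j'
    rw [← e1, e] at h3
    rw [← e2] at h4
    exact absurd h3 (not_lt.2 h4.le)
  · exact Fin.succ_injective _ (e1.symm.trans e2)

/-- The neighbours of a vertex. -/
def NN (i : Fin (m + 1)) : Finset (Fin (m + 1)) :=
  (inc (Tr.par (m := m)) Fin.succ i).image (fun j => oth j i)

theorem mem_NN {i k : Fin (m + 1)} : k ∈ NN i ↔ Adj i k := by
  unfold NN
  rw [Finset.mem_image]
  constructor
  · rintro ⟨j, hj, rfl⟩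
    exact adj_oth hj
  · rintro ⟨j, ⟨e1, e2⟩ | ⟨e1, e2⟩⟩
    · exact ⟨j, by rw [e1]; exact mem_inc_par j, by rw [e1, e2, oth_cs]⟩
    · exact ⟨j, by rw [e1]; exact mem_inc_succ j, by rw [e1, e2, oth_su]⟩

theorem NN_symm {i k : Fin (m + 1)} (h : k ∈ NN i) : i ∈ NN k :=
  mem_NN.2 (mem_NN.1 h).symm

theorem NN_nonempty (hm : 1 ≤ m) (i : Fin (m + 1)) : (NN i).Nonempty := by
  obtain ⟨j, e | e⟩ := exists_edge hm i
  · exact ⟨j.succ, mem_NN.2 ⟨j, Or.inl ⟨e, rfl⟩⟩⟩
  · exact ⟨Tr.par j, mem_NN.2 ⟨j, Or.inr ⟨e, rfl⟩⟩⟩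

theorem card_NN (i : Fin (m + 1)) : (NN i).card = (inc (Tr.par (m := m)) Fin.succ i).card := by
  unfold NN
  exact Finset.card_image_of_injOn fun j hj j' hj' e => oth_inj hj hj' e

/-- Sums over the neighbours and sums over the edges. -/
theorem sum_NN {M : Type*} [AddCommMonoid M] (f : Fin (m + 1) → M) (i : Fin (m + 1)) :
    ∑ k ∈ NN i, f k = ∑ j ∈ inc (Tr.par (m := m)) Fin.succ i, f (oth j i) := by
  unfold NN
  exact Finset.sum_image fun j hj j' hj' e => oth_inj hj hj' e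

theorem not_self_NN (i : Fin (m + 1)) : i ∉ NN i := by
  intro h
  obtain ⟨j, ⟨e1, e2⟩ | ⟨e1, e2⟩⟩ := mem_NN.1 h
  · exact Tr.ne j (e1.symm.trans e2)
  · exact Tr.ne j (e2.symm.trans e1)

end Pool.Agent.AT
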