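import Pool.Agent.AT.Hess
import Pool.Agent.S3.CritE
import Pool.Agent.S3.E.Crit
import Pool.Agent.S3.E.Geo
import Pool.Agent.S3.E.Sl
import Pool.Agent.S3.E.Two

/-!
# The critical point of an alternating tree

`cfgOf a σ z`: the configuration with twists `σ i * a i / 2`, `σ i = ±1` alternating, at the solution
`z` of the vertex equations. All vertices are open.
-/

set_option autoImplicit false

namespace Pool.Agent.AT

open Pool.Agent.S3
open Pool.Agent.H63.VC hiding ext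
open Pool.Agent.H63.VC7 Complex
open Pool.Agent.S3.E
open Pool.Agent.H25.RK (gdv gdv_re_lt gdv_hasDerivAt ul)
open scoped BigOperators

variable {m : ℕ} [Tr m]

/-- The other end of the edge. -/
def oth (j : Fin m) (i : Fin (m + 1)) : Fin (m + 1) := if i = Tr.par j then j.succ else Tr.par j

@[simp] theorem oth_cs (j : Fin m) : oth j (Tr.par j) = j.succ := if_pos rfl

@[simp] theorem oth_su (j : Fin m) : oth j j.succ = Tr.par j := if_neg (Tr.ne j).symm

/-- Neighbours. -/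
def Adj (i k : Fin (m + 1)) : Prop :=
  ∃ j : Fin m, (i = Tr.par j ∧ k = j.succ) ∨ (i = j.succ ∧ k = Tr.par j)

theorem Adj.symm {i k : Fin (m + 1)} (h : Adj i k) : Adj k i := by
  obtain ⟨j, h | h⟩ := h
  · exact ⟨j, Or.inr ⟨h.2, h.1⟩⟩
  · exact ⟨j, Or.inl ⟨h.2, h.1⟩⟩

theorem adj_cs (j : Fin m) : Adj (Tr.par j) j.succ := ⟨j, Or.inl ⟨rfl, rfl⟩⟩

theorem adj_su (j : Fin m) : Adj j.succ (Tr.par j) := ⟨j, Or.inr ⟨rfl, rfl⟩⟩

theorem adj_oth {i : Fin (m + 1)} {j : Fin m} (h : j ∈ inc (Tr.par (m := m)) Fin.succ i) :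
    Adj i (oth j i) := by
  rcases mem_inc h with e | e
  · rw [e, oth_cs]; exact adj_cs j
  · rw [e, oth_su]; exact adj_su j

/-- A solution of the vertex equations `a_i z_i = π + i ∑ q_ij`, and its properties. -/
structure TZ (a : Fin (m + 1) → ℕ) (z : Fin (m + 1) → ℂ) : Prop where
  pos : ∀ i, 0 < (z i).re ∧ (z i).re < Real.pi / 2 ∧ 0 < (z i).im
  vertex : ∀ i, (a i : ℂ) * z i = (Real.pi : ℂ) +
    I * ∑ j ∈ inc (Tr.par (m := m)) Fin.succ i, qe (z i) (z (oth j i))
  qe_re : ∀ i k, Adj i k → 0 < (qe (z i) (z k)).re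
  opp : ∀ i k, Adj i k → OppHyp (th (z i).re (z i).im) (th (z k).re (z k).im)
    (xx (z i).re (z i).im) (xx (z k).re (z k).im)
  crit : ∀ i k, Adj i k → ECrit (E.uu (z i)) (-((starRingEnd ℂ) (E.uu (z k))))
    (yy (E.uu (z i)) ((starRingEnd ℂ) (E.uu (z k)))) (qe (z i) (z k))
    (-((starRingEnd ℂ) (qe (z k) (z i)))) (-(2 * Real.pi * bw (z i) (z k)))
    (2 * Real.pi * bw (z k) (z i))

namespace TZ

variable {a : Fin (m + 1) → ℕ} {z : Fin (m + 1) → ℂ}

theorem thpos (h : TZ a z) (i : Fin (m + 1)) : 0 < th (z i).re (z i).im :=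
  th_pos (h.pos i).1 (h.pos i).2.1 (h.pos i).2.2

theorem xxpos (h : TZ a z) (i : Fin (m + 1)) : 0 < xx (z i).re (z i).im :=
  xx_pos (h.pos i).1 (h.pos i).2.1 (h.pos i).2.2

theorem abs_th (h : TZ a z) (i : Fin (m + 1)) : |th (z i).re (z i).im| < Real.pi / 2 :=
  abs_th_lt (h.pos i).1 (h.pos i).2.1 (h.pos i).2.2

theorem gd_uu (h : TZ a z) (i : Fin (m + 1)) :
    gd (UU (xx (z i).re (z i).im) (th (z i).re (z i).im)) = z i :=
  E.gd_uu (h.pos i).1 (h.pos i).2.1 (h.pos i).2.2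

theorem oppHyp (h : TZ a z) {i k : Fin (m + 1)} (hik : Adj i k) :
    OppHyp (th (z i).re (z i).im) (th (z k).re (z k).im) (xx (z i).re (z i).im)
      (xx (z k).re (z k).im) := h.opp i k hik

theorem ecrit (h : TZ a z) {i k : Fin (m + 1)} (hik : Adj i k) :
    ECrit (E.uu (z i)) (-((starRingEnd ℂ) (E.uu (z k))))
      (yy (E.uu (z i)) ((starRingEnd ℂ) (E.uu (z k)))) (qe (z i) (z k))
      (-((starRingEnd ℂ) (qe (z k) (z i)))) (-(2 * Real.pi * bw (z i) (z k)))
      (2 * Real.pi * bw (z k) (z i)) := h.crit i k hik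

theorem bw_pos (h : TZ a z) {i k : Fin (m + 1)} (hik : Adj i k) : 0 < bw (z i) (z k) :=
  div_pos (h.qe_re i k hik) (h.pos i).2.2

theorem reg_edge (h : TZ a z) {i k : Fin (m + 1)} (hik : Adj i k) :
    Reg (E.uu (z i)) ((starRingEnd ℂ) (E.uu (z k))) := by
  have := (h.oppHyp hik).reg (xx (z i).re (z i).im) (xx (z k).re (z k).im)
  rw [← UU_conj] at this
  exact this

/-- The canonical split. -/
theorem split (h : TZ a z) {i k : Fin (m + 1)} (hik : Adj i k) :
    Split (th (z i).re (z i).im) (th (z k).re (z k).im) (xx (z i).re (z i).im)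
      (xx (z k).re (z k).im) (bw (z i) (z k)) (bw (z k) (z i)) where
  b0 := h.bw_pos hik
  b0' := h.bw_pos hik.symm
  hQ := by
    rw [h.gd_uu i, bw, div_mul_cancel₀ _ (h.pos i).2.2.ne']
    rfl
  hQ' := by
    rw [h.gd_uu k, bw, div_mul_cancel₀ _ (h.pos k).2.2.ne']
    rfl

/-- The weights have sum `a`. -/
theorem sum_bw (h : TZ a z) (i : Fin (m + 1)) :
    ∑ j ∈ inc (Tr.par (m := m)) Fin.succ i, bw (z i) (z (oth j i)) = a i := by
  have h1 := congrArg im (h.vertex i)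
  rw [← ofReal_natCast, im_ofReal_mul, add_im, ofReal_im, I_mul_im, zero_add, re_sum] at h1
  unfold bw
  rw [← Finset.sum_div, ← h1, mul_div_cancel_right₀ _ (h.pos i).2.2.ne']

/-- `v_c = z/π` for a vertex with `c < 0`, `v_c = -conj z/π` for a vertex with `c > 0`. -/
theorem gdv_uu (h : TZ a z) (i : Fin (m + 1)) :
    gdv (E.uu (z i)) = z i / Real.pi ∧
    gdv (-((starRingEnd ℂ) (E.uu (z i)))) = -((starRingEnd ℂ) (z i)) / Real.pi := by
  have hpi : (Real.pi : ℂ) ≠ 0 := by exact_mod_cast Real.pi_ne_zero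
  have ht : |(E.uu (z i)).im| < Real.pi / 2 := by
    rw [E.uu, UU_im]
    exact h.abs_th i
  have h1 : gdv (E.uu (z i)) = z i / Real.pi := by
    have := gd_eq ht
    rw [E.uu, h.gd_uu i] at this
    rw [eq_div_iff hpi, mul_comm]
    exact this.symm
  refine ⟨h1, ?_⟩
  have ht' : |((starRingEnd ℂ) (E.uu (z i))).im| < Real.pi / 2 := by rwa [conj_im, abs_neg]
  rw [gdv_neg ht', gdv_conj ht, h1, map_div₀, conj_ofReal, neg_div]

/-- The vertex equation, `c < 0`. -/
theorem hv_neg (h : TZ a z) (i : Fin (m + 1)) :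
    2 * Real.pi * I * (2 * ((-((a i : ℝ) / 2) : ℝ) : ℂ) * gdv (E.uu (z i)) + 1)
      - 2 * ∑ j ∈ inc (Tr.par (m := m)) Fin.succ i, qe (z i) (z (oth j i)) = 0 := by
  have hpi : (Real.pi : ℂ) ≠ 0 := by exact_mod_cast Real.pi_ne_zero
  have h1 := h.vertex i
  rw [(h.gdv_uu i).1]
  generalize (∑ j ∈ inc (Tr.par (m := m)) Fin.succ i, qe (z i) (z (oth j i))) = S at *
  push_cast
  field_simp
  linear_combination (-2 * I) * h1 - (2 * S) * I_sq

/-- The vertex equation, `c > 0`. -/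
theorem hv_pos (h : TZ a z) (i : Fin (m + 1)) :
    2 * Real.pi * I * (2 * ((((a i : ℝ) / 2) : ℝ) : ℂ) * gdv (-((starRingEnd ℂ) (E.uu (z i)))) + 1)
      + 2 * (starRingEnd ℂ) (∑ j ∈ inc (Tr.par (m := m)) Fin.succ i, qe (z i) (z (oth j i))) = 0 := by
  have hpi : (Real.pi : ℂ) ≠ 0 := by exact_mod_cast Real.pi_ne_zero
  have h1 := congrArg (starRingEnd ℂ) (h.vertex i)
  rw [map_add, map_mul, map_mul, conj_ofReal, conj_I, map_natCast] at h1
  rw [(h.gdv_uu i).2]
  generalize (starRingEnd ℂ) (∑ j ∈ inc (Tr.par (m := m)) Fin.succ i,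
    qe (z i) (z (oth j i))) = S at *
  push_cast
  field_simp
  linear_combination (-2 * I) * h1 + (2 * S) * I_sq

end TZ

section

variable (a : Fin (m + 1) → ℕ) (σ : Fin (m + 1) → ℤ) (z : Fin (m + 1) → ℂ)

/-- The configuration at a solution of the system. -/
noncomputable def cfgOf : Cfg m where
  r := fun i => (σ i : ℝ) * a i / 2
  Op := Finset.univ
  s := σ
  θ := fun i => th (z i).re (z i).im
  xc := fun i => -(σ i : ℝ) * xx (z i).re (z i).im
  yc := fun j => if σ (Tr.par j) = -1 then yy (E.uu (z (Tr.par j))) ((starRingEnd ℂ) (E.uu (z j.succ)))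
    else yy (E.uu (z j.succ)) ((starRingEnd ℂ) (E.uu (z (Tr.par j))))
  β := fun j i => 2 * Real.pi * σ i * bw (z i) (z (oth j i))

/-- `-e_v / 2` at the edge `j` and its vertex `i`. -/
noncomputable def Qv (j : Fin m) (i : Fin (m + 1)) : ℂ :=
  if σ i = -1 then qe (z i) (z (oth j i)) else -((starRingEnd ℂ) (qe (z i) (z (oth j i))))

end

section

variable {a : Fin (m + 1) → ℕ} {σ : Fin (m + 1) → ℤ} {z : Fin (m + 1) → ℂ}

theorem mem_Op (i : Fin (m + 1)) : i ∈ (cfgOf a σ z).Op := Finset.mem_univ i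

/-- The critical equations at the edge `j`. -/
structure EdC (a : Fin (m + 1) → ℕ) (σ : Fin (m + 1) → ℤ) (z : Fin (m + 1) → ℂ) (j : Fin m) :
    Prop where
  dom : sdom ((cfgOf a σ z).yc j) ((cfgOf a σ z).slc (Tr.par j)) ∧
    sdom ((cfgOf a σ z).yc j) ((cfgOf a σ z).slc j.succ)
  hy : ey ((cfgOf a σ z).yc j) ((cfgOf a σ z).slc (Tr.par j)) +
    ey ((cfgOf a σ z).yc j) ((cfgOf a σ z).slc j.succ) = 0
  ev1 : ev ((cfgOf a σ z).yc j) ((cfgOf a σ z).vc (Tr.par j)) = -2 * Qv σ z j (Tr.par j)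
  ev2 : ev ((cfgOf a σ z).yc j) ((cfgOf a σ z).vc j.succ) = -2 * Qv σ z j j.succ
  hA : ((cfgOf a σ z).A j).re < 0
  hD : ∀ p q : ℝ, (p ≠ 0 ∨ q ≠ 0) → ((cfgOf a σ z).qf j p q).re < 0

theorem uc_neg {i : Fin (m + 1)} (h : σ i = -1) : (cfgOf a σ z).uc i = E.uu (z i) := by
  unfold Cfg.uc cfgOf E.uu UU ul
  simp [h]

theorem uc_pos {i : Fin (m + 1)} (h : σ i = 1) :
    (cfgOf a σ z).uc i = -((starRingEnd ℂ) (E.uu (z i))) := by
  unfold Cfg.uc cfgOf E.uu ul
  rw [UU_conj, UU_neg, UU, neg_neg]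
  simp [h]

theorem slc_op (i : Fin (m + 1)) : (cfgOf a σ z).slc i = .op ((cfgOf a σ z).vc i) := by
  unfold Cfg.slc
  rw [if_pos (mem_Op i)]

theorem EdC.of_open {j : Fin m}
    (H : ECrit ((cfgOf a σ z).uc (Tr.par j)) ((cfgOf a σ z).uc j.succ) ((cfgOf a σ z).yc j)
      (Qv σ z j (Tr.par j)) (Qv σ z j j.succ) ((cfgOf a σ z).β j (Tr.par j))
      ((cfgOf a σ z).β j j.succ)) : EdC a σ z j where
  dom := by rw [slc_op, slc_op]; exact H.dom
  hy := by rw [slc_op, slc_op]; exact H.hy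
  ev1 := H.ev1
  ev2 := H.ev2
  hA := by
    unfold Cfg.A
    rw [slc_op, slc_op]; exact H.hA
  hD := by
    intro p q hpq
    have := H.hD p q hpq
    unfold Cfg.qf Cfg.c Cfg.b Cfg.A
    rw [slc_op, slc_op]
    exact this

theorem β_eq (j : Fin m) (i : Fin (m + 1)) : (cfgOf a σ z).β j i =
    2 * Real.pi * σ i * bw (z i) (z (oth j i)) := rfl

theorem yc_eq (j : Fin m) : (cfgOf a σ z).yc j =
    if σ (Tr.par j) = -1 then yy (E.uu (z (Tr.par j))) ((starRingEnd ℂ) (E.uu (z j.succ)))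
    else yy (E.uu (z j.succ)) ((starRingEnd ℂ) (E.uu (z (Tr.par j)))) := rfl

theorem Qv_neg {j : Fin m} {i : Fin (m + 1)} (h : σ i = -1) : Qv σ z j i =
    qe (z i) (z (oth j i)) := by
  unfold Qv; rw [if_pos h]

theorem Qv_pos {j : Fin m} {i : Fin (m + 1)} (h : σ i = 1) : Qv σ z j i =
    -((starRingEnd ℂ) (qe (z i) (z (oth j i)))) := by
  unfold Qv; rw [if_neg (by rw [h]; decide)]

theorem β_cs (j : Fin m) : (cfgOf a σ z).β j (Tr.par j) =
    2 * Real.pi * σ (Tr.par j) * bw (z (Tr.par j)) (z j.succ) := by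
  rw [β_eq, oth_cs]

theorem β_su (j : Fin m) : (cfgOf a σ z).β j j.succ =
    2 * Real.pi * σ j.succ * bw (z j.succ) (z (Tr.par j)) := by
  rw [β_eq, oth_su]

/-- Every edge satisfies the critical equations. -/
theorem edC (h : TZ a z) (hσ : ∀ i, σ i = 1 ∨ σ i = -1)
    (hs : ∀ j : Fin m, σ j.succ = -σ (Tr.par j)) (j : Fin m) : EdC a σ z j := by
  rcases hσ (Tr.par j) with s1 | s1
  · have s2 : σ j.succ = -1 := by rw [hs, s1]
    have ey0 : (cfgOf a σ z).yc j =
        yy (E.uu (z j.succ)) ((starRingEnd ℂ) (E.uu (z (Tr.par j)))) := by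
      rw [yc_eq, if_neg (by rw [s1]; decide)]
    have q1 : Qv σ z j (Tr.par j) = -((starRingEnd ℂ) (qe (z (Tr.par j)) (z j.succ))) := by
      rw [Qv_pos s1, oth_cs]
    have q2 : Qv σ z j j.succ = qe (z j.succ) (z (Tr.par j)) := by
      rw [Qv_neg s2, oth_su]
    have b1 : (cfgOf a σ z).β j (Tr.par j) = 2 * Real.pi * bw (z (Tr.par j)) (z j.succ) := by
      rw [β_cs, s1]; norm_num
    have b2 : (cfgOf a σ z).β j j.succ = -(2 * Real.pi * bw (z j.succ) (z (Tr.par j))) := by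
      rw [β_su, s2]; push_cast; ring
    have H := (h.ecrit (adj_su j)).symm
    refine EdC.of_open ?_
    rw [uc_pos s1, uc_neg s2, ey0, q1, q2, b1, b2]
    exact H
  · have s2 : σ j.succ = 1 := by rw [hs, s1]; rfl
    have ey0 : (cfgOf a σ z).yc j =
        yy (E.uu (z (Tr.par j))) ((starRingEnd ℂ) (E.uu (z j.succ))) := by
      rw [yc_eq, if_pos s1]
    have q1 : Qv σ z j (Tr.par j) = qe (z (Tr.par j)) (z j.succ) := by
      rw [Qv_neg s1, oth_cs]
    have q2 : Qv σ z j j.succ = -((starRingEnd ℂ) (qe (z j.succ) (z (Tr.par j)))) := by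
      rw [Qv_pos s2, oth_su]
    have b1 : (cfgOf a σ z).β j (Tr.par j) = -(2 * Real.pi * bw (z (Tr.par j)) (z j.succ)) := by
      rw [β_cs, s1]; push_cast; ring
    have b2 : (cfgOf a σ z).β j j.succ = 2 * Real.pi * bw (z j.succ) (z (Tr.par j)) := by
      rw [β_su, s2]; norm_num
    have H := h.ecrit (adj_cs j)
    refine EdC.of_open ?_
    rw [uc_neg s1, uc_pos s2, ey0, q1, q2, b1, b2]
    exact H

theorem ev_eq (H : ∀ j, EdC a σ z j) {i : Fin (m + 1)} {j : Fin m}
    (h : j ∈ inc (Tr.par (m := m)) Fin.succ i) :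
    ev ((cfgOf a σ z).yc j) ((cfgOf a σ z).vc i) = -2 * Qv σ z j i := by
  rcases mem_inc h with e | e
  · subst e
    exact (H j).ev1
  · subst e
    exact (H j).ev2

/-- **The critical point of the tree.** -/
theorem crit (hm : 1 ≤ m) (h : TZ a z) (hσ : ∀ i, σ i = 1 ∨ σ i = -1)
    (hs : ∀ j : Fin m, σ j.succ = -σ (Tr.par j)) : (cfgOf a σ z).Crit := by
  have H := edC h hσ hs
  refine ⟨hm, fun i _ => h.thpos i, fun i _ => ?_, fun j => (H j).dom, fun j => (H j).hy, ?_, ?_,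
    fun j => (H j).hA, ?_⟩
  · exact (abs_lt.1 (h.abs_th i)).2
  · intro i hi
    rw [Finset.sum_congr rfl fun j hj => ev_eq H hj, ← Finset.mul_sum]
    rcases hσ i with s1 | s1
    · rw [Finset.sum_congr rfl fun j _ => Qv_pos s1, Finset.sum_neg_distrib, ← map_sum]
      have h3 := h.hv_pos i
      have h4 : (cfgOf a σ z).vc i = gdv (-((starRingEnd ℂ) (E.uu (z i)))) := by
        unfold Cfg.vc
        rw [uc_pos s1]
      have h5 : (cfgOf a σ z).r i = (a i : ℝ) / 2 := by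
        show (σ i : ℝ) * a i / 2 = _
        rw [s1]; push_cast; ring
      rw [h4, h5]
      linear_combination h3
    · rw [Finset.sum_congr rfl fun j _ => Qv_neg s1]
      have h3 := h.hv_neg i
      have h4 : (cfgOf a σ z).vc i = gdv (E.uu (z i)) := by
        unfold Cfg.vc
        rw [uc_neg s1]
      have h5 : (cfgOf a σ z).r i = -((a i : ℝ) / 2) := by
        show (σ i : ℝ) * a i / 2 = _
        rw [s1]; push_cast; ring
      rw [h4, h5]
      linear_combination h3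
  · intro i _
    have h3 : ∀ j ∈ inc (Tr.par (m := m)) Fin.succ i, (cfgOf a σ z).β j i =
        (2 * Real.pi * σ i) * bw (z i) (z (oth j i)) :=
      fun j _ => β_eq j i
    rw [Finset.sum_congr rfl h3, ← Finset.mul_sum, h.sum_bw i]
    show 2 * Real.pi * (σ i : ℝ) * (a i : ℝ) = 4 * Real.pi * ((σ i : ℝ) * a i / 2)
    ring
  · intro j p q _ _ hpq
    exact (H j).hD p q hpq

end

/-! ### Alternating signs -/

/-- The signs: `sg i` is `(-1)` to the distance of `i` from the root. -/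
theorem exists_sg : ∃ σ : Fin (m + 1) → ℤ, (∀ i, σ i = 1 ∨ σ i = -1) ∧ σ 0 = 1 ∧
    ∀ j : Fin m, σ j.succ = -σ (Tr.par j) := by
  have key : ∀ n : ℕ, n ≤ m → ∃ σ : Fin (m + 1) → ℤ, (∀ i, σ i = 1 ∨ σ i = -1) ∧ σ 0 = 1 ∧
      ∀ j : Fin m, (j : ℕ) < n → σ j.succ = -σ (Tr.par j) := by
    intro n
    induction n with
    | zero =>
      intro _
      exact ⟨fun _ => 1, fun _ => Or.inl rfl, rfl, fun j hj => absurd hj (by omega)⟩
    | succ n ih =>
      intro hn
      obtain ⟨σ, h1, h0, h2⟩ := ih (by omega)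
      let J : Fin m := ⟨n, by omega⟩
      refine ⟨Function.update σ J.succ (-σ (Tr.par J)), ?_, ?_, ?_⟩
      · intro i
        by_cases hi : i = J.succ
        · rw [hi, Function.update_self]
          rcases h1 (Tr.par J) with h | h
          · right; rw [h]
          · left; rw [h]; rfl
        · rw [Function.update_of_ne hi]; exact h1 i
      · rw [Function.update_of_ne (Fin.succ_ne_zero J).symm]; exact h0
      · intro j hj
        have hp : ∀ j : Fin m, (j : ℕ) ≤ n → Tr.par j ≠ J.succ := by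
          intro j hj e
          have h3 := Tr.lt j
          rw [e] at h3
          have h4 : (J.succ : Fin (m + 1)).val < j.succ.val := h3
          simp only [Fin.val_succ] at h4
          have : (J : ℕ) = n := rfl
          omega
        by_cases hjn : (j : ℕ) = n
        · have e : j = J := Fin.ext hjn
          rw [e, Function.update_self, Function.update_of_ne (hp J le_rfl)]
        · have hne : j.succ ≠ J.succ := fun e => hjn (congrArg Fin.val (Fin.succ_injective _ e))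
          rw [Function.update_of_ne hne, Function.update_of_ne (hp j (by omega))]
          exact h2 j (by omega)
  obtain ⟨σ, h1, h0, h2⟩ := key m le_rfl
  exact ⟨σ, h1, h0, fun j => h2 j j.2⟩

end Pool.Agent.AT
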