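import Pool.Agent.AT.Main
import Pool.Agent.AT.Bridge
import Pool.Agent.AT.G.Turn

/-!
# The critical point of a tree: the values of `sin π (y ± v)`, and ranges
-/

set_option autoImplicit false
set_option linter.unusedSectionVars false

namespace Pool.Agent.AT

open Pool.Agent.S3
open Complex Pool.Agent.S3.E
open Pool.Agent.AT.G (SV mq CritS)
open Pool.Agent.H63.VC3 (hh)
open Pool.Agent.H63.VC7 (inc)
open Pool.Agent.H25.RK (gdv)
open scoped BigOperators ComplexConjugate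

theorem gen_add {u w : ℂ} (h : Reg u w) :
    sin (Real.pi * (yy u w + gdv u)) * cos (Real.pi * gdv w) =
      exp (qq u w) * (cos (Real.pi * gdv u) * cos (Real.pi * yy u w)) := by
  rw [sin_yy_add h, cos_pi_gdv h.left, cos_pi_gdv h.right]
  have h1 := cosh_ne h.left
  have h2 := cosh_ne h.right
  field_simp

theorem gen_sub {u w : ℂ} (h : Reg u w) :
    sin (Real.pi * (yy u w - gdv u)) * cos (Real.pi * gdv w) =
      exp (-qq u w) * (cos (Real.pi * gdv u) * cos (Real.pi * yy u w)) := by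
  rw [sin_yy_sub h, cos_pi_gdv h.left, cos_pi_gdv h.right]
  have h1 := cosh_ne h.left
  have h2 := cosh_ne h.right
  field_simp

variable {m : ℕ} [Tr m] {a : Fin (m + 1) → ℕ} {σ : Fin (m + 1) → ℤ} {z : Fin (m + 1) → ℂ}

theorem vc_neg {i : Fin (m + 1)} (s : σ i = -1) : (cfgOf a σ z).vc i = gdv (E.uu (z i)) := by
  unfold Cfg.vc
  rw [uc_neg s]

theorem vc_pos (h : TZ a z) {i : Fin (m + 1)} (s : σ i = 1) :
    (cfgOf a σ z).vc i = -gdv (conj (E.uu (z i))) := by
  unfold Cfg.vc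
  rw [uc_pos s, gdv_neg]
  rw [conj_im, abs_neg, E.uu, UU_im]
  exact h.abs_th i

/-- `v = z / π` or `-conj z / π`. -/
theorem vc_neg' (h : TZ a z) {i : Fin (m + 1)} (s : σ i = -1) :
    (cfgOf a σ z).vc i = z i / Real.pi := by
  unfold Cfg.vc
  rw [uc_neg s, (h.gdv_uu i).1]

theorem vc_pos' (h : TZ a z) {i : Fin (m + 1)} (s : σ i = 1) :
    (cfgOf a σ z).vc i = -(conj (z i)) / Real.pi := by
  unfold Cfg.vc
  rw [uc_pos s, (h.gdv_uu i).2]

theorem reg_comm {u w : ℂ} (h : Reg u w) : Reg w u := by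
  unfold Reg at *
  rw [add_comm]
  exact h

/-- The other `q`. -/
theorem qq_other {n p : Fin (m + 1)} (h : TZ a z) (hnp : Adj n p) :
    qq (conj (E.uu (z p))) (E.uu (z n)) = conj (qe (z p) (z n)) := by
  have h1 := h.reg_edge hnp.symm
  have h2 := qq_conj h1
  rw [conj_conj] at h2
  rw [h2]
  unfold qe E.uu
  rw [UU_conj]

theorem qq_own (n p : Fin (m + 1)) : qq (E.uu (z n)) (conj (E.uu (z p))) = qe (z n) (z p) := by
  unfold qe E.uu
  rw [UU_conj]

theorem cos_pi_gdv_ne {u : ℂ} (h : |u.im| < Real.pi / 2) : cos (Real.pi * gdv u) ≠ 0 := by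
  rw [cos_pi_gdv h]
  exact one_div_ne_zero (cosh_ne h)

theorem sv_np {n p : Fin (m + 1)} (h : TZ a z) (hnp : Adj n p) :
    SV (yy (E.uu (z n)) (conj (E.uu (z p)))) (gdv (E.uu (z n))) (-gdv (conj (E.uu (z p))))
      (qe (z n) (z p)) (-conj (qe (z p) (z n))) := by
  have hr := h.reg_edge hnp
  have hr' := reg_comm hr
  have e1 := qq_own (z := z) n p
  have e2 := qq_other h hnp
  refine ⟨cos_yy_ne hr, cos_pi_gdv_ne hr.left, ?_, ?_, ?_, ?_, ?_⟩
  · rw [mul_neg, Complex.cos_neg]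
    exact cos_pi_gdv_ne hr.right
  · rw [mul_neg, Complex.cos_neg, ← e1]
    exact gen_add hr
  · rw [mul_neg, Complex.cos_neg, ← e1]
    exact gen_sub hr
  · have := gen_sub hr'
    rw [yy_comm, e2] at this
    rw [mul_neg, Complex.cos_neg, ← sub_eq_add_neg]
    exact this
  · have := gen_add hr'
    rw [yy_comm, e2] at this
    rw [mul_neg, Complex.cos_neg, sub_neg_eq_add, neg_neg]
    exact this

/-- The values of `sin π (y ± v)`. -/
theorem sv_edge (h : TZ a z) (hσ : ∀ i, σ i = 1 ∨ σ i = -1)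
    (hs : ∀ j : Fin m, σ j.succ = -σ (Tr.par j)) (j : Fin m) :
    SV ((cfgOf a σ z).yc j) ((cfgOf a σ z).vc (Tr.par j)) ((cfgOf a σ z).vc j.succ)
      (Qv σ z j (Tr.par j)) (Qv σ z j j.succ) := by
  rcases hσ (Tr.par j) with s1 | s1
  · have s2 : σ j.succ = -1 := by rw [hs, s1]
    rw [yc_eq, if_neg (by rw [s1]; decide), vc_pos h s1, vc_neg s2, Qv_pos s1, Qv_neg s2, oth_cs,
      oth_su]
    exact (sv_np h (adj_su j)).symm
  · have s2 : σ j.succ = 1 := by rw [hs, s1]; rfl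
    rw [yc_eq, if_pos s1, vc_neg s1, vc_pos h s2, Qv_neg s1, Qv_pos s2, oth_cs, oth_su]
    exact sv_np h (adj_cs j)

/-! ### Ranges -/

theorem abs_vc_re (h : TZ a z) (hσ : ∀ i, σ i = 1 ∨ σ i = -1) (i : Fin (m + 1)) :
    |((cfgOf a σ z).vc i).re| = (z i).re / Real.pi := by
  have hp : 0 < (z i).re / Real.pi := div_pos (h.pos i).1 Real.pi_pos
  rcases hσ i with s | s
  · rw [vc_pos' h s, neg_div, neg_re, div_ofReal_re, conj_re, abs_neg, abs_of_pos hp]
  · rw [vc_neg' h s, div_ofReal_re, abs_of_pos hp]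

theorem abs_Qv_im (hσ : ∀ i, σ i = 1 ∨ σ i = -1) (j : Fin m) (i : Fin (m + 1)) :
    |(Qv σ z j i).im| = |(qe (z i) (z (oth j i))).im| := by
  rcases hσ i with s | s
  · rw [Qv_pos s, neg_im, conj_im, neg_neg]
  · rw [Qv_neg s]

/-- `φ ≤ θ`. -/
theorem ph_le_th (h : TZ a z) (i : Fin (m + 1)) :
    ph (z i).re (z i).im ≤ th (z i).re (z i).im := by
  have h1 := (E.Lc_uu (h.pos i).1 (h.pos i).2.1 (h.pos i).2.2).2
  have h2 : |(E.uu (z i)).im| < Real.pi / 2 := by
    rw [E.uu, UU_im]; exact h.abs_th i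
  have h3 := Lc_im_abs h2
  rw [h1, E.uu, UU_im, abs_of_pos (h.thpos i)] at h3
  exact (le_abs_self _).trans h3

/-- `log (2 cos (π v)) = log 2 - log cosh u`. -/
theorem hh_gdv {u : ℂ} (hu : |u.im| < Real.pi / 2) :
    hh (gdv u + 1 / 2) = Real.log 2 - Lc u ∧ hh (-gdv u + 1 / 2) = Real.log 2 - Lc u := by
  have h1 := abs_le.1 (Lc_im_abs hu)
  have h2 := abs_lt.1 hu
  have hpi := Real.pi_pos
  have key : log (2 * cos (Real.pi * gdv u)) = Real.log 2 - Lc u := by
    have e : 2 * cos (Real.pi * gdv u) = exp (Real.log 2 - Lc u) := by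
      rw [cos_pi_gdv hu, exp_sub, exp_log_two, exp_Lc hu]
      ring
    rw [e, log_exp]
    · rw [sub_im, ofReal_im]; linarith
    · rw [sub_im, ofReal_im]; linarith
  constructor
  · rw [hh, mul_add, show (Real.pi : ℂ) * (1 / 2) = (Real.pi : ℂ) / 2 by ring,
      Complex.sin_add_pi_div_two, key]
  · rw [hh, mul_add, show (Real.pi : ℂ) * (1 / 2) = (Real.pi : ℂ) / 2 by ring,
      Complex.sin_add_pi_div_two, mul_neg, Complex.cos_neg, key]

theorem abs_im_uu (h : TZ a z) (i : Fin (m + 1)) : |(E.uu (z i)).im| < Real.pi / 2 := by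
  rw [E.uu, UU_im]; exact h.abs_th i

/-- `|Im log (2 cos (π v))| = φ`. -/
theorem abs_hh_vc_im (h : TZ a z) (hσ : ∀ i, σ i = 1 ∨ σ i = -1) (i : Fin (m + 1)) :
    |(hh ((cfgOf a σ z).vc i + 1 / 2)).im| = ph (z i).re (z i).im := by
  have hp := h.pos i
  have h1 := (E.Lc_uu hp.1 hp.2.1 hp.2.2).2
  have h2 := ph_pos hp.1 hp.2.1 hp.2.2
  rcases hσ i with s | s
  · rw [vc_pos h s, (hh_gdv (by rw [conj_im, abs_neg]; exact abs_im_uu h i)).2, sub_im, ofReal_im,
      Lc_conj (abs_im_uu h i), conj_im, h1, zero_sub, neg_neg, abs_of_pos h2]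
  · rw [vc_neg s, (hh_gdv (abs_im_uu h i)).1, sub_im, ofReal_im, h1, zero_sub, abs_neg,
      abs_of_pos h2]

/-- `R + φ < π / 2`. -/
theorem re_add_ph (h : TZ a z) (H : TV a z) (i : Fin (m + 1)) :
    (z i).re + ph (z i).re (z i).im < Real.pi / 2 := by
  have h1 := H.hR i
  have h2 := H.hT i
  have h3 := ph_le_th h i
  rw [div_lt_iff₀ Real.pi_pos] at h1
  have := Real.pi_gt_d2
  linarith

/-- The strand equation. -/
theorem str_np {n p : Fin (m + 1)} (h : TZ a z) (hnp : Adj n p)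
    (g : S3.Good (E.uu (z n)) (conj (E.uu (z p))))
    (g' : S3.Good (conj (E.uu (z p))) (E.uu (z n))) :
    let y := yy (E.uu (z n)) (conj (E.uu (z p)))
    let v := gdv (E.uu (z n))
    let w := -gdv (conj (E.uu (z p)))
    he (y - w) + he (y + w) = 2 * hh (y + 1 / 2) + 2 * hh (w + 1 / 2) - 2 * hh (v + 1 / 2) ∧
    he (y - v) + he (y + v) = 2 * hh (y + 1 / 2) + 2 * hh (v + 1 / 2) - 2 * hh (w + 1 / 2) := by
  have hr := h.reg_edge hnp
  intro y v w
  have e1 := (he_sub_eq hr g).2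
  have e2 := (he_add_eq hr g).2
  have e3 := (he_sub_eq hr.symm g').2
  have e4 := (he_add_eq hr.symm g').2
  rw [yy_comm] at e3 e4
  have e5 := hh_half hr
  have e6 := (hh_gdv hr.left).1
  have e7 := (hh_gdv hr.right).2
  have a1 : y - w = y + gdv (conj (E.uu (z p))) := sub_neg_eq_add _ _
  have a2 : y + w = y - gdv (conj (E.uu (z p))) := (sub_eq_add_neg _ _).symm
  have b1 : y - v = yy (E.uu (z n)) (conj (E.uu (z p))) - gdv (E.uu (z n)) := rfl
  have b2 : y + v = yy (E.uu (z n)) (conj (E.uu (z p))) + gdv (E.uu (z n)) := rfl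
  have c1 : hh (y + 1 / 2) = Real.log 2 + lcy (E.uu (z n)) (conj (E.uu (z p))) := e5
  have c2 : hh (v + 1 / 2) = Real.log 2 - Lc (E.uu (z n)) := e6
  have c3 : hh (w + 1 / 2) = Real.log 2 - Lc (conj (E.uu (z p))) := e7
  constructor
  · rw [a1, a2, e3, e4, c1, c2, c3, Lm, Lp, lcy_comm]
    ring
  · rw [b1, b2, e1, e2, c1, c2, c3, Lm, Lp]
    ring

/-- **The critical point of the tree in the form used for the geometry.** -/
theorem critS_of (hm : 1 ≤ m) (h : TZ a z) (H : TV a z) (hσ : ∀ i, σ i = 1 ∨ σ i = -1)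
    (hs : ∀ j : Fin m, σ j.succ = -σ (Tr.par j))
    (hg : ∀ i k, Adj i k → S3.Good (E.uu (z i)) (conj (E.uu (z k))) ∧
      S3.Good (conj (E.uu (z k))) (E.uu (z i)))
    (hq : ∀ i k, Adj i k → 0 < (qe (z i) (z k)).im ∧
      (qe (z i) (z k)).im + (z k).re < Real.pi / 2) :
    CritS (Tr.par (m := m)) Fin.succ (fun i => σ i * (a i : ℤ)) (cfgOf a σ z).yc
      (cfgOf a σ z).vc := by
  have hC := crit hm h hσ hs
  have hE := edC h hσ hs
  have hpi := Real.pi_pos
  have hmq : ∀ j i, i = Tr.par j ∨ i = j.succ →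
      mq ((cfgOf a σ z).yc j) ((cfgOf a σ z).vc i) = Qv σ z j i := by
    intro j i hi
    have : ev ((cfgOf a σ z).yc j) ((cfgOf a σ z).vc i) = -2 * Qv σ z j i := by
      rcases hi with rfl | rfl
      · exact (hE j).ev1
      · exact (hE j).ev2
    unfold ev at this
    unfold mq
    linear_combination (-1 / 2 : ℂ) * this
  have hvre : ∀ i, |((cfgOf a σ z).vc i).re| < 1 / 2 := by
    intro i
    rw [abs_vc_re h hσ, div_lt_iff₀ hpi]
    linarith [(h.pos i).2.1]
  refine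
    { st := fun j => Tr.ne j
      ne := ?_
      hy := ?_
      hv := hvre
      dom := ?_
      ey := ?_
      ev := ?_
      sv := ?_
      pos := ?_
      str := ?_
      ste := ?_ }
  · intro i
    obtain ⟨j, e | e⟩ := exists_edge hm i
    · exact ⟨j, by rw [e]; exact mem_inc_par j⟩
    · exact ⟨j, by rw [e]; exact mem_inc_succ j⟩
  · intro j
    have h1 := (hE j).dom.1
    rw [slc_op] at h1
    exact ⟨h1.1, h1.2.1⟩
  · intro j
    have h1 := (hE j).dom
    rw [slc_op, slc_op] at h1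
    exact ⟨h1.1.2.2, h1.2.2.2⟩
  · intro j
    have h1 := (hE j).hy
    rw [slc_op, slc_op] at h1
    unfold ey at h1
    linear_combination h1
  · intro i
    have h1 := hC.hv i (mem_Op i)
    have h2 : (((cfgOf a σ z).r i : ℝ) : ℂ) = ((σ i * (a i : ℤ) : ℤ) : ℂ) / 2 := by
      show (((σ i : ℝ) * a i / 2 : ℝ) : ℂ) = _
      push_cast
      ring
    rw [h2] at h1
    have h3 : ∑ j ∈ inc (Tr.par (m := m)) Fin.succ i, ev ((cfgOf a σ z).yc j)
        ((cfgOf a σ z).vc i) = ∑ j ∈ inc (Tr.par (m := m)) Fin.succ i,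
          (he ((cfgOf a σ z).yc j - (cfgOf a σ z).vc i) -
            he ((cfgOf a σ z).yc j + (cfgOf a σ z).vc i)) := rfl
    rw [h3] at h1
    linear_combination h1
  · intro j
    rw [hmq j _ (Or.inl rfl), hmq j _ (Or.inr rfl)]
    exact sv_edge h hσ hs j
  · intro j
    rw [hmq j _ (Or.inl rfl), hmq j _ (Or.inr rfl), abs_vc_re h hσ, abs_vc_re h hσ,
      abs_Qv_im hσ, abs_Qv_im hσ, oth_cs, oth_su, mul_div_cancel₀ _ hpi.ne',
      mul_div_cancel₀ _ hpi.ne']
    have q1 := hq _ _ (adj_cs j)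
    have q2 := hq _ _ (adj_su j)
    rw [abs_of_pos q1.1, abs_of_pos q2.1]
    exact ⟨by linarith [q1.2], by linarith [q2.2]⟩
  · intro j
    rw [abs_vc_re h hσ, abs_vc_re h hσ, mul_div_cancel₀ _ hpi.ne', mul_div_cancel₀ _ hpi.ne',
      sub_im]
    have p1 := re_add_ph h H (Tr.par j)
    have p2 := re_add_ph h H j.succ
    have q1 := abs_hh_vc_im h hσ (Tr.par j)
    have q2 := abs_hh_vc_im h hσ j.succ
    have := abs_sub (hh ((cfgOf a σ z).vc (Tr.par j) + 1 / 2)).im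
      (hh ((cfgOf a σ z).vc j.succ + 1 / 2)).im
    rw [q1, q2] at this
    linarith
  · intro j
    rcases hσ (Tr.par j) with s1 | s1
    · have s2 : σ j.succ = -1 := by rw [hs, s1]
      have g := hg _ _ (adj_su j)
      have := (str_np h (adj_su j) g.1 g.2).2
      rw [yc_eq, if_neg (by rw [s1]; decide), vc_pos h s1, vc_neg s2]
      exact this
    · have s2 : σ j.succ = 1 := by rw [hs, s1]; rfl
      have g := hg _ _ (adj_cs j)
      have := (str_np h (adj_cs j) g.1 g.2).1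
      rw [yc_eq, if_pos s1, vc_neg s1, vc_pos h s2]
      exact this

/-- The critical value. -/
theorem WT_Wv : G.WT (Tr.par (m := m)) Fin.succ (fun i => σ i * (a i : ℤ)) (cfgOf a σ z).yc
    (cfgOf a σ z).vc = Wv a σ z := Wv_eq.symm

end Pool.Agent.AT
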