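import Pool.Agent.AT.Tree
import Pool.Agent.AT.Hess
import Pool.Agent.S3.Cont

/-!
# The estimates of the edges of a tree
-/

namespace Pool.Agent.AT

set_option linter.unusedSectionVars false

open Pool.Agent.S3

open Complex Pool.Agent.H25.RK Filter Topology

variable {m : ℕ} [Tr m]

namespace Cfg

variable (C : Cfg m)

/-- The slot of the vertex `i` with the variable `v`. -/
noncomputable def sv (i : Fin (m + 1)) (v : ℂ) : Sl := if i ∈ C.Op then .op v else .cl (C.s i)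

/-- The share of the vertex `i` in the bound of the edge `j`. -/
noncomputable def lv (j : Fin m) (i : Fin (m + 1)) (v : ℂ) : ℝ :=
  if i ∈ C.Op then ell (C.vc i) (-(ev (C.yc j) (C.vc i)) / 2) (C.β j i) v else 0

/-- The growth of the edge `j` at the critical point. -/
noncomputable def Fc (j : Fin m) : ℝ := EE (C.slc (Tr.par j)) (C.slc j.succ) (C.yc j)

/-- The bound of the edge `j`. -/
noncomputable def Lt (j : Fin m) (v w : ℂ) : ℝ :=
  C.Fc j + C.lv j (Tr.par j) v + C.lv j j.succ w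

/-- The share of the vertex `i` in the bound of the edge `j` on the whole contour: beyond the
`u`-line the growth of the vertex function is distributed with the weights `lam`. -/
noncomputable def lw (v1 : Fin (m + 1) → ℝ) (lam : Fin m → Fin (m + 1) → ℝ) (j : Fin m)
    (i : Fin (m + 1)) (v : ℂ) : ℝ :=
  if i ∈ C.Op then
    C.lv j i (pl (C.θ i) (v1 i) v) +
      lam j i * ((wr (C.r i) (pl (C.θ i) (v1 i) v)).re - (wr (C.r i) v).re)
  else 0

/-- The bound of the edge `j`. -/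
noncomputable def Lw (v1 : Fin (m + 1) → ℝ) (lam : Fin m → Fin (m + 1) → ℝ) (j : Fin m)
    (v w : ℂ) : ℝ :=
  C.Fc j + C.lw v1 lam j (Tr.par j) v + C.lw v1 lam j j.succ w

/-- The estimates of the edges, with the abscissas `v1` of the vertical parts of the contours. -/
structure Edg (v1 : Fin (m + 1) → ℝ) (lam : Fin m → Fin (m + 1) → ℝ) : Prop where
  v0 : ∀ i ∈ C.Op, 0 < v1 i
  vh : ∀ i ∈ C.Op, v1 i < 1 / 2
  vx : ∀ i ∈ C.Op, |(C.vc i).re| < v1 i
  lam1 : ∀ i ∈ C.Op, ∑ j ∈ Pool.Agent.H63.VC7.inc (Tr.par (m := m)) Fin.succ i, lam j i = 1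
  far : ∀ (j : Fin m) (v w : ℂ), ((Tr.par j) ∈ C.Op → v ∈ G0 (C.θ (Tr.par j)) (v1 (Tr.par j))) →
    (j.succ ∈ C.Op → w ∈ G0 (C.θ j.succ) (v1 j.succ)) →
    (((Tr.par j) ∈ C.Op ∧ v ≠ C.vc (Tr.par j)) ∨ (j.succ ∈ C.Op ∧ w ≠ C.vc j.succ)) →
    EdgeOK (C.sv (Tr.par j) v) (C.sv j.succ w) (C.Lw v1 lam j v w)
  near : ∀ j : Fin m, EdgeC (C.slc (Tr.par j)) (C.slc j.succ) (C.yc j) (C.Fc j)

/-- The height of the horizontal parts of the contours is `ε`. -/
noncomputable def gm (v1 : Fin (m + 1) → ℝ) (ε : ℝ) (i : Fin (m + 1)) (x : ℝ) : ℂ :=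
  gam (C.θ i) (v1 i) ε x

/-- Its derivative. -/
noncomputable def gm' (v1 : Fin (m + 1) → ℝ) (ε : ℝ) (i : Fin (m + 1)) (x : ℝ) : ℂ :=
  gam' (C.θ i) (v1 i) ε x

/-- The growth rate of the kernel of the edge `j`. -/
noncomputable def ka (v1 : Fin (m + 1) → ℝ) (lam : Fin m → Fin (m + 1) → ℝ) (ε : ℝ) (j : Fin m)
    (x : C.Op → ℝ) : ℝ :=
  C.Fc j + (if h : (Tr.par j) ∈ C.Op then
      C.lw v1 lam j (Tr.par j) (C.gm v1 ε (Tr.par j) (x ⟨(Tr.par j), h⟩)) else 0) +
    (if h : j.succ ∈ C.Op then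
      C.lw v1 lam j j.succ (C.gm v1 ε j.succ (x ⟨j.succ, h⟩)) else 0)

/-- The integrand of the edge `j` near the critical point. -/
noncomputable def fe' (v1 : Fin (m + 1) → ℝ) (ε : ℝ) (M : ℕ) (j : Fin m) (x : C.Op → ℝ) (s : ℝ) :
    ℂ :=
  M * FM M (slx C.Op C.s (C.gm v1 ε) x (Tr.par j)) (slx C.Op C.s (C.gm v1 ε) x j.succ)
    (C.yc j + (if h : (Tr.par j) ∈ C.Op then
        C.L j (Tr.par j) * ((x ⟨(Tr.par j), h⟩ : ℂ) - C.xc (Tr.par j)) else 0) +
      (if h : j.succ ∈ C.Op then C.L j j.succ * ((x ⟨j.succ, h⟩ : ℂ) - C.xc j.succ) else 0) + s)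

end Cfg

theorem bl_continuous (θ : ℝ) : Continuous (bl θ) := by
  unfold bl
  refine Continuous.div_const ?_ _
  exact Real.continuous_arsinh.comp (by fun_prop)

theorem pl_continuous (θ v1 : ℝ) : Continuous (pl θ v1) := by
  unfold pl
  have h1 : Continuous fun v : ℂ => max (-v1) (min v1 v.re) :=
    continuous_const.max (continuous_const.min Complex.continuous_re)
  exact (Complex.continuous_ofReal.comp h1).add
    ((Complex.continuous_ofReal.comp ((bl_continuous θ).comp h1)).mul continuous_const)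

theorem pl_line {θ v1 x : ℝ} (h0 : 0 < θ) (h1 : θ < Real.pi / 2) (hv : 0 < v1)
    (hv' : v1 < 1 / 2) (hx : |x| ≤ xl θ v1) :
    pl θ v1 (gdv (ul θ x)) = gdv (ul θ x) := by
  have h2 := abs_le.1 ((gdv_ul_le h0 h1 hv hv').1 hx)
  have h3 : max (-v1) (min v1 (gdv (ul θ x)).re) = (gdv (ul θ x)).re := by
    rw [min_eq_right h2.2, max_eq_right h2.1]
  unfold pl
  rw [h3, ← gdv_ul_im h0 h1 x]
  exact Complex.re_add_im _

theorem ell_continuous (vc Q : ℂ) (β : ℝ) : Continuous (ell vc Q β) := by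
  unfold ell
  fun_prop

theorem wr_continuous (r : ℝ) : Continuous (wr r) := by
  unfold wr
  fun_prop

namespace Cfg

variable {C : Cfg m}

theorem lv_continuous (j : Fin m) (i : Fin (m + 1)) : Continuous (C.lv j i) := by
  unfold lv
  by_cases h : i ∈ C.Op
  · simp only [if_pos h]
    exact ell_continuous _ _ _
  · simp only [if_neg h]
    exact continuous_const

theorem lw_continuous (v1 : Fin (m + 1) → ℝ) (lam : Fin m → Fin (m + 1) → ℝ) (j : Fin m)
    (i : Fin (m + 1)) : Continuous (C.lw v1 lam j i) := by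
  unfold lw
  by_cases h : i ∈ C.Op
  · simp only [if_pos h]
    have h1 := pl_continuous (C.θ i) (v1 i)
    exact ((lv_continuous j i).comp h1).add (continuous_const.mul
      ((Complex.continuous_re.comp ((wr_continuous _).comp h1)).sub
        (Complex.continuous_re.comp (wr_continuous _))))
  · simp only [if_neg h]
    exact continuous_const

theorem Lw_continuous (v1 : Fin (m + 1) → ℝ) (lam : Fin m → Fin (m + 1) → ℝ) (j : Fin m) :
    Continuous (fun p : ℂ × ℂ => C.Lw v1 lam j p.1 p.2) := by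
  unfold Lw
  exact (continuous_const.add ((lw_continuous v1 lam j _).comp continuous_fst)).add
    ((lw_continuous v1 lam j _).comp continuous_snd)

/-- On the line the two shares agree. -/
theorem lw_line {v1 : Fin (m + 1) → ℝ} {lam : Fin m → Fin (m + 1) → ℝ} (j : Fin m)
    {i : Fin (m + 1)} {x : ℝ} (h : i ∈ C.Op → 0 < C.θ i ∧ C.θ i < Real.pi / 2 ∧ 0 < v1 i ∧
      v1 i < 1 / 2 ∧ |x| ≤ xl (C.θ i) (v1 i)) :
    C.lw v1 lam j i (gdv (ul (C.θ i) x)) = C.lv j i (gdv (ul (C.θ i) x)) := by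
  unfold lw
  by_cases hi : i ∈ C.Op
  · obtain ⟨h0, h1, h2, h3, h4⟩ := h hi
    rw [if_pos hi, pl_line h0 h1 h2 h3 h4, sub_self, mul_zero, add_zero]
  · rw [if_neg hi]
    unfold lv
    rw [if_neg hi]

end Cfg

end Pool.Agent.AT
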