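import Pool.Agent.AT.Edg
import Pool.Agent.H25.RK.DGf
import Pool.Agent.S3.Asm.Lap
import Pool.Agent.S3.Gr3b
import Pool.Agent.S3.Gr5

/-!
# The growth of the integrand of an edge near the critical point
-/

namespace Pool.Agent.AT

set_option linter.unusedSectionVars false

open Pool.Agent.S3

open Pool.Agent.H63.VC hiding ext
open Pool.Agent.H63.VC3 Pool.Agent.H63.VC4 Pool.Agent.H63.VC6 Pool.Agent.H63.VC7 Complex
open Pool.Agent.H25.RK Pool.Agent.H63.GO Filter Topology Pool.Agent.S3.Asm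
open scoped BigOperators

variable {m : ℕ} [Tr m] {C : Cfg m}

/-- The real part of the potential of a slot. -/
theorem EdgeNeg_re {y : ℂ} {σ : Sl} (h : sdom y σ) : (sP y σ).re = se y σ := by
  cases σ with
  | op v =>
    obtain ⟨h0, h1, h2, h3⟩ := h
    have hs := Pot_shift h0 h1
    simp only [sP, se]
    rw [Rf_eq_fe h2, Rf_eq_fe h3, Rf_eq_ff hs.1 hs.2, sub_re, sub_re]
    congr 2
    simp [mul_re]
  | cl s =>
    obtain ⟨h0, h1⟩ := h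
    have hs := Pot_shift h0 h1
    simp only [sP, se]
    rw [Rf_eq_ff hs.1 hs.2, sub_re]
    have e : (Real.pi * I * s * (y - y ^ 2 / 2 - 7 / 8) : ℂ) =
        ((Real.pi * s : ℝ) : ℂ) * (I * (y - y ^ 2 / 2 - 7 / 8)) := by
      push_cast
      ring
    have e2 : (y - y ^ 2 / 2 - 7 / 8 : ℂ).im = y.im * (1 - y.re) := by
      rw [show (y - y ^ 2 / 2 - 7 / 8 : ℂ) = y - ((1 / 2 : ℝ) : ℂ) * (y * y) - ((7 / 8 : ℝ) : ℂ) by
        push_cast
        ring, sub_im, sub_im, im_ofReal_mul, mul_im, ofReal_im]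
      ring
    rw [e, re_ofReal_mul, I_mul_re, e2]
    ring

/-- The share of a vertex in the potential of an edge. -/
noncomputable def EdgeNeg_sh (C : Cfg m) (j : Fin m) (i : Fin (m + 1))
    (z : C.Op ⊕ Fin m → ℂ) : ℂ :=
  if i ∈ C.Op then -(ev (C.yc j) (C.vc i)) * (gdv (C.uz z i) - C.vc i) +
    I * C.β j i / 2 * (gdv (C.uz z i) - C.vc i) ^ 2 else 0

/-- The weight of the coordinates outside the edge. -/
noncomputable def EdgeNeg_w (C : Cfg m) (j : Fin m) : C.Op ⊕ Fin m → ℝ :=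
  Sum.elim (fun i => if i.1 = (Tr.par j) ∨ i.1 = j.succ then 0 else 1)
    (fun k => if k = j then 0 else 1)

/-- The potential of an edge. -/
noncomputable def EdgeNeg_W (C : Cfg m) (j : Fin m) (z : C.Op ⊕ Fin m → ℂ) : ℂ :=
  sP (C.Yz z j) (C.slz z (Tr.par j)) + sP (C.Yz z j) (C.slz z j.succ) +
    (EdgeNeg_sh C j (Tr.par j) z + EdgeNeg_sh C j j.succ z) -
    ∑ k, (EdgeNeg_w C j k : ℂ) * (z k - cp C.ac C.bc k) ^ 2

theorem EdgeNeg_an (C : Cfg m) (j : Fin m) : AnalyticOnNhd ℂ (EdgeNeg_W C j) C.U := by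
  intro z hz
  have h1 := (Cfg.Hess_sP_an hz j _ (hz.2 j).1).fun_add (Cfg.Hess_sP_an hz j _ (hz.2 j).2)
  have h2 : ∀ i, AnalyticAt ℂ (fun z => EdgeNeg_sh C j i z) z := by
    intro i
    unfold EdgeNeg_sh
    by_cases hi : i ∈ C.Op
    · simp only [hi, if_true]
      have hg := (Cfg.Hess_gz_an hz hi).fun_sub (analyticAt_const (v := C.vc i))
      exact (analyticAt_const.fun_mul hg).fun_add (analyticAt_const.fun_mul (hg.fun_pow 2))
    · simp only [hi, if_false]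
      exact analyticAt_const
  have h3 : AnalyticAt ℂ (fun z : C.Op ⊕ Fin m → ℂ =>
      ∑ k, (EdgeNeg_w C j k : ℂ) * (z k - cp C.ac C.bc k) ^ 2) z := by
    refine Finset.univ.analyticAt_fun_sum fun k _ => ?_
    have h4 : AnalyticAt ℂ (fun z : C.Op ⊕ Fin m → ℂ => z k) z :=
      (ContinuousLinearMap.proj (R := ℂ) (φ := fun _ : C.Op ⊕ Fin m => ℂ) k).analyticAt z
    exact analyticAt_const.fun_mul ((h4.fun_sub analyticAt_const).fun_pow 2)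
  exact (h1.fun_add ((h2 _).fun_add (h2 _))).fun_sub h3

/-- First derivative of the share. -/
noncomputable def EdgeNeg_s1 (C : Cfg m) (j : Fin m) (i : Fin (m + 1)) (ξ : C.Op ⊕ Fin m → ℂ)
    (t : ℂ) : ℂ :=
  (-(ev (C.yc j) (C.vc i)) + I * C.β j i * (gdv (C.uc i + t * Cfg.Hess_X C ξ i) - C.vc i)) *
    (dgv (C.uc i + t * Cfg.Hess_X C ξ i) * Cfg.Hess_X C ξ i)

theorem EdgeNeg_sh1 {ξ : C.Op ⊕ Fin m → ℂ} {t : ℂ} (hz : cp C.ac C.bc + t • ξ ∈ C.U) (j : Fin m)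
    (i : Fin (m + 1)) :
    HasDerivAt (fun t : ℂ => EdgeNeg_sh C j i (cp C.ac C.bc + t • ξ)) (EdgeNeg_s1 C j i ξ t) t := by
  unfold EdgeNeg_sh EdgeNeg_s1
  by_cases hi : i ∈ C.Op
  · have him := Cfg.Hess_im hz hi
    simp only [Cfg.Hess_uz, hi, if_true] at him ⊢
    have lv := (Pot_gdv_line him).sub_const (C.vc i)
    have a := (lv.const_mul (-(ev (C.yc j) (C.vc i)))).add ((lv.pow 2).const_mul
      (I * C.β j i / 2))
    refine a.congr_deriv ?_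
    push_cast
    ring
  · simp only [hi, if_false, Cfg.Hess_X_closed hi, mul_zero]
    exact hasDerivAt_const t (0 : ℂ)

theorem EdgeNeg_sh2 (h : C.Crit) (ξ : C.Op ⊕ Fin m → ℂ) (j : Fin m) (i : Fin (m + 1)) :
    HasDerivAt (fun t : ℂ => EdgeNeg_s1 C j i ξ t)
      (I * C.β j i * (dgv (C.uc i) * Cfg.Hess_X C ξ i) ^ 2 + ev (C.yc j) (C.vc i) *
        (sinh (C.uc i) / cosh (C.uc i) * dgv (C.uc i) * Cfg.Hess_X C ξ i ^ 2)) 0 := by
  unfold EdgeNeg_s1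
  by_cases hi : i ∈ C.Op
  · have him : |(C.uc i).im| < Real.pi / 2 := by
      have := Cfg.Hess_im (Cfg.zc_mem h) hi
      rwa [Cfg.Hess_uz0] at this
    have z2 : C.uc i + 0 * Cfg.Hess_X C ξ i = C.uc i := by ring
    have hu' : |(C.uc i + 0 * Cfg.Hess_X C ξ i).im| < Real.pi / 2 := by rwa [z2]
    have lv := (((Pot_gdv_line hu').sub_const (C.vc i)).const_mul
      (I * C.β j i)).const_add (-(ev (C.yc j) (C.vc i)))
    have lw := Pot_dgv_line hu'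
    refine (lv.mul lw).congr_deriv ?_
    simp only [z2]
    have e : C.vc i = gdv (C.uc i) := rfl
    rw [← e]
    ring
  · simp only [Cfg.Hess_X_closed hi, mul_zero]
    simpa using hasDerivAt_const (0 : ℂ) (0 : ℂ)

/-- First derivative of the potential of an edge. -/
noncomputable def EdgeNeg_W1 (C : Cfg m) (j : Fin m) (ξ : C.Op ⊕ Fin m → ℂ) (t : ℂ) : ℂ :=
  Cfg.Hess_d1 C ξ j (Tr.par j) t + Cfg.Hess_d1 C ξ j j.succ t +
    (EdgeNeg_s1 C j (Tr.par j) ξ t + EdgeNeg_s1 C j j.succ ξ t) -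
    ∑ k, (EdgeNeg_w C j k : ℂ) * (2 * (t * ξ k) * ξ k)

theorem EdgeNeg_line {ξ : C.Op ⊕ Fin m → ℂ} {t : ℂ} (hz : cp C.ac C.bc + t • ξ ∈ C.U)
    (j : Fin m) :
    HasDerivAt (fun t : ℂ => EdgeNeg_W C j (cp C.ac C.bc + t • ξ)) (EdgeNeg_W1 C j ξ t) t := by
  unfold EdgeNeg_W EdgeNeg_W1
  refine HasDerivAt.fun_sub (HasDerivAt.fun_add (HasDerivAt.fun_add ?_ ?_)
    (HasDerivAt.fun_add ?_ ?_)) ?_
  · exact Cfg.Hess_slot1 hz j _ (hz.2 j).1
  · exact Cfg.Hess_slot1 hz j _ (hz.2 j).2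
  · exact EdgeNeg_sh1 hz j _
  · exact EdgeNeg_sh1 hz j _
  · refine HasDerivAt.fun_sum fun k _ => ?_
    have e : ∀ t : ℂ, (cp C.ac C.bc + t • ξ) k - cp C.ac C.bc k = t * ξ k := by
      intro t
      simp
    simp only [e]
    have a := ((((hasDerivAt_id t).mul_const (ξ k)).pow 2).const_mul (EdgeNeg_w C j k : ℂ))
    refine a.congr_deriv ?_
    simp

theorem EdgeNeg_line2 (h : C.Crit) (ξ : C.Op ⊕ Fin m → ℂ) (j : Fin m) :
    HasDerivAt (EdgeNeg_W1 C j ξ) (Cfg.Hess_d2 C ξ j (Tr.par j) + Cfg.Hess_d2 C ξ j j.succ +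
      ((I * C.β j (Tr.par j) * (dgv (C.uc (Tr.par j)) * Cfg.Hess_X C ξ (Tr.par j)) ^ 2 +
        ev (C.yc j) (C.vc (Tr.par j)) * (sinh (C.uc (Tr.par j)) / cosh (C.uc (Tr.par j)) *
          dgv (C.uc (Tr.par j)) * Cfg.Hess_X C ξ (Tr.par j) ^ 2)) +
      (I * C.β j j.succ * (dgv (C.uc j.succ) * Cfg.Hess_X C ξ j.succ) ^ 2 +
        ev (C.yc j) (C.vc j.succ) * (sinh (C.uc j.succ) / cosh (C.uc j.succ) *
          dgv (C.uc j.succ) * Cfg.Hess_X C ξ j.succ ^ 2))) -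
      ∑ k, (EdgeNeg_w C j k : ℂ) * (2 * ξ k ^ 2)) 0 := by
  unfold EdgeNeg_W1
  refine HasDerivAt.fun_sub (HasDerivAt.fun_add (HasDerivAt.fun_add ?_ ?_)
    (HasDerivAt.fun_add ?_ ?_)) ?_
  · exact Cfg.Hess_slot2 h ξ j _ (h.dom j).1
  · exact Cfg.Hess_slot2 h ξ j _ (h.dom j).2
  · exact EdgeNeg_sh2 h ξ j _
  · exact EdgeNeg_sh2 h ξ j _
  · refine HasDerivAt.fun_sum fun k _ => ?_
    have a := (((((hasDerivAt_id (0 : ℂ)).mul_const (ξ k)).const_mul 2).mul_const (ξ k)).const_mul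
      (EdgeNeg_w C j k : ℂ))
    refine a.congr_deriv ?_
    ring

theorem EdgeNeg_grad (h : C.Crit) (j : Fin m) (ξ : C.Op ⊕ Fin m → ℂ) :
    fderiv ℂ (EdgeNeg_W C j) (cp C.ac C.bc) ξ = 0 := by
  have hz := Cfg.zc_mem h
  have hz' : cp C.ac C.bc + (0 : ℂ) • ξ ∈ C.U := by
    rw [Cfg.Hess_zero]
    exact hz
  rw [fd_line (EdgeNeg_an C j _ hz) ξ (EdgeNeg_line hz' j)]
  have hd : ∀ i, Cfg.Hess_d1 C ξ j i 0 = ey (C.yc j) (C.slc i) * Cfg.Hess_Y C ξ j +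
      ev (C.yc j) (C.vc i) * (dgv (C.uc i) * Cfg.Hess_X C ξ i) := by
    intro i
    unfold Cfg.Hess_d1 Cfg.slc Cfg.vc
    by_cases hi : i ∈ C.Op
    · simp only [hi, if_true, zero_mul, add_zero]
    · rw [Cfg.Hess_X_closed hi]
      simp only [hi, if_false, zero_mul, mul_zero, add_zero]
  have hw : ∀ i, EdgeNeg_s1 C j i ξ 0 =
      -(ev (C.yc j) (C.vc i)) * (dgv (C.uc i) * Cfg.Hess_X C ξ i) := by
    intro i
    unfold EdgeNeg_s1
    have e : C.vc i = gdv (C.uc i) := rfl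
    rw [zero_mul, add_zero, ← e, sub_self, mul_zero, add_zero]
  unfold EdgeNeg_W1
  rw [hd, hd, hw, hw, Finset.sum_eq_zero fun k _ => by ring]
  linear_combination Cfg.Hess_Y C ξ j * h.hy j

/-- The second derivative of the potential of an edge. -/
theorem EdgeNeg_D2 (h : C.Crit) (j : Fin m) (ξ : C.Op ⊕ Fin m → ℝ) :
    D2 (EdgeNeg_W C j) (cp C.ac C.bc) (rc ξ) = C.A j * ξ (Sum.inr j) ^ 2 +
      C.qf j (if hi : (Tr.par j) ∈ C.Op then ξ (Sum.inl ⟨_, hi⟩) else 0)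
        (if hi : j.succ ∈ C.Op then ξ (Sum.inl ⟨_, hi⟩) else 0) -
      ((∑ k, EdgeNeg_w C j k * (2 * ξ k ^ 2) : ℝ) : ℂ) := by
  have hz := Cfg.zc_mem h
  have hcont : Continuous fun t : ℂ => cp C.ac C.bc + t • rc ξ := by fun_prop
  have hev : ∀ᶠ t in 𝓝 (0 : ℂ), cp C.ac C.bc + t • rc ξ ∈ C.U := by
    refine hcont.continuousAt.eventually (Cfg.U_open.mem_nhds ?_)
    change cp C.ac C.bc + (0 : ℂ) • rc ξ ∈ C.U
    rw [Cfg.Hess_zero]
    exact hz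
  rw [D2_line (EdgeNeg_an C j _ hz) (rc ξ) (hev.mono fun t ht => EdgeNeg_line ht j)
    (EdgeNeg_line2 h (rc ξ) j)]
  have hA : C.A j ≠ 0 := by
    intro h0
    have := h.hA j
    rw [h0, zero_re] at this
    exact lt_irrefl _ this
  have hXc := Cfg.Hess_X_rc C ξ (Tr.par j)
  have hXs := Cfg.Hess_X_rc C ξ j.succ
  unfold Cfg.qf
  rw [← hXc, ← hXs]
  have hY : Cfg.Hess_Y C (rc ξ) j = -(C.b j (Tr.par j) * Cfg.Hess_X C (rc ξ) (Tr.par j) +
      C.b j j.succ * Cfg.Hess_X C (rc ξ) j.succ) / C.A j + (ξ (Sum.inr j) : ℂ) := by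
    unfold Cfg.Hess_Y Cfg.L
    have : (rc ξ) (Sum.inr j) = (ξ (Sum.inr j) : ℂ) := rfl
    rw [this]
    ring
  obtain ⟨B, hB⟩ : ∃ B, B = C.b j (Tr.par j) * Cfg.Hess_X C (rc ξ) (Tr.par j) +
      C.b j j.succ * Cfg.Hess_X C (rc ξ) j.succ := ⟨_, rfl⟩
  have e1 : Cfg.Hess_d2 C (rc ξ) j (Tr.par j) + Cfg.Hess_d2 C (rc ξ) j j.succ +
      ((I * C.β j (Tr.par j) * (dgv (C.uc (Tr.par j)) * Cfg.Hess_X C (rc ξ) (Tr.par j)) ^ 2 +
        ev (C.yc j) (C.vc (Tr.par j)) * (sinh (C.uc (Tr.par j)) / cosh (C.uc (Tr.par j)) *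
          dgv (C.uc (Tr.par j)) * Cfg.Hess_X C (rc ξ) (Tr.par j) ^ 2)) +
      (I * C.β j j.succ * (dgv (C.uc j.succ) * Cfg.Hess_X C (rc ξ) j.succ) ^ 2 +
        ev (C.yc j) (C.vc j.succ) * (sinh (C.uc j.succ) / cosh (C.uc j.succ) *
          dgv (C.uc j.succ) * Cfg.Hess_X C (rc ξ) j.succ ^ 2))) =
      C.A j * Cfg.Hess_Y C (rc ξ) j ^ 2 + 2 * B * Cfg.Hess_Y C (rc ξ) j +
        (C.c j (Tr.par j) * Cfg.Hess_X C (rc ξ) (Tr.par j) ^ 2 +
          C.c j j.succ * Cfg.Hess_X C (rc ξ) j.succ ^ 2) := by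
    rw [hB]
    unfold Cfg.Hess_d2 Cfg.A Cfg.b Cfg.c
    ring
  rw [← hB] at hY ⊢
  rw [e1]
  have e2 : C.A j * Cfg.Hess_Y C (rc ξ) j ^ 2 + 2 * B * Cfg.Hess_Y C (rc ξ) j =
      C.A j * (ξ (Sum.inr j) : ℂ) ^ 2 - B ^ 2 / C.A j := by
    rw [hY]
    field_simp
    ring
  have e3 : ∑ k, (EdgeNeg_w C j k : ℂ) * (2 * (rc ξ) k ^ 2) =
      ((∑ k, EdgeNeg_w C j k * (2 * ξ k ^ 2) : ℝ) : ℂ) := by
    rw [ofReal_sum]
    refine Finset.sum_congr rfl fun k _ => ?_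
    unfold rc
    push_cast
    ring
  rw [e2, e3]
  ring

theorem EdgeNeg_w_nonneg (j : Fin m) (k : C.Op ⊕ Fin m) : 0 ≤ EdgeNeg_w C j k := by
  unfold EdgeNeg_w
  rcases k with i | k
  · simp only [Sum.elim_inl]
    split_ifs <;> norm_num
  · simp only [Sum.elim_inr]
    split_ifs <;> norm_num

theorem EdgeNeg_neg (h : C.Crit) (j : Fin m) (ξ : C.Op ⊕ Fin m → ℝ) (hξ : ξ ≠ 0) :
    (D2 (EdgeNeg_W C j) (cp C.ac C.bc) (rc ξ)).re < 0 := by
  rw [EdgeNeg_D2 h j ξ]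
  obtain ⟨a, ha⟩ : ∃ a : ℝ, a =
      if hi : (Tr.par j) ∈ C.Op then ξ (Sum.inl ⟨_, hi⟩) else 0 := ⟨_, rfl⟩
  obtain ⟨b, hb⟩ : ∃ b : ℝ, b =
      if hi : j.succ ∈ C.Op then ξ (Sum.inl ⟨_, hi⟩) else 0 := ⟨_, rfl⟩
  rw [← ha, ← hb, sub_re, ofReal_re, add_re, ← ofReal_pow, re_mul_ofReal]
  have ha0 : (Tr.par j) ∉ C.Op → a = 0 := fun hj => by rw [ha, dif_neg hj]
  have hb0 : j.succ ∉ C.Op → b = 0 := fun hj => by rw [hb, dif_neg hj]
  have hA : (C.A j).re * ξ (Sum.inr j) ^ 2 ≤ 0 :=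
    mul_nonpos_of_nonpos_of_nonneg (h.hA j).le (sq_nonneg _)
  have hq : (C.qf j a b).re ≤ 0 := by
    by_cases h0 : a ≠ 0 ∨ b ≠ 0
    · exact (h.hD j a b ha0 hb0 h0).le
    · push Not at h0
      rw [h0.1, h0.2]
      unfold Cfg.qf
      simp
  have hs : 0 ≤ ∑ k, EdgeNeg_w C j k * (2 * ξ k ^ 2) :=
    Finset.sum_nonneg fun k _ => mul_nonneg (EdgeNeg_w_nonneg j k) (by positivity)
  obtain ⟨x, hx⟩ := Function.ne_iff.1 hξ
  have hx' : ξ x ≠ 0 := hx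
  have hsx : ∀ k, EdgeNeg_w C j k = 1 → ξ k ≠ 0 →
      0 < ∑ k, EdgeNeg_w C j k * (2 * ξ k ^ 2) := by
    intro k hk hk'
    refine Finset.sum_pos' (fun k _ => mul_nonneg (EdgeNeg_w_nonneg j k) (by positivity))
      ⟨k, Finset.mem_univ _, ?_⟩
    rw [hk, one_mul]
    positivity
  rcases x with i | k
  · by_cases hi : i.1 = (Tr.par j) ∨ i.1 = j.succ
    · have hab : a ≠ 0 ∨ b ≠ 0 := by
        rcases hi with hi | hi
        · left
          have hm : (Tr.par j) ∈ C.Op := hi ▸ i.2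
          rw [ha, dif_pos hm]
          have e : i = ⟨(Tr.par j), hm⟩ := Subtype.ext hi
          rwa [← e]
        · right
          have hm : j.succ ∈ C.Op := hi ▸ i.2
          rw [hb, dif_pos hm]
          have e : i = ⟨j.succ, hm⟩ := Subtype.ext hi
          rwa [← e]
      have := h.hD j a b ha0 hb0 hab
      linarith
    · have := hsx (Sum.inl i) (by simp only [EdgeNeg_w, Sum.elim_inl]; rw [if_neg hi]) hx'
      linarith
  · by_cases hk : k = j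
    · subst hk
      have := mul_neg_of_neg_of_pos (h.hA k) (pow_pos (abs_pos.2 hx') 2)
      rw [sq_abs] at this
      linarith
    · have := hsx (Sum.inr k) (by simp only [EdgeNeg_w, Sum.elim_inr]; rw [if_neg hk]) hx'
      linarith

/-- The coordinates of a point near the critical point. -/
noncomputable def EdgeNeg_pt (C : Cfg m) (j : Fin m) (a b s : ℝ) : C.Op ⊕ Fin m → ℝ :=
  Sum.elim (fun i => C.xc i + if i.1 = (Tr.par j) then a else if i.1 = j.succ then b else 0)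
    (fun k => if k = j then s else 0)

theorem EdgeNeg_bx (j : Fin m) {ρ a b s : ℝ} (hρ : 0 < ρ) (ha : |a| ≤ ρ) (hb : |b| ≤ ρ)
    (hs : |s| ≤ ρ) : EdgeNeg_pt C j a b s ∈ bx C.ac (fun _ => ρ) := by
  intro k
  rcases k with i | k
  · simp only [EdgeNeg_pt, Cfg.ac, Sum.elim_inl, add_sub_cancel_left]
    split_ifs
    · exact ha
    · exact hb
    · rw [abs_zero]
      exact hρ.le
  · simp only [EdgeNeg_pt, Cfg.ac, Sum.elim_inr, sub_zero]
    split_ifs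
    · exact hs
    · rw [abs_zero]
      exact hρ.le

theorem EdgeNeg_uz1 (j : Fin m) {a b s : ℝ} (ha : (Tr.par j) ∉ C.Op → a = 0) :
    C.uz (cp (EdgeNeg_pt C j a b s) C.bc) (Tr.par j) =
      ul (C.θ (Tr.par j)) (C.xc (Tr.par j) + a) := by
  unfold Cfg.uz
  split_ifs with h
  · simp [cp, EdgeNeg_pt, Cfg.bc, ul]
  · rw [ha h]
    simp [Cfg.uc]

theorem EdgeNeg_uz2 (j : Fin m) {a b s : ℝ} (hb : j.succ ∉ C.Op → b = 0) :
    C.uz (cp (EdgeNeg_pt C j a b s) C.bc) j.succ = ul (C.θ j.succ) (C.xc j.succ + b) := by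
  unfold Cfg.uz
  split_ifs with h
  · have hne : ¬ (j.succ = (Tr.par j)) := fun e => Cfg.Hess_st j e.symm
    simp [cp, EdgeNeg_pt, Cfg.bc, ul, hne]
  · rw [hb h]
    simp [Cfg.uc]

theorem EdgeNeg_ul (i : Fin (m + 1)) (a : ℝ) :
    ul (C.θ i) (C.xc i + a) - C.uc i = a := by
  simp only [ul, Cfg.uc]
  push_cast
  ring

/-- Near the critical point the growth of the integrand of an edge is at most the bound of the
edge. -/
theorem Cfg.edge_neg (hC : C.Crit) (j : Fin m) : ∃ ρ : ℝ, 0 < ρ ∧ ∀ a b s : ℝ, |a| ≤ ρ → |b| ≤ ρ →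
    |s| ≤ ρ → ((Tr.par j) ∉ C.Op → a = 0) → (j.succ ∉ C.Op → b = 0) →
    EE (C.sv (Tr.par j) (gdv (ul (C.θ (Tr.par j)) (C.xc (Tr.par j) + a))))
      (C.sv j.succ (gdv (ul (C.θ j.succ) (C.xc j.succ + b))))
      (C.yc j + C.L j (Tr.par j) * a + C.L j j.succ * b + s) ≤
    C.Lt j (gdv (ul (C.θ (Tr.par j)) (C.xc (Tr.par j) + a)))
      (gdv (ul (C.θ j.succ) (C.xc j.succ + b))) := by
  obtain ⟨ρ, hρ, c, hc, hdec⟩ := dec_loc Cfg.U_open (EdgeNeg_an C j) C.ac C.bc (Cfg.zc_mem hC)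
    (fun ξ => EdgeNeg_grad hC j (rc ξ)) (fun ξ hξ => EdgeNeg_neg hC j ξ hξ)
  refine ⟨ρ, hρ, fun a b s ha hb hs ha0 hb0 => ?_⟩
  obtain ⟨hU, hle⟩ := hdec _ (EdgeNeg_bx j hρ ha hb hs)
  have h0 : 0 ≤ c * ∑ k, (EdgeNeg_pt C j a b s k - C.ac k) ^ 2 :=
    mul_nonneg hc.le (Finset.sum_nonneg fun _ _ => sq_nonneg _)
  have u1 := EdgeNeg_uz1 (C := C) j (a := a) (b := b) (s := s) ha0
  have u2 := EdgeNeg_uz2 (C := C) j (a := a) (b := b) (s := s) hb0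
  have hY : C.Yz (cp (EdgeNeg_pt C j a b s) C.bc) j =
      C.yc j + C.L j (Tr.par j) * a + C.L j j.succ * b + s := by
    unfold Cfg.Yz
    rw [u1, u2, EdgeNeg_ul, EdgeNeg_ul]
    simp [cp, EdgeNeg_pt, Cfg.bc]
  have s1 : C.slz (cp (EdgeNeg_pt C j a b s) C.bc) (Tr.par j) =
      C.sv (Tr.par j) (gdv (ul (C.θ (Tr.par j)) (C.xc (Tr.par j) + a))) := by
    unfold Cfg.slz Cfg.sv
    rw [u1]
  have s2 : C.slz (cp (EdgeNeg_pt C j a b s) C.bc) j.succ =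
      C.sv j.succ (gdv (ul (C.θ j.succ) (C.xc j.succ + b))) := by
    unfold Cfg.slz Cfg.sv
    rw [u2]
  have hsh : ∀ (i : Fin (m + 1)) (z : C.Op ⊕ Fin m → ℂ),
      (EdgeNeg_sh C j i z).re = -C.lv j i (gdv (C.uz z i)) := by
    intro i z
    unfold EdgeNeg_sh Cfg.lv ell
    split_ifs
    · rw [neg_neg]
      congr 1
      ring
    · simp
  have hsh0 : ∀ i : Fin (m + 1), EdgeNeg_sh C j i (cp C.ac C.bc) = 0 := by
    intro i
    unfold EdgeNeg_sh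
    rw [Cfg.Hess_uz0]
    have e : C.vc i = gdv (C.uc i) := rfl
    rw [← e, sub_self]
    split_ifs <;> simp
  have hq : ∑ k, (EdgeNeg_w C j k : ℂ) *
      (cp (EdgeNeg_pt C j a b s) C.bc k - cp C.ac C.bc k) ^ 2 = 0 := by
    refine Finset.sum_eq_zero fun k _ => ?_
    rcases k with i | k
    · by_cases h1 : i.1 = (Tr.par j)
      · simp [EdgeNeg_w, h1]
      · by_cases h2 : i.1 = j.succ
        · simp [EdgeNeg_w, h2]
        · simp [EdgeNeg_w, cp, EdgeNeg_pt, Cfg.ac, h1, h2]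
    · by_cases h1 : k = j
      · simp [EdgeNeg_w, h1]
      · simp [EdgeNeg_w, cp, EdgeNeg_pt, Cfg.ac, h1]
  have hL : (EdgeNeg_W C j (cp (EdgeNeg_pt C j a b s) C.bc)).re =
      EE (C.sv (Tr.par j) (gdv (ul (C.θ (Tr.par j)) (C.xc (Tr.par j) + a))))
        (C.sv j.succ (gdv (ul (C.θ j.succ) (C.xc j.succ + b))))
        (C.yc j + C.L j (Tr.par j) * a + C.L j j.succ * b + s) -
      C.lv j (Tr.par j) (gdv (ul (C.θ (Tr.par j)) (C.xc (Tr.par j) + a))) -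
      C.lv j j.succ (gdv (ul (C.θ j.succ) (C.xc j.succ + b))) := by
    unfold EdgeNeg_W
    rw [hq, sub_zero, add_re, add_re, add_re, EdgeNeg_re (hU.2 j).1, EdgeNeg_re (hU.2 j).2,
      hsh, hsh, u1, u2, hY, s1, s2]
    unfold EE
    ring
  have hR : (EdgeNeg_W C j (cp C.ac C.bc)).re = C.Fc j := by
    unfold EdgeNeg_W
    rw [hsh0, hsh0, Finset.sum_eq_zero fun k _ => by rw [sub_self]; ring]
    rw [add_zero, add_zero, sub_zero, add_re, Cfg.Hess_Yz0, Cfg.Hess_slz0, Cfg.Hess_slz0,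
      EdgeNeg_re (hC.dom j).1, EdgeNeg_re (hC.dom j).2]
    rfl
  rw [hL, hR] at hle
  unfold Cfg.Lt
  linarith

end Pool.Agent.AT
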