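import Pool.Agent.AT.Tree
import Pool.Agent.H63.VC.Cross
import Pool.Agent.H63.VC10.Fin10
import Pool.Agent.H63.VC6.Final6

/-!
# From the asymptotics of the state sum to the final statement
-/

namespace Pool.Agent.AT

set_option linter.unusedSectionVars false

open Pool.Agent.S3

open Pool.Agent.H63.VC7 Pool.Agent.H63.VC10 Complex Filter Topology

variable {m : ℕ} [Tr m]

/-- `J0` and a small rest. -/
theorem FinL_JG (r : Fin (m + 1) → ℝ) (W : ℂ) (n : ℕ) {κ : ℂ}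
    (hJ0 : Tendsto (fun M : ℕ => ((-1 : ℂ) ^ (M + 1)) ^ n * J0 r M /
      ((((M : ℝ) ^ (3 / 2 * ((m : ℝ) + 1) + m / 2) : ℝ) : ℂ) * exp (M * W))) atTop (𝓝 κ))
    (hlow : ∃ δ : ℝ, 0 < δ ∧ ∃ (K : ℝ) (p : ℕ), ∀ᶠ M : ℕ in atTop,
      ‖JG (Tr.par (m := m)) Fin.succ r M - J0 r M‖ ≤
        K * (M : ℝ) ^ p * Real.exp (M * (W.re - δ))) :
    Tendsto (fun M : ℕ => ((-1 : ℂ) ^ (M + 1)) ^ n * JG (Tr.par (m := m)) Fin.succ r M /
      ((((M : ℝ) ^ (3 / 2 * ((m : ℝ) + 1) + m / 2) : ℝ) : ℂ) * exp (M * W))) atTop (𝓝 κ) := by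
  obtain ⟨δ, hδ, K, p, hev⟩ := hlow
  set E : ℝ := 3 / 2 * ((m : ℝ) + 1) + m / 2 with hE
  have hE0 : 0 ≤ E := by positivity
  have hz : Tendsto (fun M : ℕ => ((-1 : ℂ) ^ (M + 1)) ^ n *
      (JG (Tr.par (m := m)) Fin.succ r M - J0 r M) /
      ((((M : ℝ) ^ E : ℝ) : ℂ) * exp (M * W))) atTop (𝓝 0) := by
    have hb : ∀ᶠ M : ℕ in atTop, ‖((-1 : ℂ) ^ (M + 1)) ^ n *
        (JG (Tr.par (m := m)) Fin.succ r M - J0 r M) /
        ((((M : ℝ) ^ E : ℝ) : ℂ) * exp (M * W))‖ ≤ |K| * ((M : ℝ) ^ p * Real.exp (-(δ * M))) := by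
      filter_upwards [hev, eventually_gt_atTop 0] with M h1 hM
      have hM1 : (1 : ℝ) ≤ M := by exact_mod_cast hM
      have hMp : (0 : ℝ) < M := by linarith
      rw [norm_div, norm_mul, norm_pow, norm_pow, norm_neg, norm_one, one_pow, one_pow, one_mul,
        norm_mul, Complex.norm_real, Real.norm_of_nonneg (Real.rpow_pos_of_pos hMp _).le,
        Complex.norm_exp]
      have h2 : ((M : ℂ) * W).re = M * W.re := by
        rw [← Complex.ofReal_natCast, Complex.re_ofReal_mul]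
      rw [h2]
      have h3 : (1 : ℝ) ≤ (M : ℝ) ^ E := Real.one_le_rpow hM1 hE0
      have h4 : 0 < Real.exp (M * W.re) := Real.exp_pos _
      calc ‖JG (Tr.par (m := m)) Fin.succ r M - J0 r M‖ / ((M : ℝ) ^ E * Real.exp (M * W.re))
          ≤ ‖JG (Tr.par (m := m)) Fin.succ r M - J0 r M‖ / (1 * Real.exp (M * W.re)) := by
            gcongr
        _ ≤ (|K| * (M : ℝ) ^ p * Real.exp (M * (W.re - δ))) / (1 * Real.exp (M * W.re)) := by
            gcongr
            refine h1.trans ?_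
            gcongr
            exact le_abs_self K
        _ = |K| * ((M : ℝ) ^ p * Real.exp (-(δ * M))) := by
            have h5 : Real.exp (M * (W.re - δ)) = Real.exp (M * W.re) * Real.exp (-(δ * M)) := by
              rw [← Real.exp_add]; congr 1; ring
            rw [h5]
            field_simp
    refine squeeze_zero_norm' hb ?_
    have h6 : Tendsto (fun x : ℝ => x ^ p * Real.exp (-(δ * x))) atTop (𝓝 0) := by
      have := tendsto_rpow_mul_exp_neg_mul_atTop_nhds_zero (p : ℝ) δ hδ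
      refine this.congr' ?_
      filter_upwards [eventually_gt_atTop 0] with x hx
      rw [Real.rpow_natCast, neg_mul]
    have h7 := (h6.comp tendsto_natCast_atTop_atTop (α := ℕ)).const_mul |K|
    rw [mul_zero] at h7
    exact h7
  have h := hJ0.add hz
  rw [add_zero] at h
  refine h.congr fun M => ?_
  rw [← add_div]
  congr 1
  ring

/-- The final statement. -/
theorem fin_of_lim (c : Fin (m + 1) → ℤ) (W : ℂ) (n : ℕ) {κ0 : ℂ} (hκ0 : κ0 ≠ 0)
    (hlim : Tendsto (fun M : ℕ => ((-1 : ℂ) ^ (M + 1)) ^ n *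
      JG (Tr.par (m := m)) Fin.succ (fun i => (c i : ℝ) / 2) M /
      ((((M : ℝ) ^ (3 / 2 * ((m : ℝ) + 1) + m / 2) : ℝ) : ℂ) * exp (M * W))) atTop (𝓝 κ0))
    (e : ℤ) :
    ∃ C : ℝ, (∃ k : ℤ, I * (((2 * Real.pi * W.re : ℝ) : ℂ) + C * I) = 2 * Real.pi * I * W +
        (Real.pi : ℂ) ^ 2 / 2 * (∑ i, (c i : ℂ)) + k * (Real.pi : ℂ) ^ 2) ∧
      ∃ J : ℕ → ℂ,
        (∀ N : ℕ, Tendsto (fun q => coloredJones (diagram (Tr.par (m := m)) c) e N q)
          (𝓝[≠] exp (Real.pi * I / ((N + 1 : ℕ) : ℂ))) (𝓝 (J N))) ∧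
        (∃ L : ℕ → ℂ, (∀ᶠ N : ℕ in atTop, exp (L N) = J N) ∧
          Tendsto (fun N : ℕ => 2 * (Real.pi : ℂ) * L N / (N + 1)) atTop
            (𝓝 (((2 * Real.pi * W.re : ℝ) : ℂ) + C * I))) ∧
        Tendsto (fun N : ℕ => 2 * (Real.pi : ℂ) * log (J N) / (N + 1)) atTop
          (𝓝 (((2 * Real.pi * W.re : ℝ) : ℂ))) ∧
        ∃ κ : ℂ, κ ≠ 0 ∧ Tendsto (fun N : ℕ => J N /
          ((((N : ℝ) + 1) ^ (3 / 2 : ℝ) : ℝ) *
            exp ((N + 1) * (((2 * Real.pi * W.re : ℝ) : ℂ) + C * I) / (2 * Real.pi)))) atTop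
          (𝓝 κ) := by
  have hpi : (Real.pi : ℂ) ≠ 0 := by exact_mod_cast Real.pi_ne_zero
  have h4 : (4 * Real.pi : ℂ) ≠ 0 := mul_ne_zero (by norm_num) hpi
  obtain ⟨A, hA⟩ : ∃ A : ℝ, A = ∑ i, (c i : ℝ) := ⟨_, rfl⟩
  have hAC : ∑ i, (c i : ℂ) = (A : ℂ) := by rw [hA]; push_cast; rfl
  have hWe : W = (W.re : ℂ) + (W.im : ℂ) * I := (Complex.re_add_im _).symm
  set s : ℤ := e + m + 1 with hs
  set C : ℝ := 2 * Real.pi * W.im - Real.pi ^ 2 / 2 * A + 2 * Real.pi ^ 2 * (n + s) with hC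
  set J : ℕ → ℂ := fun N => (-1) ^ (N * (m + 1)) *
    exp (Real.pi * I / ((N + 1 : ℕ) : ℂ)) ^ ((N : ℤ) * (N + 2) * e) *
    ((∏ i, cG (c i) (N + 1) / (4 * Real.pi)) / ((N + 1 : ℕ) : ℂ) ^ (2 * m) *
      JG (Tr.par (m := m)) Fin.succ (fun i => (c i : ℝ) / 2) (N + 1)) with hJ
  have hst : ∀ j : Fin m, (Tr.par (m := m)) j ≠ Fin.succ j := fun j =>
    (Tr.ne j)
  -- the exponent
  have hexp : ∀ M : ℂ, M ≠ 0 → exp (M * (((2 * Real.pi * W.re : ℝ) : ℂ) + C * I) / (2 * Real.pi)) =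
      exp (M * W) * exp (-(M * (Real.pi * I / 4 * A))) * exp (M * (Real.pi * I * n)) *
        exp (M * (Real.pi * I * s)) := by
    intro M _
    rw [← exp_add, ← exp_add, ← exp_add]
    congr 1
    conv_rhs => rw [hWe]
    rw [hC]
    push_cast
    field_simp
    ring
  -- the asymptotics
  have hasy : Tendsto (fun N : ℕ => J N / ((((N : ℝ) + (1 : ℕ)) ^ (3 / 2 : ℝ) : ℝ) *
      exp ((N + (1 : ℕ)) * (((2 * Real.pi * W.re : ℝ) : ℂ) + C * I) / (2 * Real.pi)))) atTop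
      (𝓝 ((-1) ^ (m + 1) * exp (A * (Real.pi * I / 2)) / (4 * Real.pi) ^ (m + 1) * (-1) ^ n *
        κ0)) := by
    have t1 : Tendsto (fun N : ℕ => exp (-(Real.pi * I * e / ((N : ℂ) + 1)))) atTop (𝓝 1) := by
      have t2 : Tendsto (fun N : ℕ => 1 / ((N : ℂ) + 1)) atTop (𝓝 0) :=
        tendsto_one_div_add_atTop_nhds_zero_nat
      have t3 : Tendsto (fun N : ℕ => -(Real.pi * I * e * (1 / ((N : ℂ) + 1)))) atTop (𝓝 0) := by
        have := (t2.const_mul (Real.pi * I * e)).neg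
        simpa using this
      have t4 := (continuous_exp.tendsto (0 : ℂ)).comp t3
      rw [exp_zero] at t4
      refine t4.congr fun N => ?_
      simp only [Function.comp]
      congr 2
      ring
    have t5 : Tendsto (fun N : ℕ => exp (-((A : ℂ) * (Real.pi * I / (4 * ((N : ℂ) + 1)))))) atTop
        (𝓝 1) := by
      have t2 : Tendsto (fun N : ℕ => 1 / ((N : ℂ) + 1)) atTop (𝓝 0) :=
        tendsto_one_div_add_atTop_nhds_zero_nat
      have t3 : Tendsto (fun N : ℕ => -((A : ℂ) * Real.pi * I / 4 * (1 / ((N : ℂ) + 1)))) atTop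
          (𝓝 0) := by
        have := (t2.const_mul ((A : ℂ) * Real.pi * I / 4)).neg
        simpa using this
      have t4 := (continuous_exp.tendsto (0 : ℂ)).comp t3
      rw [exp_zero] at t4
      refine t4.congr fun N => ?_
      simp only [Function.comp]
      congr 2
      have : ((N : ℂ) + 1) ≠ 0 := by exact_mod_cast Nat.succ_ne_zero N
      field_simp
    have t6 := ((t1.mul t5).mul (hlim.comp (tendsto_add_atTop_nat 1))).const_mul
      ((-1) ^ (m + 1) * exp (A * (Real.pi * I / 2)) / (4 * Real.pi) ^ (m + 1) * (-1) ^ n)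
    rw [mul_one, one_mul] at t6
    refine t6.congr fun N => ?_
    simp only [Function.comp]
    have hN : ((N : ℂ) + 1) ≠ 0 := by exact_mod_cast Nat.succ_ne_zero N
    have hNr : (0 : ℝ) < (N : ℝ) + 1 := by positivity
    -- the factors
    have e1 : (-1 : ℂ) ^ (N * (m + 1)) *
        exp (Real.pi * I / ((N + 1 : ℕ) : ℂ)) ^ ((N : ℤ) * (N + 2) * e) =
        (-1) ^ (m + 1) * exp (-(Real.pi * I * e / (N + 1))) * exp ((N + 1) * (Real.pi * I * s)) := by
      have e1 : ((-1 : ℂ)) = exp (Real.pi * I) := by rw [exp_pi_mul_I]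
      have e2 : ((-1 : ℂ)) ^ (m + 1) = exp (-((m + 1 : ℕ) * (Real.pi * I))) := by
        rw [exp_neg, exp_nat_mul, exp_pi_mul_I, ← inv_pow]; norm_num
      rw [e2, e1, ← exp_nat_mul, ← exp_int_mul, ← exp_add, ← exp_add, ← exp_add]
      congr 1
      rw [hs]
      push_cast
      field_simp
      ring
    have e3 : ∏ i, cG (c i) (N + 1) / (4 * Real.pi) =
        exp (A * (Real.pi * I / 2)) * exp (-(((N : ℂ) + 1) * (Real.pi * I / 4 * A))) *
        exp (-((A : ℂ) * (Real.pi * I / (4 * ((N : ℂ) + 1))))) / (4 * Real.pi) ^ (m + 1) := by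
      rw [JGlim_cG c (N + 1), hAC, ← exp_add, ← exp_add]
      congr 2
      push_cast
      field_simp
      ring
    have e4 : ((-1 : ℂ) ^ (N + 1 + 1)) ^ n = (-1) ^ n * exp ((N + 1) * (Real.pi * I * n)) := by
      rw [show ((N : ℂ) + 1) * (Real.pi * I * n) = ((((N + 1) * n : ℕ)) : ℂ) * (Real.pi * I) by
        push_cast; ring, exp_nat_mul, exp_pi_mul_I, ← pow_mul, ← pow_add]
      congr 1
      ring
    have e5 := hexp ((N : ℂ) + 1) hN
    have e6 : (((((N + 1 : ℕ) : ℝ)) ^ (3 / 2 * ((m : ℝ) + 1) + m / 2) : ℝ) : ℂ) =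
        (((((N : ℝ) + 1) ^ (3 / 2 : ℝ) : ℝ)) : ℂ) * ((N : ℂ) + 1) ^ (2 * m) := by
      have : ((N + 1 : ℕ) : ℝ) ^ (3 / 2 * ((m : ℝ) + 1) + m / 2) =
          ((N : ℝ) + 1) ^ (3 / 2 : ℝ) * ((N : ℝ) + 1) ^ (2 * m) := by
        rw [← Real.rpow_natCast ((N : ℝ) + 1) (2 * m), ← Real.rpow_add hNr]
        push_cast
        congr 1
        ring
      rw [this]
      push_cast
      rfl
    have e7 : exp (((N : ℂ) + 1) * (Real.pi * I * n)) * exp (((N : ℂ) + 1) * (Real.pi * I * n)) = 1 := by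
      rw [← exp_add, show ((N : ℂ) + 1) * (Real.pi * I * n) + ((N : ℂ) + 1) * (Real.pi * I * n) =
        ((((N + 1) * n : ℕ)) : ℂ) * (2 * Real.pi * I) by push_cast; ring, exp_nat_mul,
        exp_two_pi_mul_I, one_pow]
    have e8 : ((-1 : ℂ) ^ n) * (-1) ^ n = 1 := by rw [← mul_pow]; norm_num
    have e9 := exp_ne_zero (((N : ℂ) + 1) * W)
    have e10 := exp_ne_zero (-(((N : ℂ) + 1) * (Real.pi * I / 4 * A)))
    have e11 := exp_ne_zero (((N : ℂ) + 1) * (Real.pi * I * n))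
    have e12 := exp_ne_zero (((N : ℂ) + 1) * (Real.pi * I * s))
    have e13 : (((((N : ℝ) + 1) ^ (3 / 2 : ℝ) : ℝ)) : ℂ) ≠ 0 := by
      exact_mod_cast (Real.rpow_pos_of_pos hNr _).ne'
    have e14 : ((N : ℂ) + 1) ^ (2 * m) ≠ 0 := pow_ne_zero _ hN
    rw [hJ]
    simp only
    rw [e1, e3, e4, e6]
    simp only [Nat.cast_add, Nat.cast_one]
    rw [e5]
    clear e1 e3 e4 e5 e6
    revert e7 e8 e9 e10 e11 e12 e13 e14
    generalize exp (((N : ℂ) + 1) * W) = x1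
    generalize exp (-(((N : ℂ) + 1) * (Real.pi * I / 4 * A))) = x2
    generalize exp (((N : ℂ) + 1) * (Real.pi * I * n)) = x3
    generalize exp (((N : ℂ) + 1) * (Real.pi * I * s)) = x4
    generalize (((((N : ℝ) + 1) ^ (3 / 2 : ℝ) : ℝ)) : ℂ) = x5
    generalize ((N : ℂ) + 1) ^ (2 * m) = x6
    generalize exp (A * (Real.pi * I / 2)) = x7
    generalize exp (-(Real.pi * I * e / (N + 1))) = x8
    generalize exp (-((A : ℂ) * (Real.pi * I / (4 * ((N : ℂ) + 1))))) = x9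
    generalize JG (Tr.par (m := m)) Fin.succ (fun i => (c i : ℝ) / 2) (N + 1) = x10
    have h5 : (4 * Real.pi : ℂ) ^ (m + 1) ≠ 0 := pow_ne_zero _ h4
    revert h5
    generalize (4 * Real.pi : ℂ) ^ (m + 1) = x11
    generalize (-1 : ℂ) ^ (m + 1) = x12
    generalize (-1 : ℂ) ^ n = x13
    intro h5 e7 e8 e9 e10 e11 e12 e13 e14
    have k1 : x12 * x7 / x11 * x13 * (x8 * x9 * (x13 * x3 * x10 / (x5 * x6 * x1))) =
        x12 * x8 * x4 * (x7 * x2 * x9 / x11 / x6 * x10) / (x5 * (x1 * x2 * x3 * x4)) := by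
      field_simp
      linear_combination (x3 ^ 2 * x12 * x7 * x8 * x9 * x10) * e8 + (x12 * x7 * x8 * x9 * x10) * e7
    exact k1
  have hκ' : (-1) ^ (m + 1) * exp (A * (Real.pi * I / 2)) / (4 * Real.pi) ^ (m + 1) * (-1) ^ n *
      κ0 ≠ 0 := by
    refine mul_ne_zero (mul_ne_zero (div_ne_zero (mul_ne_zero (pow_ne_zero _ (by norm_num))
      (exp_ne_zero _)) (pow_ne_zero _ h4)) (pow_ne_zero _ (by norm_num))) hκ0
  refine ⟨C, ⟨-(2 * (n + s)), ?_⟩, J, ?_, ?_, ?_, _, hκ', ?_⟩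
  · rw [hAC, hC]
    conv_rhs => rw [hWe]
    push_cast
    linear_combination (2 * Real.pi * W.im - Real.pi ^ 2 / 2 * A + 2 * Real.pi ^ 2 * (n + s) -
      2 * Real.pi * W.im) * Complex.I_sq
  · intro N
    have hne : exp (Real.pi * I / ((N + 1 : ℕ) : ℂ)) ≠ 0 := exp_ne_zero _
    have u1 : Tendsto (fun q : ℂ => (-1) ^ (N * (m + 1)) * q ^ ((N : ℤ) * (N + 2) * e) *
        jones (Tr.par (m := m)) Fin.succ c N q) (𝓝[≠] exp (Real.pi * I / ((N + 1 : ℕ) : ℂ)))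
        (𝓝 (J N)) := by
      refine Tendsto.mul (Tendsto.const_mul _ ?_) (root_lim _ _ hst c N)
      exact (continuousAt_zpow₀ _ _ (Or.inl hne)).tendsto.mono_left nhdsWithin_le_nhds
    refine u1.congr' ?_
    filter_upwards [Fin10_gen_ev _ N] with q hq
    rw [coloredJones_diagram q N hq (Tr.par (m := m)) Tr.le c e]
  · have := Pool.Agent.H63.VC6.log_lift J 1 le_rfl (3 / 2) _ _ hκ' hasy
    exact this
  · have hn := hasy.norm
    have hnorm : Tendsto (fun N : ℕ => ‖J N‖ / (((N + 1 : ℕ) : ℝ) ^ (3 / 2 : ℝ) *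
        Real.exp ((N + 1 : ℕ) * W.re))) atTop (𝓝 ‖(-1) ^ (m + 1) * exp (A * (Real.pi * I / 2)) /
          (4 * Real.pi) ^ (m + 1) * (-1) ^ n * κ0‖) := by
      refine hn.congr fun N => ?_
      rw [norm_div]
      congr 1
      rw [norm_mul, Complex.norm_exp, Complex.norm_real, Real.norm_eq_abs,
        abs_of_nonneg (by positivity)]
      congr 1
      · push_cast; rfl
      · congr 1
        have e7 : ((N : ℂ) + (1 : ℕ)) * (((2 * Real.pi * W.re : ℝ) : ℂ) + (C : ℂ) * I) /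
            (2 * Real.pi) = (((N : ℝ) + 1) * W.re : ℝ) +
              (((N : ℝ) + 1) * (C / (2 * Real.pi)) : ℝ) * I := by
          push_cast
          field_simp
        rw [e7, Complex.add_re, Complex.ofReal_re, Complex.re_ofReal_mul, Complex.I_re]
        push_cast
        ring
    have h := Pool.Agent.H63.VC3.final_log J 1 le_rfl (3 / 2) W.re _ (norm_pos_iff.2 hκ') hnorm
    exact h
  · refine hasy.congr fun N => ?_
    rw [Nat.cast_one, Nat.cast_one]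

end Pool.Agent.AT
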