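import Pool.Agent.AT.Low6
import Pool.Agent.AT.FinL
import Pool.Agent.S3.Es7
import Pool.Agent.S3.PhiEx

/-!
# The asymptotics of Kashaev's invariant of alternating trees
-/

set_option autoImplicit false
set_option linter.unusedSectionVars false

namespace Pool.Agent.AT

open Pool.Agent.S3
open Complex Pool.Agent.H25.RK Pool.Agent.S3.E Pool.Agent.H63.VC Pool.Agent.H63.GO
open Pool.Agent.H63.VC3 Pool.Agent.H63.VC7 Pool.Agent.H63.VC10 Filter Topology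
open scoped ComplexConjugate

variable {m : ℕ} [Tr m]

/-- The one-vertex inequalities. -/
structure TV (a : Fin (m + 1) → ℕ) (z : Fin (m + 1) → ℂ) : Prop where
  a3 : ∀ i, 3 ≤ a i
  hR : ∀ i, (z i).re / Real.pi < 13 / 40
  hT : ∀ i, th (z i).re (z i).im ≤ 27 / 50
  hG : ∀ i, a i = 3 → 7 / 25 ≤ th (z i).re (z i).im

variable {a : Fin (m + 1) → ℕ} {σ : Fin (m + 1) → ℤ} {z : Fin (m + 1) → ℂ}

theorem mu_le_pi (h : TZ a z) {i k : Fin (m + 1)} (hik : Adj i k) (h3 : 3 ≤ a i) :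
    mu (bw (z i) (z k)) (a i) (13 / 40) ≤ Real.pi :=
  (mu_le h3 (h.bw_pos hik) (bw_le h hik)).trans (by linarith [Real.pi_pos])

/-- The inequality `EndAll` holds at every edge. -/
theorem TV.tb (H : TV a z) {Φ : ℂ → ℂ → ℂ} (hΦ : IsPhi Φ) (h0 : Φ 0 0 = c00) (h : TZ a z) :
    TB a z Φ where
  a3 := H.a3
  hR := H.hR
  hT := H.hT
  hG := H.hG
  hE n p hnp :=
    endAll' hΦ h0 (h.oppHyp hnp) (h.split hnp) (h.xxpos n) (h.xxpos p)
      (Ht_of (h.thpos n) (H.hT n)) (Ht_of (h.thpos p) (H.hT p)) V1_t V1_t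
      le_rfl le_rfl (mu_le_pi h hnp (H.a3 n)) (mu_le_pi h hnp.symm (H.a3 p))

/-- The critical value. -/
noncomputable def Wv (a : Fin (m + 1) → ℕ) (σ : Fin (m + 1) → ℤ) (z : Fin (m + 1) → ℂ) : ℂ :=
  (cfgOf a σ z).V (cp (cfgOf a σ z).ac (cfgOf a σ z).bc)

/-- The critical value as a sum. -/
theorem Wv_eq : Wv a σ z =
    ∑ j : Fin m, (4 * ff ((cfgOf a σ z).yc j + 1 / 2) -
      fe ((cfgOf a σ z).yc j - (cfgOf a σ z).vc (Tr.par j)) -
      fe ((cfgOf a σ z).yc j + (cfgOf a σ z).vc (Tr.par j)) -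
      fe ((cfgOf a σ z).yc j - (cfgOf a σ z).vc j.succ) -
      fe ((cfgOf a σ z).yc j + (cfgOf a σ z).vc j.succ)) +
    ∑ i, 2 * Real.pi * I * (((σ i * a i : ℤ) : ℂ) / 2 * (cfgOf a σ z).vc i ^ 2 +
      (cfgOf a σ z).vc i) := by
  unfold Wv Cfg.V
  rw [add_comm]
  congr 1
  · refine Finset.sum_congr rfl fun j _ => ?_
    rw [Cfg.Hess_Yz0, Cfg.Hess_slz0, Cfg.Hess_slz0, slc_op, slc_op]
    unfold sP
    ring
  · have h1 : ∀ i : (cfgOf a σ z).Op, wr ((cfgOf a σ z).r i)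
        (gdv ((cp (cfgOf a σ z).ac (cfgOf a σ z).bc) (Sum.inl i))) =
          wr ((cfgOf a σ z).r i) ((cfgOf a σ z).vc i) := by
      intro i
      rfl
    rw [Finset.sum_congr rfl fun i _ => h1 i]
    rw [Finset.sum_coe_sort (cfgOf a σ z).Op
      (fun i => wr ((cfgOf a σ z).r i) ((cfgOf a σ z).vc i))]
    refine Finset.sum_congr rfl fun i _ => ?_
    unfold wr
    have : (((cfgOf a σ z).r i : ℝ) : ℂ) = ((σ i * a i : ℤ) : ℂ) / 2 := by
      show (((σ i : ℝ) * a i / 2 : ℝ) : ℂ) = _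
      push_cast
      ring
    rw [this]

/-- **The asymptotics of Kashaev's invariant of an alternating tree**, from a solution of the vertex
equations satisfying the one-vertex inequalities. -/
theorem jones_tree (hm : 1 ≤ m) (h : TZ a z) (H : TV a z) (hσ : ∀ i, σ i = 1 ∨ σ i = -1)
    (hs : ∀ j : Fin m, σ j.succ = -σ (Tr.par j)) (e : ℤ) :
    ∃ C : ℝ, (∃ k : ℤ, I * (((2 * Real.pi * (Wv a σ z).re : ℝ) : ℂ) + C * I) =
        2 * Real.pi * I * Wv a σ z + (Real.pi : ℂ) ^ 2 / 2 * (∑ i, ((σ i * a i : ℤ) : ℂ)) +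
          k * (Real.pi : ℂ) ^ 2) ∧
      ∃ J : ℕ → ℂ,
        (∀ N : ℕ, Tendsto (fun q => coloredJones
          (diagram (Tr.par (m := m)) (fun i => σ i * (a i : ℤ))) e N q)
          (𝓝[≠] exp (Real.pi * I / ((N + 1 : ℕ) : ℂ))) (𝓝 (J N))) ∧
        (∃ L : ℕ → ℂ, (∀ᶠ N : ℕ in atTop, exp (L N) = J N) ∧
          Tendsto (fun N : ℕ => 2 * (Real.pi : ℂ) * L N / (N + 1)) atTop
            (𝓝 (((2 * Real.pi * (Wv a σ z).re : ℝ) : ℂ) + C * I))) ∧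
        Tendsto (fun N : ℕ => 2 * (Real.pi : ℂ) * log (J N) / (N + 1)) atTop
          (𝓝 (((2 * Real.pi * (Wv a σ z).re : ℝ) : ℂ))) ∧
        ∃ κ : ℂ, κ ≠ 0 ∧ Tendsto (fun N : ℕ => J N /
          ((((N : ℝ) + 1) ^ (3 / 2 : ℝ) : ℝ) *
            exp ((N + 1) * (((2 * Real.pi * (Wv a σ z).re : ℝ) : ℂ) + C * I) /
              (2 * Real.pi)))) atTop (𝓝 κ) := by
  obtain ⟨Φ, hΦ, h0⟩ := exists_Phi c00
  have HB := H.tb hΦ h0 h
  have hC := crit hm h hσ hs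
  have hop : ∀ i, i ∉ (cfgOf a σ z).Op → False := fun i hi => hi (mem_Op i)
  obtain ⟨κ0, hκ0, hJ0⟩ := Cfg.J0_lim ksB ksL hC (fun i hi => (hop i hi).elim)
    (fun i hi => (hop i hi).elim) (fun i hi => (hop i hi).elim) (edg_t1 hΦ h0 h hσ hs HB)
  have hJG := FinL_JG (cfgOf a σ z).r _ (cfgOf a σ z).Op.card hJ0
    (low_tree hm h hσ hs hΦ h0 HB)
  have hrc : (cfgOf a σ z).r = fun i => ((σ i * (a i : ℤ) : ℤ) : ℝ) / 2 := by
    funext i
    show (σ i : ℝ) * a i / 2 = ((σ i * (a i : ℤ) : ℤ) : ℝ) / 2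
    push_cast
    ring
  rw [hrc] at hJG
  exact fin_of_lim (fun i => σ i * (a i : ℤ)) _ (cfgOf a σ z).Op.card hκ0 hJG e

end Pool.Agent.AT
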