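import Pool.Agent.AT.Bridge
import Pool.Agent.AT.Main
import Pool.Agent.AT.E.V8

/-!
# The critical point of an alternating tree and its properties
-/

set_option autoImplicit false

namespace Pool.Agent.AT

open Pool.Agent.S3 Complex Pool.Agent.S3.E Pool.Agent.H63.VC7
open scoped BigOperators

variable {m : ℕ} [Tr m]

/-- Existence of the critical point, with all the one-vertex inequalities and the two inequalities
for every pair of neighbours. -/
theorem exists_tz (hm : 1 ≤ m) (a : Fin (m + 1) → ℕ) (h3 : ∀ i, 3 ≤ a i)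
    (hd : ∀ i, (inc (Tr.par (m := m)) Fin.succ i).card ≤ a i) :
    ∃ z : Fin (m + 1) → ℂ, TZ a z ∧ TV a z ∧
      (∀ i k, Adj i k → S3.Good (E.uu (z i)) ((starRingEnd ℂ) (E.uu (z k))) ∧
        S3.Good ((starRingEnd ℂ) (E.uu (z k))) (E.uu (z i))) ∧
      ∀ i k, Adj i k →
        0 < (qe (z i) (z k)).im ∧ (qe (z i) (z k)).im + (z k).re < Real.pi / 2 := by
  have hN : E.Nbr (fun i => (a i : ℝ)) (NN (m := m)) :=
    { a3 := fun i => by exact_mod_cast h3 i
      ne := NN_nonempty hm
      card := fun i => by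
        rw [card_NN]
        exact_mod_cast hd i
      symm := fun i j h => NN_symm h }
  obtain ⟨z, hz⟩ := E.exists_cz hN
  refine ⟨z, ?_, ?_, fun i k hik => hz.good_edge (mem_NN.2 hik), ?_⟩
  · refine
      { pos := hz.pos
        vertex := fun i => ?_
        qe_re := fun i k hik => (hz.qe_pos (mem_NN.2 hik)).1
        opp := fun i k hik => hz.oppHyp (mem_NN.2 hik)
        crit := fun i k hik => hz.ecrit (mem_NN.2 hik) }
    have h1 := hz.vertex i
    rw [sum_NN] at h1
    rw [← h1]
    push_cast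
    rfl
  · refine
      { a3 := h3
        hR := hz.zr.R_lt'
        hT := hz.zr.th_le
        hG := fun i hi => hz.zr.th_ge ?_ }
    show ((a i : ℕ) : ℝ) = 3
    rw [hi]
    norm_num
  · intro i k hik
    exact ⟨(hz.qe_pos (mem_NN.2 hik)).2.1, hz.zr.qe_add_lt (mem_NN.2 hik)⟩

end Pool.Agent.AT
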