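import Pool.Agent.H63.VC7.Hyp

/-!
# Hyperbolic structures, volumes and complex volumes of alternating arborescent links

A tree with `p` nodes and `m` edges, the edge `j` joining the nodes `s j` and `t j`, and integer
weights `a i` of the nodes describe arborescent links: the node `i` is a band with `a i` half twists
(a twist region with `a i` crossings), the bands of adjacent nodes are plumbed together, and the link
is the boundary of the resulting surface. The cyclic order of the plumbings along a band is
arbitrary; changing it is a mutation, which does not change the equations below.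

Let `C_i` be a circle around the twist region `i`. The complement of the link and all `C_i` (with
`a i` replaced by a number of the same parity) is the union of one block for each edge `j` of the
tree. A block consists of two ideal octahedra `P`, `P'` with opposite vertices `c`, `c'` and vertices
`a_0, a_1, a_2, a_3` around the axis `c c'`, glued along the faces `c a_0 a_1`, `c a_2 a_3`,
`c' a_1 a_2`, `c' a_3 a_0` by the identity. The other faces form four thrice punctured spheres:
`S⁺ = (c a_3 a_0)` and `S⁻ = (c a_1 a_2)` at the node `s j`, and `S⁺ = (c' a_0 a_1)` and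
`S⁻ = (c' a_2 a_3)` at the node `t j`. At each node `i` the blocks of its edges are arranged
cyclically around the cusp `C_i`, and `S⁺` of each block is glued to `S⁻` of the next one, with
`a_0 ↦ a_1`, `a_3 ↦ a_2` for `c` and `a_0 ↦ a_3`, `a_1 ↦ a_2` for `c'`, or with a half twist, which
exchanges `P` and `P'` and the two vertices other than the cusp `C_i`; the number of half twists at
the node `i` has the parity of `a i`.

This is the decomposition of `Pool.Agent.H63.VC7.Hyp` (where the vertices around the axis are numbered
from `1` to `4`). There the octahedra are divided into four tetrahedra around the edge `a_0 a_2`; if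
the twist regions have few crossings, some of these are negatively oriented. Here the hyperbolic
structure and the volume are described by the division of the octahedra into four tetrahedra around
the edge `c c'`, which are positively oriented. The division around `a_0 a_2` is used only for the
complex volume, where the orientations do not matter.

A tetrahedron of `P` with vertices `0, 1, 2, 3` has the shape parameters `z` at the edges `01` and
`23`, `1 / (1 - z)` at `02` and `13`, and `1 - 1 / z` at `03` and `12`; the numbers of these pairs of
edges are `0`, `1`, `2`. For `P'`, which has the opposite orientation, the shape parameters at `02`,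
`13` and at `03`, `12` are exchanged, and the numbers `1` and `2` of these pairs as well.
-/

namespace Pool.Agent.AT.Hyp

open Pool.Agent.H63.VC Pool.Agent.H63.VC7.Hyp Complex

variable {m p : ℕ}

/-- Logarithmic parameters (`i` times the dihedral angle, completed to a complex number) of the edges
`c a_k`, `c' a_k` and `a_k a_(k+1)` of an ideal octahedron. -/
structure Edges where
  /-- The edges `c a_k`. -/
  c : Fin 4 → ℂ
  /-- The edges `c' a_k`. -/
  c' : Fin 4 → ℂ
  /-- The edges `a_k a_(k+1)`. -/
  a : Fin 4 → ℂ

/-- The parameters of the edges of an octahedron divided into the four tetrahedra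
`k = (c c' a_k a_(k+1))`, from those of the tetrahedra. The numbers of the pairs of edges
`c a_k | c' a_(k+1)` and `c a_(k+1) | c' a_k` are `b = 1`, `d = 2` for `P`, and `b = 2`, `d = 1` for
`P'`. -/
def aroundC (b d : Fin 3) (x : Fin 4 → Fin 3 → ℂ) : Edges where
  c := fun k => x k b + x (k - 1) d
  c' := fun k => x k d + x (k - 1) b
  a := fun k => x k 0

/-- The parameters of the edges of an octahedron divided into the four tetrahedra
`0 = (a_0 a_2 a_1 c)`, `1 = (a_0 a_2 c' a_1)`, `2 = (a_0 a_2 a_3 c')`, `3 = (a_0 a_2 c a_3)`, with
`b = 1`, `d = 2` for `P`, and `b = 2`, `d = 1` for `P'`. -/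
def aroundA (b d : Fin 3) (x : Fin 4 → Fin 3 → ℂ) : Edges where
  c := ![x 0 d + x 3 b, x 0 0, x 0 b + x 3 d, x 3 0]
  c' := ![x 1 b + x 2 d, x 1 0, x 1 d + x 2 b, x 2 0]
  a := ![x 0 b + x 1 d, x 0 d + x 1 b, x 2 d + x 3 b, x 2 b + x 3 d]

/-- The shape parameters of the tetrahedra around `a_0 a_2` from the shape parameters `X` of the
tetrahedra around `c c'`. Each of these four tetrahedra contains exactly one of the edges `c a_1`,
`c' a_1`, `c' a_3`, `c a_3`, which are opposite to `a_0 a_2`. -/
noncomputable def turn (b d : Fin 3) (X : Fin 4 → ℂ) : Fin 4 → ℂ :=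
  ![shp (X 1) b * shp (X 0) d, shp (X 1) d * shp (X 0) b,
    shp (X 3) d * shp (X 2) b, shp (X 3) b * shp (X 2) d]

/-- The equations of a block, for the parameters `E`, `F` of the edges of `P`, `P'`. Here `κ = π i` for
the logarithms of the shape parameters, and `κ = 0` for flattenings. The first twelve equations are
about the edges of the thrice punctured spheres: since `U` and `W` depend only on the nodes, the sums
around the edges of the complement are `2 κ`. The equations `l`, `l'` say that half of the longitudes
of `C_i` at the nodes `s j` and `t j` have the logarithmic holonomies `U` and `W`. The last four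
equations are about the logarithmic holonomies of the four strands `a_0, a_1, a_2, a_3` from `S⁺` or
`S⁻` at `s j` to `S⁺` or `S⁻` at `t j`; since `q` is the difference of two numbers depending only on the
nodes, the logarithmic holonomy of every closed curve along a link component is `0`. (The
cross-section of an octahedron at a vertex is a quadrilateral; if the parameters of two adjacent
corners are `x`, `y`, the logarithmic holonomy from one of the sides ending there to the other one is
`± (x + y - κ)`. By the first equations, the values for the four strands in `P'` are those with `-U`,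
`-W` instead of `U`, `W` (the difference comes from the halves of the longitudes), and the logarithmic
holonomy of the meridians of the link components is `0`.) -/
structure Block (κ : ℂ) (E F : Edges) (U W q : ℂ) : Prop where
  c0 : E.c 0 + F.c 0 = κ + U
  c1 : E.c 1 + F.c 1 = κ - U
  c2 : E.c 2 + F.c 2 = κ - U
  c3 : E.c 3 + F.c 3 = κ + U
  c0' : E.c' 0 + F.c' 0 = κ + W
  c1' : E.c' 1 + F.c' 1 = κ + W
  c2' : E.c' 2 + F.c' 2 = κ - W
  c3' : E.c' 3 + F.c' 3 = κ - W
  a0 : E.a 0 + F.a 0 = κ - W
  a1 : E.a 1 + F.a 1 = κ + U
  a2 : E.a 2 + F.a 2 = κ + W
  a3 : E.a 3 + F.a 3 = κ - U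
  l : E.c 0 + E.c 3 - κ = U
  l' : E.c' 0 + E.c' 1 - κ = W
  s0 : κ - E.c' 0 - E.a 3 = (U - W) / 2 + q
  s1 : κ - E.c 1 - E.a 0 = (U + W) / 2 + q
  s2 : κ - E.c' 2 - E.a 1 = -(U - W) / 2 + q
  s3 : κ - E.c 3 - E.a 2 = -(U + W) / 2 + q

/-- The gluing equations: the equations of the blocks, and the equations of the Dehn fillings of the
cusps `C_i` which give the twist regions `a i` crossings, along a curve going once along the meridian
and `a i / 2` times along the longitude of `C_i`. The logarithmic holonomy of the part of the meridian
of `C_i` in a block, from `S⁻` to `S⁺` through `P`, is `c a_0 + c a_1 - κ` or `c' a_0 + c' a_3 - κ`. -/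
structure Glue (κ : ℂ) (s t : Fin m → Fin p) (a : Fin p → ℤ) (E F : Fin m → Edges)
    (U lam : Fin p → ℂ) : Prop where
  block : ∀ j, Block κ (E j) (F j) (U (s j)) (U (t j)) (lam (s j) - lam (t j))
  fill : ∀ i, (∑ j, ((if s j = i then (E j).c 0 + (E j).c 1 - κ else 0) +
    (if t j = i then (E j).c' 0 + (E j).c' 3 - κ else 0))) + a i * U i = -(2 * κ)

/-- The shape parameters `X`, `Y` of the tetrahedra of `P`, `P'` around the edge `c c'` describe the
hyperbolic structure of the link complement: positively oriented ideal tetrahedra satisfying
Thurston's gluing, completeness and Dehn filling equations. -/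
def IsGeom (s t : Fin m → Fin p) (a : Fin p → ℤ) (X Y : Fin m → Fin 4 → ℂ) : Prop :=
  (∀ j k, 0 < (X j k).im ∧ 0 < (Y j k).im) ∧
  (∀ j, ∑ k, lgs (X j k) 0 = 2 * (Real.pi * I) ∧ ∑ k, lgs (Y j k) 0 = 2 * (Real.pi * I)) ∧
  ∃ U lam : Fin p → ℂ, Glue (Real.pi * I) s t a (fun j => aroundC 1 2 fun k => lgs (X j k))
    (fun j => aroundC 2 1 fun k => lgs (Y j k)) U lam

/-- `V` is the hyperbolic volume of the link complement. -/
def IsVolume (s t : Fin m → Fin p) (a : Fin p → ℤ) (V : ℝ) : Prop :=
  ∃ X Y : Fin m → Fin 4 → ℂ, IsGeom s t a X Y ∧
    V = ∑ j, ∑ k, (blochWigner (X j k) + blochWigner (Y j k))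

/-- `Z` is the complex volume `i (Vol + i CS)`, well-defined modulo `π²`, of the link complement
(theorem of Neumann): the sum of the values of the Rogers dilogarithm for a flattening of the
tetrahedra around the edges `a_0 a_2` satisfying the equations of the edges and of the cusps, and an
ordering of the vertices compatible with the face pairings (see
`Pool.Agent.H63.VC7.Hyp.blockR`; there the vertices are `a_1, a_2, a_3, a_4`, with `a_4 < a_1` if `f` is
true and `a_2 < a_1` if `f'` is true). `f i` says at which blocks the gluings of `S⁺` at the node are
half twisted. Neumann's theorem holds for every ordered triangulation and every flattening, whatever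
the orientations of the tetrahedra, and the value `tetR` of a flattened tetrahedron is a well-defined
analytic function of its flattening modulo `π²`. -/
def IsComplexVolume (s t : Fin m → Fin p) (a : Fin p → ℤ) (Z : ℂ) : Prop :=
  ∃ (X Y : Fin m → Fin 4 → ℂ) (F G : Fin m → Fin 4 → Fin 3 → ℂ) (U lam : Fin p → ℂ)
    (f f' : Fin m → Bool), IsGeom s t a X Y ∧
    (∀ j k, IsFlat (turn 1 2 (X j) k) (F j k) ∧ IsFlat (turn 2 1 (Y j) k) (G j k)) ∧
    (∀ j, ∑ k, F j k 0 = 0 ∧ ∑ k, G j k 0 = 0) ∧
    Glue 0 s t a (fun j => aroundA 1 2 (F j)) (fun j => aroundA 2 1 (G j)) U lam ∧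
    (∀ i, 2 ∣ (∑ j, ((if s j = i ∧ f j = true then (1 : ℤ) else 0) +
      (if t j = i ∧ f' j = true then 1 else 0))) - a i) ∧
    Z = ∑ j, blockR (turn 1 2 (X j)) (turn 2 1 (Y j)) (F j) (G j) (f j) (f' j)

end Pool.Agent.AT.Hyp
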