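import Pool.Agent.AT.EdgeNeg
import Pool.Agent.S3.Gr6
import Pool.Agent.S3.KsDef
import Pool.Agent.S3.Shift

/-!
# Uniform estimates of the edge kernels
-/

namespace Pool.Agent.AT

set_option linter.unusedSectionVars false

open Pool.Agent.S3

open Complex Pool.Agent.H25.RK Filter Topology
open scoped Interval

variable {m : ℕ} [Tr m] {C : Cfg m}

/-- The endpoints of an edge among the open vertices. -/
def Cfg.ic (C : Cfg m) (j : Fin m) : Finset C.Op :=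
  Finset.univ.filter (fun i : C.Op => (i : Fin (m + 1)) = (Tr.par j) ∨ (i : Fin (m + 1)) = j.succ)

/-- The kernel of an edge on the contours. -/
noncomputable def Cfg.kk (C : Cfg m) (v1 : Fin (m + 1) → ℝ) (ε : ℝ) (M : ℕ) (j : Fin m)
    (x : C.Op → ℝ) : ℂ :=
  KE M (slx C.Op C.s (C.gm v1 ε) x (Tr.par j)) (slx C.Op C.s (C.gm v1 ε) x j.succ)

/-! ### Polygons -/

/-- The trace of a polygon. -/
private def Unif_tr (n : ℕ) (t h : ℕ → ℝ) : Set ℂ :=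
  (⋃ i ∈ {i | i < n}, (fun x : ℝ => (x : ℂ) + h i * I) '' Set.Icc (t i) (t (i + 1))) ∪
  ((fun Y : ℝ => (t 0 : ℂ) + Y * I) '' Set.uIcc 0 (h 0)) ∪
  (⋃ i ∈ {i | i < n}, (fun Y : ℝ => (t (i + 1) : ℂ) + Y * I) ''
    (if i + 1 < n then Set.uIcc (h i) (h (i + 1)) else ∅)) ∪
  ((fun Y : ℝ => (t n : ℂ) + Y * I) '' Set.uIcc (h (n - 1)) 0)

private theorem Unif_tr_compact (n : ℕ) (t h : ℕ → ℝ) : IsCompact (Unif_tr n t h) := by
  unfold Unif_tr
  refine ((IsCompact.union ?_ ?_).union ?_).union ?_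
  · refine (Set.finite_lt_nat n).isCompact_biUnion fun i _ => ?_
    exact isCompact_Icc.image (by fun_prop)
  · exact isCompact_uIcc.image (by fun_prop)
  · refine (Set.finite_lt_nat n).isCompact_biUnion fun i _ => ?_
    refine IsCompact.image ?_ (by fun_prop)
    split_ifs
    · exact isCompact_uIcc
    · exact isCompact_empty
  · exact isCompact_uIcc.image (by fun_prop)

private theorem Unif_tr_iff (n : ℕ) (t h : ℕ → ℝ) (P : ℂ → Prop) :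
    PolOn n t h P ↔ ∀ z ∈ Unif_tr n t h, P z := by
  constructor
  · rintro ⟨h1, h2, h3, h4⟩ z hz
    unfold Unif_tr at hz
    rcases hz with ((hz | hz) | hz) | hz
    · simp only [Set.mem_iUnion] at hz
      obtain ⟨i, hi, x, hx, rfl⟩ := hz
      exact h1 i hi x hx
    · obtain ⟨Y, hY, rfl⟩ := hz
      exact h2 Y hY
    · simp only [Set.mem_iUnion] at hz
      obtain ⟨i, hi, Y, hY, rfl⟩ := hz
      by_cases h5 : i + 1 < n
      · rw [if_pos h5] at hY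
        exact h3 i h5 Y hY
      · rw [if_neg h5] at hY
        exact absurd hY (Set.notMem_empty _)
    · obtain ⟨Y, hY, rfl⟩ := hz
      exact h4 Y hY
  · intro hP
    refine ⟨fun i hi x hx => hP _ ?_, fun Y hY => hP _ ?_, fun i hi Y hY => hP _ ?_,
      fun Y hY => hP _ ?_⟩
    · left; left; left
      simp only [Set.mem_iUnion]
      exact ⟨i, hi, x, hx, rfl⟩
    · left; left; right
      exact ⟨Y, hY, rfl⟩
    · left; right
      simp only [Set.mem_iUnion]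
      refine ⟨i, show i < n by omega, Y, ?_, rfl⟩
      rw [if_pos hi]
      exact hY
    · right
      exact ⟨Y, hY, rfl⟩

private theorem Unif_PolOn_mono {n : ℕ} {t h : ℕ → ℝ} {P Q : ℂ → Prop} (hP : PolOn n t h P)
    (hPQ : ∀ z, P z → Q z) : PolOn n t h Q := by
  rw [Unif_tr_iff] at hP ⊢
  exact fun z hz => hPQ z (hP z hz)

/-! ### Continuity -/

private theorem Unif_se_cont {σ : ℂ → Sl} (hσ : (σ = fun v => .op v) ∨ ∃ s, σ = fun _ => .cl s) :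
    Continuous fun p : ℂ × ℂ => se p.2 (σ p.1) := by
  have hR := Rf_continuous
  rcases hσ with rfl | ⟨s, rfl⟩
  · unfold se
    simp only
    fun_prop
  · unfold se
    simp only
    fun_prop

private theorem Unif_B0_cont {σ : ℂ → Sl} (hσ : (σ = fun v => .op v) ∨ ∃ s, σ = fun _ => .cl s) :
    Continuous fun v : ℂ => B0 (σ v) := by
  rcases hσ with rfl | ⟨s, rfl⟩
  · unfold B0
    simp only
    fun_prop
  · unfold B0
    simp only
    fun_prop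

private theorem Unif_EE_cont {σ τ : ℂ → Sl} (hσ : (σ = fun v => .op v) ∨ ∃ s, σ = fun _ => .cl s)
    (hτ : (τ = fun v => .op v) ∨ ∃ s, τ = fun _ => .cl s) :
    Continuous fun q : (ℂ × ℂ) × ℂ => EE (σ q.1.1) (τ q.1.2) q.2 := by
  unfold EE
  have h1 := (Unif_se_cont hσ).comp (f := fun q : (ℂ × ℂ) × ℂ => (q.1.1, q.2)) (by fun_prop)
  have h2 := (Unif_se_cont hτ).comp (f := fun q : (ℂ × ℂ) × ℂ => (q.1.2, q.2)) (by fun_prop)
  exact h1.add h2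

/-- A strict inequality on a compact set persists. -/
private theorem Unif_persist {G : (ℂ × ℂ) × ℂ → ℝ} (hG : Continuous G) {K : Set ℂ}
    (hK : IsCompact K) {q0 : ℂ × ℂ} (h : ∀ y ∈ K, G (q0, y) < 0) :
    ∃ δ : ℝ, 0 < δ ∧ ∀ᶠ q in 𝓝 q0, ∀ y ∈ K, G (q, y) ≤ -δ := by
  rcases K.eq_empty_or_nonempty with hK0 | hK0
  · refine ⟨1, one_pos, Eventually.of_forall fun q y hy => ?_⟩
    rw [hK0] at hy
    exact absurd hy (Set.notMem_empty _)
  · have hc : Continuous fun y : ℂ => G (q0, y) := hG.comp (by fun_prop)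
    obtain ⟨y0, hy0, hmax⟩ := hK.exists_isMaxOn hK0 hc.continuousOn
    have hneg := h y0 hy0
    refine ⟨-G (q0, y0) / 2, by linarith, ?_⟩
    refine hK.eventually_forall_of_forall_eventually
      (P := fun q y => G (q, y) ≤ -(-G (q0, y0) / 2)) ?_
    intro y hy
    have hle : G (q0, y) ≤ G (q0, y0) := hmax hy
    have hlt : G (q0, y) < -(-G (q0, y0) / 2) := by linarith
    have := (hG.continuousAt (x := (q0, y))).eventually (Iio_mem_nhds hlt)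
    filter_upwards [this] with z hz
    exact le_of_lt hz

/-- A neighbourhood of a pair of slots on which the same polygon can be used. -/
theorem EdgeOK_nhds (σ τ : ℂ → Sl) (hσ : (σ = fun v => .op v) ∨ ∃ s, σ = fun _ => .cl s)
    (hτ : (τ = fun v => .op v) ∨ ∃ s, τ = fun _ => .cl s) (L : ℂ × ℂ → ℝ) (hL : Continuous L)
    (v w : ℂ) (h : EdgeOK (σ v) (τ w) (L (v, w))) :
    ∃ (n : ℕ) (t h : ℕ → ℝ), Pgn n t h ∧ ∃ δ : ℝ, 0 < δ ∧ ∀ᶠ p in 𝓝 (v, w),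
      B0 (σ p.1) + B0 (τ p.2) ≤ L p - δ ∧
      (∀ y ∈ Set.Icc (-(1 / 10) : ℝ) 0, EE (σ p.1) (τ p.2) y ≤ L p - δ) ∧
      PolOn n t h (fun y => EE (σ p.1) (τ p.2) y ≤ L p - δ) := by
  obtain ⟨h1, h2, n, t, ht, hP, hPol⟩ := h
  have hE := Unif_EE_cont hσ hτ
  have hG : Continuous fun q : (ℂ × ℂ) × ℂ => EE (σ q.1.1) (τ q.1.2) q.2 - L q.1 :=
    hE.sub (hL.comp continuous_fst)
  have hB : Continuous fun q : (ℂ × ℂ) × ℂ => B0 (σ q.1.1) + B0 (τ q.1.2) - L q.1 :=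
    (((Unif_B0_cont hσ).comp (f := fun q : (ℂ × ℂ) × ℂ => q.1.1) (by fun_prop)).add
      ((Unif_B0_cont hτ).comp (f := fun q : (ℂ × ℂ) × ℂ => q.1.2) (by fun_prop))).sub
      (hL.comp continuous_fst)
  have hKc : IsCompact ((fun y : ℝ => (y : ℂ)) '' Set.Icc (-(1 / 10) : ℝ) 0) :=
    isCompact_Icc.image (by fun_prop)
  obtain ⟨δ1, hδ1, e1⟩ := Unif_persist hB (isCompact_singleton (x := (0 : ℂ))) (q0 := (v, w))
    (fun y _ => by simp only; linarith)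
  obtain ⟨δ2, hδ2, e2⟩ := Unif_persist hG hKc (q0 := (v, w)) (by
    rintro _ ⟨y, hy, rfl⟩
    have := h2 y hy
    simp only
    linarith)
  obtain ⟨δ3, hδ3, e3⟩ := Unif_persist hG (Unif_tr_compact n t ht) (q0 := (v, w)) (by
    intro y hy
    have := (Unif_tr_iff n t ht _).mp hPol y hy
    simp only
    linarith)
  refine ⟨n, t, ht, hP, min δ1 (min δ2 δ3), lt_min hδ1 (lt_min hδ2 hδ3), ?_⟩
  filter_upwards [e1, e2, e3] with p p1 p2 p3
  have m1 := min_le_left δ1 (min δ2 δ3)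
  have m2 := (min_le_right δ1 (min δ2 δ3)).trans (min_le_left _ _)
  have m3 := (min_le_right δ1 (min δ2 δ3)).trans (min_le_right _ _)
  refine ⟨?_, ?_, ?_⟩
  · have : B0 (σ p.1) + B0 (τ p.2) - L p ≤ -δ1 := p1 0 rfl
    linarith
  · intro y hy
    have : EE (σ p.1) (τ p.2) y - L p ≤ -δ2 := p2 (y : ℂ) ⟨y, hy, rfl⟩
    linarith
  · rw [Unif_tr_iff]
    intro y hy
    have : EE (σ p.1) (τ p.2) y - L p ≤ -δ3 := p3 y hy
    linarith

/-- The same on a compact set of pairs, and near it. -/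
theorem EdgeOK_compact (σ τ : ℂ → Sl) (hσ : (σ = fun v => .op v) ∨ ∃ s, σ = fun _ => .cl s)
    (hτ : (τ = fun v => .op v) ∨ ∃ s, τ = fun _ => .cl s) (L : ℂ × ℂ → ℝ) (hL : Continuous L)
    (S : Set (ℂ × ℂ)) (hS : IsCompact S) (h : ∀ p ∈ S, EdgeOK (σ p.1) (τ p.2) (L p)) :
    ∃ N : ℕ, ∃ η : ℝ, 0 < η ∧ ∃ δ : ℝ, 0 < δ ∧ ∀ p : ℂ × ℂ, (∃ q ∈ S, dist p q < η) →
      B0 (σ p.1) + B0 (τ p.2) ≤ L p - δ ∧
      (∀ y ∈ Set.Icc (-(1 / 10) : ℝ) 0, EE (σ p.1) (τ p.2) y ≤ L p - δ) ∧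
      ∃ n ≤ N, ∃ t h : ℕ → ℝ, Pgn n t h ∧
        PolOn n t h (fun y => EE (σ p.1) (τ p.2) y ≤ L p - δ) := by
  refine hS.induction_on (p := fun T => ∃ N : ℕ, ∃ η : ℝ, 0 < η ∧ ∃ δ : ℝ, 0 < δ ∧
    ∀ p : ℂ × ℂ, (∃ q ∈ T, dist p q < η) → B0 (σ p.1) + B0 (τ p.2) ≤ L p - δ ∧
      (∀ y ∈ Set.Icc (-(1 / 10) : ℝ) 0, EE (σ p.1) (τ p.2) y ≤ L p - δ) ∧
      ∃ n ≤ N, ∃ t h : ℕ → ℝ, Pgn n t h ∧
        PolOn n t h (fun y => EE (σ p.1) (τ p.2) y ≤ L p - δ)) ?_ ?_ ?_ ?_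
  · exact ⟨0, 1, one_pos, 1, one_pos, fun p ⟨q, hq, _⟩ => absurd hq (Set.notMem_empty _)⟩
  · rintro T T' hT ⟨N, η, hη, δ, hδ, hp⟩
    exact ⟨N, η, hη, δ, hδ, fun p ⟨q, hq, hd⟩ => hp p ⟨q, hT hq, hd⟩⟩
  · rintro T T' ⟨N, η, hη, δ, hδ, hp⟩ ⟨N', η', hη', δ', hδ', hp'⟩
    refine ⟨max N N', min η η', lt_min hη hη', min δ δ', lt_min hδ hδ', ?_⟩
    rintro p ⟨q, hq | hq, hd⟩
    · obtain ⟨a1, a2, n, hn, t, ht, a3, a4⟩ := hp p ⟨q, hq, hd.trans_le (min_le_left _ _)⟩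
      have hle : L p - δ ≤ L p - min δ δ' := by linarith [min_le_left δ δ']
      exact ⟨a1.trans hle, fun y hy => (a2 y hy).trans hle, n, hn.trans (le_max_left _ _), t, ht,
        a3, Unif_PolOn_mono a4 fun z hz => hz.trans hle⟩
    · obtain ⟨a1, a2, n, hn, t, ht, a3, a4⟩ := hp' p ⟨q, hq, hd.trans_le (min_le_right _ _)⟩
      have hle : L p - δ' ≤ L p - min δ δ' := by linarith [min_le_right δ δ']
      exact ⟨a1.trans hle, fun y hy => (a2 y hy).trans hle, n, hn.trans (le_max_right _ _), t, ht,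
        a3, Unif_PolOn_mono a4 fun z hz => hz.trans hle⟩
  · intro q hq
    obtain ⟨n, t, ht, hP, δ, hδ, hev⟩ := EdgeOK_nhds σ τ hσ hτ L hL q.1 q.2 (h q hq)
    obtain ⟨ε, hε, hb⟩ := Metric.eventually_nhds_iff.mp hev
    refine ⟨Metric.ball q (ε / 2) ∩ S, ?_, n, ε / 2, by positivity, δ, hδ, ?_⟩
    · rw [Set.inter_comm]
      exact inter_mem_nhdsWithin S (Metric.ball_mem_nhds q (by positivity))
    · rintro p ⟨q', ⟨hq', _⟩, hd⟩
      have hd2 : dist p q < ε := by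
        have := dist_triangle p q' q
        have h3 : dist q' q < ε / 2 := hq'
        linarith
      obtain ⟨a1, a2, a3⟩ := hb (y := p) hd2
      exact ⟨a1, a2, n, le_rfl, t, ht, hP, a3⟩

/-! ### Finite families -/

private theorem Unif_pos {J : Type} [Finite J] (δ : J → ℝ) (h : ∀ j, 0 < δ j) :
    ∃ δ' : ℝ, 0 < δ' ∧ ∀ j, δ' ≤ δ j := by
  have h1 : ∀ᶠ d in 𝓝[>] (0 : ℝ), ∀ j, d ≤ δ j := by
    rw [eventually_all]
    intro j
    filter_upwards [Ioc_mem_nhdsGT (h j)] with d hd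
    exact hd.2
  have h2 : ∀ᶠ d in 𝓝[>] (0 : ℝ), 0 < d := eventually_mem_nhdsWithin
  obtain ⟨d, hd1, hd2⟩ := (h1.and h2).exists
  exact ⟨d, hd2, hd1⟩

private theorem Unif_eps {Q : ℝ → Prop} (h : ∀ᶠ ε in 𝓝[>] (0 : ℝ), Q ε) :
    ∃ ε0 : ℝ, 0 < ε0 ∧ ∀ ε : ℝ, 0 < ε → ε ≤ ε0 → Q ε := by
  obtain ⟨u, hu, hsub⟩ := mem_nhdsGT_iff_exists_Ioc_subset.mp h
  exact ⟨u, hu, fun ε h1 h2 => hsub ⟨h1, h2⟩⟩

private theorem Unif_comb {J X : Type} [Finite J] {κ : ℕ → J → X → ℝ} {L : J → X → ℝ}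
    {R : J → X → Prop}
    (h : ∀ j, ∃ δ : ℝ, 0 < δ ∧ ∃ K : ℝ, 0 < K ∧ ∃ p : ℕ, ∀ᶠ M : ℕ in atTop, ∀ x, R j x →
      κ M j x ≤ K * (M : ℝ) ^ p * Real.exp (M * (L j x - δ))) :
    ∃ δ : ℝ, 0 < δ ∧ ∃ K : ℝ, 0 < K ∧ ∃ p : ℕ, ∀ᶠ M : ℕ in atTop, ∀ j x, R j x →
      κ M j x ≤ K * (M : ℝ) ^ p * Real.exp (M * (L j x - δ)) := by
  have := Fintype.ofFinite J
  choose δ hδ K hK p hp using h
  obtain ⟨δ', hδ', hle⟩ := Unif_pos δ hδ
  refine ⟨δ', hδ', ∑ j, K j + 1, by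
    have : 0 ≤ ∑ j, K j := Finset.sum_nonneg fun j _ => (hK j).le
    linarith, ∑ j, p j, ?_⟩
  filter_upwards [eventually_all.mpr hp, eventually_ge_atTop 1] with M hM hM1 j x hx
  have hM0 : (1 : ℝ) ≤ M := by exact_mod_cast hM1
  refine (hM j x hx).trans ?_
  have h1 : K j ≤ ∑ j, K j + 1 := by
    have := Finset.single_le_sum (f := K) (fun i _ => (hK i).le) (Finset.mem_univ j)
    linarith
  have h2 : p j ≤ ∑ j, p j := Finset.single_le_sum (f := p) (fun i _ => Nat.zero_le _)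
    (Finset.mem_univ j)
  have h3 : (M : ℝ) ^ p j ≤ (M : ℝ) ^ ∑ j, p j := pow_le_pow_right₀ hM0 h2
  have h4 : (M : ℝ) * (L j x - δ j) ≤ M * (L j x - δ') := by
    apply mul_le_mul_of_nonneg_left _ (by linarith)
    linarith [hle j]
  have hK0 : 0 < ∑ j, K j + 1 := (hK j).trans_le h1
  have hM' : (0 : ℝ) < (M : ℝ) ^ p j := by positivity
  calc K j * (M : ℝ) ^ p j * Real.exp (M * (L j x - δ j))
      ≤ (∑ j, K j + 1) * (M : ℝ) ^ (∑ j, p j) * Real.exp (M * (L j x - δ')) := by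
        gcongr

/-! ### The edges of a tree -/

/-- The curve of the vertex near the critical point. -/
private noncomputable def Unif_g (C : Cfg m) (i : Fin (m + 1)) (t : ℝ) : ℂ :=
  if i ∈ C.Op then gdv (ul (C.θ i) t) else 0

/-- The point of the contour. -/
private noncomputable def Unif_pt (C : Cfg m) (v1 : Fin (m + 1) → ℝ) (ε : ℝ) (x : C.Op → ℝ)
    (i : Fin (m + 1)) : ℂ :=
  if h : i ∈ C.Op then C.gm v1 ε i (x ⟨i, h⟩) else 0

/-- The parameter of the vertex. -/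
private noncomputable def Unif_x (C : Cfg m) (x : C.Op → ℝ) (i : Fin (m + 1)) : ℝ :=
  if h : i ∈ C.Op then x ⟨i, h⟩ else C.xc i

/-- The limit contour. -/
private def Unif_G (C : Cfg m) (v1 : Fin (m + 1) → ℝ) (i : Fin (m + 1)) : Set ℂ :=
  {v | (i ∈ C.Op → v ∈ G0 (C.θ i) (v1 i)) ∧ (i ∉ C.Op → v = 0)}

private theorem Unif_G_compact (v1 : Fin (m + 1) → ℝ) (i : Fin (m + 1)) :
    IsCompact (Unif_G C v1 i) := by
  by_cases h : i ∈ C.Op
  · have : Unif_G C v1 i = G0 (C.θ i) (v1 i) := by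
      ext v
      simp [Unif_G, h]
    rw [this]
    exact G0_compact _ _
  · have : Unif_G C v1 i = {0} := by
      ext v
      simp [Unif_G, h]
    rw [this]
    exact isCompact_singleton

private theorem Unif_sv (i : Fin (m + 1)) :
    (C.sv i = fun v => .op v) ∨ ∃ s, C.sv i = fun _ => .cl s := by
  unfold Cfg.sv
  by_cases h : i ∈ C.Op
  · left
    funext v
    rw [if_pos h]
  · right
    refine ⟨C.s i, ?_⟩
    funext v
    rw [if_neg h]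

private theorem Unif_slx (v1 : Fin (m + 1) → ℝ) (ε : ℝ) (x : C.Op → ℝ) (i : Fin (m + 1)) :
    slx C.Op C.s (C.gm v1 ε) x i = C.sv i (Unif_pt C v1 ε x i) := by
  unfold slx Cfg.sv Unif_pt
  by_cases h : i ∈ C.Op
  · rw [dif_pos h, if_pos h, dif_pos h]
  · rw [dif_neg h, if_neg h]

private theorem Unif_ka (v1 : Fin (m + 1) → ℝ) (lam : Fin m → Fin (m + 1) → ℝ) (ε : ℝ)
    (j : Fin m) (x : C.Op → ℝ) : C.ka v1 lam ε j x =
      C.Lw v1 lam j (Unif_pt C v1 ε x (Tr.par j)) (Unif_pt C v1 ε x j.succ) := by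
  unfold Cfg.ka Cfg.Lw Unif_pt
  congr 1
  · congr 1
    by_cases h : (Tr.par j) ∈ C.Op
    · rw [dif_pos h, dif_pos h]
    · rw [dif_neg h, dif_neg h]
      unfold Cfg.lw
      rw [if_neg h]
  · by_cases h : j.succ ∈ C.Op
    · rw [dif_pos h, dif_pos h]
    · rw [dif_neg h, dif_neg h]
      unfold Cfg.lw
      rw [if_neg h]

private theorem Unif_lv_cont (j : Fin m) (i : Fin (m + 1)) : Continuous fun v => C.lv j i v := by
  unfold Cfg.lv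
  by_cases h : i ∈ C.Op
  · simp only [if_pos h]
    unfold ell
    fun_prop
  · simp only [if_neg h]
    exact continuous_const

private theorem Unif_Lt_cont (j : Fin m) : Continuous fun p : ℂ × ℂ => C.Lt j p.1 p.2 := by
  unfold Cfg.Lt
  exact (continuous_const.add ((Unif_lv_cont j _).comp continuous_fst)).add
    ((Unif_lv_cont j _).comp continuous_snd)

private theorem Unif_kk (v1 : Fin (m + 1) → ℝ) (ε : ℝ) (M : ℕ) (j : Fin m) (x : C.Op → ℝ) :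
    C.kk v1 ε M j x = KE M (C.sv (Tr.par j) (Unif_pt C v1 ε x (Tr.par j)))
      (C.sv j.succ (Unif_pt C v1 ε x j.succ)) := by
  unfold Cfg.kk
  rw [Unif_slx, Unif_slx]

private theorem Unif_bd {σ : ℂ → Sl} (hσ : (σ = fun v => .op v) ∨ ∃ s, σ = fun _ => .cl s)
    {v : ℂ} {H : ℝ} (h : v.im ≤ H) : (σ v).bd H := by
  rcases hσ with rfl | ⟨s, rfl⟩
  · exact h
  · trivial

/-- The bound of the kernel near a compact set of good pairs. -/
private theorem Unif_KE (hK : KsB) (σ τ : ℂ → Sl)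
    (hσ : (σ = fun v => .op v) ∨ ∃ s, σ = fun _ => .cl s)
    (hτ : (τ = fun v => .op v) ∨ ∃ s, τ = fun _ => .cl s) (L : ℂ × ℂ → ℝ) (hL : Continuous L)
    (S : Set (ℂ × ℂ)) (hS : IsCompact S) (h : ∀ p ∈ S, EdgeOK (σ p.1) (τ p.2) (L p)) :
    ∃ η : ℝ, 0 < η ∧ ∃ δ : ℝ, 0 < δ ∧ ∃ K : ℝ, 0 < K ∧ ∃ p : ℕ, ∀ M : ℕ, 1 ≤ M → ∀ q : ℂ × ℂ,
      (∃ q' ∈ S, dist q q' < η) → (σ q.1).ok → (τ q.2).ok → (σ q.1).nn → (τ q.2).nn →
      ‖KE M (σ q.1) (τ q.2)‖ ≤ K * (M : ℝ) ^ p * Real.exp (M * (L q - δ)) := by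
  obtain ⟨N, η, hη, δ, hδ, hq⟩ := EdgeOK_compact σ τ hσ hτ L hL S hS h
  obtain ⟨R, hR⟩ := hS.isBounded.exists_norm_le
  obtain ⟨K, hK0, p, hb⟩ := hK N (R + η)
  refine ⟨η, hη, δ, hδ, K, hK0, p, fun M hM q hd o1 o2 n1 n2 => ?_⟩
  obtain ⟨a1, a2, n, hn, t, ht, a3, a4⟩ := hq q hd
  have hqn : ‖q‖ ≤ R + η := by
    obtain ⟨q', hq', hd'⟩ := hd
    have h1 := hR q' hq'
    have h2 := norm_le_norm_add_norm_sub' q q'
    rw [dist_eq_norm] at hd'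
    linarith
  have q1 : q.1.im ≤ R + η := ((le_abs_self _).trans (abs_im_le_norm _)).trans
    ((norm_fst_le q).trans hqn)
  have q2 : q.2.im ≤ R + η := ((le_abs_self _).trans (abs_im_le_norm _)).trans
    ((norm_snd_le q).trans hqn)
  exact hb M hM _ _ o1 o2 n1 n2 (Unif_bd hσ q1) (Unif_bd hτ q2) n hn t ht a3 _ a1 a2 a4

private theorem Unif_ok {i : Fin (m + 1)} (hs : ∀ i, i ∉ C.Op → C.s i = 1 ∨ C.s i = -1)
    {v : ℂ} (h : i ∈ C.Op → |v.re| ≤ 1 / 2) : (C.sv i v).ok := by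
  unfold Cfg.sv
  by_cases hi : i ∈ C.Op
  · rw [if_pos hi]
    exact h hi
  · rw [if_neg hi]
    exact hs i hi

private theorem Unif_nn {i : Fin (m + 1)} {v : ℂ} (h : i ∈ C.Op → 0 ≤ v.im) : (C.sv i v).nn := by
  unfold Cfg.sv
  by_cases hi : i ∈ C.Op
  · rw [if_pos hi]
    exact h hi
  · rw [if_neg hi]
    trivial

private theorem Unif_pt_re (hC : C.Crit) {v1 : Fin (m + 1) → ℝ} {lam : Fin m → Fin (m + 1) → ℝ}
    (hE : C.Edg v1 lam) {ε : ℝ}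
    (hε : 0 < ε) (x : C.Op → ℝ) (i : Fin (m + 1)) (hi : i ∈ C.Op) :
    |(Unif_pt C v1 ε x i).re| ≤ 1 / 2 := by
  unfold Unif_pt
  rw [dif_pos hi]
  exact gam_re (hC.th0 i hi) (hC.th1 i hi) (hE.v0 i hi) (hE.vh i hi) hε _

private theorem Unif_pt_im (hC : C.Crit) {v1 : Fin (m + 1) → ℝ} {lam : Fin m → Fin (m + 1) → ℝ}
    (hE : C.Edg v1 lam) {ε : ℝ}
    (hε : 0 < ε) (x : C.Op → ℝ) (i : Fin (m + 1)) (hi : i ∈ C.Op)
    (hε' : ε ≤ bl (C.θ i) (v1 i)) : 0 ≤ (Unif_pt C v1 ε x i).im := by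
  unfold Unif_pt
  rw [dif_pos hi]
  exact (gam_im (hC.th0 i hi) (hC.th1 i hi) (hE.v0 i hi) (hE.vh i hi) hε hε' _).1.le

private theorem Unif_pt_near (hC : C.Crit) {v1 : Fin (m + 1) → ℝ} {lam : Fin m → Fin (m + 1) → ℝ}
    (hE : C.Edg v1 lam) {ε : ℝ}
    (hε : 0 < ε) (x : C.Op → ℝ) (i : Fin (m + 1)) (hε' : i ∈ C.Op → ε ≤ bl (C.θ i) (v1 i)) :
    ∃ v ∈ Unif_G C v1 i, ‖Unif_pt C v1 ε x i - v‖ ≤ ε := by
  by_cases hi : i ∈ C.Op
  · obtain ⟨v, hv, hd⟩ := gam_near (hC.th0 i hi) (hC.th1 i hi) (hE.v0 i hi) (hE.vh i hi) hε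
      (hε' hi) (x ⟨i, hi⟩)
    refine ⟨v, ⟨fun _ => hv, fun h => absurd hi h⟩, ?_⟩
    unfold Unif_pt
    rw [dif_pos hi]
    exact hd
  · refine ⟨0, ⟨fun h => absurd h hi, fun _ => rfl⟩, ?_⟩
    unfold Unif_pt
    rw [dif_neg hi]
    simp [hε.le]

/-- The parametrization of the line is injective. -/
private theorem Unif_inj {θ : ℝ} (h0 : 0 < θ) (h1 : θ < Real.pi / 2) {x x' : ℝ}
    (h : gdv (ul θ x) = gdv (ul θ x')) : x = x' := by
  have hθ : ∀ x, |(ul θ x).im| < Real.pi / 2 := fun x => by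
    rw [ul_im, abs_of_pos h0]
    exact h1
  have hs := sin_gdv (hθ x)
  have hc := cos_gdv (hθ x)
  have hs' := sin_gdv (hθ x')
  have hc' := cos_gdv (hθ x')
  rw [h, hs'] at hs
  rw [h, hc'] at hc
  have n1 := cosh_ne (hθ x)
  have n2 := cosh_ne (hθ x')
  have h2 : cosh (ul θ x) = cosh (ul θ x') := by
    rw [div_eq_div_iff n2 n1] at hc
    linear_combination hc
  rw [h2] at hs
  have h3 : sinh (ul θ x') = sinh (ul θ x) := by
    rw [div_eq_div_iff n2 n2] at hs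
    exact mul_right_cancel₀ n2 hs
  rw [sinh_ul, sinh_ul] at h3
  have h4 := congrArg Complex.re h3
  simp only [add_re, re_ofReal_mul, I_re, mul_zero, add_zero, ofReal_re] at h4
  have hct : 0 < Real.cos θ := Real.cos_pos_of_mem_Ioo ⟨by linarith, h1⟩
  exact (Real.sinh_injective (mul_right_cancel₀ hct.ne' h4)).symm

private theorem Unif_g_cont (hC : C.Crit) (i : Fin (m + 1)) : Continuous (Unif_g C i) := by
  unfold Unif_g
  by_cases hi : i ∈ C.Op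
  · simp only [if_pos hi]
    have h : |C.θ i| < Real.pi / 2 :=
      abs_lt.mpr ⟨by linarith [Real.pi_pos, hC.th0 i hi], hC.th1 i hi⟩
    rw [continuous_iff_continuousAt]
    exact fun x => (gdv_ul_hasDerivAt h x).continuousAt
  · simp only [if_neg hi]
    exact continuous_const

/-- The parameter of the critical point is inside the line. -/
private theorem Unif_xl (hC : C.Crit) {v1 : Fin (m + 1) → ℝ} {lam : Fin m → Fin (m + 1) → ℝ}
    (hE : C.Edg v1 lam) (i : Fin (m + 1))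
    (hi : i ∈ C.Op) : |C.xc i| < xl (C.θ i) (v1 i) :=
  (gdv_ul_lt (hC.th0 i hi) (hC.th1 i hi) (hE.v0 i hi) (hE.vh i hi)).mpr (hE.vx i hi)

private theorem Unif_pt_eq (v1 : Fin (m + 1) → ℝ) (ε : ℝ) (x : C.Op → ℝ) (i : Fin (m + 1))
    (h : i ∈ C.Op → |Unif_x C x i| ≤ xl (C.θ i) (v1 i)) :
    Unif_pt C v1 ε x i = Unif_g C i (Unif_x C x i) := by
  unfold Unif_pt Unif_g
  by_cases hi : i ∈ C.Op
  · rw [dif_pos hi, if_pos hi]
    have h2 := h hi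
    unfold Unif_x at h2 ⊢
    rw [dif_pos hi] at h2 ⊢
    unfold Cfg.gm gam
    rw [if_pos h2]
  · rw [dif_neg hi, if_neg hi]

private theorem Unif_lw_g (hC : C.Crit) {v1 : Fin (m + 1) → ℝ} {lam : Fin m → Fin (m + 1) → ℝ}
    (hE : C.Edg v1 lam) (j : Fin m) (i : Fin (m + 1)) {t : ℝ}
    (h : i ∈ C.Op → |t| ≤ xl (C.θ i) (v1 i)) :
    C.lw v1 lam j i (Unif_g C i t) = C.lv j i (Unif_g C i t) := by
  by_cases hi : i ∈ C.Op
  · unfold Unif_g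
    rw [if_pos hi]
    exact Cfg.lw_line j fun _ => ⟨hC.th0 i hi, hC.th1 i hi, hE.v0 i hi, hE.vh i hi, h hi⟩
  · unfold Cfg.lw Cfg.lv
    rw [if_neg hi, if_neg hi]

private theorem Unif_Lw (hC : C.Crit) {v1 : Fin (m + 1) → ℝ} {lam : Fin m → Fin (m + 1) → ℝ}
    (hE : C.Edg v1 lam) (j : Fin m) {ta tb : ℝ}
    (ha : (Tr.par j) ∈ C.Op → |ta| ≤ xl (C.θ (Tr.par j)) (v1 (Tr.par j)))
    (hb : j.succ ∈ C.Op → |tb| ≤ xl (C.θ j.succ) (v1 j.succ)) :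
    C.Lw v1 lam j (Unif_g C (Tr.par j) ta) (Unif_g C j.succ tb) =
      C.Lt j (Unif_g C (Tr.par j) ta) (Unif_g C j.succ tb) := by
  unfold Cfg.Lw Cfg.Lt
  rw [Unif_lw_g hC hE j _ ha, Unif_lw_g hC hE j _ hb]

/-! ### Far from the critical point -/

/-- One of the parameters is at distance at least `r` from the critical one. -/
private theorem Unif_ic (j : Fin m) (x : C.Op → ℝ) (r : ℝ) :
    (∃ i ∈ C.ic j, r ≤ |x i - C.xc i|) ↔
      ((Tr.par j) ∈ C.Op ∧ r ≤ |Unif_x C x (Tr.par j) - C.xc (Tr.par j)|) ∨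
      (j.succ ∈ C.Op ∧ r ≤ |Unif_x C x j.succ - C.xc j.succ|) := by
  unfold Cfg.ic
  constructor
  · rintro ⟨⟨i, hi⟩, hi2, hr⟩
    rw [Finset.mem_filter] at hi2
    rcases hi2.2 with h | h
    · left
      have h' : i = (Tr.par j) := h
      subst h'
      refine ⟨hi, ?_⟩
      unfold Unif_x
      rw [dif_pos hi]
      exact hr
    · right
      have h' : i = j.succ := h
      subst h'
      refine ⟨hi, ?_⟩
      unfold Unif_x
      rw [dif_pos hi]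
      exact hr
  · rintro (⟨h, hr⟩ | ⟨h, hr⟩)
    · refine ⟨⟨(Tr.par j), h⟩, Finset.mem_filter.mpr ⟨Finset.mem_univ _, Or.inl rfl⟩, ?_⟩
      unfold Unif_x at hr
      rw [dif_pos h] at hr
      exact hr
    · refine ⟨⟨j.succ, h⟩, Finset.mem_filter.mpr ⟨Finset.mem_univ _, Or.inr rfl⟩, ?_⟩
      unfold Unif_x at hr
      rw [dif_pos h] at hr
      exact hr

/-- The part (A): one of the parameters is at distance at least `r1`. -/
private theorem Unif_farA (hK : KsB) (hC : C.Crit)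
    (hs : ∀ i, i ∉ C.Op → C.s i = 1 ∨ C.s i = -1)
    {v1 : Fin (m + 1) → ℝ} {lam : Fin m → Fin (m + 1) → ℝ}
    (hE : C.Edg v1 lam) (j : Fin m) {r1 : ℝ} (hr1 : 0 < r1) :
    ∃ ε0 : ℝ, 0 < ε0 ∧ ∃ δ : ℝ, 0 < δ ∧ ∃ K : ℝ, 0 < K ∧ ∃ p : ℕ, ∀ ε : ℝ, 0 < ε → ε ≤ ε0 →
      (∀ i ∈ C.Op, ε ≤ bl (C.θ i) (v1 i)) → ∀ M : ℕ, 1 ≤ M → ∀ x : C.Op → ℝ,
      (((Tr.par j) ∈ C.Op ∧ r1 ≤ |Unif_x C x (Tr.par j) - C.xc (Tr.par j)|) ∨
        (j.succ ∈ C.Op ∧ r1 ≤ |Unif_x C x j.succ - C.xc j.succ|)) →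
      ‖C.kk v1 ε M j x‖ ≤ K * (M : ℝ) ^ p * Real.exp (M * (C.ka v1 lam ε j x - δ)) := by
  -- distance from the critical point
  have hρ : ∀ i : Fin (m + 1), ∃ ρ : ℝ, 0 < ρ ∧ ∃ ε0 : ℝ, 0 < ε0 ∧ ∀ ε, 0 < ε → ε ≤ ε0 →
      ∀ x : C.Op → ℝ, i ∈ C.Op → r1 ≤ |Unif_x C x i - C.xc i| →
        ρ ≤ ‖Unif_pt C v1 ε x i - C.vc i‖ := by
    intro i
    by_cases hi : i ∈ C.Op
    · obtain ⟨ρ, hρ, ε0, hε0, h⟩ := gam_away (hC.th0 i hi) (hC.th1 i hi) (hE.v0 i hi)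
        (hE.vh i hi) (Unif_xl hC hE i hi) hr1
      refine ⟨ρ, hρ, ε0, hε0, fun ε h1 h2 x _ h3 => ?_⟩
      unfold Unif_x at h3
      rw [dif_pos hi] at h3
      unfold Unif_pt
      rw [dif_pos hi]
      exact h ε h1 h2 _ h3
    · exact ⟨1, one_pos, 1, one_pos, fun _ _ _ _ h => absurd h hi⟩
  obtain ⟨ρa, hρa, εa, hεa, ha⟩ := hρ (Tr.par j)
  obtain ⟨ρb, hρb, εb, hεb, hb⟩ := hρ j.succ
  set ρ := min ρa ρb with hρdef
  have hρ0 : 0 < ρ := lt_min hρa hρb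
  -- the compact set
  set S : Set (ℂ × ℂ) := (Unif_G C v1 (Tr.par j) ×ˢ Unif_G C v1 j.succ) ∩
    {p | ((Tr.par j) ∈ C.Op ∧ ρ / 2 ≤ ‖p.1 - C.vc (Tr.par j)‖) ∨
      (j.succ ∈ C.Op ∧ ρ / 2 ≤ ‖p.2 - C.vc j.succ‖)} with hS
  have hSc : IsCompact S := by
    apply ((Unif_G_compact v1 _).prod (Unif_G_compact v1 _)).inter_right
    have c1 : IsClosed {p : ℂ × ℂ | ρ / 2 ≤ ‖p.1 - C.vc (Tr.par j)‖} :=
      isClosed_le continuous_const (by fun_prop)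
    have c2 : IsClosed {p : ℂ × ℂ | ρ / 2 ≤ ‖p.2 - C.vc j.succ‖} :=
      isClosed_le continuous_const (by fun_prop)
    have c3 : IsClosed {p : ℂ × ℂ | (Tr.par j) ∈ C.Op ∧ ρ / 2 ≤ ‖p.1 - C.vc (Tr.par j)‖} := by
      by_cases h : (Tr.par j) ∈ C.Op
      · simpa only [h, true_and] using c1
      · simp only [h, false_and, Set.setOf_false]
        exact isClosed_empty
    have c4 : IsClosed {p : ℂ × ℂ | j.succ ∈ C.Op ∧ ρ / 2 ≤ ‖p.2 - C.vc j.succ‖} := by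
      by_cases h : j.succ ∈ C.Op
      · simpa only [h, true_and] using c2
      · simp only [h, false_and, Set.setOf_false]
        exact isClosed_empty
    exact c3.union c4
  have hok : ∀ p ∈ S, EdgeOK (C.sv (Tr.par j) p.1) (C.sv j.succ p.2) (C.Lw v1 lam j p.1 p.2) := by
    rintro ⟨v, w⟩ ⟨⟨h1, h2⟩, h3⟩
    refine hE.far j v w (fun h => h1.1 h) (fun h => h2.1 h) ?_
    rcases h3 with ⟨h, h4⟩ | ⟨h, h4⟩
    · left
      refine ⟨h, fun h5 => ?_⟩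
      simp only [h5, sub_self, norm_zero] at h4
      linarith
    · right
      refine ⟨h, fun h5 => ?_⟩
      simp only [h5, sub_self, norm_zero] at h4
      linarith
  obtain ⟨η, hη, δ, hδ, K, hK0, p, hb'⟩ := Unif_KE hK (C.sv (Tr.par j)) (C.sv j.succ)
    (Unif_sv _) (Unif_sv _) (fun p => C.Lw v1 lam j p.1 p.2) (Cfg.Lw_continuous v1 lam j) S hSc hok
  refine ⟨min (min εa εb) (min (η / 2) (ρ / 2)),
    lt_min (lt_min hεa hεb) (lt_min (by linarith) (by linarith)), δ, hδ, K, hK0, p, ?_⟩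
  intro ε hε hεle hbl M hM x hx
  have l1 : ε ≤ εa := hεle.trans ((min_le_left _ _).trans (min_le_left _ _))
  have l2 : ε ≤ εb := hεle.trans ((min_le_left _ _).trans (min_le_right _ _))
  have l3 : ε ≤ η / 2 := hεle.trans ((min_le_right _ _).trans (min_le_left _ _))
  have l4 : ε ≤ ρ / 2 := hεle.trans ((min_le_right _ _).trans (min_le_right _ _))
  obtain ⟨v, hv, hvd⟩ := Unif_pt_near hC hE hε x (Tr.par j) (fun h => hbl _ h)
  obtain ⟨w, hw, hwd⟩ := Unif_pt_near hC hE hε x j.succ (fun h => hbl _ h)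
  rw [Unif_kk, Unif_ka]
  refine hb' M hM (Unif_pt C v1 ε x (Tr.par j), Unif_pt C v1 ε x j.succ) ⟨(v, w), ?_, ?_⟩
    (Unif_ok hs fun h => Unif_pt_re hC hE hε x _ h) (Unif_ok hs fun h => Unif_pt_re hC hE hε x _ h)
    (Unif_nn fun h => Unif_pt_im hC hE hε x _ h (hbl _ h))
    (Unif_nn fun h => Unif_pt_im hC hE hε x _ h (hbl _ h))
  · refine ⟨⟨hv, hw⟩, ?_⟩
    rcases hx with ⟨h, hr⟩ | ⟨h, hr⟩
    · left
      refine ⟨h, ?_⟩
      have h5 := ha ε hε l1 x h hr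
      have h6 := norm_sub_le_norm_sub_add_norm_sub (Unif_pt C v1 ε x (Tr.par j)) v (C.vc (Tr.par j))
      have h7 : ρ ≤ ρa := min_le_left _ _
      linarith
    · right
      refine ⟨h, ?_⟩
      have h5 := hb ε hε l2 x h hr
      have h6 := norm_sub_le_norm_sub_add_norm_sub (Unif_pt C v1 ε x j.succ) w (C.vc j.succ)
      have h7 : ρ ≤ ρb := min_le_right _ _
      linarith
  · rw [Prod.dist_eq, max_lt_iff]
    simp only [dist_eq_norm]
    constructor <;> linarith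

/-- The part (B): the parameters are on the line, one of them at distance at least `r`. -/
private theorem Unif_farB (hK : KsB) (hC : C.Crit)
    (hs : ∀ i, i ∉ C.Op → C.s i = 1 ∨ C.s i = -1)
    {v1 : Fin (m + 1) → ℝ} {lam : Fin m → Fin (m + 1) → ℝ}
    (hE : C.Edg v1 lam) (j : Fin m) {r1 : ℝ}
    (hr1 : ∀ i ∈ C.Op, (i = (Tr.par j) ∨ i = j.succ) → |C.xc i| + r1 ≤ xl (C.θ i) (v1 i))
    {r : ℝ} (hr : 0 < r) :
    ∃ δ : ℝ, 0 < δ ∧ ∃ K : ℝ, 0 < K ∧ ∃ p : ℕ, ∀ ε : ℝ, 0 < ε →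
      (∀ i ∈ C.Op, ε ≤ bl (C.θ i) (v1 i)) → ∀ M : ℕ, 1 ≤ M → ∀ x : C.Op → ℝ,
      ((Tr.par j) ∈ C.Op → |Unif_x C x (Tr.par j) - C.xc (Tr.par j)| ≤ r1) →
      (j.succ ∈ C.Op → |Unif_x C x j.succ - C.xc j.succ| ≤ r1) →
      (((Tr.par j) ∈ C.Op ∧ r ≤ |Unif_x C x (Tr.par j) - C.xc (Tr.par j)|) ∨
        (j.succ ∈ C.Op ∧ r ≤ |Unif_x C x j.succ - C.xc j.succ|)) →
      ‖C.kk v1 ε M j x‖ ≤ K * (M : ℝ) ^ p * Real.exp (M * (C.ka v1 lam ε j x - δ)) := by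
  -- the compact set of parameters
  set T : Set (ℝ × ℝ) := (Set.Icc (C.xc (Tr.par j) - r1) (C.xc (Tr.par j) + r1) ×ˢ
    Set.Icc (C.xc j.succ - r1) (C.xc j.succ + r1)) ∩
    {q | ((Tr.par j) ∈ C.Op ∧ r ≤ |q.1 - C.xc (Tr.par j)|) ∨
      (j.succ ∈ C.Op ∧ r ≤ |q.2 - C.xc j.succ|)} with hT
  have hTc : IsCompact T := by
    apply (isCompact_Icc.prod isCompact_Icc).inter_right
    have c1 : IsClosed {q : ℝ × ℝ | r ≤ |q.1 - C.xc (Tr.par j)|} :=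
      isClosed_le continuous_const (by fun_prop)
    have c2 : IsClosed {q : ℝ × ℝ | r ≤ |q.2 - C.xc j.succ|} :=
      isClosed_le continuous_const (by fun_prop)
    have c3 : IsClosed {q : ℝ × ℝ | (Tr.par j) ∈ C.Op ∧ r ≤ |q.1 - C.xc (Tr.par j)|} := by
      by_cases h : (Tr.par j) ∈ C.Op
      · simpa only [h, true_and] using c1
      · simp only [h, false_and, Set.setOf_false]
        exact isClosed_empty
    have c4 : IsClosed {q : ℝ × ℝ | j.succ ∈ C.Op ∧ r ≤ |q.2 - C.xc j.succ|} := by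
      by_cases h : j.succ ∈ C.Op
      · simpa only [h, true_and] using c2
      · simp only [h, false_and, Set.setOf_false]
        exact isClosed_empty
    exact c3.union c4
  -- its image
  set Γ : ℝ × ℝ → ℂ × ℂ := fun q => (Unif_g C (Tr.par j) q.1, Unif_g C j.succ q.2) with hΓ
  have hΓc : Continuous Γ :=
    ((Unif_g_cont hC _).comp continuous_fst).prodMk ((Unif_g_cont hC _).comp continuous_snd)
  have hmem : ∀ i ∈ C.Op, (i = (Tr.par j) ∨ i = j.succ) → ∀ t ∈ Set.Icc (C.xc i - r1) (C.xc i + r1),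
      |t| ≤ xl (C.θ i) (v1 i) := by
    intro i hi hij t ht
    have h1 := hr1 i hi hij
    have h2 : |t - C.xc i| ≤ r1 := abs_le.mpr ⟨by linarith [ht.1], by linarith [ht.2]⟩
    have h3 := abs_sub_abs_le_abs_sub t (C.xc i)
    linarith
  have hG0 : ∀ i ∈ C.Op, (i = (Tr.par j) ∨ i = j.succ) →
      ∀ t ∈ Set.Icc (C.xc i - r1) (C.xc i + r1), Unif_g C i t ∈ G0 (C.θ i) (v1 i) := by
    intro i hi hij t ht
    unfold Unif_g
    rw [if_pos hi]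
    exact G0_mem (hC.th0 i hi) (hC.th1 i hi) (hE.v0 i hi) (hE.vh i hi) (hmem i hi hij t ht)
  have hne : ∀ i ∈ C.Op, ∀ t, r ≤ |t - C.xc i| → Unif_g C i t ≠ C.vc i := by
    intro i hi t ht h
    unfold Unif_g at h
    rw [if_pos hi] at h
    have h2 : t = C.xc i := Unif_inj (hC.th0 i hi) (hC.th1 i hi) h
    rw [h2, sub_self, abs_zero] at ht
    linarith
  have hok : ∀ p ∈ Γ '' T, EdgeOK (C.sv (Tr.par j) p.1) (C.sv j.succ p.2) (C.Lw v1 lam j p.1 p.2) := by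
    rintro _ ⟨⟨ta, tb⟩, ⟨⟨h1, h2⟩, h3⟩, rfl⟩
    refine hE.far j _ _ (fun h => hG0 _ h (Or.inl rfl) ta h1) (fun h => hG0 _ h (Or.inr rfl) tb h2)
      ?_
    rcases h3 with ⟨h, h4⟩ | ⟨h, h4⟩
    · exact Or.inl ⟨h, hne _ h ta h4⟩
    · exact Or.inr ⟨h, hne _ h tb h4⟩
  obtain ⟨η, hη, δ, hδ, K, hK0, p, hb'⟩ := Unif_KE hK (C.sv (Tr.par j)) (C.sv j.succ)
    (Unif_sv _) (Unif_sv _) (fun p => C.Lw v1 lam j p.1 p.2) (Cfg.Lw_continuous v1 lam j) (Γ '' T)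
    (hTc.image hΓc) hok
  refine ⟨δ, hδ, K, hK0, p, ?_⟩
  intro ε hε hbl M hM x hxa hxb hx
  have hxI : ∀ i, (i ∈ C.Op → |Unif_x C x i - C.xc i| ≤ r1) → 0 ≤ r1 →
      Unif_x C x i ∈ Set.Icc (C.xc i - r1) (C.xc i + r1) := by
    intro i h h0
    by_cases hi : i ∈ C.Op
    · have := abs_le.mp (h hi)
      exact ⟨by linarith [this.1], by linarith [this.2]⟩
    · unfold Unif_x
      rw [dif_neg hi]
      exact ⟨by linarith, by linarith⟩
  have hr10 : 0 ≤ r1 := by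
    rcases hx with ⟨h, _⟩ | ⟨h, _⟩
    · exact (abs_nonneg _).trans (hxa h)
    · exact (abs_nonneg _).trans (hxb h)
  have ma := hxI _ hxa hr10
  have mb := hxI _ hxb hr10
  rw [Unif_kk, Unif_ka]
  refine hb' M hM (Unif_pt C v1 ε x (Tr.par j), Unif_pt C v1 ε x j.succ)
    ⟨Γ (Unif_x C x (Tr.par j), Unif_x C x j.succ), ?_, ?_⟩
    (Unif_ok hs fun h => Unif_pt_re hC hE hε x _ h) (Unif_ok hs fun h => Unif_pt_re hC hE hε x _ h)
    (Unif_nn fun h => Unif_pt_im hC hE hε x _ h (hbl _ h))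
    (Unif_nn fun h => Unif_pt_im hC hE hε x _ h (hbl _ h))
  · exact ⟨_, ⟨⟨ma, mb⟩, hx⟩, rfl⟩
  · rw [hΓ, Unif_pt_eq v1 ε x _ fun h => hmem _ h (Or.inl rfl) _ ma,
      Unif_pt_eq v1 ε x _ fun h => hmem _ h (Or.inr rfl) _ mb, dist_self]
    exact hη

/-- The kernels away from the critical point, uniformly in the height `ε`. -/
theorem Cfg.K_far_eps (hK : KsB) (hC : C.Crit) (hs : ∀ i, i ∉ C.Op → C.s i = 1 ∨ C.s i = -1)
    {v1 : Fin (m + 1) → ℝ} {lam : Fin m → Fin (m + 1) → ℝ}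
    (hE : C.Edg v1 lam) : ∃ ε0 : ℝ, 0 < ε0 ∧ (∀ i ∈ C.Op, ε0 ≤ bl (C.θ i) (v1 i)) ∧
    ∀ r : ℝ, 0 < r → ∃ δ : ℝ, 0 < δ ∧ ∃ K : ℝ, 0 < K ∧ ∃ p : ℕ, ∀ᶠ M : ℕ in atTop,
      ∀ (j : Fin m) (ε : ℝ) (x : C.Op → ℝ), 0 < ε → ε ≤ ε0 → (∃ i ∈ C.ic j, r ≤ |x i - C.xc i|) →
      ‖C.kk v1 ε M j x‖ ≤ K * (M : ℝ) ^ p * Real.exp (M * (C.ka v1 lam ε j x - δ)) := by
  -- the radius
  obtain ⟨r1, hr1, hr1'⟩ : ∃ r1 : ℝ, 0 < r1 ∧ ∀ i : Fin (m + 1), i ∈ C.Op →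
      |C.xc i| + r1 ≤ xl (C.θ i) (v1 i) := by
    obtain ⟨r1, h1, h2⟩ := Unif_pos (J := Fin (m + 1))
      (fun i => if i ∈ C.Op then xl (C.θ i) (v1 i) - |C.xc i| else 1) (fun i => by
        by_cases hi : i ∈ C.Op
        · rw [if_pos hi]
          linarith [Unif_xl hC hE i hi]
        · rw [if_neg hi]
          exact one_pos)
    refine ⟨r1, h1, fun i hi => ?_⟩
    have := h2 i
    rw [if_pos hi] at this
    linarith
  have hA := fun j => Unif_farA hK hC hs hE j hr1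
  choose εA hεA δA hδA KA hKA pA hAj using hA
  obtain ⟨ε1, hε1, hle1⟩ := Unif_pos εA hεA
  obtain ⟨ε2, hε2, hle2⟩ := Unif_pos (J := Fin (m + 1))
    (fun i => if i ∈ C.Op then bl (C.θ i) (v1 i) else 1) (fun i => by
      by_cases hi : i ∈ C.Op
      · rw [if_pos hi]
        refine bl_pos (hC.th0 i hi) (hC.th1 i hi) ?_
        rw [abs_of_pos (hE.v0 i hi)]
        exact hE.vh i hi
      · rw [if_neg hi]
        exact one_pos)
  have hbl0 : ∀ i ∈ C.Op, min ε1 ε2 ≤ bl (C.θ i) (v1 i) := by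
    intro i hi
    have := hle2 i
    rw [if_pos hi] at this
    exact (min_le_right _ _).trans this
  refine ⟨min ε1 ε2, lt_min hε1 hε2, hbl0, fun r hr => ?_⟩
  have key : ∀ j : Fin m, ∃ δ : ℝ, 0 < δ ∧ ∃ K : ℝ, 0 < K ∧ ∃ p : ℕ, ∀ᶠ M : ℕ in atTop,
      ∀ x : ℝ × (C.Op → ℝ), ((0 < x.1 ∧ x.1 ≤ min ε1 ε2) ∧ ∃ i ∈ C.ic j, r ≤ |x.2 i - C.xc i|) →
        ‖C.kk v1 x.1 M j x.2‖ ≤ K * (M : ℝ) ^ p * Real.exp (M * (C.ka v1 lam x.1 j x.2 - δ)) := by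
    intro j
    obtain ⟨δB, hδB, KB, hKB, pB, hBj⟩ := Unif_farB hK hC hs hE j (fun i hi _ => hr1' i hi) hr
    refine ⟨min (δA j) δB, lt_min (hδA j) hδB, KA j + KB, by linarith [hKA j], pA j + pB, ?_⟩
    filter_upwards [eventually_ge_atTop 1] with M hM
    rintro ⟨ε, x⟩ ⟨⟨hε, hεle⟩, hx⟩
    simp only at hε hεle hx ⊢
    have hbl : ∀ i ∈ C.Op, ε ≤ bl (C.θ i) (v1 i) := fun i hi => hεle.trans (hbl0 i hi)
    have hM0 : (1 : ℝ) ≤ M := by exact_mod_cast hM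
    rw [Unif_ic] at hx
    have hgen : ∀ (K δ : ℝ) (p : ℕ), 0 < K → K ≤ KA j + KB → min (δA j) δB ≤ δ → p ≤ pA j + pB →
        ‖C.kk v1 ε M j x‖ ≤ K * (M : ℝ) ^ p * Real.exp (M * (C.ka v1 lam ε j x - δ)) →
        ‖C.kk v1 ε M j x‖ ≤ (KA j + KB) * (M : ℝ) ^ (pA j + pB) *
          Real.exp (M * (C.ka v1 lam ε j x - min (δA j) δB)) := by
      intro K δ p h1 h2 h3 h4 h5
      refine h5.trans ?_
      have h6 : (M : ℝ) ^ p ≤ (M : ℝ) ^ (pA j + pB) := pow_le_pow_right₀ hM0 h4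
      have h7 : (M : ℝ) * (C.ka v1 lam ε j x - δ) ≤ M * (C.ka v1 lam ε j x - min (δA j) δB) := by
        apply mul_le_mul_of_nonneg_left _ (by linarith)
        linarith
      have h8 : (0 : ℝ) < (M : ℝ) ^ p := by positivity
      have h9 : 0 < KA j + KB := h1.trans_le h2
      gcongr
    by_cases hfar : ((Tr.par j) ∈ C.Op ∧ r1 ≤ |Unif_x C x (Tr.par j) - C.xc (Tr.par j)|) ∨
        (j.succ ∈ C.Op ∧ r1 ≤ |Unif_x C x j.succ - C.xc j.succ|)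
    · exact hgen (KA j) (δA j) (pA j) (hKA j) (by linarith) (min_le_left _ _) (by omega)
        (hAj j ε hε ((hεle.trans (min_le_left _ _)).trans (hle1 j)) hbl M hM x hfar)
    · rw [not_or, not_and_or, not_and_or] at hfar
      refine hgen KB δB pB hKB (by linarith [hKA j]) (min_le_right _ _) (by omega)
        (hBj ε hε hbl M hM x (fun h => ?_) (fun h => ?_) hx)
      · rcases hfar.1 with h1 | h1
        · exact absurd h h1
        · exact (not_le.mp h1).le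
      · rcases hfar.2 with h1 | h1
        · exact absurd h h1
        · exact (not_le.mp h1).le
  obtain ⟨δ, hδ, K, hK0, p, hp⟩ := Unif_comb (J := Fin m) (X := ℝ × (C.Op → ℝ))
    (κ := fun M j x => ‖C.kk v1 x.1 M j x.2‖) (L := fun j x => C.ka v1 lam x.1 j x.2)
    (R := fun j x => (0 < x.1 ∧ x.1 ≤ min ε1 ε2) ∧ ∃ i ∈ C.ic j, r ≤ |x.2 i - C.xc i|) key
  refine ⟨δ, hδ, K, hK0, p, ?_⟩
  filter_upwards [hp] with M hM j ε x h1 h2 h3
  exact hM j (ε, x) ⟨⟨h1, h2⟩, h3⟩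

/-- The kernels away from the critical point. -/
theorem Cfg.K_far (hK : KsB) (hC : C.Crit) (hs : ∀ i, i ∉ C.Op → C.s i = 1 ∨ C.s i = -1)
    {v1 : Fin (m + 1) → ℝ} {lam : Fin m → Fin (m + 1) → ℝ}
    (hE : C.Edg v1 lam) : ∃ ε0 : ℝ, 0 < ε0 ∧ ∀ ε : ℝ, 0 < ε → ε ≤ ε0 →
    (∀ i ∈ C.Op, ε ≤ bl (C.θ i) (v1 i)) ∧
    ∀ r : ℝ, 0 < r → ∃ δ : ℝ, 0 < δ ∧ ∃ K : ℝ, 0 < K ∧ ∃ p : ℕ, ∀ᶠ M : ℕ in atTop,
      ∀ (j : Fin m) (x : C.Op → ℝ), (∃ i ∈ C.ic j, r ≤ |x i - C.xc i|) →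
      ‖C.kk v1 ε M j x‖ ≤ K * (M : ℝ) ^ p * Real.exp (M * (C.ka v1 lam ε j x - δ)) := by
  obtain ⟨ε0, hε0, hbl, h⟩ := Cfg.K_far_eps hK hC hs hE
  refine ⟨ε0, hε0, fun ε h1 h2 => ⟨fun i hi => h2.trans (hbl i hi), fun r hr => ?_⟩⟩
  obtain ⟨δ, hδ, K, hK0, p, hp⟩ := h r hr
  refine ⟨δ, hδ, K, hK0, p, ?_⟩
  filter_upwards [hp] with M hM j x hx
  exact hM j ε x h1 h2 hx

/-! ### Near the critical point -/

private theorem Unif_g_xc (i : Fin (m + 1)) (hi : i ∈ C.Op) : Unif_g C i (C.xc i) = C.vc i := by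
  unfold Unif_g
  rw [if_pos hi]
  rfl

private theorem Unif_slc (i : Fin (m + 1)) : C.sv i (Unif_g C i (C.xc i)) = C.slc i := by
  unfold Cfg.sv Cfg.slc
  by_cases hi : i ∈ C.Op
  · rw [if_pos hi, if_pos hi, Unif_g_xc i hi]
  · rw [if_neg hi, if_neg hi]

private theorem Unif_lv_xc (j : Fin m) (i : Fin (m + 1)) :
    C.lv j i (Unif_g C i (C.xc i)) = 0 := by
  unfold Cfg.lv
  by_cases hi : i ∈ C.Op
  · rw [if_pos hi, Unif_g_xc i hi]
    unfold ell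
    simp
  · rw [if_neg hi]

private theorem Unif_Lt_xc (j : Fin m) : C.Lt j (Unif_g C (Tr.par j) (C.xc (Tr.par j)))
    (Unif_g C j.succ (C.xc j.succ)) = C.Fc j := by
  unfold Cfg.Lt
  rw [Unif_lv_xc, Unif_lv_xc]
  ring

private theorem Unif_g_ok (hC : C.Crit) (hs : ∀ i, i ∉ C.Op → C.s i = 1 ∨ C.s i = -1)
    (i : Fin (m + 1)) (t : ℝ) : (C.sv i (Unif_g C i t)).ok ∧ (C.sv i (Unif_g C i t)).nn := by
  have key : i ∈ C.Op → |(Unif_g C i t).re| ≤ 1 / 2 ∧ 0 ≤ (Unif_g C i t).im := by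
    intro hi
    have h : |(ul (C.θ i) t).im| < Real.pi / 2 := by
      rw [ul_im, abs_of_pos (hC.th0 i hi)]
      exact hC.th1 i hi
    unfold Unif_g
    rw [if_pos hi]
    exact ⟨(gdv_re_lt h).le, (gdv_im_pos (by rw [ul_im]; exact hC.th0 i hi)
      (by rw [ul_im]; exact hC.th1 i hi)).le⟩
  exact ⟨Unif_ok hs fun hi => (key hi).1, Unif_nn fun hi => (key hi).2⟩

private theorem Unif_sv_near (hC : C.Crit) (i : Fin (m + 1)) {ρ : ℝ} (hρ : 0 < ρ) :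
    ∀ᶠ t in 𝓝 (C.xc i), Sl.near ρ (C.sv i (Unif_g C i t)) (C.slc i) := by
  by_cases hi : i ∈ C.Op
  · have hc : ContinuousAt (fun t => ‖Unif_g C i t - C.vc i‖) (C.xc i) :=
      ((Unif_g_cont hC i).sub continuous_const).norm.continuousAt
    have h0 : ‖Unif_g C i (C.xc i) - C.vc i‖ < ρ := by
      rw [Unif_g_xc i hi, sub_self, norm_zero]
      exact hρ
    filter_upwards [hc.eventually (Iio_mem_nhds h0)] with t ht
    unfold Cfg.sv Cfg.slc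
    rw [if_pos hi, if_pos hi]
    exact ht
  · refine Eventually.of_forall fun t => ?_
    unfold Cfg.sv Cfg.slc
    rw [if_neg hi, if_neg hi]
    exact (rfl : C.s i = C.s i)

/-- The growth rate in the parameters. -/
private noncomputable def Unif_E (C : Cfg m) (j : Fin m) (q : (ℝ × ℝ) × ℂ) : ℝ :=
  EE (C.sv (Tr.par j) (Unif_g C (Tr.par j) q.1.1)) (C.sv j.succ (Unif_g C j.succ q.1.2)) q.2

private theorem Unif_E_xc (j : Fin m) (y : ℂ) : Unif_E C j ((C.xc (Tr.par j), C.xc j.succ), y) =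
    EE (C.slc (Tr.par j)) (C.slc j.succ) y := by
  unfold Unif_E
  rw [Unif_slc, Unif_slc]

private theorem Unif_ev {X : Type} [TopologicalSpace X] {G : X → ℝ} (hG : Continuous G) {x0 : X}
    {c : ℝ} (h : G x0 < c) : ∀ᶠ x in 𝓝 x0, G x < c :=
  hG.continuousAt.eventually (Iio_mem_nhds h)

private theorem Unif_EE_cont2 (hC : C.Crit) (j : Fin m) : Continuous (Unif_E C j) := by
  have h := Unif_EE_cont (Unif_sv (C := C) (Tr.par j)) (Unif_sv (C := C) j.succ)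
  have g1 := (Unif_g_cont hC (Tr.par j)).comp
    (continuous_fst.comp (continuous_fst (X := ℝ × ℝ) (Y := ℂ)))
  have g2 := (Unif_g_cont hC j.succ).comp
    (continuous_snd.comp (continuous_fst (X := ℝ × ℝ) (Y := ℂ)))
  exact h.comp ((g1.prodMk g2).prodMk continuous_snd)

private theorem Unif_dom (hC : C.Crit) (j : Fin m) : 0 < (C.yc j).re ∧ (C.yc j).re < 1 / 2 := by
  have h := (hC.dom j).1
  generalize C.slc (Tr.par j) = σ at h
  rcases σ with v | s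
  · have h' : 0 < (C.yc j).re ∧ (C.yc j).re < 1 / 2 ∧ fdom (C.yc j - v) ∧ fdom (C.yc j + v) := h
    exact ⟨h'.1, h'.2.1⟩
  · exact h

private theorem norm_sub_le_of_le_of_le {a b c : ℂ} {x y : ℝ} (h1 : ‖a - b‖ ≤ x)
    (h2 : ‖b - c‖ ≤ y) : ‖a - c‖ ≤ x + y :=
  (norm_sub_le_norm_sub_add_norm_sub a b c).trans (add_le_add h1 h2)

/-- The estimate near the critical point in the parameters. -/
private theorem Unif_loc (hK : KsL) (hC : C.Crit)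
    (hs : ∀ i, i ∉ C.Op → C.s i = 1 ∨ C.s i = -1)
    {v1 : Fin (m + 1) → ℝ} {lam : Fin m → Fin (m + 1) → ℝ}
    (hE : C.Edg v1 lam) (j : Fin m) :
    ∃ r1 : ℝ, 0 < r1 ∧ ∀ r : ℝ, 0 < r → r ≤ r1 → ∃ ρ : ℝ, 0 < ρ ∧ ∃ δ : ℝ, 0 < δ ∧
    ∃ K : ℝ, 0 < K ∧ ∃ p : ℕ, ∀ᶠ M : ℕ in atTop, ∀ ta tb : ℝ,
      |ta - C.xc (Tr.par j)| ≤ ρ → |tb - C.xc j.succ| ≤ ρ →
      ‖KE M (C.sv (Tr.par j) (Unif_g C (Tr.par j) ta)) (C.sv j.succ (Unif_g C j.succ tb)) -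
        ∫ s in (-r)..r, (M : ℂ) * FM M (C.sv (Tr.par j) (Unif_g C (Tr.par j) ta))
          (C.sv j.succ (Unif_g C j.succ tb)) (C.yc j + (C.L j (Tr.par j) * (ta - C.xc (Tr.par j)) +
            C.L j j.succ * (tb - C.xc j.succ)) + s)‖ ≤
        K * (M : ℝ) ^ p * Real.exp (M * (C.Lt j (Unif_g C (Tr.par j) ta) (Unif_g C j.succ tb) -
          δ)) := by
  obtain ⟨ra, hra, hKL⟩ := hK (C.slc (Tr.par j)) (C.slc j.succ) (C.yc j) (C.Fc j)
    (by rw [← Unif_slc]; exact (Unif_g_ok hC hs _ _).1)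
    (by rw [← Unif_slc]; exact (Unif_g_ok hC hs _ _).1)
    (by rw [← Unif_slc]; exact (Unif_g_ok hC hs _ _).2)
    (by rw [← Unif_slc]; exact (Unif_g_ok hC hs _ _).2) (hE.near j)
  obtain ⟨rb, hrb, hmax⟩ := edge_max (hC.dom j).1 (hC.dom j).2 (hC.hy j) (hC.hA j)
  obtain ⟨hre0, hre1⟩ := Unif_dom hC j
  obtain ⟨K2, hK2, p2, hsh⟩ := shift_edge
  refine ⟨min (min ra rb) (min ((C.yc j).re / 2) ((1 / 2 - (C.yc j).re) / 2)),
    lt_min (lt_min hra hrb) (lt_min (by linarith) (by linarith)), fun r hr0 hrle => ?_⟩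
  have l1 : r ≤ ra := hrle.trans ((min_le_left _ _).trans (min_le_left _ _))
  have l2 : r ≤ rb := hrle.trans ((min_le_left _ _).trans (min_le_right _ _))
  have l3 : r ≤ (C.yc j).re / 2 := hrle.trans ((min_le_right _ _).trans (min_le_left _ _))
  have l4 : r ≤ (1 / 2 - (C.yc j).re) / 2 :=
    hrle.trans ((min_le_right _ _).trans (min_le_right _ _))
  obtain ⟨ρ1, hρ1, δ1, hδ1, K1, hK1, p1, hev1⟩ := hKL r hr0 l1
  obtain ⟨m1, m2⟩ := hmax r hr0 l2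
  have hFc : C.Fc j = EE (C.slc (Tr.par j)) (C.slc j.succ) (C.yc j) := rfl
  rw [← hFc] at m1 m2
  -- the loss at the short sides
  obtain ⟨δ2, hδ2, d1, d2⟩ : ∃ δ2 : ℝ, 0 < δ2 ∧
      EE (C.slc (Tr.par j)) (C.slc j.succ) (C.yc j + r) < C.Fc j - δ2 ∧
      EE (C.slc (Tr.par j)) (C.slc j.succ) (C.yc j - r) < C.Fc j - δ2 := by
    refine ⟨min (C.Fc j - EE (C.slc (Tr.par j)) (C.slc j.succ) (C.yc j + r))
      (C.Fc j - EE (C.slc (Tr.par j)) (C.slc j.succ) (C.yc j - r)) / 2, ?_, ?_, ?_⟩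
    · have : 0 < min (C.Fc j - EE (C.slc (Tr.par j)) (C.slc j.succ) (C.yc j + r))
        (C.Fc j - EE (C.slc (Tr.par j)) (C.slc j.succ) (C.yc j - r)) :=
        lt_min (by linarith) (by linarith)
      linarith
    · have := min_le_left (C.Fc j - EE (C.slc (Tr.par j)) (C.slc j.succ) (C.yc j + r))
        (C.Fc j - EE (C.slc (Tr.par j)) (C.slc j.succ) (C.yc j - r))
      linarith
    · have := min_le_right (C.Fc j - EE (C.slc (Tr.par j)) (C.slc j.succ) (C.yc j + r))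
        (C.Fc j - EE (C.slc (Tr.par j)) (C.slc j.succ) (C.yc j - r))
      linarith
  have hEc := Unif_EE_cont2 hC j
  have ev1 := Unif_ev hEc (x0 := ((C.xc (Tr.par j), C.xc j.succ), C.yc j + r))
    (c := C.Fc j - δ2) (by rw [Unif_E_xc]; exact d1)
  have ev2 := Unif_ev hEc (x0 := ((C.xc (Tr.par j), C.xc j.succ), C.yc j - r))
    (c := C.Fc j - δ2) (by rw [Unif_E_xc]; exact d2)
  obtain ⟨ε1, hε1, b1⟩ := Metric.eventually_nhds_iff.mp ev1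
  obtain ⟨ε2, hε2, b2⟩ := Metric.eventually_nhds_iff.mp ev2
  set ε : ℝ := min (min ε1 ε2) (min (C.yc j).re (1 / 2 - (C.yc j).re) / 4) with hεdef
  have hε0 : 0 < ε := lt_min (lt_min hε1 hε2) (by
    have : 0 < min (C.yc j).re (1 / 2 - (C.yc j).re) := lt_min hre0 (by linarith)
    linarith)
  have hεa : ε ≤ ε1 := (min_le_left _ _).trans (min_le_left _ _)
  have hεb : ε ≤ ε2 := (min_le_left _ _).trans (min_le_right _ _)
  have hεc : ε ≤ (C.yc j).re / 4 := (min_le_right _ _).trans (by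
    have := min_le_left (C.yc j).re (1 / 2 - (C.yc j).re)
    linarith)
  have hεd : ε ≤ (1 / 2 - (C.yc j).re) / 4 := (min_le_right _ _).trans (by
    have := min_le_right (C.yc j).re (1 / 2 - (C.yc j).re)
    linarith)
  set D : ℝ × ℝ → ℂ := fun q => C.L j (Tr.par j) * (q.1 - C.xc (Tr.par j)) +
    C.L j j.succ * (q.2 - C.xc j.succ) with hD
  have hDc : Continuous fun q => ‖D q‖ := by
    rw [hD]
    fun_prop
  have hD0 : D (C.xc (Tr.par j), C.xc j.succ) = 0 := by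
    rw [hD]
    simp
  have ev3 := Unif_ev hDc (x0 := (C.xc (Tr.par j), C.xc j.succ)) (c := ε)
    (by rw [hD0, norm_zero]; exact hε0)
  set δ : ℝ := min δ1 δ2 / 2 with hδ
  have hδ0 : 0 < δ := by
    have : 0 < min δ1 δ2 := lt_min hδ1 hδ2
    linarith
  have hδa : 2 * δ ≤ δ1 := by
    have := min_le_left δ1 δ2
    linarith
  have hδb : 2 * δ ≤ δ2 := by
    have := min_le_right δ1 δ2
    linarith
  have hLc : Continuous fun q : ℝ × ℝ => -C.Lt j (Unif_g C (Tr.par j) q.1) (Unif_g C j.succ q.2) :=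
    ((Unif_Lt_cont j).comp (((Unif_g_cont hC (Tr.par j)).comp continuous_fst).prodMk
      ((Unif_g_cont hC j.succ).comp continuous_snd))).neg
  have ev4 := Unif_ev hLc (x0 := (C.xc (Tr.par j), C.xc j.succ)) (c := -(C.Fc j - δ))
    (by
      simp only
      rw [Unif_Lt_xc]
      linarith)
  have ev5 : ∀ᶠ q : ℝ × ℝ in 𝓝 (C.xc (Tr.par j), C.xc j.succ),
      Sl.near ρ1 (C.sv (Tr.par j) (Unif_g C (Tr.par j) q.1)) (C.slc (Tr.par j)) :=
    (continuous_fst.tendsto (C.xc (Tr.par j), C.xc j.succ)).eventually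
      (Unif_sv_near hC (Tr.par j) hρ1)
  have ev6 : ∀ᶠ q : ℝ × ℝ in 𝓝 (C.xc (Tr.par j), C.xc j.succ),
      Sl.near ρ1 (C.sv j.succ (Unif_g C j.succ q.2)) (C.slc j.succ) :=
    (continuous_snd.tendsto (C.xc (Tr.par j), C.xc j.succ)).eventually
      (Unif_sv_near hC j.succ hρ1)
  obtain ⟨ρ', hρ', b3⟩ := Metric.eventually_nhds_iff.mp (ev3.and (ev4.and (ev5.and ev6)))
  set ρ : ℝ := min (ρ' / 2) (ε / 2) with hρ
  have hρ0 : 0 < ρ := lt_min (by linarith) (by linarith)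
  have hρa : ρ ≤ ρ' / 2 := min_le_left _ _
  have hρb : ρ ≤ ε / 2 := min_le_right _ _
  refine ⟨ρ, hρ0, δ, hδ0, K1 + K2 * Real.exp (K2 * (|(C.yc j).im| + 1)), by positivity,
    p1 + p2, ?_⟩
  filter_upwards [hev1, eventually_ge_atTop 1] with M hM hM1 ta tb hta htb
  have hM0 : (1 : ℝ) ≤ M := by exact_mod_cast hM1
  have hdist : dist (ta, tb) (C.xc (Tr.par j), C.xc j.succ) < ρ' := by
    rw [Prod.dist_eq, max_lt_iff]
    simp only [Real.dist_eq]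
    constructor <;> linarith
  obtain ⟨c1, c2, c3, c4⟩ := b3 (y := (ta, tb)) hdist
  simp only at c1 c2 c3 c4
  set d : ℂ := D (ta, tb) with hd
  have hd' : C.L j (Tr.par j) * (ta - C.xc (Tr.par j)) + C.L j j.succ * (tb - C.xc j.succ) = d :=
    rfl
  rw [hd']
  obtain ⟨o1, n1⟩ := Unif_g_ok hC hs (Tr.par j) ta
  obtain ⟨o2, n2⟩ := Unif_g_ok hC hs j.succ tb
  have t1 := hM (C.sv (Tr.par j) (Unif_g C (Tr.par j) ta)) (C.sv j.succ (Unif_g C j.succ tb))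
    o1 o2 n1 n2 c3 c4
  rw [← intervalIntegral.integral_const_mul] at t1
  have hEb : ∀ t : ℝ, 0 ≤ t → t ≤ 1 →
      EE (C.sv (Tr.par j) (Unif_g C (Tr.par j) ta)) (C.sv j.succ (Unif_g C j.succ tb))
        (C.yc j + r + t * d) ≤ C.Fc j - δ2 ∧
      EE (C.sv (Tr.par j) (Unif_g C (Tr.par j) ta)) (C.sv j.succ (Unif_g C j.succ tb))
        (C.yc j - r + t * d) ≤ C.Fc j - δ2 := by
    intro t ht0 ht1
    have htd : ‖(t : ℂ) * d‖ ≤ ‖d‖ := by
      rw [norm_mul, norm_real, Real.norm_eq_abs, abs_of_nonneg ht0]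
      have := norm_nonneg d
      nlinarith
    have hprod : ∀ w : ℂ, dist ((ta, tb), w + t * d) ((C.xc (Tr.par j), C.xc j.succ), w) < ε := by
      intro w
      rw [Prod.dist_eq, max_lt_iff, Prod.dist_eq, max_lt_iff]
      simp only [dist_eq_norm, Real.norm_eq_abs, add_sub_cancel_left]
      refine ⟨⟨by linarith, by linarith⟩, by linarith⟩
    exact ⟨(b1 (y := ((ta, tb), C.yc j + r + t * d)) ((hprod _).trans_le hεa)).le,
      (b2 (y := ((ta, tb), C.yc j - r + t * d)) ((hprod _).trans_le hεb)).le⟩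
  have t2 := hsh M (C.sv (Tr.par j) (Unif_g C (Tr.par j) ta)) (C.sv j.succ (Unif_g C j.succ tb))
    (C.yc j) d r (C.Fc j - δ2) hM1 o1 o2 hr0 (by linarith) (by linarith) hEb
  have hLt : C.Fc j - δ < C.Lt j (Unif_g C (Tr.par j) ta) (Unif_g C j.succ tb) := by linarith
  generalize C.Lt j (Unif_g C (Tr.par j) ta) (Unif_g C j.succ tb) = Λ at hLt ⊢
  have x1 : Real.exp (M * (C.Fc j - δ1)) ≤ Real.exp (M * (Λ - δ)) := by
    apply Real.exp_le_exp.2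
    apply mul_le_mul_of_nonneg_left _ (by linarith)
    linarith
  have x2 : Real.exp (M * (C.Fc j - δ2)) ≤ Real.exp (M * (Λ - δ)) := by
    apply Real.exp_le_exp.2
    apply mul_le_mul_of_nonneg_left _ (by linarith)
    linarith
  have y1 : (M : ℝ) ^ p1 ≤ (M : ℝ) ^ (p1 + p2) := pow_le_pow_right₀ hM0 (by omega)
  have y2 : (M : ℝ) ^ p2 ≤ (M : ℝ) ^ (p1 + p2) := pow_le_pow_right₀ hM0 (by omega)
  calc _ ≤ K1 * (M : ℝ) ^ p1 * Real.exp (M * (C.Fc j - δ1)) +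
        K2 * (M : ℝ) ^ p2 * Real.exp (K2 * (|(C.yc j).im| + 1)) *
          Real.exp (M * (C.Fc j - δ2)) := norm_sub_le_of_le_of_le t1 t2
    _ ≤ K1 * (M : ℝ) ^ (p1 + p2) * Real.exp (M * (Λ - δ)) +
        K2 * (M : ℝ) ^ (p1 + p2) * Real.exp (K2 * (|(C.yc j).im| + 1)) *
          Real.exp (M * (Λ - δ)) := by gcongr
    _ = _ := by ring

private theorem Unif_near_xl (hC : C.Crit) {v1 : Fin (m + 1) → ℝ} {lam : Fin m → Fin (m + 1) → ℝ}
    (hE : C.Edg v1 lam) :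
    ∃ ρ : ℝ, 0 < ρ ∧ ∀ i ∈ C.Op, ∀ t : ℝ, |t - C.xc i| ≤ ρ → |t| ≤ xl (C.θ i) (v1 i) := by
  obtain ⟨r1, h1, h2⟩ := Unif_pos (J := Fin (m + 1))
    (fun i => if i ∈ C.Op then xl (C.θ i) (v1 i) - |C.xc i| else 1) (fun i => by
      by_cases hi : i ∈ C.Op
      · rw [if_pos hi]
        linarith [Unif_xl hC hE i hi]
      · rw [if_neg hi]
        exact one_pos)
  refine ⟨r1, h1, fun i hi t ht => ?_⟩
  have := h2 i
  rw [if_pos hi] at this
  have h3 := abs_sub_abs_le_abs_sub t (C.xc i)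
  linarith

private theorem Unif_x_near {j : Fin m} {x : C.Op → ℝ} {ρ : ℝ} (hρ : 0 ≤ ρ)
    (h : ¬ ∃ i ∈ C.ic j, ρ < |x i - C.xc i|) :
    |Unif_x C x (Tr.par j) - C.xc (Tr.par j)| ≤ ρ ∧ |Unif_x C x j.succ - C.xc j.succ| ≤ ρ := by
  constructor
  · unfold Unif_x
    by_cases hi : (Tr.par j) ∈ C.Op
    · rw [dif_pos hi]
      by_contra hcon
      exact h ⟨⟨_, hi⟩, Finset.mem_filter.mpr ⟨Finset.mem_univ _, Or.inl rfl⟩, not_le.mp hcon⟩
    · rw [dif_neg hi, sub_self, abs_zero]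
      exact hρ
  · unfold Unif_x
    by_cases hi : j.succ ∈ C.Op
    · rw [dif_pos hi]
      by_contra hcon
      exact h ⟨⟨_, hi⟩, Finset.mem_filter.mpr ⟨Finset.mem_univ _, Or.inr rfl⟩, not_le.mp hcon⟩
    · rw [dif_neg hi, sub_self, abs_zero]
      exact hρ

/-- The integrand of an edge near the critical point. -/
private theorem Unif_fe (v1 : Fin (m + 1) → ℝ) (ε : ℝ) (M : ℕ) (j : Fin m) (x : C.Op → ℝ) (s : ℝ)
    (ha : (Tr.par j) ∈ C.Op → |Unif_x C x (Tr.par j)| ≤ xl (C.θ (Tr.par j)) (v1 (Tr.par j)))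
    (hb : j.succ ∈ C.Op → |Unif_x C x j.succ| ≤ xl (C.θ j.succ) (v1 j.succ)) :
    C.fe' v1 ε M j x s = (M : ℂ) * FM M (C.sv (Tr.par j) (Unif_g C (Tr.par j) (Unif_x C x (Tr.par j))))
      (C.sv j.succ (Unif_g C j.succ (Unif_x C x j.succ)))
      (C.yc j + (C.L j (Tr.par j) * (Unif_x C x (Tr.par j) - C.xc (Tr.par j)) +
        C.L j j.succ * (Unif_x C x j.succ - C.xc j.succ)) + s) := by
  unfold Cfg.fe'
  rw [Unif_slx, Unif_slx, Unif_pt_eq v1 ε x _ ha, Unif_pt_eq v1 ε x _ hb]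
  congr 2
  have e1 : (if h : (Tr.par j) ∈ C.Op then
      C.L j (Tr.par j) * ((x ⟨(Tr.par j), h⟩ : ℂ) - C.xc (Tr.par j)) else 0) =
      C.L j (Tr.par j) * (Unif_x C x (Tr.par j) - C.xc (Tr.par j)) := by
    unfold Unif_x
    by_cases h : (Tr.par j) ∈ C.Op
    · rw [dif_pos h, dif_pos h]
    · rw [dif_neg h, dif_neg h, sub_self, mul_zero]
  have e2 : (if h : j.succ ∈ C.Op then
      C.L j j.succ * ((x ⟨j.succ, h⟩ : ℂ) - C.xc j.succ) else 0) =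
      C.L j j.succ * (Unif_x C x j.succ - C.xc j.succ) := by
    unfold Unif_x
    by_cases h : j.succ ∈ C.Op
    · rw [dif_pos h, dif_pos h]
    · rw [dif_neg h, dif_neg h, sub_self, mul_zero]
  rw [e1, e2]
  ring

/-- The kernels near the critical point, the other variables and `ε` are arbitrary. -/
theorem Cfg.K_loc_eps (hK : KsL) (hC : C.Crit)
    (hs : ∀ i, i ∉ C.Op → C.s i = 1 ∨ C.s i = -1)
    {v1 : Fin (m + 1) → ℝ} {lam : Fin m → Fin (m + 1) → ℝ}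
    (hE : C.Edg v1 lam) :
    ∃ r1 : ℝ, 0 < r1 ∧ ∀ r : ℝ, 0 < r → r ≤ r1 → ∃ ρ : ℝ, 0 < ρ ∧ ∃ δ : ℝ, 0 < δ ∧
    ∃ K : ℝ, 0 < K ∧ ∃ p : ℕ, ∀ᶠ M : ℕ in atTop, ∀ (j : Fin m) (ε : ℝ) (x : C.Op → ℝ),
      (¬ ∃ i ∈ C.ic j, ρ < |x i - C.xc i|) →
      ‖C.kk v1 ε M j x - ∫ s in (-r)..r, C.fe' v1 ε M j x s‖ ≤
        K * (M : ℝ) ^ p * Real.exp (M * (C.ka v1 lam ε j x - δ)) := by
  obtain ⟨ρ0, hρ0, hxl⟩ := Unif_near_xl hC hE
  have hL := fun j => Unif_loc hK hC hs hE j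
  choose r1 hr1 hr using hL
  obtain ⟨r0, hr0, hr0'⟩ := Unif_pos r1 hr1
  refine ⟨r0, hr0, fun r hr' hrle => ?_⟩
  have hr2 := fun j => hr j r hr' (hrle.trans (hr0' j))
  choose ρ hρ δ hδ K hK0 p hp using hr2
  obtain ⟨ρ1, hρ1, hρ1'⟩ := Unif_pos ρ hρ
  refine ⟨min ρ0 ρ1, lt_min hρ0 hρ1, ?_⟩
  have key : ∀ (j : Fin m) (M : ℕ), (∀ ta tb : ℝ,
      |ta - C.xc (Tr.par j)| ≤ ρ j → |tb - C.xc j.succ| ≤ ρ j →
      ‖KE M (C.sv (Tr.par j) (Unif_g C (Tr.par j) ta)) (C.sv j.succ (Unif_g C j.succ tb)) -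
        ∫ s in (-r)..r, (M : ℂ) * FM M (C.sv (Tr.par j) (Unif_g C (Tr.par j) ta))
          (C.sv j.succ (Unif_g C j.succ tb)) (C.yc j + (C.L j (Tr.par j) * (ta - C.xc (Tr.par j)) +
            C.L j j.succ * (tb - C.xc j.succ)) + s)‖ ≤
        K j * (M : ℝ) ^ p j * Real.exp (M * (C.Lt j (Unif_g C (Tr.par j) ta)
          (Unif_g C j.succ tb) - δ j))) → ∀ (ε : ℝ) (x : C.Op → ℝ),
      (¬ ∃ i ∈ C.ic j, min ρ0 ρ1 < |x i - C.xc i|) →
      ‖C.kk v1 ε M j x - ∫ s in (-r)..r, C.fe' v1 ε M j x s‖ ≤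
        K j * (M : ℝ) ^ p j * Real.exp (M * (C.ka v1 lam ε j x - δ j)) := by
    intro j M hM ε x hx
    obtain ⟨g1, g2⟩ := Unif_x_near (lt_min hρ0 hρ1).le hx
    have ha : (Tr.par j) ∈ C.Op → |Unif_x C x (Tr.par j)| ≤ xl (C.θ (Tr.par j)) (v1 (Tr.par j)) :=
      fun h => hxl _ h _ (g1.trans (min_le_left _ _))
    have hb : j.succ ∈ C.Op → |Unif_x C x j.succ| ≤ xl (C.θ j.succ) (v1 j.succ) :=
      fun h => hxl _ h _ (g2.trans (min_le_left _ _))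
    have h3 := hM (Unif_x C x (Tr.par j)) (Unif_x C x j.succ)
      ((g1.trans (min_le_right _ _)).trans (hρ1' j)) ((g2.trans (min_le_right _ _)).trans (hρ1' j))
    have e1 : ∀ s : ℝ, C.fe' v1 ε M j x s = _ := fun s => Unif_fe v1 ε M j x s ha hb
    simp only [e1]
    rw [Unif_kk, Unif_ka, Unif_pt_eq v1 ε x _ ha, Unif_pt_eq v1 ε x _ hb, Unif_Lw hC hE j ha hb]
    exact h3
  obtain ⟨δ', hδ', K', hK', p', hp'⟩ := Unif_comb (J := Fin m) (X := ℝ × (C.Op → ℝ))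
    (κ := fun M j x => ‖C.kk v1 x.1 M j x.2 - ∫ s in (-r)..r, C.fe' v1 x.1 M j x.2 s‖)
    (L := fun j x => C.ka v1 lam x.1 j x.2)
    (R := fun j x => ¬ ∃ i ∈ C.ic j, min ρ0 ρ1 < |x.2 i - C.xc i|) (fun j =>
      ⟨δ j, hδ j, K j, hK0 j, p j, by
        filter_upwards [hp j] with M hM
        rintro ⟨ε, x⟩ hx
        exact key j M hM ε x hx⟩)
  refine ⟨δ', hδ', K', hK', p', ?_⟩
  filter_upwards [hp'] with M hM j ε x hx
  exact hM j (ε, x) hx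

/-- The kernels near the critical point. -/
theorem Cfg.K_loc (hK : KsL) (hC : C.Crit) (hs : ∀ i, i ∉ C.Op → C.s i = 1 ∨ C.s i = -1)
    {v1 : Fin (m + 1) → ℝ} {lam : Fin m → Fin (m + 1) → ℝ}
    (hE : C.Edg v1 lam) {ε : ℝ} (hε : 0 < ε) :
    ∃ r1 : ℝ, 0 < r1 ∧ ∀ r : ℝ, 0 < r → r ≤ r1 → ∃ ρ : ℝ, 0 < ρ ∧ ∃ δ : ℝ, 0 < δ ∧
    ∃ K : ℝ, 0 < K ∧ ∃ p : ℕ, ∀ᶠ M : ℕ in atTop, ∀ (j : Fin m) (x : C.Op → ℝ),
      (∀ i, |x i - C.xc i| ≤ ρ) →
      ‖C.kk v1 ε M j x - ∫ s in (-r)..r, C.fe' v1 ε M j x s‖ ≤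
        K * (M : ℝ) ^ p * Real.exp (M * (C.ka v1 lam ε j x - δ)) := by
  obtain ⟨r1, hr1, h⟩ := Cfg.K_loc_eps hK hC hs hE
  refine ⟨r1, hr1, fun r h1 h2 => ?_⟩
  obtain ⟨ρ, hρ, δ, hδ, K, hK0, p, hp⟩ := h r h1 h2
  refine ⟨ρ, hρ, δ, hδ, K, hK0, p, ?_⟩
  filter_upwards [hp] with M hM j x hx
  refine hM j ε x ?_
  rintro ⟨i, _, hi⟩
  exact absurd (hx i) (not_le.mpr hi)

/-! ### The bound -/

private theorem Unif_sv_g (i : Fin (m + 1)) (t : ℝ) :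
    C.sv i (gdv (ul (C.θ i) t)) = C.sv i (Unif_g C i t) := by
  unfold Cfg.sv Unif_g
  by_cases hi : i ∈ C.Op
  · rw [if_pos hi, if_pos hi, if_pos hi]
  · rw [if_neg hi, if_neg hi]

private theorem Unif_lv_g (j : Fin m) (i : Fin (m + 1)) (t : ℝ) :
    C.lv j i (gdv (ul (C.θ i) t)) = C.lv j i (Unif_g C i t) := by
  unfold Cfg.lv Unif_g
  by_cases hi : i ∈ C.Op
  · rw [if_pos hi, if_pos hi, if_pos hi]
  · rw [if_neg hi, if_neg hi]

/-- The bound of the integral near the critical point. -/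
private theorem Unif_int (hC : C.Crit) (hs : ∀ i, i ∉ C.Op → C.s i = 1 ∨ C.s i = -1)
    (j : Fin m) :
    ∃ ρ : ℝ, 0 < ρ ∧ ∃ K : ℝ, 0 < K ∧ ∃ p : ℕ, ∀ M : ℕ, 1 ≤ M → ∀ r : ℝ, 0 < r → r ≤ ρ →
      ∀ ta tb : ℝ, |ta - C.xc (Tr.par j)| ≤ ρ → |tb - C.xc j.succ| ≤ ρ →
      ((Tr.par j) ∉ C.Op → ta = C.xc (Tr.par j)) → (j.succ ∉ C.Op → tb = C.xc j.succ) →
      ‖∫ s in (-r)..r, (M : ℂ) * FM M (C.sv (Tr.par j) (Unif_g C (Tr.par j) ta))
          (C.sv j.succ (Unif_g C j.succ tb)) (C.yc j + (C.L j (Tr.par j) * (ta - C.xc (Tr.par j)) +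
            C.L j j.succ * (tb - C.xc j.succ)) + s)‖ ≤
        K * (M : ℝ) ^ p * Real.exp (M * C.Lt j (Unif_g C (Tr.par j) ta) (Unif_g C j.succ tb)) := by
  obtain ⟨ρ0, hρ0, hneg⟩ := Cfg.edge_neg hC j
  obtain ⟨hre0, hre1⟩ := Unif_dom hC j
  obtain ⟨K, hK, p, hFM⟩ := FM_bound
  set Λ : ℝ := ‖C.L j (Tr.par j)‖ + ‖C.L j j.succ‖ + 1 with hΛ
  have hΛ0 : 0 < Λ := by positivity
  have hq0 : 0 < min (C.yc j).re (1 / 2 - (C.yc j).re) := lt_min hre0 (by linarith)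
  set q : ℝ := min (C.yc j).re (1 / 2 - (C.yc j).re) / 4 with hq
  have hqa : q ≤ (C.yc j).re / 4 := by
    have := min_le_left (C.yc j).re (1 / 2 - (C.yc j).re)
    rw [hq]
    linarith
  have hqb : q ≤ (1 / 2 - (C.yc j).re) / 4 := by
    have := min_le_right (C.yc j).re (1 / 2 - (C.yc j).re)
    rw [hq]
    linarith
  have hqpos : 0 < q := by rw [hq]; linarith
  set ρ : ℝ := min ρ0 (min q (q / Λ)) with hρ
  have hρpos : 0 < ρ := lt_min hρ0 (lt_min hqpos (by positivity))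
  have hρa : ρ ≤ ρ0 := min_le_left _ _
  have hρb : ρ ≤ q := (min_le_right _ _).trans (min_le_left _ _)
  have hρc : ρ ≤ q / Λ := (min_le_right _ _).trans (min_le_right _ _)
  refine ⟨ρ, hρpos, K * Real.exp (K * (|(C.yc j).im| + 1)), by positivity, p + 1, ?_⟩
  intro M hM r hr0 hr ta tb hta htb hca hcb
  have hM0 : (1 : ℝ) ≤ M := by exact_mod_cast hM
  set d : ℂ := C.L j (Tr.par j) * (ta - C.xc (Tr.par j)) + C.L j j.succ * (tb - C.xc j.succ) with hd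
  have hdn : ‖d‖ ≤ q := by
    have e1 : ‖((ta : ℂ) - C.xc (Tr.par j))‖ ≤ ρ := by
      rw [← ofReal_sub, norm_real]
      exact hta
    have e2 : ‖((tb : ℂ) - C.xc j.succ)‖ ≤ ρ := by
      rw [← ofReal_sub, norm_real]
      exact htb
    calc ‖d‖ ≤ ‖C.L j (Tr.par j) * (ta - C.xc (Tr.par j))‖ +
          ‖C.L j j.succ * (tb - C.xc j.succ)‖ := norm_add_le _ _
      _ ≤ ‖C.L j (Tr.par j)‖ * ρ + ‖C.L j j.succ‖ * ρ := by
          rw [norm_mul, norm_mul]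
          gcongr
      _ ≤ Λ * ρ := by
          rw [hΛ]
          linarith
      _ ≤ Λ * (q / Λ) := by gcongr
      _ = q := by field_simp
  have hcs : ∀ s ∈ Ι (-r) r, |s| ≤ ρ := by
    intro s hs
    rw [Set.uIoc_of_le (by linarith)] at hs
    exact abs_le.mpr ⟨by linarith [hs.1], by linarith [hs.2]⟩
  have hbd : ∀ s ∈ Ι (-r) r, ‖(M : ℂ) * FM M (C.sv (Tr.par j) (Unif_g C (Tr.par j) ta))
      (C.sv j.succ (Unif_g C j.succ tb)) (C.yc j + d + s)‖ ≤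
      M * (K * (M : ℝ) ^ p * Real.exp (K * (|(C.yc j).im| + 1)) *
        Real.exp (M * C.Lt j (Unif_g C (Tr.par j) ta) (Unif_g C j.succ tb))) := by
    intro s hs'
    have hsρ := hcs s hs'
    have hE := hneg (ta - C.xc (Tr.par j)) (tb - C.xc j.succ) s (hta.trans hρa) (htb.trans hρa)
      (hsρ.trans hρa) (fun h => by rw [hca h, sub_self]) (fun h => by rw [hcb h, sub_self])
    rw [show C.xc (Tr.par j) + (ta - C.xc (Tr.par j)) = ta by ring,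
      show C.xc j.succ + (tb - C.xc j.succ) = tb by ring, Unif_sv_g, Unif_sv_g] at hE
    have e0 : C.Lt j (gdv (ul (C.θ (Tr.par j)) ta)) (gdv (ul (C.θ j.succ) tb)) =
        C.Lt j (Unif_g C (Tr.par j) ta) (Unif_g C j.succ tb) := by
      unfold Cfg.Lt
      rw [Unif_lv_g, Unif_lv_g]
    have e1 : C.yc j + C.L j (Tr.par j) * ((ta - C.xc (Tr.par j) : ℝ) : ℂ) +
        C.L j j.succ * ((tb - C.xc j.succ : ℝ) : ℂ) + s = C.yc j + d + s := by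
      rw [hd]
      push_cast
      ring
    rw [e0, e1] at hE
    have hdre := (abs_re_le_norm d).trans hdn
    have hdim := (abs_im_le_norm d).trans hdn
    rw [abs_le] at hdre hsρ
    have hre : (C.yc j + d + s).re = (C.yc j).re + d.re + s := by
      rw [add_re, add_re, ofReal_re]
    have him : (C.yc j + d + s).im = (C.yc j).im + d.im := by
      rw [add_im, add_im, ofReal_im, add_zero]
    have hMd : 1 / (2 * (M : ℝ)) ≤ 1 / 2 := by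
      rw [div_le_div_iff₀ (by positivity) (by norm_num)]
      linarith
    have hb := hFM M hM _ _ (C.yc j + d + s) (Unif_g_ok hC hs (Tr.par j) ta).1
      (Unif_g_ok hC hs j.succ tb).1 (by rw [hre]; linarith [hdre.1, hsρ.1])
      (by rw [hre]; linarith [hdre.2, hsρ.2])
    rw [norm_mul, Complex.norm_natCast]
    apply mul_le_mul_of_nonneg_left _ (by linarith)
    have hi1 : |(C.yc j + d + s).im| ≤ |(C.yc j).im| + 1 := by
      rw [him]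
      exact (abs_add_le _ _).trans (by linarith)
    have hx2 : Real.exp (M * EE (C.sv (Tr.par j) (Unif_g C (Tr.par j) ta))
        (C.sv j.succ (Unif_g C j.succ tb)) (C.yc j + d + s)) ≤
        Real.exp (M * C.Lt j (Unif_g C (Tr.par j) ta) (Unif_g C j.succ tb)) := by
      apply Real.exp_le_exp.2
      exact mul_le_mul_of_nonneg_left hE (by linarith)
    have hx1 : Real.exp (K * |(C.yc j + d + s).im|) ≤
        Real.exp (K * (|(C.yc j).im| + 1)) := by gcongr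
    refine hb.trans ?_
    gcongr
  have h := intervalIntegral.norm_integral_le_of_norm_le_const hbd
  refine h.trans ?_
  have hr2 : |r - -r| ≤ 1 := by
    rw [show r - -r = 2 * r by ring, abs_of_pos (by linarith)]
    linarith
  have hP : 0 ≤ M * (K * (M : ℝ) ^ p * Real.exp (K * (|(C.yc j).im| + 1)) *
        Real.exp (M * C.Lt j (Unif_g C (Tr.par j) ta) (Unif_g C j.succ tb))) := by positivity
  calc _ ≤ M * (K * (M : ℝ) ^ p * Real.exp (K * (|(C.yc j).im| + 1)) *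
        Real.exp (M * C.Lt j (Unif_g C (Tr.par j) ta) (Unif_g C j.succ tb))) * 1 :=
        mul_le_mul_of_nonneg_left hr2 hP
    _ = _ := by ring

/-- The bound of the kernels, uniformly in the height `ε`. -/
theorem Cfg.K_bd_eps (hK : KsB) (hK' : KsL) (hC : C.Crit)
    (hs : ∀ i, i ∉ C.Op → C.s i = 1 ∨ C.s i = -1)
    {v1 : Fin (m + 1) → ℝ} {lam : Fin m → Fin (m + 1) → ℝ}
    (hE : C.Edg v1 lam) : ∃ ε0 : ℝ, 0 < ε0 ∧ (∀ i ∈ C.Op, ε0 ≤ bl (C.θ i) (v1 i)) ∧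
    ∃ K : ℝ, 0 < K ∧ ∃ p : ℕ, ∀ᶠ M : ℕ in atTop, ∀ (j : Fin m) (ε : ℝ) (x : C.Op → ℝ),
      0 < ε → ε ≤ ε0 →
      ‖C.kk v1 ε M j x‖ ≤ K * (M : ℝ) ^ p * Real.exp (M * C.ka v1 lam ε j x) := by
  obtain ⟨ε0, hε0, hbl, hfar'⟩ := Cfg.K_far_eps hK hC hs hE
  refine ⟨ε0, hε0, hbl, ?_⟩
  obtain ⟨r1, hr1, hloc⟩ := Cfg.K_loc_eps hK' hC hs hE
  obtain ⟨ρx, hρx, hxl⟩ := Unif_near_xl hC hE
  have hI := fun j => Unif_int hC hs j
  choose ρI hρI KI hKI pI hIb using hI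
  obtain ⟨ρ1, hρ1, hρ1'⟩ := Unif_pos ρI hρI
  set r : ℝ := min r1 ρ1 with hr
  have hr0 : 0 < r := lt_min hr1 hρ1
  obtain ⟨ρ2, hρ2, δ2, hδ2, K2, hK2, p2, hev2⟩ := hloc r hr0 (min_le_left _ _)
  set ρ : ℝ := min ρ2 (min ρ1 ρx) with hρ
  have hρ0 : 0 < ρ := lt_min hρ2 (lt_min hρ1 hρx)
  have hρa : ρ ≤ ρ2 := min_le_left _ _
  have hρb : ρ ≤ ρ1 := (min_le_right _ _).trans (min_le_left _ _)
  have hρc : ρ ≤ ρx := (min_le_right _ _).trans (min_le_right _ _)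
  obtain ⟨δ3, hδ3, K3, hK3, p3, hev3⟩ := hfar' ρ hρ0
  refine ⟨K3 + K2 + ∑ j, KI j, by
    have : 0 ≤ ∑ j, KI j := Finset.sum_nonneg fun j _ => (hKI j).le
    linarith, p3 + p2 + ∑ j, pI j, ?_⟩
  filter_upwards [hev2, hev3, eventually_ge_atTop 1] with M h2 h3 hM j ε x hε hεle
  have hM0 : (1 : ℝ) ≤ M := by exact_mod_cast hM
  have hsum : ∀ j, KI j ≤ ∑ j, KI j := fun j =>
    Finset.single_le_sum (f := KI) (fun i _ => (hKI i).le) (Finset.mem_univ j)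
  have hsump : ∀ j, pI j ≤ ∑ j, pI j := fun j =>
    Finset.single_le_sum (f := pI) (fun i _ => Nat.zero_le _) (Finset.mem_univ j)
  have hsum0 : 0 ≤ ∑ j, KI j := (hKI j).le.trans (hsum j)
  by_cases hx : ∃ i ∈ C.ic j, ρ ≤ |x i - C.xc i|
  · refine (h3 j ε x hε hεle hx).trans ?_
    have e1 : Real.exp (M * (C.ka v1 lam ε j x - δ3)) ≤ Real.exp (M * C.ka v1 lam ε j x) := by
      apply Real.exp_le_exp.2
      apply mul_le_mul_of_nonneg_left _ (by linarith)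
      linarith
    have e2 : (M : ℝ) ^ p3 ≤ (M : ℝ) ^ (p3 + p2 + ∑ j, pI j) :=
      pow_le_pow_right₀ hM0 (by omega)
    have e3 : K3 ≤ K3 + K2 + ∑ j, KI j := by linarith
    have e4 : (0 : ℝ) < (M : ℝ) ^ p3 := by positivity
    have e5 : 0 < K3 + K2 + ∑ j, KI j := by linarith
    gcongr
  · have hx2 : ¬ ∃ i ∈ C.ic j, ρ2 < |x i - C.xc i| := by
      rintro ⟨i, hi, hi2⟩
      exact hx ⟨i, hi, (hρa.trans hi2.le)⟩
    have hx3 : ¬ ∃ i ∈ C.ic j, ρ < |x i - C.xc i| := by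
      rintro ⟨i, hi, hi2⟩
      exact hx ⟨i, hi, hi2.le⟩
    obtain ⟨g1, g2⟩ := Unif_x_near hρ0.le hx3
    have ha : (Tr.par j) ∈ C.Op → |Unif_x C x (Tr.par j)| ≤ xl (C.θ (Tr.par j)) (v1 (Tr.par j)) :=
      fun h => hxl _ h _ (g1.trans hρc)
    have hb : j.succ ∈ C.Op → |Unif_x C x j.succ| ≤ xl (C.θ j.succ) (v1 j.succ) :=
      fun h => hxl _ h _ (g2.trans hρc)
    have t1 := h2 j ε x hx2
    have e1 : ∀ s : ℝ, C.fe' v1 ε M j x s = _ := fun s => Unif_fe v1 ε M j x s ha hb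
    have hca : (Tr.par j) ∉ C.Op → Unif_x C x (Tr.par j) = C.xc (Tr.par j) := by
      intro h
      unfold Unif_x
      rw [dif_neg h]
    have hcb : j.succ ∉ C.Op → Unif_x C x j.succ = C.xc j.succ := by
      intro h
      unfold Unif_x
      rw [dif_neg h]
    have t2 := hIb j M hM r hr0 ((min_le_right _ _).trans (hρ1' j)) (Unif_x C x (Tr.par j))
      (Unif_x C x j.succ) ((g1.trans hρb).trans (hρ1' j)) ((g2.trans hρb).trans (hρ1' j)) hca hcb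
    simp only [e1] at t1
    rw [← Unif_Lw hC hE j ha hb] at t2
    rw [← Unif_pt_eq v1 ε x _ ha, ← Unif_pt_eq v1 ε x _ hb] at t1 t2
    rw [← Unif_ka] at t2
    have t3 := (norm_le_norm_sub_add _ _).trans (add_le_add t1 t2)
    refine t3.trans ?_
    have e2 : Real.exp (M * (C.ka v1 lam ε j x - δ2)) ≤ Real.exp (M * C.ka v1 lam ε j x) := by
      apply Real.exp_le_exp.2
      apply mul_le_mul_of_nonneg_left _ (by linarith)
      linarith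
    have e3 : (M : ℝ) ^ p2 ≤ (M : ℝ) ^ (p3 + p2 + ∑ j, pI j) :=
      pow_le_pow_right₀ hM0 (by omega)
    have e4 : (M : ℝ) ^ pI j ≤ (M : ℝ) ^ (p3 + p2 + ∑ j, pI j) :=
      pow_le_pow_right₀ hM0 (by have := hsump j; omega)
    have e5 := Real.exp_pos (M * C.ka v1 lam ε j x)
    have e6 : (0 : ℝ) < (M : ℝ) ^ (p3 + p2 + ∑ j, pI j) := by positivity
    calc K2 * (M : ℝ) ^ p2 * Real.exp (M * (C.ka v1 lam ε j x - δ2)) +
          KI j * (M : ℝ) ^ pI j * Real.exp (M * C.ka v1 lam ε j x)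
        ≤ K2 * (M : ℝ) ^ (p3 + p2 + ∑ j, pI j) * Real.exp (M * C.ka v1 lam ε j x) +
          (∑ j, KI j) * (M : ℝ) ^ (p3 + p2 + ∑ j, pI j) * Real.exp (M * C.ka v1 lam ε j x) := by
          have := hsum j
          have := hKI j
          gcongr
      _ = (K2 + ∑ j, KI j) * ((M : ℝ) ^ (p3 + p2 + ∑ j, pI j) *
          Real.exp (M * C.ka v1 lam ε j x)) := by ring
      _ ≤ (K3 + K2 + ∑ j, KI j) * ((M : ℝ) ^ (p3 + p2 + ∑ j, pI j) *
          Real.exp (M * C.ka v1 lam ε j x)) := by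
          apply mul_le_mul_of_nonneg_right _ (by positivity)
          linarith
      _ = _ := by ring

/-- The bound of the kernels. -/
theorem Cfg.K_bd (hK : KsB) (hK' : KsL) (hC : C.Crit)
    (hs : ∀ i, i ∉ C.Op → C.s i = 1 ∨ C.s i = -1)
    {v1 : Fin (m + 1) → ℝ} {lam : Fin m → Fin (m + 1) → ℝ}
    (hE : C.Edg v1 lam) : ∃ ε0 : ℝ, 0 < ε0 ∧ ∀ ε : ℝ, 0 < ε → ε ≤ ε0 →
    ∃ K : ℝ, 0 < K ∧ ∃ p : ℕ, ∀ᶠ M : ℕ in atTop, ∀ (j : Fin m) (x : C.Op → ℝ),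
      ‖C.kk v1 ε M j x‖ ≤ K * (M : ℝ) ^ p * Real.exp (M * C.ka v1 lam ε j x) := by
  obtain ⟨ε0, hε0, _, K, hK0, p, hp⟩ := Cfg.K_bd_eps hK hK' hC hs hE
  refine ⟨ε0, hε0, fun ε h1 h2 => ⟨K, hK0, p, ?_⟩⟩
  filter_upwards [hp] with M hM j x
  exact hM j ε x h1 h2

end Pool.Agent.AT
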