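import Pool.Agent.AT.Tree
import Pool.Agent.AT.Low1
import Pool.Agent.S3.Low2
import Pool.Agent.AT.Unif

/-! # The small indices: the abstract theorem

`T`: the open vertices at an edge with small index. Their contours are close to the real axis. The
share of such a vertex in the bound of an edge is the canonical one at a test point `t i` of its line,
and minus `ρ i` for an edge with small index (`g0 = 0`: the degrees of the vertices play no role).
-/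

namespace Pool.Agent.AT

set_option linter.unusedSectionVars false

open Pool.Agent.S3

open Pool.Agent.H63.VC hiding ext
open Pool.Agent.H63.VC3 Pool.Agent.H63.VC4 Pool.Agent.H63.VC6 Pool.Agent.H63.VC7 Complex
open Pool.Agent.H25.RK Filter Topology MeasureTheory
open scoped BigOperators

variable {m : ℕ} [Tr m]

/-! ### General lemmas -/

/-- The real segment. -/
def rseg : Set ℂ := {v | v.im = 0 ∧ |v.re| ≤ 1 / 2}

theorem rseg_compact : IsCompact rseg := by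
  have e : rseg = (fun x : ℝ => (x : ℂ)) '' Set.Icc (-(1 / 2)) (1 / 2) := by
    ext v
    constructor
    · rintro ⟨h1, h2⟩
      refine ⟨v.re, abs_le.1 h2, ?_⟩
      apply Complex.ext
      · simp
      · simp [h1]
    · rintro ⟨x, hx, rfl⟩
      exact ⟨by simp, by simpa using abs_le.2 hx⟩
  rw [e]
  exact isCompact_Icc.image continuous_ofReal

/-- A finite number of uniform statements. -/
theorem low_choose {J : Type*} [Finite J] {P : J → ℝ → ℝ → ℕ → Prop}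
    (mono : ∀ j η η' K K' p p', P j η K p → 0 < K → η' ≤ η → K ≤ K' → p ≤ p' → P j η' K' p')
    (h : ∀ j, ∃ η : ℝ, 0 < η ∧ ∃ K : ℝ, 0 < K ∧ ∃ p : ℕ, P j η K p) :
    ∃ η : ℝ, 0 < η ∧ ∃ K : ℝ, 0 < K ∧ ∃ p : ℕ, ∀ j, P j η K p := by
  have := Fintype.ofFinite J
  choose η hη K hK p hp using h
  have hex : ∃ η' : ℝ, 0 < η' ∧ ∀ j, η' ≤ η j := by
    by_cases hJ : Nonempty J
    · refine ⟨Finset.univ.inf' Finset.univ_nonempty η, ?_, fun j => Finset.inf'_le _ (Finset.mem_univ j)⟩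
      rw [Finset.lt_inf'_iff]
      exact fun j _ => hη j
    · exact ⟨1, one_pos, fun j => absurd ⟨j⟩ hJ⟩
  obtain ⟨η', h0, h1⟩ := hex
  refine ⟨η', h0, ∑ j, K j + 1, ?_, ∑ j, p j, fun j => ?_⟩
  · have : 0 ≤ ∑ j, K j := Finset.sum_nonneg fun j _ => (hK j).le
    linarith
  · refine mono j _ _ _ _ _ _ (hp j) (hK j) (h1 j) ?_ ?_
    · have := Finset.single_le_sum (f := K) (fun i _ => (hK i).le) (Finset.mem_univ j)
      linarith
    · exact Finset.single_le_sum (f := p) (fun i _ => Nat.zero_le _) (Finset.mem_univ j)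

/-- A continuous function near a compact set. -/
theorem low_near {X : Type*} [PseudoMetricSpace X] {f : X → ℝ} (hf : Continuous f) {S : Set X}
    (hS : IsCompact S) {a : ℝ} (h : ∀ x ∈ S, f x < a) :
    ∃ η : ℝ, 0 < η ∧ ∀ x, (∃ s ∈ S, dist x s ≤ η) → f x < a := by
  have hU : IsOpen {x | f x < a} := isOpen_lt hf continuous_const
  obtain ⟨η, hη, hsub⟩ := hS.exists_thickening_subset_open hU h
  refine ⟨η / 2, by linarith, ?_⟩
  rintro x ⟨s, hs, hd⟩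
  apply hsub
  rw [Metric.mem_thickening_iff]
  exact ⟨s, hs, by linarith⟩

theorem low_pow_le {K K' M e : ℝ} {p p' : ℕ} (hM : 1 ≤ M) (hK : 0 < K) (h1 : K ≤ K')
    (h2 : p ≤ p') : K * M ^ p * Real.exp e ≤ K' * M ^ p' * Real.exp e := by
  have h3 : M ^ p ≤ M ^ p' := pow_le_pow_right₀ hM h2
  have h4 : 0 < M ^ p := by positivity
  have h5 : 0 < K' := hK.trans_le h1
  gcongr

/-- The bound of the kernel near a compact set of good pairs. -/
theorem low_KE (hK : KsB) (σ τ : ℂ → Sl)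
    (hσ : (σ = fun v => .op v) ∨ ∃ s, σ = fun _ => .cl s)
    (hτ : (τ = fun v => .op v) ∨ ∃ s, τ = fun _ => .cl s) (L : ℂ × ℂ → ℝ) (hL : Continuous L)
    (S : Set (ℂ × ℂ)) (hS : IsCompact S) (h : ∀ p ∈ S, EdgeOK (σ p.1) (τ p.2) (L p)) :
    ∃ η : ℝ, 0 < η ∧ ∃ K : ℝ, 0 < K ∧ ∃ p : ℕ, ∀ M : ℕ, 1 ≤ M → ∀ q : ℂ × ℂ,
      (∃ q' ∈ S, dist q q' ≤ η) → (σ q.1).ok → (τ q.2).ok → (σ q.1).nn → (τ q.2).nn →
      ‖KE M (σ q.1) (τ q.2)‖ ≤ K * (M : ℝ) ^ p * Real.exp (M * L q) := by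
  obtain ⟨N, η, hη, δ, hδ, hq⟩ := EdgeOK_compact σ τ hσ hτ L hL S hS h
  obtain ⟨R, hR⟩ := hS.isBounded.exists_norm_le
  obtain ⟨K, hK0, p, hb⟩ := hK N (R + η)
  refine ⟨η / 2, by linarith, K, hK0, p, fun M hM q hd o1 o2 n1 n2 => ?_⟩
  obtain ⟨q', hq', hd'⟩ := hd
  obtain ⟨a1, a2, n, hn, t, ht, a3, a4⟩ := hq q ⟨q', hq', by linarith⟩
  have hqn : ‖q‖ ≤ R + η := by
    have h1 := hR q' hq'
    have h2 := norm_le_norm_add_norm_sub' q q'
    rw [dist_eq_norm] at hd'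
    linarith
  have q1 : q.1.im ≤ R + η := ((le_abs_self _).trans (abs_im_le_norm _)).trans
    ((norm_fst_le q).trans hqn)
  have q2 : q.2.im ≤ R + η := ((le_abs_self _).trans (abs_im_le_norm _)).trans
    ((norm_snd_le q).trans hqn)
  have hbd : ∀ {σ : ℂ → Sl} {v : ℂ} {H : ℝ}, ((σ = fun v => .op v) ∨ ∃ s, σ = fun _ => .cl s) →
      v.im ≤ H → (σ v).bd H := by
    rintro σ v H (rfl | ⟨s, rfl⟩) h
    · exact h
    · trivial
  refine (hb M hM _ _ o1 o2 n1 n2 (hbd hσ q1) (hbd hτ q2) n hn t ht a3 _ a1 a2 a4).trans ?_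
  have hM0 : (0 : ℝ) ≤ M := Nat.cast_nonneg M
  have : (M : ℝ) * (L q - δ) ≤ M * L q := mul_le_mul_of_nonneg_left (by linarith) hM0
  have hp : (0 : ℝ) ≤ K * (M : ℝ) ^ p := by positivity
  exact mul_le_mul_of_nonneg_left (Real.exp_le_exp.2 this) hp

/-- The part of the kernel with small indices, term by term. -/
theorem low_KEr : ∃ K : ℝ, 0 < K ∧ ∃ p : ℕ, ∀ M : ℕ, 1 ≤ M → ∀ σ τ : Sl, σ.ok → τ.ok → ∀ B : ℝ,
    (∀ y ∈ Set.Icc (-(1 / 2) : ℝ) (-(1 / 10)), EE σ τ y ≤ B) →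
    ‖KEr (Finset.range (k0 M)) M σ τ‖ ≤ K * (M : ℝ) ^ p * Real.exp (M * B) := by
  obtain ⟨K, hK, p, h⟩ := term_bound
  refine ⟨K, hK, p + 1, fun M hM σ τ hσ hτ B hB => ?_⟩
  have hM0 : (0 : ℝ) < M := by exact_mod_cast hM
  unfold KEr
  have hk : ∀ k ∈ Finset.range (k0 M), ‖Cc 2 1 M (yk 2 M k : ℝ) * (sk M k σ * sk M k τ)‖ ≤
      K * (M : ℝ) ^ p * Real.exp (M * B) := by
    intro k hk
    have h1 : k < k0 M := Finset.mem_range.1 hk
    have h2 : 5 * (k + 1) ≤ 2 * M := by unfold k0 at h1; omega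
    have h3 : (5 : ℝ) * (k + 1) ≤ 2 * M := by exact_mod_cast h2
    have h4 : ((k : ℝ) + 1) / M ≤ 2 / 5 := by
      rw [div_le_iff₀ hM0]; linarith
    have h5 : 0 ≤ ((k : ℝ) + 1) / M := by positivity
    refine (h M k (h1.trans_le (k0_le M)) σ τ hσ hτ).trans ?_
    have h6 := hB (yk 2 M k) ⟨by rw [yk_two]; linarith, by rw [yk_two]; linarith⟩
    have h7 := mul_le_mul_of_nonneg_left h6 hM0.le
    have hp : (0 : ℝ) ≤ K * (M : ℝ) ^ p := by positivity
    exact mul_le_mul_of_nonneg_left (Real.exp_le_exp.2 h7) hp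
  refine (norm_sum_le_of_le _ hk).trans ?_
  rw [Finset.sum_const, Finset.card_range, nsmul_eq_mul]
  have h8 : ((k0 M : ℕ) : ℝ) ≤ M := by exact_mod_cast k0_le M
  have hp : (0 : ℝ) ≤ K * (M : ℝ) ^ p * Real.exp (M * B) := by positivity
  calc ((k0 M : ℕ) : ℝ) * (K * (M : ℝ) ^ p * Real.exp (M * B))
      ≤ M * (K * (M : ℝ) ^ p * Real.exp (M * B)) := mul_le_mul_of_nonneg_right h8 hp
    _ = _ := by ring

/-- The growth of a slot near the real segment, small indices. -/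
theorem low_se (hse : ∀ v y : ℝ, |v| ≤ 1 / 2 → y ∈ Set.Icc (-(1 / 2) : ℝ) 0 →
    se y (.op (v : ℂ)) ≤ 0) {μ : ℝ} (hμ : 0 < μ) : ∃ η : ℝ, 0 < η ∧ ∀ v : ℂ, |v.re| ≤ 1 / 2 →
      |v.im| ≤ η → ∀ y ∈ Set.Icc (-(1 / 2) : ℝ) (-(1 / 10)), se y (.op v) < μ := by
  have hc : Continuous fun p : ℂ × ℝ => se (p.2 : ℂ) (.op p.1) := by
    unfold se
    have h1 : Continuous fun p : ℂ × ℝ => (p.2 : ℂ) := continuous_ofReal.comp continuous_snd
    have h2 := Rf_continuous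
    exact ((continuous_const.mul (h2.comp (h1.add continuous_const))).sub
      (h2.comp (h1.sub continuous_fst))).sub (h2.comp (h1.add continuous_fst))
  obtain ⟨η, hη, h⟩ := low_near hc (rseg_compact.prod
    (isCompact_Icc (a := (-(1 / 2) : ℝ)) (b := -(1 / 10)))) (a := μ) (by
    rintro ⟨v, y⟩ ⟨⟨h1, h2⟩, h3⟩
    have h4 : v = ((v.re : ℝ) : ℂ) := by
      apply Complex.ext
      · simp
      · simpa using h1
    have h5 := hse v.re y h2 ⟨h3.1, by linarith [h3.2]⟩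
    show se (y : ℂ) (.op v) < μ
    rw [h4]
    exact h5.trans_lt hμ)
  refine ⟨η, hη, fun v h1 h2 y hy => ?_⟩
  refine h (v, y) ⟨(((v.re : ℝ) : ℂ), y), ⟨⟨by simp, by simpa using h1⟩, hy⟩, ?_⟩
  rw [Prod.dist_eq, dist_self]
  apply max_le _ hη.le
  have : v - ((v.re : ℝ) : ℂ) = (v.im : ℂ) * I := by
    apply Complex.ext <;> simp
  rw [dist_eq_norm, this, norm_mul, norm_I, mul_one, norm_real, Real.norm_eq_abs]
  exact h2

/-! ### The balance -/

/-- The balance at a vertex. -/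
theorem low_bal {i : Fin (m + 1)} {L : Finset (Fin m)} {g0 ρ : ℝ} (h0 : g0 = 0) (hρ : 0 ≤ ρ)
    (h1 : ∃ j ∈ L, j ∈ inc (Tr.par (m := m)) Fin.succ i) :
    ρ + ∑ j ∈ inc (Tr.par (m := m)) Fin.succ i, (if j ∈ L then -(g0 + ρ) else g0) ≤ 0 := by
  classical
  obtain ⟨j, hj, hi⟩ := h1
  rw [h0, ← Finset.add_sum_erase _ _ hi, if_pos hj]
  have h2 : ∑ x ∈ (inc (Tr.par (m := m)) Fin.succ i).erase j,
      (if x ∈ L then -(0 + ρ) else 0) ≤ 0 := by
    refine Finset.sum_nonpos fun x _ => ?_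
    split_ifs
    · linarith
    · exact le_rfl
  linarith

namespace Cfg

variable (C : Cfg m)

/-- The cost of a vertex at an edge with small index. -/
noncomputable def cr (g0 : ℝ) (ρ : Fin (m + 1) → ℝ) (i : Fin (m + 1)) : ℝ :=
  if i ∈ C.Op then g0 + ρ i else 0

/-- The limit contour of a vertex: the real segment if `b`. -/
def sT (v1 : Fin (m + 1) → ℝ) (b : Bool) (i : Fin (m + 1)) : Set ℂ :=
  if b then rseg else {v | (i ∈ C.Op → v ∈ G0 (C.θ i) (v1 i)) ∧ (i ∉ C.Op → v = 0)}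

/-- The share of a vertex at an edge with large index. -/
noncomputable def lT (v1 : Fin (m + 1) → ℝ) (lam : Fin m → Fin (m + 1) → ℝ)
    (t : Fin (m + 1) → ℂ) (g0 : ℝ) (b : Bool) (j : Fin m) (i : Fin (m + 1)) (v : ℂ) : ℝ :=
  if b then C.lv j i (t i) + g0 else C.lw v1 lam j i v

/-- The hypotheses of the abstract theorem. -/
structure LowH (v1 : Fin (m + 1) → ℝ) (lam : Fin m → Fin (m + 1) → ℝ)
    (t : Fin (m + 1) → ℂ) (g0 : ℝ) (ρ : Fin (m + 1) → ℝ) : Prop where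
  hg : g0 = 0
  hρ : ∀ i ∈ C.Op, 0 ≤ ρ i
  wt : ∀ i ∈ C.Op, -(wr (C.r i) (t i)).re ≤ ρ i
  bad : ∀ j : Fin m, C.cr g0 ρ (Tr.par j) + C.cr g0 ρ j.succ < C.Lt j (t (Tr.par j)) (t j.succ)
  good : ∀ (j : Fin m) (b b' : Bool), (b = true → (Tr.par j) ∈ C.Op) →
    (b' = true → j.succ ∈ C.Op) → (b = true ∨ b' = true) →
    ∀ v ∈ C.sT v1 b (Tr.par j), ∀ w ∈ C.sT v1 b' j.succ,
      EdgeOK (C.sv (Tr.par j) v) (C.sv j.succ w)
        (C.Fc j + C.lT v1 lam t g0 b j (Tr.par j) v + C.lT v1 lam t g0 b' j j.succ w)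

variable {C}

theorem lT_continuous (v1 : Fin (m + 1) → ℝ) (lam : Fin m → Fin (m + 1) → ℝ)
    (t : Fin (m + 1) → ℂ) (g0 : ℝ) (b : Bool) (j : Fin m) (i : Fin (m + 1)) :
    Continuous (C.lT v1 lam t g0 b j i) := by
  unfold lT
  cases b
  · simpa using lw_continuous v1 lam j i
  · simpa using continuous_const

theorem sT_compact (v1 : Fin (m + 1) → ℝ) (b : Bool) (i : Fin (m + 1)) :
    IsCompact (C.sT v1 b i) := by
  unfold sT
  cases b
  · simp only [Bool.false_eq_true, if_false]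
    by_cases h : i ∈ C.Op
    · have : {v : ℂ | (i ∈ C.Op → v ∈ G0 (C.θ i) (v1 i)) ∧ (i ∉ C.Op → v = 0)} =
          G0 (C.θ i) (v1 i) := by
        ext v
        constructor
        · exact fun hv => hv.1 h
        · exact fun hv => ⟨fun _ => hv, fun h' => absurd h h'⟩
      rw [this]
      exact G0_compact _ _
    · have : {v : ℂ | (i ∈ C.Op → v ∈ G0 (C.θ i) (v1 i)) ∧ (i ∉ C.Op → v = 0)} = {0} := by
        ext v
        constructor
        · exact fun hv => hv.2 h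
        · intro hv
          exact ⟨fun h' => absurd h' h, fun _ => hv⟩
      rw [this]
      exact isCompact_singleton
  · simp only [if_true]
    exact rseg_compact

theorem sv_cases (i : Fin (m + 1)) :
    (C.sv i = fun v => .op v) ∨ ∃ s, C.sv i = fun _ => .cl s := by
  by_cases h : i ∈ C.Op
  · left
    funext v
    unfold sv
    rw [if_pos h]
  · right
    refine ⟨C.s i, ?_⟩
    funext v
    unfold sv
    rw [if_neg h]

/-- The sum of the shares of a vertex. -/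
theorem lv_sum (hC : C.Crit) {i : Fin (m + 1)} (hi : i ∈ C.Op) (v : ℂ) :
    ∑ j ∈ inc (Tr.par (m := m)) Fin.succ i, C.lv j i v =
      (wr (C.r i) (C.vc i)).re - (wr (C.r i) v).re := by
  have e1 : ∀ j, C.lv j i v = (ev (C.yc j) (C.vc i) * (v - C.vc i) -
      I * C.β j i / 2 * (v - C.vc i) ^ 2).re := by
    intro j
    unfold lv ell
    rw [if_pos hi, ← neg_re]
    congr 1
    ring
  rw [Finset.sum_congr rfl fun j _ => e1 j, ← re_sum, ← sub_re]
  congr 1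
  rw [Finset.sum_sub_distrib, ← Finset.sum_mul, ← Finset.sum_mul, ← Finset.sum_div,
    ← Finset.mul_sum]
  have h1 := hC.hv i hi
  have h2 := hC.hβ i hi
  have h3 : ∑ j ∈ inc (Tr.par (m := m)) Fin.succ i, (C.β j i : ℂ) =
      4 * Real.pi * C.r i := by
    rw [← ofReal_sum, h2]
    push_cast
    ring
  rw [h3]
  have h4 : ∑ j ∈ inc (Tr.par (m := m)) Fin.succ i, ev (C.yc j) (C.vc i) =
      -(2 * Real.pi * I * (2 * C.r i * C.vc i + 1)) := by
    linear_combination h1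
  rw [h4]
  unfold wr
  ring

theorem lw_sum (hC : C.Crit) {v1 : Fin (m + 1) → ℝ} {lam : Fin m → Fin (m + 1) → ℝ}
    {i : Fin (m + 1)} (hi : i ∈ C.Op)
    (hl : ∑ j ∈ inc (Tr.par (m := m)) Fin.succ i, lam j i = 1) (v : ℂ) :
    ∑ j ∈ inc (Tr.par (m := m)) Fin.succ i, C.lw v1 lam j i v =
      (wr (C.r i) (C.vc i)).re - (wr (C.r i) v).re := by
  have e1 : ∀ j, C.lw v1 lam j i v = C.lv j i (pl (C.θ i) (v1 i) v) +
      lam j i * ((wr (C.r i) (pl (C.θ i) (v1 i) v)).re - (wr (C.r i) v).re) := by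
    intro j
    unfold lw
    rw [if_pos hi]
  rw [Finset.sum_congr rfl fun j _ => e1 j, Finset.sum_add_distrib, lv_sum hC hi,
    ← Finset.sum_mul, hl]
  ring

variable {v1 : Fin (m + 1) → ℝ} {lam : Fin m → Fin (m + 1) → ℝ} {t : Fin (m + 1) → ℂ} {g0 : ℝ}
  {ρ : Fin (m + 1) → ℝ}

/-- The kernels with large indices of the edges at `T`. -/
theorem LowH.bound (hK : KsB) (H : C.LowH v1 lam t g0 ρ) :
    ∃ η : ℝ, 0 < η ∧ ∃ K : ℝ, 0 < K ∧ ∃ p : ℕ, ∀ J : Fin m × Bool × Bool,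
      (J.2.1 = true → (Tr.par J.1) ∈ C.Op) → (J.2.2 = true → J.1.succ ∈ C.Op) →
      (J.2.1 = true ∨ J.2.2 = true) → ∀ M : ℕ, 1 ≤ M → ∀ v w : ℂ,
      (∃ v0 ∈ C.sT v1 J.2.1 (Tr.par J.1), ‖v - v0‖ ≤ η) →
      (∃ w0 ∈ C.sT v1 J.2.2 J.1.succ, ‖w - w0‖ ≤ η) →
      (C.sv (Tr.par J.1) v).ok → (C.sv J.1.succ w).ok → (C.sv (Tr.par J.1) v).nn →
      (C.sv J.1.succ w).nn →
      ‖KE M (C.sv (Tr.par J.1) v) (C.sv J.1.succ w)‖ ≤ K * (M : ℝ) ^ p *
        Real.exp (M * (C.Fc J.1 + C.lT v1 lam t g0 J.2.1 J.1 (Tr.par J.1) v +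
          C.lT v1 lam t g0 J.2.2 J.1 J.1.succ w)) := by
  refine low_choose (P := fun (J : Fin m × Bool × Bool) (η K : ℝ) (p : ℕ) =>
      (J.2.1 = true → (Tr.par J.1) ∈ C.Op) → (J.2.2 = true → J.1.succ ∈ C.Op) →
      (J.2.1 = true ∨ J.2.2 = true) → ∀ M : ℕ, 1 ≤ M → ∀ v w : ℂ,
      (∃ v0 ∈ C.sT v1 J.2.1 (Tr.par J.1), ‖v - v0‖ ≤ η) →
      (∃ w0 ∈ C.sT v1 J.2.2 J.1.succ, ‖w - w0‖ ≤ η) →
      (C.sv (Tr.par J.1) v).ok → (C.sv J.1.succ w).ok → (C.sv (Tr.par J.1) v).nn →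
      (C.sv J.1.succ w).nn →
      ‖KE M (C.sv (Tr.par J.1) v) (C.sv J.1.succ w)‖ ≤ K * (M : ℝ) ^ p *
        Real.exp (M * (C.Fc J.1 + C.lT v1 lam t g0 J.2.1 J.1 (Tr.par J.1) v +
          C.lT v1 lam t g0 J.2.2 J.1 J.1.succ w))) ?_ ?_
  · rintro J η η' K K' p p' h hK0 hη hKK hpp c1 c2 c3 M hM v w ⟨v0, a1, a2⟩ ⟨w0, a3, a4⟩ o1 o2 n1 n2
    refine (h c1 c2 c3 M hM v w ⟨v0, a1, a2.trans hη⟩ ⟨w0, a3, a4.trans hη⟩ o1 o2 n1 n2).trans ?_
    exact low_pow_le (by exact_mod_cast hM) hK0 hKK hpp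
  · rintro ⟨j, b, b'⟩
    by_cases hc : (b = true → (Tr.par j) ∈ C.Op) ∧ (b' = true → j.succ ∈ C.Op) ∧
        (b = true ∨ b' = true)
    · obtain ⟨c1, c2, c3⟩ := hc
      obtain ⟨η, hη, K, hK0, p, h⟩ := low_KE hK (C.sv (Tr.par j)) (C.sv j.succ) (sv_cases _)
        (sv_cases _) (fun q => C.Fc j + C.lT v1 lam t g0 b j (Tr.par j) q.1 +
          C.lT v1 lam t g0 b' j j.succ q.2)
        ((continuous_const.add ((lT_continuous v1 lam t g0 b j _).comp continuous_fst)).add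
          ((lT_continuous v1 lam t g0 b' j _).comp continuous_snd))
        (C.sT v1 b (Tr.par j) ×ˢ C.sT v1 b' j.succ)
        ((sT_compact v1 b _).prod (sT_compact v1 b' _))
        (fun q hq => H.good j b b' c1 c2 c3 q.1 hq.1 q.2 hq.2)
      refine ⟨η, hη, K, hK0, p, ?_⟩
      rintro - - - M hM v w ⟨v0, a1, a2⟩ ⟨w0, a3, a4⟩ o1 o2 n1 n2
      refine h M hM (v, w) ⟨(v0, w0), ⟨a1, a3⟩, ?_⟩ o1 o2 n1 n2
      rw [Prod.dist_eq]
      simp only [dist_eq_norm]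
      exact max_le a2 a4
    · refine ⟨1, one_pos, 1, one_pos, 0, ?_⟩
      intro c1 c2 c3
      exact absurd ⟨c1, c2, c3⟩ hc

/-- The value of the potential at the critical point. -/
noncomputable def e0 (C : Cfg m) : ℝ :=
  ∑ i : C.Op, (wr (C.r i) (C.vc i)).re + ∑ j, C.Fc j

/-- The point of the contour. -/
noncomputable def ptx (C : Cfg m) (γ : Fin (m + 1) → ℝ → ℂ) (x : C.Op → ℝ) (i : Fin (m + 1)) : ℂ :=
  if h : i ∈ C.Op then γ i (x ⟨i, h⟩) else 0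

theorem slx_eq (γ : Fin (m + 1) → ℝ → ℂ) (x : C.Op → ℝ) (i : Fin (m + 1)) :
    slx C.Op C.s γ x i = C.sv i (C.ptx γ x i) := by
  unfold slx sv ptx
  by_cases h : i ∈ C.Op
  · rw [dif_pos h, if_pos h, dif_pos h]
  · rw [dif_neg h, if_neg h]

section sum

variable (C) (v1) (lam) (t) (g0) (ρ)

/-- The share of a vertex in the bound of an edge. -/
noncomputable def Hs (L : Finset (Fin m)) (T : Fin (m + 1) → Prop) [DecidablePred T]
    (i : Fin (m + 1)) (j : Fin m) (v : ℂ) : ℝ :=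
  if i ∈ C.Op then (if T i then C.lv j i (t i) + (if j ∈ L then -(g0 + ρ i) else g0)
    else C.lw v1 lam j i v) else 0

variable {C} {v1} {lam} {t} {g0} {ρ}

/-- The sum of the growth rates. -/
theorem Hs_sum (hC : C.Crit) (hE : C.Edg v1 lam) (H : C.LowH v1 lam t g0 ρ) (L : Finset (Fin m))
    (T : Fin (m + 1) → Prop) [DecidablePred T]
    (hT : ∀ i ∈ C.Op, T i → ∃ j ∈ L, j ∈ inc (Tr.par (m := m)) Fin.succ i)
    (z : Fin (m + 1) → ℂ) {μ : ℝ} (hμ : 0 ≤ μ) {i : Fin (m + 1)} (hi : i ∈ C.Op) :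
    (if T i then μ else (wr (C.r i) (z i)).re) +
      ∑ j ∈ inc (Tr.par (m := m)) Fin.succ i, C.Hs v1 lam t g0 ρ L T i j (z i) ≤
      (wr (C.r i) (C.vc i)).re + μ := by
  unfold Hs
  simp only [if_pos hi]
  by_cases h : T i
  · simp only [if_pos h]
    rw [Finset.sum_add_distrib, lv_sum hC hi]
    have h1 := low_bal (i := i) (L := L) H.hg (H.hρ i hi) (hT i hi h)
    have h2 := H.wt i hi
    linarith
  · simp only [if_neg h]
    rw [lw_sum hC hi (hE.lam1 i hi)]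
    linarith

end sum

end Cfg

/-- A line of small height. -/
theorem low_line {X : ℝ} (hX : 0 < X) : ∃ θ : ℝ, 0 < θ ∧ θ < Real.pi / 2 ∧
    ∀ x, |(gdv (ul θ x)).re| < 1 / 2 ∧ 0 < (gdv (ul θ x)).im ∧ (gdv (ul θ x)).im ≤ X := by
  have hpi := Real.pi_pos
  have h0 : 0 < Real.arctan (Real.pi * X) := Real.arctan_pos.2 (by positivity)
  have h1 := Real.arctan_lt_pi_div_two (Real.pi * X)
  refine ⟨Real.arctan (Real.pi * X), h0, h1, fun x => ⟨?_, ?_, ?_⟩⟩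
  · exact gdv_re_lt (by rw [ul_im, abs_of_pos h0]; exact h1)
  · exact gdv_im_pos (by rwa [ul_im]) (by rwa [ul_im])
  · have h2 := gdv_im_le h0 h1 x
    have h3 := Real.tan_arctan (Real.pi * X)
    have hc : 0 < Real.cos (Real.arctan (Real.pi * X)) := Real.cos_arctan_pos _
    rw [Real.tan_eq_sin_div_cos, div_eq_iff hc.ne'] at h3
    rw [h3] at h2
    refine h2.trans (le_of_eq ?_)
    field_simp

/-- The vertex function near the real axis. -/
theorem low_wr {r : ℝ} {v : ℂ} (h : |v.re| ≤ 1 / 2) (h0 : 0 ≤ v.im) {X : ℝ} (hX : v.im ≤ X) :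
    (wr r v).re ≤ 2 * Real.pi * (|r| + 1) * X := by
  have hpi := Real.pi_pos
  have e : (wr r v).re = -(2 * Real.pi) * (v.im * (2 * r * v.re + 1)) := by
    unfold wr
    simp [pow_two]
    ring
  rw [e]
  have h1 : -(2 * r * v.re) ≤ |r| := by
    have h2 : |2 * r * v.re| = |r| * (2 * |v.re|) := by
      rw [abs_mul, abs_mul, abs_two]; ring
    have h3 : |r| * (2 * |v.re|) ≤ |r| * 1 :=
      mul_le_mul_of_nonneg_left (by linarith) (abs_nonneg r)
    have h4 := neg_abs_le (2 * r * v.re)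
    linarith
  have h5 : -(v.im * (2 * r * v.re + 1)) ≤ v.im * |r| := by nlinarith
  have h6 : v.im * |r| ≤ X * (|r| + 1) := by
    have := abs_nonneg r
    nlinarith
  nlinarith

end Pool.Agent.AT
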