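import Pool.Agent.AT.Tree
import Pool.Agent.AT.Low3

/-! # The small indices: the bound -/

namespace Pool.Agent.AT

set_option linter.unusedSectionVars false

open Pool.Agent.S3

open Pool.Agent.H63.VC hiding ext
open Pool.Agent.H63.VC3 Pool.Agent.H63.VC4 Pool.Agent.H63.VC6 Pool.Agent.H63.VC7 Complex
open Pool.Agent.H25.RK Filter Topology MeasureTheory
open scoped BigOperators

variable {m : ℕ} [Tr m] {C : Cfg m}
variable {v1 : Fin (m + 1) → ℝ} {lam : Fin m → Fin (m + 1) → ℝ} {t : Fin (m + 1) → ℂ} {g0 : ℝ}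
  {ρ : Fin (m + 1) → ℝ}

namespace Cfg

/-- The open vertices at the edges in `L`. -/
def Tv (C : Cfg m) (L : Finset (Fin m)) (i : Fin (m + 1)) : Prop :=
  i ∈ C.Op ∧ ∃ j ∈ L, j ∈ inc (Tr.par (m := m)) Fin.succ i

open Classical in
/-- The contours. -/
noncomputable def gL (C : Cfg m) (v1 : Fin (m + 1) → ℝ) (ε θ : ℝ) (L : Finset (Fin m))
    (i : Fin (m + 1)) (x : ℝ) : ℂ :=
  if C.Tv L i then gdv (ul θ x) else C.gm v1 ε i x

open Classical in
/-- Their derivatives. -/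
noncomputable def gL' (C : Cfg m) (v1 : Fin (m + 1) → ℝ) (ε θ : ℝ) (L : Finset (Fin m))
    (i : Fin (m + 1)) (x : ℝ) : ℂ :=
  if C.Tv L i then 1 / (Real.pi * cosh (ul θ x)) else C.gm' v1 ε i x

theorem gL_ctr (hC : C.Crit) (hE : C.Edg v1 lam) {ε θ : ℝ} (hε : 0 < ε) (h0 : 0 < θ)
    (h1 : θ < Real.pi / 2) (L : Finset (Fin m)) {i : Fin (m + 1)} (hi : i ∈ C.Op) :
    Ctr (C.gL v1 ε θ L i) (C.gL' v1 ε θ L i) := by
  by_cases h : C.Tv L i
  · have e1 : C.gL v1 ε θ L i = fun x => gdv (ul θ x) := by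
      funext x; unfold gL; rw [if_pos h]
    have e2 : C.gL' v1 ε θ L i = fun x => 1 / (Real.pi * cosh (ul θ x)) := by
      funext x; unfold gL'; rw [if_pos h]
    rw [e1, e2]
    exact ctr_ul h0 h1
  · have e1 : C.gL v1 ε θ L i = gam (C.θ i) (v1 i) ε := by
      funext x; unfold gL gm; rw [if_neg h]
    have e2 : C.gL' v1 ε θ L i = gam' (C.θ i) (v1 i) ε := by
      funext x; unfold gL' gm'; rw [if_neg h]
    rw [e1, e2]
    exact gam_ctr (hC.th0 i hi) (hC.th1 i hi) (hE.v0 i hi) (hE.vh i hi) hε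

/-- The vertex factors. -/
theorem gL_bound (hC : C.Crit) (hE : C.Edg v1 lam) {ε θ : ℝ} (hε : 0 < ε)
    (hbl : ∀ i ∈ C.Op, ε ≤ bl (C.θ i) (v1 i)) (h0 : 0 < θ) (h1 : θ < Real.pi / 2)
    (L : Finset (Fin m)) {i : Fin (m + 1)} (hi : i ∈ C.Op) : ∃ K : ℝ, 0 < K ∧ ∀ (M : ℕ) (x : ℝ),
      ‖gvx (C.r i) (C.gL v1 ε θ L i) (C.gL' v1 ε θ L i) M x‖ ≤
        K * Real.exp (M * (wr (C.r i) (C.gL v1 ε θ L i x)).re) * ‖C.gL' v1 ε θ L i x‖ := by
  by_cases h : C.Tv L i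
  · have e1 : C.gL v1 ε θ L i = fun x => gdv (ul θ x) := by
      funext x; unfold gL; rw [if_pos h]
    have e2 : C.gL' v1 ε θ L i = fun x => 1 / (Real.pi * cosh (ul θ x)) := by
      funext x; unfold gL'; rw [if_pos h]
    rw [e1, e2]
    obtain ⟨K, hK, hb⟩ := gvx_bound_ul h0 h1
    exact ⟨K, hK, fun M x => hb M (C.r i) x⟩
  · have e1 : C.gL v1 ε θ L i = gam (C.θ i) (v1 i) ε := by
      funext x; unfold gL gm; rw [if_neg h]
    have e2 : C.gL' v1 ε θ L i = gam' (C.θ i) (v1 i) ε := by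
      funext x; unfold gL' gm'; rw [if_neg h]
    rw [e1, e2]
    obtain ⟨K, hK, hb⟩ := gvx_bound (κ := 2 * ε) (B := bl (C.θ i) 0) (by linarith)
    refine ⟨K, hK, fun M x => ?_⟩
    obtain ⟨a1, a2, a3⟩ := gam_im (hC.th0 i hi) (hC.th1 i hi) (hE.v0 i hi) (hE.vh i hi) hε
      (hbl i hi) x
    exact hb M (C.r i) _ _ x a1.le
      (gam_re (hC.th0 i hi) (hC.th1 i hi) (hE.v0 i hi) (hE.vh i hi) hε x)
      (slope_of_height hε a3 a1.le) a2

open Classical in
/-- The growth rate of an edge. -/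
noncomputable def kL (C : Cfg m) (v1 : Fin (m + 1) → ℝ) (lam : Fin m → Fin (m + 1) → ℝ)
    (t : Fin (m + 1) → ℂ) (g0 : ℝ) (μ : ℝ) (L : Finset (Fin m)) (j : Fin m)
    (z : Fin (m + 1) → ℂ) : ℝ :=
  if j ∈ L then 2 * μ
  else C.Fc j + C.lT v1 lam t g0 (decide (C.Tv L (Tr.par j))) j (Tr.par j) (z (Tr.par j)) +
    C.lT v1 lam t g0 (decide (C.Tv L j.succ)) j j.succ (z j.succ)

open Classical in
theorem kL_le {μ δ : ℝ}
    (hδ : ∀ j : Fin m, C.cr g0 ρ (Tr.par j) + C.cr g0 ρ j.succ + δ ≤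
      C.Lt j (t (Tr.par j)) (t j.succ)) (L : Finset (Fin m)) (j : Fin m)
    (z : Fin (m + 1) → ℂ) : C.kL v1 lam t g0 μ L j z ≤
      C.Fc j + (C.Hs v1 lam t g0 ρ L (C.Tv L) (Tr.par j) j (z (Tr.par j)) +
        C.Hs v1 lam t g0 ρ L (C.Tv L) j.succ j (z j.succ)) - (if j ∈ L then δ - 2 * μ else 0) := by
  by_cases hj : j ∈ L
  · have key : ∀ i, (i = (Tr.par j) ∨ i = j.succ) → C.Hs v1 lam t g0 ρ L (C.Tv L) i j (z i) =
        C.lv j i (t i) - C.cr g0 ρ i := by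
      intro i hi
      unfold Hs cr
      by_cases hO : i ∈ C.Op
      · have hT : C.Tv L i := by
          refine ⟨hO, j, hj, ?_⟩
          rcases hi with rfl | rfl
          · exact mem_inc_s _ _ _
          · exact mem_inc_t _ _ _
        rw [if_pos hO, if_pos hT, if_pos hj, if_pos hO]
        ring
      · rw [if_neg hO, if_neg hO]
        unfold lv
        rw [if_neg hO]
        ring
    rw [key _ (Or.inl rfl), key _ (Or.inr rfl)]
    unfold kL
    rw [if_pos hj, if_pos hj]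
    have := hδ j
    unfold Lt at this
    linarith
  · have key : ∀ i, C.lT v1 lam t g0 (decide (C.Tv L i)) j i (z i) =
        C.Hs v1 lam t g0 ρ L (C.Tv L) i j (z i) := by
      intro i
      unfold Hs lT
      by_cases hO : i ∈ C.Op
      · by_cases hT : C.Tv L i
        · simp only [hT, decide_true, if_true, if_pos hO, if_neg hj]
        · simp only [hT, decide_false, Bool.false_eq_true, if_false, if_pos hO]
      · have hT : ¬ C.Tv L i := fun h => hO h.1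
        simp only [hT, decide_false, Bool.false_eq_true, if_false, if_neg hO]
        unfold lw
        rw [if_neg hO]
    unfold kL
    rw [if_neg hj, if_neg hj, key, key]
    linarith

/-- The total growth rate. -/
theorem kL_sum (hC : C.Crit) (hE : C.Edg v1 lam) (H : C.LowH v1 lam t g0 ρ) {μ μ' δ : ℝ}
    (hμ' : 0 ≤ μ') (hδμ : 0 ≤ δ - 2 * μ)
    (hδ : ∀ j : Fin m, C.cr g0 ρ (Tr.par j) + C.cr g0 ρ j.succ + δ ≤
      C.Lt j (t (Tr.par j)) (t j.succ)) {L : Finset (Fin m)} (hL : L ≠ ∅)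
    (z : Fin (m + 1) → ℂ) (ga : C.Op → ℝ)
    (hga : ∀ i : C.Op, (C.Tv L i → ga i = μ') ∧ (¬ C.Tv L i → ga i = (wr (C.r i) (z i)).re)) :
    ∑ i, ga i + ∑ j, C.kL v1 lam t g0 μ L j z ≤ C.e0 + (m + 1) * μ' - (δ - 2 * μ) := by
  classical
  have h1 := Finset.sum_le_sum (s := (Finset.univ : Finset (Fin m)))
    fun j _ => kL_le (v1 := v1) (lam := lam) hδ L j z (μ := μ)
  rw [Finset.sum_sub_distrib, Finset.sum_add_distrib] at h1
  have h2 := sum_inc (Tr.par (m := m)) Fin.succ (fun j => (Tr.ne j))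
    (fun i j => C.Hs v1 lam t g0 ρ L (C.Tv L) i j (z i))
  rw [← h2] at h1
  have h3 : δ - 2 * μ ≤ ∑ j, (if j ∈ L then δ - 2 * μ else 0) := by
    obtain ⟨j, hj⟩ := Finset.nonempty_iff_ne_empty.2 hL
    have := Finset.single_le_sum (f := fun j => if j ∈ L then δ - 2 * μ else 0)
      (s := Finset.univ) (fun k _ => by
        show 0 ≤ if k ∈ L then δ - 2 * μ else 0
        split_ifs
        · exact hδμ
        · exact le_rfl) (Finset.mem_univ j)
    rw [if_pos hj] at this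
    exact this
  have h4 : ∑ i, ∑ j ∈ inc (Tr.par (m := m)) Fin.succ i,
      C.Hs v1 lam t g0 ρ L (C.Tv L) i j (z i) =
      ∑ i : C.Op, ∑ j ∈ inc (Tr.par (m := m)) Fin.succ (i : Fin (m + 1)),
        C.Hs v1 lam t g0 ρ L (C.Tv L) i j (z i) := by
    rw [Finset.sum_coe_sort C.Op (fun i => ∑ j ∈ inc (Tr.par (m := m)) Fin.succ i,
        C.Hs v1 lam t g0 ρ L (C.Tv L) i j (z i))]
    symm
    apply Finset.sum_subset (Finset.subset_univ _)
    intro i _ hi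
    refine Finset.sum_eq_zero fun j _ => ?_
    unfold Hs
    rw [if_neg hi]
  have h5 : ∀ i : C.Op, ga i + ∑ j ∈ inc (Tr.par (m := m)) Fin.succ (i : Fin (m + 1)),
      C.Hs v1 lam t g0 ρ L (C.Tv L) i j (z i) ≤ (wr (C.r i) (C.vc i)).re + μ' := by
    intro i
    have h6 := Hs_sum hC hE H L (C.Tv L) (fun i _ h => h.2) z hμ' i.2
    by_cases hT : C.Tv L i
    · rw [if_pos hT] at h6
      rw [(hga i).1 hT]
      exact h6
    · rw [if_neg hT] at h6
      rw [(hga i).2 hT]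
      exact h6
  have h7 := Finset.sum_le_sum (s := (Finset.univ : Finset C.Op)) fun i _ => h5 i
  rw [Finset.sum_add_distrib, Finset.sum_add_distrib, Finset.sum_const, nsmul_eq_mul] at h7
  have h8 : ((Finset.univ : Finset C.Op).card : ℝ) * μ' ≤ (m + 1) * μ' := by
    apply mul_le_mul_of_nonneg_right _ hμ'
    have h9 : (Finset.univ : Finset C.Op).card ≤ m + 1 := by
      rw [Finset.card_univ, Fintype.card_coe]
      calc C.Op.card ≤ (Finset.univ : Finset (Fin (m + 1))).card :=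
            Finset.card_le_card (Finset.subset_univ _)
        _ = m + 1 := by rw [Finset.card_univ, Fintype.card_fin]
    exact_mod_cast h9
  unfold e0
  rw [h4] at h1
  linarith


theorem sv_ok (hs : ∀ i ∉ C.Op, C.s i = 1 ∨ C.s i = -1) {i : Fin (m + 1)} {v : ℂ}
    (h : i ∈ C.Op → |v.re| ≤ 1 / 2) : (C.sv i v).ok := by
  unfold sv
  by_cases hi : i ∈ C.Op
  · rw [if_pos hi]; exact h hi
  · rw [if_neg hi]; exact hs i hi

theorem sv_nn {i : Fin (m + 1)} {v : ℂ} (h : i ∈ C.Op → 0 ≤ v.im) : (C.sv i v).nn := by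
  unfold sv
  by_cases hi : i ∈ C.Op
  · rw [if_pos hi]; exact h hi
  · rw [if_neg hi]; trivial

/-- The data of the bound of one part. -/
structure LowP (C : Cfg m) (v1 : Fin (m + 1) → ℝ) (lam : Fin m → Fin (m + 1) → ℝ)
    (t : Fin (m + 1) → ℂ) (g0 μ μ' ε θ : ℝ) (L : Finset (Fin m)) : Prop where
  kb : ∃ K : ℝ, 0 < K ∧ ∃ p : ℕ, ∀ᶠ M : ℕ in atTop, ∀ (j : Fin m) (x : C.Op → ℝ),
    ‖KEr (SL M L j) M (slx C.Op C.s (C.gL v1 ε θ L) x (Tr.par j))
      (slx C.Op C.s (C.gL v1 ε θ L) x j.succ)‖ ≤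
      K * (M : ℝ) ^ p * Real.exp (M * C.kL v1 lam t g0 μ L j (C.ptx (C.gL v1 ε θ L) x))
  gb : ∃ K : ℝ, 0 < K ∧ ∀ (M : ℕ) (i : C.Op) (x : ℝ),
    ‖gvx (C.r i) (C.gL v1 ε θ L i) (C.gL' v1 ε θ L i) M x‖ ≤
      K * Real.exp (M * (wr (C.r i) (C.gL v1 ε θ L i x)).re) * ‖C.gL' v1 ε θ L i x‖
  wb : ∀ i, C.Tv L i → ∀ x, (wr (C.r i) (C.gL v1 ε θ L i x)).re ≤ μ'

/-- The bound of one part. -/
theorem LowP.bound (hC : C.Crit) (hE : C.Edg v1 lam) (H : C.LowH v1 lam t g0 ρ)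
    (hs : ∀ i ∉ C.Op, C.s i = 1 ∨ C.s i = -1) (hr : ∀ i ∉ C.Op, C.r i = C.s i)
    (hinc : ∀ i ∉ C.Op, ∃ j, inc (Tr.par (m := m)) Fin.succ i = {j})
    (hcl : ∀ᶠ M : ℕ in atTop, ∀ i ∉ C.Op, ∀ (j : Fin m) (k : Fin m → ℕ), (∀ j, k j < M) →
      DG (C.r i) M {j} k = sk M (k j) (.cl (C.s i)))
    {μ μ' δ ε θ : ℝ} (hε : 0 < ε) (h0 : 0 < θ) (h1 : θ < Real.pi / 2) (hμ' : 0 ≤ μ')
    (hδμ : 0 ≤ δ - 2 * μ) (hδ : ∀ j : Fin m, C.cr g0 ρ (Tr.par j) + C.cr g0 ρ j.succ + δ ≤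
      C.Lt j (t (Tr.par j)) (t j.succ)) {L : Finset (Fin m)} (hL : L ≠ ∅)
    (P : LowP C v1 lam t g0 μ μ' ε θ L) : ∃ K : ℝ, 0 < K ∧ ∃ p : ℕ, ∀ᶠ M : ℕ in atTop,
      ‖JS C.r M (SL M L)‖ ≤ K * (M : ℝ) ^ p *
        Real.exp (M * (C.e0 + (m + 1) * μ' - (δ - 2 * μ))) := by
  classical
  obtain ⟨Kk, hKk, pk, hk⟩ := P.kb
  obtain ⟨Kg, hKg, hg⟩ := P.gb
  have hctr : ∀ i ∈ C.Op, Ctr (C.gL v1 ε θ L i) (C.gL' v1 ε θ L i) := fun i hi =>
    gL_ctr hC hE hε h0 h1 L hi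
  have hD : ChD C.r C.Op C.s (C.gL v1 ε θ L) (C.gL' v1 ε θ L) := ⟨hC.hm, hctr, hs, hr, hinc⟩
  set ga : C.Op → ℝ → ℝ := fun i x => if C.Tv L i then μ' else
    (wr (C.r i) (C.gL v1 ε θ L i x)).re with hga
  obtain ⟨K, hK0, p, hb⟩ := low_abs (ι := C.Op) (ε := Fin m)
    (g := fun M i x => gvx (C.r i) (C.gL v1 ε θ L i) (C.gL' v1 ε θ L i) M x)
    (K := fun M j x => KEr (SL M L j) M (slx C.Op C.s (C.gL v1 ε θ L) x (Tr.par j))
      (slx C.Op C.s (C.gL v1 ε θ L) x j.succ))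
    (ga := ga) (ka := fun j x => C.kL v1 lam t g0 μ L j (C.ptx (C.gL v1 ε θ L) x))
    (w := fun i x => ‖C.gL' v1 ε θ L i x‖) (e := C.e0 + (m + 1) * μ' - (δ - 2 * μ))
    (fun i => (hctr i i.2).int.norm) (fun i x => norm_nonneg _)
    ⟨Kg, hKg, 0, Eventually.of_forall fun M i x => by
      refine (hg M i x).trans ?_
      rw [pow_zero, mul_one]
      have hM : (0 : ℝ) ≤ M := Nat.cast_nonneg M
      have h2 : (wr (C.r i) (C.gL v1 ε θ L i x)).re ≤ ga i x := by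
        simp only [hga]
        by_cases hT : C.Tv L i
        · rw [if_pos hT]; exact P.wb i hT x
        · rw [if_neg hT]
      have h3 := mul_le_mul_of_nonneg_left h2 hM
      gcongr⟩
    ⟨Kk, hKk, pk, hk⟩ (fun x => by
      refine kL_sum hC hE H hμ' hδμ hδ hL (C.ptx (C.gL v1 ε θ L) x) (fun i => ga i (x i)) ?_
      intro i
      have e1 : C.ptx (C.gL v1 ε θ L) x i = C.gL v1 ε θ L i (x i) := by
        unfold ptx
        rw [dif_pos i.2]
      constructor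
      · intro hT
        simp only [hga]
        rw [if_pos hT]
      · intro hT
        simp only [hga]
        rw [if_neg hT, e1])
  refine ⟨(4 * Real.pi) ^ C.Op.card * K, by have := Real.pi_pos; positivity,
    2 * C.Op.card + p, ?_⟩
  filter_upwards [hb, hcl, eventually_gt_atTop 0] with M hM hcM hM0
  rw [JS_eq C.r C.Op C.s (C.gL v1 ε θ L) (C.gL' v1 ε θ L) hD M hM0 hcM (SL M L) (SL_subset M L),
    norm_mul, norm_pow]
  have e2 : ‖-(4 * (Real.pi : ℂ) * I) * (M : ℂ) ^ 2‖ = 4 * Real.pi * (M : ℝ) ^ 2 := by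
    rw [norm_mul, norm_neg, norm_mul, norm_mul, norm_I, norm_pow, norm_natCast, mul_one,
      norm_real, Real.norm_eq_abs, abs_of_pos Real.pi_pos]
    norm_num
  rw [e2]
  have h5 : 0 ≤ (4 * Real.pi * (M : ℝ) ^ 2) ^ C.Op.card := by
    have := Real.pi_pos
    positivity
  refine (mul_le_mul_of_nonneg_left hM h5).trans (le_of_eq ?_)
  rw [mul_pow, ← pow_mul, pow_add]
  ring


theorem gL_T {ε θ : ℝ} {L : Finset (Fin m)} {i : Fin (m + 1)} (h : C.Tv L i) (x : ℝ) :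
    C.gL v1 ε θ L i x = gdv (ul θ x) := by
  unfold gL; rw [if_pos h]

theorem gL_F {ε θ : ℝ} {L : Finset (Fin m)} {i : Fin (m + 1)} (h : ¬ C.Tv L i) (x : ℝ) :
    C.gL v1 ε θ L i x = C.gm v1 ε i x := by
  unfold gL; rw [if_neg h]

theorem kL_ka {μ ε θ : ℝ} {L : Finset (Fin m)} {j : Fin m} (hj : j ∉ L)
    (h1 : ¬ C.Tv L (Tr.par j)) (h2 : ¬ C.Tv L j.succ) (x : C.Op → ℝ) :
    C.kL v1 lam t g0 μ L j (C.ptx (C.gL v1 ε θ L) x) = C.ka v1 lam ε j x := by
  classical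
  have key : ∀ i, ¬ C.Tv L i → C.lT v1 lam t g0 (decide (C.Tv L i)) j i
      (C.ptx (C.gL v1 ε θ L) x i) =
      (if h : i ∈ C.Op then C.lw v1 lam j i (C.gm v1 ε i (x ⟨i, h⟩)) else 0) := by
    intro i hi
    unfold lT
    simp only [hi, decide_false, Bool.false_eq_true, if_false]
    unfold ptx
    by_cases h : i ∈ C.Op
    · rw [dif_pos h, dif_pos h, gL_F hi]
    · rw [dif_neg h, dif_neg h]
      unfold lw
      rw [if_neg h]
  unfold kL ka
  rw [if_neg hj, key _ h1, key _ h2]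

/-- The data of the bounds exist. -/
theorem exists_LowP (hK : KsB) (hK' : KsL) (hC : C.Crit)
    (hs : ∀ i ∉ C.Op, C.s i = 1 ∨ C.s i = -1) (hE : C.Edg v1 lam) (H : C.LowH v1 lam t g0 ρ)
    (hse : ∀ v y : ℝ, |v| ≤ 1 / 2 → y ∈ Set.Icc (-(1 / 2) : ℝ) 0 → se y (.op (v : ℂ)) ≤ 0)
    (hsc : ∀ (s : ℤ) (y : ℝ), y ∈ Set.Icc (-(1 / 2) : ℝ) 0 → se y (.cl s) ≤ 0)
    {μ μ' : ℝ} (hμ : 0 < μ) (hμ' : 0 < μ') : ∃ ε θ : ℝ, 0 < ε ∧ 0 < θ ∧ θ < Real.pi / 2 ∧
      ∀ L : Finset (Fin m), LowP C v1 lam t g0 μ μ' ε θ L := by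
  classical
  obtain ⟨η, hη, K1, hK1, p1, h1⟩ := H.bound hK
  obtain ⟨ηs, hηs, hse'⟩ := low_se hse hμ
  obtain ⟨ε0, hε0, hbl0, K2, hK2, p2, h2⟩ := Cfg.K_bd_eps hK hK' hC hs hE
  obtain ⟨K3, hK3, p3, h3⟩ := low_KEr
  have hpi := Real.pi_pos
  set R : ℝ := ∑ i, |C.r i| with hR
  have hR0 : 0 ≤ R := Finset.sum_nonneg fun i _ => abs_nonneg _
  have hRi : ∀ i, |C.r i| ≤ R := fun i =>
    Finset.single_le_sum (f := fun i => |C.r i|) (fun i _ => abs_nonneg _) (Finset.mem_univ i)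
  set X : ℝ := min (min η ηs) (μ' / (2 * Real.pi * (R + 1))) with hX
  have hX0 : 0 < X := lt_min (lt_min hη hηs) (by positivity)
  have hX1 : X ≤ η := (min_le_left _ _).trans (min_le_left _ _)
  have hX2 : X ≤ ηs := (min_le_left _ _).trans (min_le_right _ _)
  have hX3 : 2 * Real.pi * (R + 1) * X ≤ μ' := by
    have h := min_le_right (min η ηs) (μ' / (2 * Real.pi * (R + 1)))
    rw [← hX, le_div_iff₀ (by positivity)] at h
    linarith
  obtain ⟨θ, hθ0, hθ1, hθ⟩ := low_line hX0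
  set ε : ℝ := min ε0 η with hεd
  have hε : 0 < ε := lt_min hε0 hη
  have hbl : ∀ i ∈ C.Op, ε ≤ bl (C.θ i) (v1 i) := fun i hi => (min_le_left _ _).trans (hbl0 i hi)
  refine ⟨ε, θ, hε, hθ0, hθ1, fun L => ?_⟩
  -- the points
  have P1 : ∀ (x : C.Op → ℝ) i, i ∈ C.Op → |(C.ptx (C.gL v1 ε θ L) x i).re| ≤ 1 / 2 ∧
      0 ≤ (C.ptx (C.gL v1 ε θ L) x i).im := by
    intro x i hi
    unfold ptx
    rw [dif_pos hi]
    by_cases hT : C.Tv L i
    · rw [gL_T hT]
      exact ⟨(hθ _).1.le, (hθ _).2.1.le⟩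
    · rw [gL_F hT]
      exact ⟨gam_re (hC.th0 i hi) (hC.th1 i hi) (hE.v0 i hi) (hE.vh i hi) hε _,
        (gam_im (hC.th0 i hi) (hC.th1 i hi) (hE.v0 i hi) (hE.vh i hi) hε (hbl i hi) _).1.le⟩
  have P2 : ∀ (x : C.Op → ℝ) i, ∃ v0 ∈ C.sT v1 (decide (C.Tv L i)) i,
      ‖C.ptx (C.gL v1 ε θ L) x i - v0‖ ≤ η := by
    intro x i
    by_cases hi : i ∈ C.Op
    · by_cases hT : C.Tv L i
      · refine ⟨((C.ptx (C.gL v1 ε θ L) x i).re : ℝ), ?_, ?_⟩
        · unfold sT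
          simp only [hT, decide_true, if_true]
          exact ⟨by simp, by simpa using (P1 x i hi).1⟩
        · have e : C.ptx (C.gL v1 ε θ L) x i - ((C.ptx (C.gL v1 ε θ L) x i).re : ℝ) =
              ((C.ptx (C.gL v1 ε θ L) x i).im : ℂ) * I := by
            apply Complex.ext <;> simp
          rw [e, norm_mul, norm_I, mul_one, norm_real, Real.norm_eq_abs,
            abs_of_nonneg (P1 x i hi).2]
          unfold ptx
          rw [dif_pos hi, gL_T hT]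
          exact (hθ _).2.2.trans hX1
      · obtain ⟨v, hv, hd⟩ := gam_near (hC.th0 i hi) (hC.th1 i hi) (hE.v0 i hi) (hE.vh i hi) hε
          (hbl i hi) (x ⟨i, hi⟩)
        refine ⟨v, ?_, ?_⟩
        · unfold sT
          simp only [hT, decide_false, Bool.false_eq_true, if_false]
          exact ⟨fun _ => hv, fun h => absurd hi h⟩
        · unfold ptx
          rw [dif_pos hi, gL_F hT]
          exact hd.trans (min_le_right _ _)
    · have hT : ¬ C.Tv L i := fun h => hi h.1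
      refine ⟨0, ?_, ?_⟩
      · unfold sT
        simp only [hT, decide_false, Bool.false_eq_true, if_false]
        exact ⟨fun h => absurd h hi, fun _ => rfl⟩
      · unfold ptx
        rw [dif_neg hi, sub_zero, norm_zero]
        exact hη.le
  have hsum : 0 < K1 + K2 + K3 := by linarith
  refine ⟨⟨K1 + K2 + K3, hsum, p1 + p2 + p3, ?_⟩, ?_, ?_⟩
  · filter_upwards [h2, eventually_ge_atTop 1] with M hM2 hM1 j x
    have hMr : (1 : ℝ) ≤ M := by exact_mod_cast hM1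
    rw [slx_eq, slx_eq]
    have o1 := sv_ok hs (i := (Tr.par j)) (v := C.ptx (C.gL v1 ε θ L) x (Tr.par j))
      fun h => (P1 x _ h).1
    have o2 := sv_ok hs (i := j.succ) (v := C.ptx (C.gL v1 ε θ L) x j.succ)
      fun h => (P1 x _ h).1
    have n1 := sv_nn (C := C) (i := (Tr.par j)) (v := C.ptx (C.gL v1 ε θ L) x (Tr.par j))
      fun h => (P1 x _ h).2
    have n2 := sv_nn (C := C) (i := j.succ) (v := C.ptx (C.gL v1 ε θ L) x j.succ)
      fun h => (P1 x _ h).2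
    by_cases hj : j ∈ L
    · have e1 : SL M L j = Finset.range (k0 M) := by unfold SL; rw [if_pos hj]
      have e2 : C.kL v1 lam t g0 μ L j (C.ptx (C.gL v1 ε θ L) x) = 2 * μ := by
        unfold kL; rw [if_pos hj]
      rw [e1, e2]
      have key : ∀ i, (i = (Tr.par j) ∨ i = j.succ) → ∀ y ∈ Set.Icc (-(1 / 2) : ℝ) (-(1 / 10)),
          se y (C.sv i (C.ptx (C.gL v1 ε θ L) x i)) ≤ μ := by
        intro i hi y hy
        unfold sv
        by_cases hO : i ∈ C.Op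
        · have hT : C.Tv L i := by
            refine ⟨hO, j, hj, ?_⟩
            rcases hi with rfl | rfl
            · exact mem_inc_s _ _ _
            · exact mem_inc_t _ _ _
          rw [if_pos hO]
          unfold ptx
          rw [dif_pos hO, gL_T hT]
          refine (hse' _ (hθ _).1.le ?_ y hy).le
          rw [abs_of_pos (hθ _).2.1]
          exact (hθ _).2.2.trans hX2
        · rw [if_neg hO]
          exact (hsc (C.s i) y ⟨hy.1, by linarith [hy.2]⟩).trans hμ.le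
      refine (h3 M hM1 _ _ o1 o2 (2 * μ) (fun y hy => ?_)).trans
        (low_pow_le hMr hK3 (by linarith) (by omega))
      have a1 := key _ (Or.inl rfl) y hy
      have a2 := key _ (Or.inr rfl) y hy
      unfold EE
      linarith
    · have e1 : ∀ σ τ, KEr (SL M L j) M σ τ = KE M σ τ := by
        intro σ τ
        unfold SL KEr KE
        rw [if_neg hj]
      rw [e1]
      by_cases hc : C.Tv L (Tr.par j) ∨ C.Tv L j.succ
      · have e2 : C.kL v1 lam t g0 μ L j (C.ptx (C.gL v1 ε θ L) x) =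
            C.Fc j + C.lT v1 lam t g0 (decide (C.Tv L (Tr.par j))) j (Tr.par j)
              (C.ptx (C.gL v1 ε θ L) x (Tr.par j)) +
            C.lT v1 lam t g0 (decide (C.Tv L j.succ)) j j.succ
              (C.ptx (C.gL v1 ε θ L) x j.succ) := by
          unfold kL; rw [if_neg hj]
        rw [e2]
        refine (h1 (j, decide (C.Tv L (Tr.par j)), decide (C.Tv L j.succ)) ?_ ?_ ?_ M hM1 _ _
          (P2 x _) (P2 x _) o1 o2 n1 n2).trans (low_pow_le hMr hK1 (by linarith) (by omega))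
        · intro h
          exact (of_decide_eq_true h).1
        · intro h
          exact (of_decide_eq_true h).1
        · rcases hc with h | h
          · exact Or.inl (decide_eq_true h)
          · exact Or.inr (decide_eq_true h)
      · rw [not_or] at hc
        rw [kL_ka hj hc.1 hc.2]
        have e3 : KE M (C.sv (Tr.par j) (C.ptx (C.gL v1 ε θ L) x (Tr.par j)))
            (C.sv j.succ (C.ptx (C.gL v1 ε θ L) x j.succ)) = C.kk v1 ε M j x := by
          unfold kk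
          rw [slx_eq, slx_eq]
          have key : ∀ i, ¬ C.Tv L i → C.ptx (C.gL v1 ε θ L) x i = C.ptx (C.gm v1 ε) x i := by
            intro i hi
            unfold ptx
            by_cases h : i ∈ C.Op
            · rw [dif_pos h, dif_pos h, gL_F hi]
            · rw [dif_neg h, dif_neg h]
          rw [key _ hc.1, key _ hc.2]
        rw [e3]
        exact (hM2 j ε x hε (min_le_left _ _)).trans
          (low_pow_le hMr hK2 (by linarith) (by omega))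
  · have hg := fun i : C.Op => gL_bound hC hE hε hbl hθ0 hθ1 L i.2
    choose Kg hKg hgb using hg
    refine ⟨∑ i, Kg i + 1, by
      have : 0 ≤ ∑ i, Kg i := Finset.sum_nonneg fun i _ => (hKg i).le
      linarith, fun M i x => (hgb i M x).trans ?_⟩
    have := Finset.single_le_sum (f := Kg) (fun i _ => (hKg i).le) (Finset.mem_univ i)
    have h4 : Kg i ≤ ∑ i, Kg i + 1 := by linarith
    gcongr
  · intro i hT x
    rw [gL_T hT]
    refine (low_wr (hθ x).1.le (hθ x).2.1.le (hθ x).2.2).trans (le_trans ?_ hX3)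
    have := hRi i
    gcongr

/-- **The small indices are negligible.** -/
theorem low_main (hK : KsB) (hK' : KsL) (hC : C.Crit)
    (hs : ∀ i ∉ C.Op, C.s i = 1 ∨ C.s i = -1) (hr : ∀ i ∉ C.Op, C.r i = C.s i)
    (hinc : ∀ i ∉ C.Op, ∃ j, inc (Tr.par (m := m)) Fin.succ i = {j})
    (hcl : ∀ᶠ M : ℕ in atTop, ∀ i ∉ C.Op, ∀ (j : Fin m) (k : Fin m → ℕ), (∀ j, k j < M) →
      DG (C.r i) M {j} k = sk M (k j) (.cl (C.s i)))
    (hE : C.Edg v1 lam) (H : C.LowH v1 lam t g0 ρ)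
    (hse : ∀ v y : ℝ, |v| ≤ 1 / 2 → y ∈ Set.Icc (-(1 / 2) : ℝ) 0 → se y (.op (v : ℂ)) ≤ 0)
    (hsc : ∀ (s : ℤ) (y : ℝ), y ∈ Set.Icc (-(1 / 2) : ℝ) 0 → se y (.cl s) ≤ 0) :
    ∃ δ : ℝ, 0 < δ ∧ ∃ K : ℝ, 0 < K ∧ ∃ p : ℕ, ∀ᶠ M : ℕ in atTop,
      ‖JG (Tr.par (m := m)) Fin.succ C.r M - J0 C.r M‖ ≤
        K * (M : ℝ) ^ p * Real.exp (M * (C.e0 - δ)) := by
  classical
  obtain ⟨δ, hδ0, -, -, -, hδ⟩ := low_choose (J := Fin m) (P := fun j η _ _ =>
      C.cr g0 ρ (Tr.par j) + C.cr g0 ρ j.succ + η ≤ C.Lt j (t (Tr.par j)) (t j.succ))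
    (fun j η η' _ _ _ _ h _ hη _ _ => by linarith)
    (fun j => ⟨C.Lt j (t (Tr.par j)) (t j.succ) - C.cr g0 ρ (Tr.par j) - C.cr g0 ρ j.succ,
      by linarith [H.bad j], 1, one_pos, 0, by linarith⟩)
  have hm : (0 : ℝ) < (m : ℝ) + 1 := by positivity
  obtain ⟨ε, θ, hε, hθ0, hθ1, hP⟩ := exists_LowP hK hK' hC hs hE H hse hsc (μ := δ / 8)
    (μ' := δ / (4 * (m + 1))) (by linarith) (by positivity)
  refine ⟨δ / 2, by linarith, ?_⟩
  have key : ∀ L ∈ (Finset.univ : Finset (Finset (Fin m))).erase ∅, ∃ K : ℝ, 0 < K ∧ ∃ p : ℕ,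
      ∀ᶠ M : ℕ in atTop, ‖JS C.r M (SL M L)‖ ≤ K * (M : ℝ) ^ p *
        Real.exp (M * (C.e0 - δ / 2)) := by
    intro L hL
    have hL' : L ≠ ∅ := Finset.ne_of_mem_erase hL
    have h1 := (hP L).bound hC hE H hs hr hinc hcl hε hθ0 hθ1 (by positivity) (by linarith) hδ hL'
    refine low_mono ?_ h1
    have : ((m : ℝ) + 1) * (δ / (4 * (m + 1))) = δ / 4 := by
      field_simp
    rw [this]
    linarith
  obtain ⟨K, hK0, p, h⟩ := low_sum _ key
  refine ⟨K, hK0, p, ?_⟩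
  filter_upwards [h] with M hM
  rw [JG_sub_J0]
  exact hM

end Cfg

end Pool.Agent.AT
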