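import Pool.Agent.AT.LowD2

/-!
# The small indices: the open-open edges, test points on the diagonal

A vertex may have any number of edges: the edges with large indices cost nothing.
-/

set_option autoImplicit false

namespace Pool.Agent.S3

open Complex
open Pool.Agent.H25.RK (gdv gdv_re_lt gdv_hasDerivAt)

section

variable {Φ : ℂ → ℂ → ℂ} {θ θ' v1 v1' : ℝ} {v w : ℂ}

theorem td_mem (hθ : Ht θ) (h : 1 / 4 ≤ v1) : td θ ∈ G0 θ v1 :=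
  Or.inl ⟨by rw [abs_of_pos (td_re_pos hθ)]; linarith [td_re_lt hθ], td_im θ⟩

theorem pl_td (hθ : Ht θ) (h : 1 / 4 ≤ v1) : pl θ v1 (td θ) = td θ :=
  pl_of_line (by rw [abs_of_pos (td_re_pos hθ)]; linarith [td_re_lt hθ]) (td_im θ)

theorem cmp_td (hθ : Ht θ) (h : 1 / 4 ≤ v1) : cmp v1 (td θ) = td θ := by
  unfold cmp
  rw [if_pos (by linarith [td_re_lt hθ])]

theorem ab_td (hθ : Ht θ) : ab (td θ) = td θ := by
  unfold ab
  rw [if_pos (td_re_pos hθ).le]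

variable {xc xc' b b' μ μ' a a' : ℝ}

/-- The bound at the test points is at least the value of the potential. -/
theorem OO.lowD_ge (H : OO Φ θ θ' xc xc' b b' v1 v1') (hL : GainL Φ θ θ' v1 v1' (mu b a v1))
    (hR : GainR Φ θ θ' v1 v1' (mu b' a' v1')) (ha : 0 < a) (ha' : 0 < a') (h1 : 1 / 4 ≤ v1)
    (h1' : 1 / 4 ≤ v1') : (Φ (td θ) ((starRingEnd ℂ) (td θ'))).re ≤
      LL1 θ θ' b b' xc xc' a a' v1 v1' (td θ) (mir (td θ')) := by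
  have k2 := H.Phi_le hL hR (td_mem H.hθ h1) (td_re_pos H.hθ).le (td_mem H.hθ' h1')
    (td_re_pos H.hθ').le
  have k3 := H.LM_le ha ha' (td_mem H.hθ h1) (mir_mem (td_mem H.hθ' h1'))
  rw [mir_mir, ab_td H.hθ, ab_td H.hθ'] at k3
  rw [cmp_td H.hθ h1, cmp_td H.hθ' h1'] at k2
  linarith

/-- The bound at the test points. -/
theorem OO.lowD_bad (H : OO Φ θ θ' xc xc' b b' v1 v1') (hL : GainL Φ θ θ' v1 v1' (mu b a v1))
    (hR : GainR Φ θ θ' v1 v1' (mu b' a' v1')) (ha : 0 < a) (ha' : 0 < a') (h1 : 1 / 4 ≤ v1)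
    (h1' : 1 / 4 ≤ v1') : Real.pi / 6 + Real.pi / 6 <
      LL1 θ θ' b b' xc xc' a a' v1 v1' (td θ) (mir (td θ')) :=
  (low_D1 H.hΦ H.h0 H.hθ H.hθ').trans_le (H.lowD_ge hL hR ha ha' h1 h1')

/-- Both vertices near the real axis. -/
theorem OO.lowD_rr (H : OO Φ θ θ' xc xc' b b' v1 v1') (hF : FlatAll θ θ' v1 v1')
    (hL : GainL Φ θ θ' v1 v1' (mu b a v1)) (hR : GainR Φ θ θ' v1 v1' (mu b' a' v1'))
    (ha : 0 < a) (ha' : 0 < a') (h1 : 1 / 4 ≤ v1) (h1' : 1 / 4 ≤ v1') {x x' : ℝ}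
    (hx : |x| ≤ 1 / 2) (hx' : |x'| ≤ 1 / 2) : EdgeOK (.op (x : ℂ)) (.op (x' : ℂ))
      (LL1 θ θ' b b' xc xc' a a' v1 v1' (td θ) (mir (td θ'))) := by
  have k0 := H.lowD_ge hL hR ha ha' h1 h1'
  obtain ⟨k1, k2⟩ := low_D0 H.hΦ H.h0 H.hθ H.hθ'
  exact S3.low_rr H.hΦ H.h0 H.hθ H.hθ' H.ho.S
    (hF 0 0 (Und_zero H.hθ) (Und_zero H.hθ') H.hv1.pos.le H.hv1'.pos.le) (by linarith)
    (by linarith) hx hx'

/-- The first vertex near the real axis. -/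
theorem OO.lowD_rg (H : OO Φ θ θ' xc xc' b b' v1 v1') (hF : FlatAll θ θ' v1 v1')
    (hL : GainL Φ θ θ' v1 v1' (mu b a v1)) (hR : GainR Φ θ θ' v1 v1' (mu b' a' v1'))
    (ha : 0 < a) (ha' : 0 < a') (h1 : 1 / 4 ≤ v1) (hw : w ∈ G0 θ' v1') {x : ℝ}
    (hx : |x| ≤ 1 / 2) : EdgeOK (.op (x : ℂ)) (.op w)
      (LL1 θ θ' b b' xc xc' a a' v1 v1' (td θ) w) := by
  have hm := ab_mem (mir_mem hw)
  have hr := ab_re (mir w)
  have k1 := low_D3 H.hΦ H.hθ (cmp_und H.hv1' hm hr H.hθ') H.hθ'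
  have k3 := H.Phi_le hL hR (td_mem H.hθ h1) (td_re_pos H.hθ).le hm hr
  have k4 := H.LM_le ha ha' (td_mem H.hθ h1) hw
  rw [ab_td H.hθ] at k4
  rw [cmp_td H.hθ h1] at k3
  exact low_rg_ab H.hΦ H.h0 H.hθ H.hθ' H.ho.S H.hv1 H.hv1' hF hw (by linarith) hx

/-- The second vertex near the real axis. -/
theorem OO.lowD_gr (H : OO Φ θ θ' xc xc' b b' v1 v1') (hF : FlatAll θ θ' v1 v1')
    (hL : GainL Φ θ θ' v1 v1' (mu b a v1)) (hR : GainR Φ θ θ' v1 v1' (mu b' a' v1'))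
    (ha : 0 < a) (ha' : 0 < a') (h1' : 1 / 4 ≤ v1') (hv : v ∈ G0 θ v1) {x : ℝ}
    (hx : |x| ≤ 1 / 2) : EdgeOK (.op v) (.op (x : ℂ))
      (LL1 θ θ' b b' xc xc' a a' v1 v1' v (mir (td θ'))) := by
  have k := H.swap.lowD_rg (hF.swap H.hθ H.hθ' H.ho.S) (hR.swap H.hΦ) (hL.swap H.hΦ) ha' ha h1'
    (mir_mem hv) (x := -x) (by rwa [abs_neg])
  have e := H.LL1_swap (a := a) (a' := a') v (mir (td θ'))
  rw [mir_mir] at e
  rw [e] at k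
  have k2 := k.symm.mir_both
  rwa [mir_mir, mir_ofReal, neg_neg] at k2

end

end Pool.Agent.S3
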