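import Pool.Agent.S3.W.FlatW
import Pool.Agent.S3.W.Gain
import Pool.Agent.S3.W.Edg1
import Pool.Agent.AT.WCfg

/-!
# The estimates of the edges of a tree
-/

set_option autoImplicit false
set_option linter.unusedSectionVars false

namespace Pool.Agent.AT

open Pool.Agent.S3
open Complex
open Pool.Agent.H63.VC7 (inc)
open Pool.Agent.S3.E
open Pool.Agent.H25.RK (gdv gdv_re_lt gdv_hasDerivAt ul)

variable {m : ℕ} [Tr m] {a : Fin (m + 1) → ℕ} {σ : Fin (m + 1) → ℤ} {z : Fin (m + 1) → ℂ}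

/-- The data at every edge. -/
def OODall (a : Fin (m + 1) → ℕ) (σ : Fin (m + 1) → ℤ) (z : Fin (m + 1) → ℂ) (Φ : ℂ → ℂ → ℂ)
    (v1 : Fin (m + 1) → ℝ) : Prop := ∀ n p : Fin (m + 1), Adj n p → σ n = -1 → σ p = 1 →
    OOD Φ (z n) (z p) (a n) (a p) (v1 n) (v1 p)

/-- The estimates of the edges from the data. -/
theorem edg_of {Φ : ℂ → ℂ → ℂ} (hΦ : IsPhi Φ) (h0 : Φ 0 0 = c00)
    (h : TZ a z) (ha : ∀ i, 2 ≤ a i)
    (hσ : ∀ i, σ i = 1 ∨ σ i = -1) (hs : ∀ j : Fin m, σ j.succ = -σ (Tr.par j))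
    {v1 : Fin (m + 1) → ℝ} (hv1 : ∀ i, V1 (v1 i))
    (hvx : ∀ i, (z i).re / Real.pi < v1 i)
    (hD : OODall a σ z Φ v1) :
    (cfgOf a σ z).Edg v1 (lamC a z) where
  v0 := fun i _ => (hv1 i).pos
  vh := fun i _ => by linarith [(hv1 i).le]
  vx := fun i _ => by
    have h1 := hvx i
    have h3 := h.abs_th i
    have h4 : 0 < (z i).re / Real.pi := div_pos (h.pos i).1 Real.pi_pos
    rcases hσ i with s | s
    · rw [vcC_pos h3 s, mir_re, abs_neg, gdv_re_eq h, abs_of_pos h4]; exact h1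
    · rw [vcC_neg s, gdv_re_eq h, abs_of_pos h4]; exact h1
  lam1 := fun i _ => lamC_sum h ha i
  far := by
    intro j v w hv hw hne
    have hne' : v ≠ (cfgOf a σ z).vc (Tr.par j) ∨ w ≠ (cfgOf a σ z).vc j.succ := by
      rcases hne with h | h
      · exact Or.inl h.2
      · exact Or.inr h.2
    refine far_oo hΦ h0 h ha hv1 (edC h hσ hs j) ?_ (hv (mem_Op _)) (hw (mem_Op _)) hne'
    rcases hσ (Tr.par j) with s | s
    · right
      have s2 : σ j.succ = -1 := by rw [hs, s]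
      exact ⟨s, s2, hD _ _ (adj_su j) s2 s⟩
    · left
      have s2 : σ j.succ = 1 := by rw [hs, s]; rfl
      exact ⟨s, s2, hD _ _ (adj_cs j) s s2⟩
  near := by
    intro j
    refine near_oo hΦ h0 h hv1 ?_
    rcases hσ (Tr.par j) with s | s
    · right
      have s2 : σ j.succ = -1 := by rw [hs, s]
      exact ⟨s, s2, hD _ _ (adj_su j) s2 s⟩
    · left
      have s2 : σ j.succ = 1 := by rw [hs, s]; rfl
      exact ⟨s, s2, hD _ _ (adj_cs j) s s2⟩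

/-! ### `v1 = 13 / 40` -/

theorem bw_le (h : TZ a z) {i k : Fin (m + 1)} (hik : Adj i k) : bw (z i) (z k) ≤ a i := by
  have hsum := h.sum_bw i
  obtain ⟨j, hj⟩ := hik
  have hj' : j ∈ inc (Tr.par (m := m)) Fin.succ i ∧ oth j i = k := by
    rcases hj with ⟨e1, e2⟩ | ⟨e1, e2⟩
    · rw [e1, e2, oth_cs]; exact ⟨mem_inc_par j, rfl⟩
    · rw [e1, e2, oth_su]; exact ⟨mem_inc_succ j, rfl⟩
  rw [← hsum, ← hj'.2]
  exact Finset.single_le_sum (f := fun j => bw (z i) (z (oth j i)))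
    (fun j hj => (h.bw_pos (adj_oth hj)).le) hj'.1

/-- The one-vertex inequalities and the inequality `EndAll` of the edges. -/
structure TB (a : Fin (m + 1) → ℕ) (z : Fin (m + 1) → ℂ) (Φ : ℂ → ℂ → ℂ) : Prop where
  a3 : ∀ i, 3 ≤ a i
  hR : ∀ i, (z i).re / Real.pi < 13 / 40
  hT : ∀ i, th (z i).re (z i).im ≤ 27 / 50
  hG : ∀ i, a i = 3 → 7 / 25 ≤ th (z i).re (z i).im
  hE : ∀ n p : Fin (m + 1), Adj n p →
      EndAll Φ (th (z n).re (z n).im) (th (z p).re (z p).im) (xx (z n).re (z n).im)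
        (xx (z p).re (z p).im) (bw (z n) (z p)) (bw (z p) (z n)) (13 / 40) (13 / 40)
        (mu (bw (z n) (z p)) (a n) (13 / 40)) (mu (bw (z p) (z n)) (a p) (13 / 40))

/-- The data of the edges. -/
theorem ood_t1 {Φ : ℂ → ℂ → ℂ} (hΦ : IsPhi Φ) (h0 : Φ 0 0 = c00) (h : TZ a z) (H : TB a z Φ) :
    OODall a σ z Φ (fun _ => 13 / 40) := by
  intro n p hnp _ _
  have tn := Ht_of (h.thpos n) (H.hT n)
  have tp := Ht_of (h.thpos p) (H.hT p)
  have K : OO Φ (th (z n).re (z n).im) (th (z p).re (z p).im) (xx (z n).re (z n).im)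
      (xx (z p).re (z p).im) (bw (z n) (z p)) (bw (z p) (z n)) (13 / 40) (13 / 40) :=
    ⟨hΦ, h0, h.oppHyp hnp, h.split hnp, h.xxpos n, h.xxpos p, tn, tp, V1_t, V1_t,
      by rw [gdv_re_eq h]; exact H.hR n, by rw [gdv_re_eq h]; exact H.hR p⟩
  refine ⟨tn, tp, H.hR n, H.hR p, flatAll_of tn tp K.ho.S le_rfl le_rfl,
    flatC_of K le_rfl le_rfl, H.hE n p hnp, ?_, ?_⟩
  · rcases (H.a3 n).eq_or_lt with e | e
    · exact gainL_of hΦ (H.hG n e.symm) (mu_le (H.a3 n) (h.bw_pos hnp) (bw_le h hnp))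
    · exact gainL_nonpos hΦ (mu_nonpos e (h.bw_pos hnp))
  · rcases (H.a3 p).eq_or_lt with e | e
    · exact gainR_of hΦ (H.hG p e.symm) (mu_le (H.a3 p) (h.bw_pos hnp.symm) (bw_le h hnp.symm))
    · exact gainR_nonpos hΦ (mu_nonpos e (h.bw_pos hnp.symm))

/-- **The estimates of the edges of a tree with at least three twists at every vertex.** -/
theorem edg_t1 {Φ : ℂ → ℂ → ℂ} (hΦ : IsPhi Φ) (h0 : Φ 0 0 = c00)
    (h : TZ a z) (hσ : ∀ i, σ i = 1 ∨ σ i = -1)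
    (hs : ∀ j : Fin m, σ j.succ = -σ (Tr.par j)) (H : TB a z Φ) :
    (cfgOf a σ z).Edg (fun _ => 13 / 40) (lamC a z) :=
  edg_of hΦ h0 h (fun i => by have := H.a3 i; omega) hσ hs (fun _ => V1_t) H.hR
    (ood_t1 hΦ h0 h H)

end Pool.Agent.AT
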