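import Pool.Agent.AT.Low4
import Pool.Agent.AT.LowD5
import Pool.Agent.AT.WEdg1
import Pool.Agent.AT.JLim
import Pool.Agent.S3.Clo
import Pool.Agent.S3.Ks5

/-!
# The small indices: the tree
-/

set_option autoImplicit false
set_option linter.unusedSectionVars false

namespace Pool.Agent.AT

open Pool.Agent.S3
open Pool.Agent.H63.VC hiding ext
open Pool.Agent.H63.VC3 Pool.Agent.H63.VC4 Pool.Agent.H63.VC6 Pool.Agent.H63.VC7 Complex
open Pool.Agent.S3.E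
open Pool.Agent.H25.RK Pool.Agent.H63.GO Filter Topology MeasureTheory
open scoped BigOperators

variable {m : ℕ} [Tr m]

section

variable {a : Fin (m + 1) → ℕ} {σ : Fin (m + 1) → ℤ} {z : Fin (m + 1) → ℂ}

/-- The test points of the tree. -/
noncomputable def tC (σ : Fin (m + 1) → ℤ) (z : Fin (m + 1) → ℂ) (i : Fin (m + 1)) : ℂ :=
  if σ i = -1 then td (th (z i).re (z i).im) else mir (td (th (z i).re (z i).im))

/-- The loss of the vertex functions. -/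
noncomputable def rC (_i : Fin (m + 1)) : ℝ := Real.pi / 6

theorem tC_neg {i : Fin (m + 1)} (h : σ i = -1) : tC σ z i = td (th (z i).re (z i).im) := by
  unfold tC; rw [if_pos h]

theorem tC_pos {i : Fin (m + 1)} (h : σ i = 1) : tC σ z i = mir (td (th (z i).re (z i).im)) := by
  unfold tC; rw [if_neg (by rw [h]; decide)]

/-- The bound of an edge, `par j` has the sign `-1`. -/
theorem Lw_neg (h : TZ a z) {v1 : Fin (m + 1) → ℝ}
    (hv1 : ∀ i, V1 (v1 i)) {j : Fin m} (H : EdC a σ z j) (s1 : σ (Tr.par j) = -1)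
    (s2 : σ j.succ = 1) (v w : ℂ) :
    (cfgOf a σ z).Lw v1 (lamC a z) j v w =
      LL1 (th (z (Tr.par j)).re (z (Tr.par j)).im) (th (z j.succ).re (z j.succ).im)
        (bw (z (Tr.par j)) (z j.succ)) (bw (z j.succ) (z (Tr.par j)))
        (xx (z (Tr.par j)).re (z (Tr.par j)).im) (xx (z j.succ).re (z j.succ).im)
        (a (Tr.par j)) (a j.succ) (v1 (Tr.par j)) (v1 j.succ) v w := by
  have t2 := h.abs_th j.succ
  unfold Cfg.Lw LL1
  rw [lw_neg H (Or.inl rfl) s1, lw_pos H (hv1 _) t2 (Or.inr rfl) s2, oth_cs, oth_su]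
  unfold Cfg.Fc
  rw [slc_op, slc_op, vcC_neg s1, vcC_pos t2 s2, yc_eq, if_pos s1]
  unfold E.uu
  rw [UU_conj]
  rfl

/-- The bound of an edge, `par j` has the sign `1`. -/
theorem Lw_pos (h : TZ a z) {v1 : Fin (m + 1) → ℝ}
    (hv1 : ∀ i, V1 (v1 i)) {j : Fin m} (H : EdC a σ z j) (s1 : σ (Tr.par j) = 1)
    (s2 : σ j.succ = -1) (v w : ℂ) :
    (cfgOf a σ z).Lw v1 (lamC a z) j v w =
      LL1 (th (z j.succ).re (z j.succ).im) (th (z (Tr.par j)).re (z (Tr.par j)).im)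
        (bw (z j.succ) (z (Tr.par j))) (bw (z (Tr.par j)) (z j.succ))
        (xx (z j.succ).re (z j.succ).im) (xx (z (Tr.par j)).re (z (Tr.par j)).im)
        (a j.succ) (a (Tr.par j)) (v1 j.succ) (v1 (Tr.par j)) w v := by
  have t1 := h.abs_th (Tr.par j)
  unfold Cfg.Lw LL1
  rw [lw_neg H (Or.inr rfl) s2, lw_pos H (hv1 _) t1 (Or.inl rfl) s1, oth_cs, oth_su]
  unfold Cfg.Fc
  rw [slc_op, slc_op, vcC_neg s2, vcC_pos t1 s1, yc_eq, if_neg (by rw [s1]; decide)]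
  unfold E.uu
  rw [UU_conj]
  have e : ∀ σ τ y, EE τ σ y = EE σ τ y := fun σ τ y => by rw [EE, EE, add_comm]
  rw [e]
  unfold qe
  ring

/-- At the test points the two shares agree. -/
theorem lw_tC {v1 : Fin (m + 1) → ℝ} {lam : Fin m → Fin (m + 1) → ℝ} (j : Fin m)
    {i : Fin (m + 1)} (hv1 : V1 (v1 i)) (h1 : 1 / 4 ≤ v1 i) (hT : Ht (th (z i).re (z i).im))
    (hσ : σ i = 1 ∨ σ i = -1) :
    (cfgOf a σ z).lw v1 lam j i (tC σ z i) = (cfgOf a σ z).lv j i (tC σ z i) := by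
  have e : pl ((cfgOf a σ z).θ i) (v1 i) (tC σ z i) = tC σ z i := by
    show pl (th (z i).re (z i).im) (v1 i) (tC σ z i) = tC σ z i
    rcases hσ with s | s
    · rw [tC_pos s, pl_mir hv1, pl_td hT h1]
    · rw [tC_neg s, pl_td hT h1]
  unfold Cfg.lw
  rw [e, sub_self, mul_zero, add_zero, if_pos (mem_Op i)]

theorem wr_tC {i : Fin (m + 1)} (hσ : σ i = 1 ∨ σ i = -1) (h3 : 3 ≤ a i)
    (hT : Ht (th (z i).re (z i).im)) :
    -(wr ((cfgOf a σ z).r i) (tC σ z i)).re ≤ rC i := by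
  have ha : (3 : ℝ) ≤ a i := by exact_mod_cast h3
  have key : -(wr ((cfgOf a σ z).r i) (tC σ z i)).re =
      2 * Real.pi * (td (th (z i).re (z i).im)).im *
        (1 - a i * (td (th (z i).re (z i).im)).re) := by
    rw [wr_reW, neg_neg]
    rcases hσ with s | s
    · rw [tC_pos s, r_pos s, mir_im, mir_re]
      ring
    · rw [tC_neg s, r_neg s]
      ring
  rw [key, rC]
  exact td_cost hT ha

section

variable {Φ : ℂ → ℂ → ℂ} {v1 : Fin (m + 1) → ℝ}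

theorem mem_sT {b : Bool} {i : Fin (m + 1)} {v : ℂ}
    (h : v ∈ (cfgOf a σ z).sT v1 b i) :
    (b = true ∧ v ∈ rseg) ∨ (b = false ∧ v ∈ G0 (th (z i).re (z i).im) (v1 i)) := by
  unfold Cfg.sT at h
  cases b
  · right
    simp only [Bool.false_eq_true, if_false] at h
    exact ⟨rfl, h.1 (mem_Op i)⟩
  · left
    simp only [if_true] at h
    exact ⟨rfl, h⟩

theorem rseg_eq {v : ℂ} (h : v ∈ rseg) : v = ((v.re : ℝ) : ℂ) := by
  apply Complex.ext
  · simp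
  · simpa using h.1

/-- The hypotheses of the abstract theorem at an edge. -/
theorem low_oo (h : TZ a z) (ha : ∀ i, 3 ≤ a i)
    (hσ : ∀ i, σ i = 1 ∨ σ i = -1) (hs : ∀ j : Fin m, σ j.succ = -σ (Tr.par j))
    (hv1 : ∀ i, V1 (v1 i))
    (h14 : ∀ i, 1 / 4 ≤ v1 i) (hΦ : IsPhi Φ) (h0 : Φ 0 0 = c00) (hD : OODall a σ z Φ v1)
    (j : Fin m) :
    (rC (Tr.par j) + rC j.succ <
      (cfgOf a σ z).Lw v1 (lamC a z) j (tC σ z (Tr.par j)) (tC σ z j.succ)) ∧
    (∀ x x' : ℝ, |x| ≤ 1 / 2 → |x'| ≤ 1 / 2 → EdgeOK (.op (x : ℂ)) (.op (x' : ℂ))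
      ((cfgOf a σ z).Lw v1 (lamC a z) j (tC σ z (Tr.par j)) (tC σ z j.succ))) ∧
    (∀ (x : ℝ) (w : ℂ), |x| ≤ 1 / 2 → w ∈ G0 (th (z j.succ).re (z j.succ).im) (v1 j.succ) →
      EdgeOK (.op (x : ℂ)) (.op w)
        ((cfgOf a σ z).Lw v1 (lamC a z) j (tC σ z (Tr.par j)) w)) ∧
    (∀ (v : ℂ) (x : ℝ), |x| ≤ 1 / 2 →
      v ∈ G0 (th (z (Tr.par j)).re (z (Tr.par j)).im) (v1 (Tr.par j)) →
      EdgeOK (.op v) (.op (x : ℂ))
        ((cfgOf a σ z).Lw v1 (lamC a z) j v (tC σ z j.succ))) := by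
  have H := edC h hσ hs j
  have ha0 : ∀ i, (0 : ℝ) < a i := fun i => by
    have := ha i
    have h1 : 0 < a i := by omega
    exact_mod_cast h1
  rcases hσ (Tr.par j) with s1 | s1
  · have s2 : σ j.succ = -1 := by rw [hs, s1]
    have D := hD _ _ (adj_su j) s2 s1
    have K := D.oo hΦ h0 h (adj_su j) (hv1 _) (hv1 _)
    simp only [Lw_pos h hv1 H s1 s2, tC_pos s1, tC_neg s2]
    refine ⟨?_, ?_, ?_, ?_⟩
    · exact K.lowD_bad D.gL D.gR (ha0 _) (ha0 _) (h14 _) (h14 _)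
    · intro x x' hx hx'
      exact (K.lowD_rr D.flat D.gL D.gR (ha0 _) (ha0 _) (h14 _) (h14 _) hx' hx).symm
    · intro x w hx hw
      exact (K.lowD_gr D.flat D.gL D.gR (ha0 _) (ha0 _) (h14 _) hw hx).symm
    · intro v x hx hv
      exact (K.lowD_rg D.flat D.gL D.gR (ha0 _) (ha0 _) (h14 _) hv hx).symm
  · have s2 : σ j.succ = 1 := by rw [hs, s1]; rfl
    have D := hD _ _ (adj_cs j) s1 s2
    have K := D.oo hΦ h0 h (adj_cs j) (hv1 _) (hv1 _)
    simp only [Lw_neg h hv1 H s1 s2, tC_pos s2, tC_neg s1]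
    refine ⟨?_, ?_, ?_, ?_⟩
    · exact K.lowD_bad D.gL D.gR (ha0 _) (ha0 _) (h14 _) (h14 _)
    · intro x x' hx hx'
      exact K.lowD_rr D.flat D.gL D.gR (ha0 _) (ha0 _) (h14 _) (h14 _) hx hx'
    · intro x w hx hw
      exact K.lowD_rg D.flat D.gL D.gR (ha0 _) (ha0 _) (h14 _) hw hx
    · intro v x hx hv
      exact K.lowD_gr D.flat D.gL D.gR (ha0 _) (ha0 _) (h14 _) hv hx

/-- **The hypotheses of the abstract theorem for a tree with at least three twists at every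
vertex.** -/
theorem lowH_of (h : TZ a z) (ha : ∀ i, 3 ≤ a i)
    (hσ : ∀ i, σ i = 1 ∨ σ i = -1) (hs : ∀ j : Fin m, σ j.succ = -σ (Tr.par j))
    (hv1 : ∀ i, V1 (v1 i)) (h14 : ∀ i, 1 / 4 ≤ v1 i) (hT : ∀ i, Ht (th (z i).re (z i).im))
    (hΦ : IsPhi Φ) (h0 : Φ 0 0 = c00) (hD : OODall a σ z Φ v1) :
    (cfgOf a σ z).LowH v1 (lamC a z) (tC σ z) 0 rC where
  hg := rfl
  hρ := fun i _ => by unfold rC; have := Real.pi_pos; positivity
  wt := fun i _ => wr_tC (hσ i) (ha i) (hT i)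
  bad := by
    intro j
    have k := (low_oo h ha hσ hs hv1 h14 hΦ h0 hD j).1
    unfold Cfg.Lw at k
    rw [lw_tC j (hv1 _) (h14 _) (hT _) (hσ _), lw_tC j (hv1 _) (h14 _) (hT _) (hσ _)] at k
    have e1 : ∀ i, (cfgOf a σ z).cr 0 rC i = rC i := by
      intro i
      unfold Cfg.cr; rw [if_pos (mem_Op i), zero_add]
    rw [e1, e1]
    unfold Cfg.Lt
    exact k
  good := by
    intro j b b' hb hb' hbb v hv w hw
    have lt_t : ∀ i v, (cfgOf a σ z).lT v1 (lamC a z) (tC σ z) 0 true j i v =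
        (cfgOf a σ z).lv j i (tC σ z i) := by
      intro i v
      unfold Cfg.lT
      simp
    have lt_f : ∀ i v, (cfgOf a σ z).lT v1 (lamC a z) (tC σ z) 0 false j i v =
        (cfgOf a σ z).lw v1 (lamC a z) j i v := by
      intro i v
      unfold Cfg.lT
      simp
    have sv_op : ∀ i v, (cfgOf a σ z).sv i v = .op v := fun i v => if_pos (mem_Op i)
    obtain ⟨-, k2, k3, k4⟩ := low_oo h ha hσ hs hv1 h14 hΦ h0 hD j
    rw [sv_op, sv_op]
    rcases mem_sT hv with ⟨e, hv'⟩ | ⟨e, hv'⟩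
    · subst e
      rcases mem_sT hw with ⟨e', hw'⟩ | ⟨e', hw'⟩
      · subst e'
        rw [lt_t, lt_t, rseg_eq hv', rseg_eq hw']
        refine (k2 v.re w.re hv'.2 hw'.2).mono (le_of_eq ?_)
        unfold Cfg.Lw
        rw [lw_tC j (hv1 _) (h14 _) (hT _) (hσ _), lw_tC j (hv1 _) (h14 _) (hT _) (hσ _)]
      · subst e'
        rw [lt_t, lt_f, rseg_eq hv']
        refine (k3 v.re w hv'.2 hw').mono (le_of_eq ?_)
        unfold Cfg.Lw
        rw [lw_tC j (hv1 _) (h14 _) (hT _) (hσ _)]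
    · subst e
      rcases mem_sT hw with ⟨e', hw'⟩ | ⟨e', hw'⟩
      · subst e'
        rw [lt_f, lt_t, rseg_eq hw']
        refine (k4 v w.re hw'.2 hv').mono (le_of_eq ?_)
        unfold Cfg.Lw
        rw [lw_tC j (hv1 _) (h14 _) (hT _) (hσ _)]
      · subst e'
        rcases hbb with h | h
        · exact absurd h (by decide)
        · exact absurd h (by decide)

/-- **The small indices are negligible: the tree.** -/
theorem low_tree (hm : 1 ≤ m) (h : TZ a z) (hσ : ∀ i, σ i = 1 ∨ σ i = -1)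
    (hs : ∀ j : Fin m, σ j.succ = -σ (Tr.par j)) (hΦ : IsPhi Φ) (h0 : Φ 0 0 = c00)
    (H : TB a z Φ) :
    ∃ δ : ℝ, 0 < δ ∧ ∃ (K : ℝ) (p : ℕ), ∀ᶠ M : ℕ in atTop,
      ‖JG (Tr.par (m := m)) Fin.succ (cfgOf a σ z).r M - J0 (cfgOf a σ z).r M‖ ≤
        K * (M : ℝ) ^ p * Real.exp (M * (((cfgOf a σ z).V (cp (cfgOf a σ z).ac
          (cfgOf a σ z).bc)).re - δ)) := by
  have hC := crit hm h hσ hs
  have hop : ∀ i, i ∉ (cfgOf a σ z).Op → False := fun i hi => hi (mem_Op i)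
  obtain ⟨δ, hδ, K, -, p, hb⟩ := Cfg.low_main ksB ksL hC (fun i hi => (hop i hi).elim)
    (fun i hi => (hop i hi).elim) (fun i hi => (hop i hi).elim)
    (Eventually.of_forall fun M i hi => (hop i hi).elim) (edg_t1 hΦ h0 h hσ hs H)
    (lowH_of h H.a3 hσ hs (fun _ => V1_t) (fun _ => by norm_num)
      (fun i => Ht_of (h.thpos i) (H.hT i)) hΦ h0 (ood_t1 hΦ h0 h H))
    (fun v y hv hy => low_E1a hv hy.1 hy.2) (fun s y hy => low_E1c hy.1 hy.2 s)
  refine ⟨δ, hδ, K, p, ?_⟩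
  filter_upwards [hb] with M hM
  rw [JLim_V_re hC]
  exact hM

end

end

end Pool.Agent.AT
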