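import Pool.Agent.H25.RK.DGI
import Pool.Agent.H25.RK.DGf
import Pool.Agent.H63.GO.MTaylor
import Pool.Agent.H63.VC.Asym
import Pool.Agent.H63.VC.EndB
import Pool.Agent.H63.VC.Riem
import Pool.Agent.H63.VC.SlowL
import Pool.Agent.H63.VC.SlowU
import Pool.Agent.H63.VC3.CritB
import Pool.Agent.H63.VC3.Upper
import Pool.Agent.H63.VC4.GaussN
import Pool.Agent.H63.VC4.KBN
import Pool.Agent.H63.VC4.LaplaceN
import Pool.Agent.H63.VC4.UpperN
import Pool.Agent.H63.VC5.Defs
import Pool.Agent.H63.VC6.LocU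
import Pool.Agent.H63.VC6.SlotU
import Pool.Agent.H63.VC7.Link
import Pool.Agent.S3.Asm.Def
import Pool.Agent.S3.Chain
import Pool.Agent.S3.Cl.PbNum
import Pool.Agent.S3.LowA
import Pool.Agent.S3.Quad

/-!
# The diagonal: `im q > re q`

If `sinh q = c tan (s (1 + i))`, `|c|² ≤ 1.3606`, `re c > 0`, `im c ≥ 0`, `0 < s ≤ π/4`, then
`re q < im q`.
-/

set_option autoImplicit false

namespace Pool.Agent.S3

open Complex

/-- `sinh x ≤ 59/50 x` on `[0, 1]`. -/
theorem dg_sinh {x : ℝ} (h0 : 0 ≤ x) (h1 : x ≤ 1) : Real.sinh x ≤ 59 / 50 * x := by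
  have h := LowA_pos (b := 1) (f := fun x => x + x ^ 3 / 6 + x ^ 5 / 100 - Real.sinh x)
    (f' := fun x => 1 + x ^ 2 / 2 + x ^ 4 / 20 - Real.cosh x)
    (fun x _ _ => by
      have h1 := (((hasDerivAt_id' x).add ((hasDerivAt_pow 3 x).div_const 6)).add
        ((hasDerivAt_pow 5 x).div_const 100)).sub (Real.hasDerivAt_sinh x)
      refine h1.congr_deriv ?_
      norm_num
      try ring)
    (by simp) (fun x hx hx1 => by
      have h2 := Cl.pb_ch6 hx hx1
      have h3 : x ^ 6 ≤ x ^ 4 := pow_le_pow_of_le_one hx hx1 (by norm_num)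
      have h4 : 0 ≤ x ^ 4 := by positivity
      linarith only [h4, h3, h2]) h0 h1
  have h3 : x ^ 3 ≤ x := by
    calc x ^ 3 ≤ x ^ 1 := pow_le_pow_of_le_one h0 h1 (by norm_num)
      _ = x := pow_one x
  have h5 : x ^ 5 ≤ x := by
    calc x ^ 5 ≤ x ^ 1 := pow_le_pow_of_le_one h0 h1 (by norm_num)
      _ = x := pow_one x
  linarith only [h5, h3, h, h0]

theorem dg_sin_le {x : ℝ} (hx : 0 ≤ x) : Real.sin x ≤ x - x ^ 3 / 6 + x ^ 5 / 120 := Cl.n_s5 hx

/-- `(sinh² t + sin² t)² / 10 ≤ sinh² t - sin² t` on `[0, 1]`. -/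
theorem dg_gap {t : ℝ} (h0 : 0 ≤ t) (h1 : t ≤ 1) :
    (Real.sinh t ^ 2 + Real.sin t ^ 2) ^ 2 / 10 ≤ Real.sinh t ^ 2 - Real.sin t ^ 2 := by
  have a1 := dg_sinh h0 h1
  have a2 := Cl.n_sh5 h0
  have a3 := dg_sin_le h0
  have a4 : t - t ^ 3 / 6 ≤ Real.sin t := Cl.n_s3 h0
  have a5 : Real.sin t ≤ t := Real.sin_le h0
  have t3 : 0 ≤ t ^ 3 := by positivity
  have t5 : 0 ≤ t ^ 5 := by positivity
  have s0 : 0 ≤ Real.sinh t := Real.sinh_nonneg_iff.2 h0
  have s1 : 0 ≤ Real.sin t := Real.sin_nonneg_of_nonneg_of_le_pi h0 (by linarith only [Real.pi_gt_three,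
                                                                          h1])
  have b1 : Real.sinh t ^ 2 ≤ (59 / 50 * t) ^ 2 := pow_le_pow_left₀ s0 a1 2
  have b2 : Real.sin t ^ 2 ≤ t ^ 2 := pow_le_pow_left₀ s1 a5 2
  have b3 : Real.sinh t ^ 2 + Real.sin t ^ 2 ≤ 24 / 10 * t ^ 2 := by linarith only [sq_nonneg t, b2,
                                                                       b1]
  have b4 : (Real.sinh t ^ 2 + Real.sin t ^ 2) ^ 2 ≤ (24 / 10 * t ^ 2) ^ 2 :=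
    pow_le_pow_left₀ (by positivity) b3 2
  have c1 : t ^ 3 / 3 ≤ Real.sinh t - Real.sin t := by linarith only [a3, a2]
  have c2 : 2 * t ≤ Real.sinh t + Real.sin t := by linarith only [a4, a3, a2]
  have c3 : t ^ 3 / 3 * (2 * t) ≤ (Real.sinh t - Real.sin t) * (Real.sinh t + Real.sin t) :=
    mul_le_mul c1 c2 (by positivity) (by linarith only [a5, a4, a3, a2])
  have t4 : 0 ≤ t ^ 4 := by positivity
  linarith only [t4, c3, b4]

/-- The core inequality. -/
theorem dg_core {s p r : ℝ} (hs0 : 0 < s) (hs1 : s ≤ Real.pi / 4) (hr : |r| < Real.pi / 2)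
    (hB : 0 < Real.cosh p * Real.sin r)
    (hAB : Real.sinh p * Real.cos r * Real.sinh (2 * s) ≤
      Real.cosh p * Real.sin r * Real.sin (2 * s))
    (hP : (Real.sinh p ^ 2 + Real.sin r ^ 2) * (1 + Real.sinh s ^ 2 - Real.sin s ^ 2) ≤
      13606 / 10000 * (Real.sinh s ^ 2 + Real.sin s ^ 2)) : p < r := by
  have hpi := Real.pi_pos
  have hpi2 := Real.pi_lt_d2
  have hr' := abs_lt.1 hr
  have hcp := Real.cosh_pos p
  have hsr : 0 < Real.sin r := by
    by_contra hc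
    push Not at hc
    linarith only [mul_nonneg (sub_nonneg.2 hcp.le) (sub_nonneg.2 hc),
      mul_pos (sub_pos.2 hB) (sub_pos.2 hpi2), mul_nonneg (sub_nonneg.2 hs1) (sub_nonneg.2 hB.le),
      mul_pos (sub_pos.2 hs0) (sub_pos.2 hB)]
  have hr0 : 0 < r := by
    by_contra hc
    push Not at hc
    have := Real.sin_nonpos_of_nonpos_of_neg_pi_le hc (by linarith only [hr'.1, hs1, hs0])
    linarith only [this, hsr]
  by_contra hc
  push Not at hc
  have hp0 : 0 < p := hr0.trans_le hc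
  have hs1' : s ≤ 1 := by linarith only [hpi2, hs1]
  -- `s`
  have gs := dg_gap hs0.le hs1'
  have ss0 : 0 < Real.sinh s := Real.sinh_pos_iff.2 hs0
  have sn0 : 0 < Real.sin s := Real.sin_pos_of_pos_of_lt_pi hs0 (by linarith only [hs1, hs0])
  have sn1 : Real.sin s ^ 2 ≤ 1 / 2 := by
    have h1 : Real.sin s ≤ Real.sin (Real.pi / 4) :=
      Real.sin_le_sin_of_le_of_le_pi_div_two (by linarith only [hs1, hs0]) (by linarith only [hs1,
                                                                                 hs0]) hs1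
    have h2 := pow_le_pow_left₀ sn0.le h1 2
    rw [Real.sin_pi_div_four, div_pow, Real.sq_sqrt (by norm_num)] at h2
    norm_num at h2
    exact h2
  have e1 : Real.sinh (2 * s) ^ 2 = 4 * (Real.sinh s ^ 2 * (1 + Real.sinh s ^ 2)) := by
    rw [Real.sinh_two_mul, mul_pow, mul_pow, Real.cosh_sq]
    ring
  have e2 : Real.sin (2 * s) ^ 2 = 4 * (Real.sin s ^ 2 * (1 - Real.sin s ^ 2)) := by
    rw [Real.sin_two_mul, mul_pow, mul_pow, Real.cos_sq']
    ring
  have sp0 : 0 < Real.sinh p := Real.sinh_pos_iff.2 hp0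
  have cr0 : 0 < Real.cos r := Real.cos_pos_of_mem_Ioo ⟨by linarith only [hr'.1], by linarith only [hr'.2]⟩
  have s20 : 0 ≤ Real.sinh (2 * s) := Real.sinh_nonneg_iff.2 (by linarith only [hs0])
  have hsq := pow_le_pow_left₀ (by positivity) hAB 2
  rw [mul_pow, mul_pow, mul_pow, mul_pow, e1, e2, Real.cosh_sq, Real.cos_sq'] at hsq
  -- `p ≤ 1`
  have hX1 : Real.sinh p ^ 2 ≤ 13606 / 10000 := by
    have h1 : Real.sinh s ^ 2 + Real.sin s ^ 2 ≤ 1 + Real.sinh s ^ 2 - Real.sin s ^ 2 := by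
      linarith only [sn1]
    have h2 : 0 < 1 + Real.sinh s ^ 2 - Real.sin s ^ 2 := by linarith only [sq_nonneg (Real.sinh s),
                                                               sn1, hpi2, hs1, hs0]
    have h3 : Real.sinh p ^ 2 * (1 + Real.sinh s ^ 2 - Real.sin s ^ 2) ≤
        13606 / 10000 * (1 + Real.sinh s ^ 2 - Real.sin s ^ 2) := by
      linarith only [sn1, hP, sq_nonneg (Real.sin r),
        mul_nonneg (sq_nonneg (Real.sin r)) (sub_nonneg.2 gs),
        mul_nonneg (sq_nonneg (Real.sin r)) (sq_nonneg (1 * (1 * Real.sinh s) ^ 2 + 1 * (1 * Real.sin s) ^ 2))]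
    exact le_of_mul_le_mul_right h3 h2
  have hp1 : p ≤ 1 := by
    by_contra hcp
    push Not at hcp
    have h1 : Real.sinh 1 ≤ Real.sinh p := Real.sinh_le_sinh.2 hcp.le
    have h2 := Cl.n_sh5 (x := 1) (by norm_num)
    norm_num at h2
    have h3 : (47 / 40 : ℝ) ≤ Real.sinh p := by linarith only [h2, h1]
    have h4 := pow_le_pow_left₀ (by norm_num) h3 2
    norm_num at h4
    linarith only [h4, hX1, hpi2, hs1, hs0]
  have gp := dg_gap hp0.le hp1
  have hY : Real.sin r ^ 2 ≤ Real.sin p ^ 2 :=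
    pow_le_pow_left₀ hsr.le (Real.sin_le_sin_of_le_of_le_pi_div_two (by linarith only [hr'.1])
      (by linarith only [Real.pi_gt_three, hp1, hs1, hs0]) hc) 2
  have hX0 : 0 < Real.sinh p ^ 2 := by positivity
  have hY0 : 0 < Real.sin r ^ 2 := by positivity
  have hS0 : 0 < Real.sinh s ^ 2 := by positivity
  have hQ0 : 0 < Real.sin s ^ 2 := by positivity
  generalize Real.sinh p ^ 2 = X at *
  generalize Real.sin r ^ 2 = Y at *
  generalize Real.sin p ^ 2 = Y' at *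
  generalize Real.sinh s ^ 2 = S at *
  generalize Real.sin s ^ 2 = Q at *
  -- `(X + Y)² / 10 ≤ X - Y`
  have g1 : (X + Y) ^ 2 / 10 ≤ X - Y := by
    have : (X + Y) ^ 2 ≤ (X + Y') ^ 2 := pow_le_pow_left₀ (by positivity) (by linarith only [hY]) 2
    linarith only [this, hY, gp]
  have hab : 0 < (S + Q) * (1 + S - Q) := by
    apply mul_pos <;> linarith
  have hP0 : 0 < X + Y := by positivity
  -- `3/10 (S+Q)² P ≤ 1/5 (a'+b') P²`
  have k1 : (S + S ^ 2 - (Q - Q ^ 2)) * (X + Y) + (S + S ^ 2 + (Q - Q ^ 2)) * (X - Y) ≤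
      2 * (S + S ^ 2 + (Q - Q ^ 2)) * (X * Y) := by linarith only [hsq]
  have k2 : 6 / 10 * (S + Q) ^ 2 ≤ S + S ^ 2 - (Q - Q ^ 2) := by linarith only [sq_nonneg (S - Q),
                                                                   gs]
  have k3 : (S + S ^ 2 + (Q - Q ^ 2)) = (S + Q) * (1 + S - Q) := by ring
  rw [k3] at k1
  have k4 : 6 / 10 * (S + Q) ^ 2 * (X + Y) ≤ (S + S ^ 2 - (Q - Q ^ 2)) * (X + Y) :=
    mul_le_mul_of_nonneg_right k2 hP0.le
  have k5 : (S + Q) * (1 + S - Q) * ((X + Y) ^ 2 / 10) ≤ (S + Q) * (1 + S - Q) * (X - Y) :=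
    mul_le_mul_of_nonneg_left g1 hab.le
  have k6 : X * Y ≤ (X + Y) ^ 2 / 4 := by linarith only [sq_nonneg (X - Y)]
  have k7 : 2 * ((S + Q) * (1 + S - Q)) * (X * Y) ≤ 2 * ((S + Q) * (1 + S - Q)) *
      ((X + Y) ^ 2 / 4) := mul_le_mul_of_nonneg_left k6 (by positivity)
  have k8 : 6 / 10 * (S + Q) ^ 2 * (X + Y) ≤ 4 / 10 * ((S + Q) * (1 + S - Q)) * (X + Y) ^ 2 := by
    linarith only [k7, k5, k4, hsq]
  have k9 : 6 / 10 * (S + Q) ≤ 4 / 10 * ((X + Y) * (1 + S - Q)) := by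
    have hm : 0 < (S + Q) * (X + Y) := by positivity
    apply le_of_mul_le_mul_left _ hm
    linarith only [k7, k5, k4, hsq]
  linarith only [k9, hP, hQ0, hS0]

end Pool.Agent.S3
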