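import Pool.Agent.AT.LowD1
import Pool.Agent.S3.Low5
import Pool.Agent.S3.Cl.Low

/-!
# The test points on the diagonal

`td θ = τ (1 + i)`, the point of the line of height `θ` on the diagonal. Along the diagonal
`re Φ (·, conj w)` increases.
-/

set_option autoImplicit false

namespace Pool.Agent.S3

open Complex
open Pool.Agent.H25.RK (gdv gdv_re_lt gdv_hasDerivAt)

/-! ### The tangent on the diagonal -/

theorem dg_N {s : ℝ} : Real.cos s ^ 2 + Real.sinh s ^ 2 = 1 + Real.sinh s ^ 2 - Real.sin s ^ 2 := by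
  rw [Real.cos_sq']; ring

theorem dg_N_pos {s : ℝ} (h : |s| < Real.pi / 2) : 0 < 1 + Real.sinh s ^ 2 - Real.sin s ^ 2 := by
  rw [← dg_N]
  have := cos_pos' h
  positivity

theorem dg_tan {s : ℝ} (h : |s| < Real.pi / 2) :
    (tan (UU s s)).re = Real.sin s * Real.cos s / (1 + Real.sinh s ^ 2 - Real.sin s ^ 2) ∧
    (tan (UU s s)).im = Real.sinh s * Real.cosh s / (1 + Real.sinh s ^ 2 - Real.sin s ^ 2) := by
  have hn := dg_N_pos h
  have hc : cos (UU s s) ≠ 0 := cos_ne' (UU_re_lt h)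
  have hch := Real.cosh_sq s
  have hcs := Real.cos_sq' s
  have e : tan (UU s s) = (((Real.sin s * Real.cos s /
      (1 + Real.sinh s ^ 2 - Real.sin s ^ 2) : ℝ) : ℂ)) +
      ((Real.sinh s * Real.cosh s / (1 + Real.sinh s ^ 2 - Real.sin s ^ 2) : ℝ) : ℂ) * I := by
    rw [Complex.tan_eq_sin_div_cos, div_eq_iff hc]
    apply Complex.ext
    · rw [wsin_re, mul_re, wcos_re, wcos_im, UU_re, UU_im, add_re, add_im, ofReal_re, ofReal_im,
        re_ofReal_mul, im_ofReal_mul, I_re, I_im]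
      have hn' := hn.ne'
      generalize Real.sinh s = S at *
      generalize Real.cosh s = C at *
      generalize Real.sin s = a at *
      generalize Real.cos s = b at *
      field_simp
      linear_combination (-(a * C)) * hcs
    · rw [wsin_im, mul_im, wcos_re, wcos_im, UU_re, UU_im, add_re, add_im, ofReal_re, ofReal_im,
        re_ofReal_mul, im_ofReal_mul, I_re, I_im]
      have hn' := hn.ne'
      generalize Real.sinh s = S at *
      generalize Real.cosh s = C at *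
      generalize Real.sin s = a at *
      generalize Real.cos s = b at *
      field_simp
      linear_combination (-(b * S)) * hch
  rw [e]
  constructor
  · rw [add_re, ofReal_re, re_ofReal_mul, I_re, mul_zero, add_zero]
  · rw [add_im, ofReal_im, im_ofReal_mul, I_im, mul_one, zero_add]

/-- `re q < im q` if `sinh q = c tan (s (1 + i))`. -/
theorem dg_lt {s : ℝ} (hs0 : 0 < s) (hs1 : s ≤ Real.pi / 4) {q c : ℂ}
    (hq : |q.im| < Real.pi / 2) (hqc : sinh q = tan (UU s s) * c) (c0 : 0 < c.re) (c1 : 0 ≤ c.im)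
    (c2 : normSq c ≤ 13606 / 10000) : q.re < q.im := by
  have hpi := Real.pi_pos
  have hs : |s| < Real.pi / 2 := by rw [abs_of_pos hs0]; linarith
  have hn := dg_N_pos hs
  obtain ⟨t1, t2⟩ := dg_tan hs
  have ss0 : 0 < Real.sinh s := Real.sinh_pos_iff.2 hs0
  have sn0 : 0 < Real.sin s := Real.sin_pos_of_pos_of_lt_pi hs0 (by linarith)
  have cs0 := cos_pos' hs
  have ch0 := Real.cosh_pos s
  have e1 := congrArg Complex.re hqc
  have e2 := congrArg Complex.im hqc
  rw [sinh_re', mul_re, t1, t2] at e1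
  rw [sinh_im', mul_im, t1, t2] at e2
  rw [normSq_apply] at c2
  have hch := Real.cosh_sq s
  have hcs := Real.cos_sq' s
  have hN2 : (Real.sin s * Real.cos s) ^ 2 + (Real.sinh s * Real.cosh s) ^ 2 =
      (Real.sinh s ^ 2 + Real.sin s ^ 2) * (1 + Real.sinh s ^ 2 - Real.sin s ^ 2) := by
    rw [mul_pow, mul_pow, hch, hcs]; ring
  have a0 : 0 < Real.sin s * Real.cos s := by positivity
  have b0 : 0 < Real.sinh s * Real.cosh s := by positivity
  apply dg_core hs0 hs1 hq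
  · rw [e2]
    positivity
  · rw [e1, e2, Real.sinh_two_mul, Real.sin_two_mul]
    have e3 : (Real.sin s * Real.cos s / (1 + Real.sinh s ^ 2 - Real.sin s ^ 2) * c.im +
        Real.sinh s * Real.cosh s / (1 + Real.sinh s ^ 2 - Real.sin s ^ 2) * c.re) *
        (2 * Real.sin s * Real.cos s) - (Real.sin s * Real.cos s /
        (1 + Real.sinh s ^ 2 - Real.sin s ^ 2) * c.re - Real.sinh s * Real.cosh s /
        (1 + Real.sinh s ^ 2 - Real.sin s ^ 2) * c.im) * (2 * Real.sinh s * Real.cosh s) =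
        2 * c.im * ((Real.sin s * Real.cos s) ^ 2 + (Real.sinh s * Real.cosh s) ^ 2) /
          (1 + Real.sinh s ^ 2 - Real.sin s ^ 2) := by
      field_simp
      ring
    have e4 : 0 ≤ 2 * c.im * ((Real.sin s * Real.cos s) ^ 2 + (Real.sinh s * Real.cosh s) ^ 2) /
          (1 + Real.sinh s ^ 2 - Real.sin s ^ 2) := by positivity
    linarith
  · have e3 : Real.sinh q.re ^ 2 + Real.sin q.im ^ 2 =
        (Real.sinh q.re * Real.cos q.im) ^ 2 + (Real.cosh q.re * Real.sin q.im) ^ 2 := by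
      rw [mul_pow, mul_pow, Real.cosh_sq, Real.cos_sq']
      ring
    rw [e3, e1, e2]
    have e5 : ((Real.sin s * Real.cos s / (1 + Real.sinh s ^ 2 - Real.sin s ^ 2) * c.re -
        Real.sinh s * Real.cosh s / (1 + Real.sinh s ^ 2 - Real.sin s ^ 2) * c.im) ^ 2 +
        (Real.sin s * Real.cos s / (1 + Real.sinh s ^ 2 - Real.sin s ^ 2) * c.im +
        Real.sinh s * Real.cosh s / (1 + Real.sinh s ^ 2 - Real.sin s ^ 2) * c.re) ^ 2) *
        (1 + Real.sinh s ^ 2 - Real.sin s ^ 2) =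
        ((Real.sin s * Real.cos s) ^ 2 + (Real.sinh s * Real.cosh s) ^ 2) *
          (c.re * c.re + c.im * c.im) / (1 + Real.sinh s ^ 2 - Real.sin s ^ 2) := by
      field_simp
      ring
    rw [e5, hN2]
    have e6 : (Real.sinh s ^ 2 + Real.sin s ^ 2) * (1 + Real.sinh s ^ 2 - Real.sin s ^ 2) *
        (c.re * c.re + c.im * c.im) / (1 + Real.sinh s ^ 2 - Real.sin s ^ 2) =
        (c.re * c.re + c.im * c.im) * (Real.sinh s ^ 2 + Real.sin s ^ 2) := by
      field_simp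
    rw [e6]
    exact mul_le_mul_of_nonneg_right c2 (by positivity)

/-! ### The derivative along the diagonal -/

theorem dg_igd {s : ℝ} (hs : |s| < Real.pi / 2) :
    HasDerivAt (fun s : ℝ => igd (UU s s)) ((1 + I) * cosh (igd (UU s s))) s := by
  have h1 : HasDerivAt (fun s : ℝ => UU s s) (1 + I) s := by
    unfold UU
    have h2 := HasDerivAt.ofReal_comp (hasDerivAt_id' s)
    have h3 := h2.add (h2.mul_const I)
    refine h3.congr_deriv ?_
    rw [ofReal_one, one_mul]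
  have := HasDerivAt.scomp (g₁ := igd) (h := fun s : ℝ => UU s s) s
    (hasDerivAt_igd (UU_re_lt hs)) h1
  exact this.congr_deriv (by rw [smul_eq_mul])

theorem dg_deriv {Φ : ℂ → ℂ → ℂ} (hΦ : IsPhi Φ) {s : ℝ} (hs : |s| < Real.pi / 2) {w : ℂ}
    (h : Reg (igd (UU s s)) w) :
    HasDerivAt (fun s => FP Φ (UU s s) (gd w))
      (2 / Real.pi * ((qq (igd (UU s s)) w).im - (qq (igd (UU s s)) w).re)) s := by
  have h1 := hΦ.deriv (fun s => igd (UU s s)) (fun _ => w) ((1 + I) * cosh (igd (UU s s))) 0 s h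
    (dg_igd hs) (hasDerivAt_const s w)
  have h2 := hasDerivAt_re h1
  have e : (fun s => FP Φ (UU s s) (gd w)) =ᶠ[nhds s]
      (fun s : ℝ => (Φ (gd (igd (UU s s)) / (Real.pi : ℂ)) (gd w / (Real.pi : ℂ))).re) := by
    have hn : ∀ᶠ t in nhds s, |t| < Real.pi / 2 :=
      (continuous_abs.continuousAt).eventually_lt_const hs
    filter_upwards [hn] with t ht
    rw [gd_igd (UU_re_lt ht), FP]
  refine (h2.congr_of_eventuallyEq e).congr_deriv ?_
  have hpi : (Real.pi : ℂ) ≠ 0 := by exact_mod_cast Real.pi_ne_zero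
  have hc : cosh (igd (UU s s)) ≠ 0 := cosh_ne h.left
  have e2 : -2 * qq (igd (UU s s)) w * ((1 + I) * cosh (igd (UU s s))) /
      ((Real.pi : ℂ) * cosh (igd (UU s s))) -
      2 * qq w (igd (UU s s)) * 0 / ((Real.pi : ℂ) * cosh w) =
      ((-(2 / Real.pi) : ℝ) : ℂ) * (qq (igd (UU s s)) w * (1 + I)) := by
    push_cast
    field_simp
    ring
  rw [e2, re_ofReal_mul, mul_re, add_re, add_im, one_re, one_im, I_re, I_im]
  ring

/-- Along the diagonal the value increases. -/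
theorem dg_mono {Φ : ℂ → ℂ → ℂ} (hΦ : IsPhi Φ) {x : ℝ} (hx0 : 0 < x) (hx1 : x ≤ Real.pi / 4)
    {W : ℂ} (hreg : ∀ s, 0 ≤ s → s ≤ x → Reg (igd (UU s s)) W) (c0 : 0 < (1 / cosh W).re)
    (c1 : 0 ≤ (1 / cosh W).im) (c2 : normSq (1 / cosh W) ≤ 13606 / 10000) :
    FP Φ (UU 0 0) (gd W) < FP Φ (UU x x) (gd W) := by
  have hpi := Real.pi_pos
  have habs : ∀ s, 0 ≤ s → s ≤ x → |s| < Real.pi / 2 := fun s h0 h1 => by
    rw [abs_of_nonneg h0]; linarith
  have hm : StrictMonoOn (fun s => FP Φ (UU s s) (gd W)) (Set.Icc 0 x) := by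
    apply strictMonoOn_of_deriv_pos (convex_Icc _ _)
    · intro s hs
      exact (dg_deriv hΦ (habs s hs.1 hs.2) (hreg s hs.1 hs.2)).continuousAt.continuousWithinAt
    · intro s hs
      rw [interior_Icc] at hs
      have hr := hreg s hs.1.le hs.2.le
      rw [(dg_deriv hΦ (habs s hs.1.le hs.2.le) hr).deriv]
      have h1 := dg_lt hs.1 (hs.2.le.trans hx1) (q := qq (igd (UU s s)) W) (c := 1 / cosh W)
        (qq_im_lt hr) (by rw [sinh_qq, sinh_igd]; ring) c0 c1 c2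
      have h2 : 0 < 2 / Real.pi := by positivity
      exact mul_pos h2 (by linarith)
  exact hm ⟨le_rfl, hx0.le⟩ ⟨hx0.le, le_rfl⟩ hx0

/-! ### The test point -/

theorem td_exists {θ : ℝ} (h0 : 0 < θ) (h1 : θ < Real.pi / 2) :
    ∃ x, 0 < x ∧ x < θ ∧ Real.sinh x = Real.tan θ * Real.cos x := by
  have hc : 0 < Real.cos θ := Real.cos_pos_of_mem_Ioo ⟨by linarith, h1⟩
  have hs : 0 < Real.sin θ := Real.sin_pos_of_pos_of_lt_pi h0 (by linarith)
  have ht : 0 < Real.tan θ := by rw [Real.tan_eq_sin_div_cos]; positivity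
  have hcont : ContinuousOn (fun x => Real.sinh x - Real.tan θ * Real.cos x) (Set.Icc 0 θ) :=
    (Real.continuous_sinh.sub (continuous_const.mul Real.continuous_cos)).continuousOn
  have h2 : (0 : ℝ) ∈ Set.Ioo (Real.sinh 0 - Real.tan θ * Real.cos 0)
      (Real.sinh θ - Real.tan θ * Real.cos θ) := by
    constructor
    · rw [Real.sinh_zero, Real.cos_zero]; linarith
    · rw [Real.tan_eq_sin_div_cos, div_mul_cancel₀ _ hc.ne']
      have h3 := Real.self_lt_sinh_iff.2 h0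
      have h4 := Real.sin_lt h0
      linarith
  obtain ⟨x, hx, hx2⟩ := intermediate_value_Ioo h0.le hcont h2
  exact ⟨x, hx.1, hx.2, by simp only at hx2; linarith⟩

open Classical in
/-- The coordinate of the test point. -/
noncomputable def dgx (θ : ℝ) : ℝ :=
  if h : ∃ x, 0 < x ∧ x < θ ∧ Real.sinh x = Real.tan θ * Real.cos x then h.choose else 0

/-- The test point of a vertex. -/
noncomputable def td (θ : ℝ) : ℂ :=
  ((dgx θ / Real.pi : ℝ) : ℂ) + (bl θ (dgx θ / Real.pi) : ℝ) * I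

section

variable {θ θ' : ℝ}

theorem dgx_spec (h : Ht θ) : 0 < dgx θ ∧ dgx θ < θ ∧
    Real.sinh (dgx θ) = Real.tan θ * Real.cos (dgx θ) := by
  have h1 := td_exists h.pos h.lt
  unfold dgx
  rw [dif_pos h1]
  exact h1.choose_spec

theorem dgx_lt (h : Ht θ) : dgx θ < Real.pi / 4 := (dgx_spec h).2.1.trans h.lt_quarter

theorem td_re (θ : ℝ) : (td θ).re = dgx θ / Real.pi := by
  rw [td, add_re, ofReal_re, re_ofReal_mul, I_re, mul_zero, add_zero]

theorem td_im (θ : ℝ) : (td θ).im = bl θ (td θ).re := by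
  rw [td_re, td, add_im, ofReal_im, im_ofReal_mul, I_im, mul_one, zero_add]

theorem td_bl (h : Ht θ) : bl θ (dgx θ / Real.pi) = dgx θ / Real.pi := by
  have hpi := Real.pi_pos
  rw [bl, mul_div_cancel₀ _ hpi.ne', ← (dgx_spec h).2.2, Real.arsinh_sinh]

theorem td_im' (h : Ht θ) : (td θ).im = dgx θ / Real.pi := by
  rw [td_im, td_re, td_bl h]

theorem td_eq (h : Ht θ) : (Real.pi : ℂ) * td θ = UU (dgx θ) (dgx θ) := by
  apply Complex.ext
  · rw [pi_mul_re, td_re, UU_re, mul_div_cancel₀ _ Real.pi_ne_zero]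
  · rw [pi_mul_im, td_im' h, UU_im, mul_div_cancel₀ _ Real.pi_ne_zero]

theorem td_re_pos (h : Ht θ) : 0 < (td θ).re := by
  rw [td_re]; exact div_pos (dgx_spec h).1 Real.pi_pos

theorem td_re_lt (h : Ht θ) : (td θ).re < 1 / 4 := by
  rw [td_re, div_lt_iff₀ Real.pi_pos]
  linarith [dgx_lt h]

theorem td_eq_up (θ : ℝ) : td θ = up θ ((dgx θ / Real.pi : ℝ) : ℂ) := by
  rw [td, up, ofReal_re]

theorem Und_td (h : Ht θ) : Und θ (td θ) :=
  ⟨(td_re_pos h).le, by linarith [td_re_lt h], by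
    rw [td_im' h]; exact (div_pos (dgx_spec h).1 Real.pi_pos).le, (td_im θ).le⟩

/-- The cost of a vertex is at most `π / 6`. -/
theorem td_cost (h : Ht θ) {a : ℝ} (ha : 3 ≤ a) :
    2 * Real.pi * (td θ).im * (1 - a * (td θ).re) ≤ Real.pi / 6 := by
  have hpi := Real.pi_pos
  rw [td_im' h, td_re]
  have hx := (dgx_spec h).1
  obtain ⟨x, hx'⟩ : ∃ x, x = dgx θ / Real.pi := ⟨_, rfl⟩
  have hx0 : 0 < x := by rw [hx']; positivity
  rw [← hx']
  have h1 : 1 - a * x ≤ 1 - 3 * x := by nlinarith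
  have h2 : 2 * Real.pi * x * (1 - a * x) ≤ 2 * Real.pi * x * (1 - 3 * x) :=
    mul_le_mul_of_nonneg_left h1 (by positivity)
  nlinarith [sq_nonneg (x - 1 / 6)]

/-- The points of the diagonal below the test point. -/
theorem Und_dg (h : Ht θ) {s : ℝ} (h0 : 0 ≤ s) (h1 : s ≤ dgx θ) :
    Und θ (((s / Real.pi : ℝ) : ℂ) + ((s / Real.pi : ℝ) : ℂ) * I) := by
  have hpi := Real.pi_pos
  have h2 := dgx_lt h
  have h3 : 0 ≤ s / Real.pi := by positivity
  have h4 : s / Real.pi ≤ 1 / 4 := by rw [div_le_iff₀ hpi]; linarith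
  refine ⟨by rw [line_re]; exact h3, by rw [line_re]; linarith, by rw [line_im]; exact h3, ?_⟩
  rw [line_im, line_re, bl, mul_div_cancel₀ _ hpi.ne', div_le_div_iff_of_pos_right hpi,
    ← Real.sinh_le_sinh, Real.sinh_arsinh]
  have h5 : Real.sinh s ≤ Real.sinh (dgx θ) := Real.sinh_le_sinh.2 h1
  have h6 : Real.cos (dgx θ) ≤ Real.cos s :=
    Real.cos_le_cos_of_nonneg_of_le_pi h0 (by linarith) h1
  have h7 := mul_le_mul_of_nonneg_left h6 (Real.tan_nonneg_of_nonneg_of_le_pi_div_two h.pos.le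
    h.lt.le)
  have h8 := (dgx_spec h).2.2
  linarith

theorem dg_c {w : ℂ} (hw : Und θ' w) (h' : Ht θ') :
    0 < (1 / cosh (uof ((starRingEnd ℂ) w))).re ∧ 0 ≤ (1 / cosh (uof ((starRingEnd ℂ) w))).im ∧
      normSq (1 / cosh (uof ((starRingEnd ℂ) w))) ≤ 13606 / 10000 := by
  have hpi := Real.pi_pos
  have hwa : |((starRingEnd ℂ) w).re| < 1 / 2 := conj_abs hw.abs
  have e : 1 / cosh (uof ((starRingEnd ℂ) w)) = cos ((Real.pi : ℂ) * (starRingEnd ℂ) w) := by
    rw [uof, cosh_igd (pi_re_lt hwa), one_div_one_div]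
  rw [e]
  refine ⟨?_, ?_, ?_⟩
  · rw [wcos_re, pi_mul_re, pi_mul_im, conj_re]
    exact mul_pos (cos_pi_pos hw.abs) (Real.cosh_pos _)
  · rw [wcos_im, pi_mul_re, pi_mul_im, conj_re, conj_im, mul_neg, Real.sinh_neg, mul_neg, neg_neg]
    apply mul_nonneg
    · exact Real.sin_nonneg_of_nonneg_of_le_pi (mul_nonneg hpi.le hw.re0)
        (by nlinarith [hw.re1])
    · exact Real.sinh_nonneg_iff.2 (mul_nonneg hpi.le hw.im0)
  · have h1 := LowA_cos_norm hw h'
    rw [normSq_eq_norm_sq]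
    have h2 := pow_le_pow_left₀ (norm_nonneg _) h1 2
    norm_num at h2 ⊢
    linarith

variable {Φ : ℂ → ℂ → ℂ}

theorem low_D3 (hP : IsPhi Φ) {w : ℂ} (h : Ht θ) (hw : Und θ' w) (h' : Ht θ') :
    (Φ 0 ((starRingEnd ℂ) w)).re < (Φ (td θ) ((starRingEnd ℂ) w)).re := by
  have hpi := Real.pi_pos
  have hpc : (Real.pi : ℂ) ≠ 0 := by exact_mod_cast Real.pi_ne_zero
  have hwa : |((starRingEnd ℂ) w).re| < 1 / 2 := conj_abs hw.abs
  have hgW : gd (uof ((starRingEnd ℂ) w)) = (Real.pi : ℂ) * (starRingEnd ℂ) w := by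
    rw [uof, gd_igd (pi_re_lt hwa)]
  obtain ⟨x0, x1, x2⟩ := dgx_spec h
  obtain ⟨c0, c1, c2⟩ := dg_c hw h'
  have hreg : ∀ s, 0 ≤ s → s ≤ dgx θ → Reg (igd (UU s s)) (uof ((starRingEnd ℂ) w)) := by
    intro s h0 h1
    have hp : Pr θ θ' (((s / Real.pi : ℝ) : ℂ) + ((s / Real.pi : ℝ) : ℂ) * I) w :=
      ⟨Und_dg h h0 h1, hw, h, h', by linarith [h.lt_quarter, h'.lt_quarter]⟩
    have hq := hp.qo.reg
    rw [uof_line, mul_div_cancel₀ _ hpi.ne', ← hw.conj_u] at hq
    exact hq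
  have key := dg_mono hP x0 (dgx_lt h).le hreg c0 c1 c2
  have e0 : FP Φ (UU 0 0) (gd (uof ((starRingEnd ℂ) w))) = (Φ 0 ((starRingEnd ℂ) w)).re := by
    rw [FP, LowA_UU0, ofReal_zero, zero_div, hgW, mul_div_cancel_left₀ _ hpc]
  have e1 : FP Φ (UU (dgx θ) (dgx θ)) (gd (uof ((starRingEnd ℂ) w))) =
      (Φ (td θ) ((starRingEnd ℂ) w)).re := by
    rw [FP, hgW, mul_div_cancel_left₀ _ hpc, ← td_eq h, mul_div_cancel_left₀ _ hpc]
  rw [e0, e1] at key
  exact key

theorem low_D3' (hP : IsPhi Φ) {v : ℂ} (h' : Ht θ') (hv : Und θ v) (h : Ht θ) :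
    (Φ v 0).re < (Φ v ((starRingEnd ℂ) (td θ'))).re := by
  have h1 := low_D3 hP.swap h' hv h
  have ha := hv.abs
  have ht : |(td θ').re| < 1 / 2 := (Und_td h').abs
  have hp : Pr θ θ' v (td θ') :=
    ⟨hv, Und_td h', h, h', by linarith [h.lt_quarter, h'.lt_quarter]⟩
  have hr := hp.qo.reg
  rw [← hp.hw.conj_u] at hr
  have e1 : (Φ ((starRingEnd ℂ) v) (td θ')).re = (Φ v ((starRingEnd ℂ) (td θ'))).re := by
    have := Phi_conj_re hP ha (conj_abs ht) hr
    rwa [conj_conj] at this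
  have e2 : (Φ ((starRingEnd ℂ) v) 0).re = (Φ v 0).re := by
    have hz : |(0 : ℂ).re| < 1 / 2 := by
      rw [zero_re, abs_zero]
      norm_num
    have hp0 : Pr θ θ' v 0 := ⟨hv, Und_zero h', h, h', hp.S⟩
    have hr0 := hp0.qo.reg
    rw [← hp0.hw.conj_u, map_zero] at hr0
    have := Phi_conj_re hP ha hz hr0
    rwa [map_zero] at this
  rw [← e1, ← e2]
  exact h1

/-- The value at the test points. -/
theorem low_D0 (hP : IsPhi Φ) (h0 : Φ 0 0 = c00) (h : Ht θ) (h' : Ht θ') :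
    11657 / 10000 < (Φ (td θ) ((starRingEnd ℂ) (td θ'))).re ∧
    (Φ 0 0).re < (Φ (td θ) ((starRingEnd ℂ) (td θ'))).re := by
  have h1 := low_D3 hP h (Und_td h') h'
  have h2 := low_D3' hP h' (Und_zero h) h
  have h3 := LowA_c00_gt
  rw [← h0] at h3
  exact ⟨by linarith, by linarith⟩

theorem low_D1 (hP : IsPhi Φ) (h0 : Φ 0 0 = c00) (h : Ht θ) (h' : Ht θ') :
    Real.pi / 6 + Real.pi / 6 < (Φ (td θ) ((starRingEnd ℂ) (td θ'))).re := by
  have h1 := (low_D0 hP h0 h h').1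
  have := Real.pi_lt_d4
  linarith

end

/-! ### Closed ends -/

namespace Cl

variable {Φ : ℂ → ℂ} {θ : ℝ}

theorem dg_deriv1 (hΦ : IsPhi1 Φ) {s : ℝ} (hs : |s| < Real.pi / 2) :
    HasDerivAt (fun s => (Φ (UU s s / (Real.pi : ℂ))).re)
      (2 / Real.pi * ((qcl (igd (UU s s))).im - (qcl (igd (UU s s))).re)) s := by
  have hu : |(igd (UU s s)).im| < Real.pi / 2 := igd_im_lt (UU_re_lt hs)
  have h1 := hΦ.deriv (fun s => igd (UU s s)) ((1 + I) * cosh (igd (UU s s))) s hu (dg_igd hs)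
  have h2 := hasDerivAt_re h1
  have e : (fun s : ℝ => (Φ (UU s s / (Real.pi : ℂ))).re) =ᶠ[nhds s]
      (fun s : ℝ => (Φ (gd (igd (UU s s)) / (Real.pi : ℂ))).re) := by
    have hn : ∀ᶠ t in nhds s, |t| < Real.pi / 2 :=
      (continuous_abs.continuousAt).eventually_lt_const hs
    filter_upwards [hn] with t ht
    rw [gd_igd (UU_re_lt ht)]
  refine (h2.congr_of_eventuallyEq e).congr_deriv ?_
  have hpi : (Real.pi : ℂ) ≠ 0 := by exact_mod_cast Real.pi_ne_zero
  have hc : cosh (igd (UU s s)) ≠ 0 := cosh_ne hu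
  have e2 : -2 * qcl (igd (UU s s)) * ((1 + I) * cosh (igd (UU s s))) /
      ((Real.pi : ℂ) * cosh (igd (UU s s))) =
      ((-(2 / Real.pi) : ℝ) : ℂ) * (qcl (igd (UU s s)) * (1 + I)) := by
    push_cast
    field_simp
  rw [e2, re_ofReal_mul, mul_re, add_re, add_im, one_re, one_im, I_re, I_im]
  ring

theorem dg_qcl {s : ℝ} (hs0 : 0 < s) (hs1 : s ≤ Real.pi / 4) :
    (qcl (igd (UU s s))).re < (qcl (igd (UU s s))).im := by
  have hpi := Real.pi_pos
  have hs : |s| < Real.pi / 2 := by rw [abs_of_pos hs0]; linarith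
  have hu : |(igd (UU s s)).im| < Real.pi / 2 := igd_im_lt (UU_re_lt hs)
  have h1 := dg_lt hs0 hs1 (q := igd (UU s s)) (c := 1) hu (by rw [sinh_igd, mul_one])
    (by rw [one_re]; exact one_pos) (by rw [one_im]) (by rw [map_one]; norm_num)
  have e : qcl (igd (UU s s)) = (((igd (UU s s)).re - s) / 2 : ℝ) +
      (((igd (UU s s)).im + s) / 2 : ℝ) * I := by
    rw [qcl, gd_igd (UU_re_lt hs)]
    conv_lhs => rw [← re_add_im (igd (UU s s))]
    unfold UU
    push_cast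
    linear_combination (s / 2 : ℂ) * I_sq
  rw [e, add_re, add_im, ofReal_re, ofReal_im, re_ofReal_mul, im_ofReal_mul, I_re, I_im]
  linarith

theorem low_D3c (hΦ : IsPhi1 Φ) (h : Ht θ) : (Φ 0).re < (Φ (td θ)).re := by
  have hpi := Real.pi_pos
  have hpc : (Real.pi : ℂ) ≠ 0 := by exact_mod_cast Real.pi_ne_zero
  obtain ⟨x0, x1, x2⟩ := dgx_spec h
  have hx := dgx_lt h
  have habs : ∀ s, 0 ≤ s → s ≤ dgx θ → |s| < Real.pi / 2 := fun s h0 h1 => by
    rw [abs_of_nonneg h0]; linarith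
  have hm : StrictMonoOn (fun s : ℝ => (Φ (UU s s / (Real.pi : ℂ))).re) (Set.Icc 0 (dgx θ)) := by
    apply strictMonoOn_of_deriv_pos (convex_Icc _ _)
    · intro s hs
      exact (dg_deriv1 hΦ (habs s hs.1 hs.2)).continuousAt.continuousWithinAt
    · intro s hs
      rw [interior_Icc] at hs
      rw [(dg_deriv1 hΦ (habs s hs.1.le hs.2.le)).deriv]
      have h1 := dg_qcl hs.1 (hs.2.le.trans hx.le)
      have h2 : 0 < 2 / Real.pi := by positivity
      exact mul_pos h2 (by linarith)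
  have key := hm ⟨le_rfl, x0.le⟩ ⟨x0.le, le_rfl⟩ x0
  simp only [← td_eq h, LowA_UU0, ofReal_zero, zero_div, mul_div_cancel_left₀ _ hpc] at key
  exact key

theorem low_D2c (hΦ : IsPhi1 Φ) (h0 : Φ 0 = Fc 0) (h : Ht θ) :
    Real.pi / 6 < (Φ (td θ)).re := by
  have hpi := Real.pi_pos
  have h1 := low_D3c hΦ h
  have h2 := Phi_zero_ge hΦ h0
  have h3 := Real.pi_lt_d4
  norm_num at h3
  refine lt_trans ?_ h1
  apply lt_of_mul_lt_mul_left _ hpi.le
  nlinarith

end Cl

end Pool.Agent.S3
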