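import Pool.Agent.H63.GO.MTaylor
import Pool.Agent.H63.VC.Asym
import Pool.Agent.H63.VC.EndB
import Pool.Agent.H63.VC.Riem
import Pool.Agent.H63.VC.SlowL
import Pool.Agent.H63.VC.SlowU
import Pool.Agent.H63.VC3.CritB
import Pool.Agent.H63.VC3.Upper
import Pool.Agent.H63.VC4.GaussN
import Pool.Agent.H63.VC4.KBN
import Pool.Agent.H63.VC4.LaplaceN
import Pool.Agent.H63.VC4.UpperN
import Pool.Agent.H63.VC5.Defs
import Pool.Agent.H63.VC5.FFdilog
import Pool.Agent.H63.VC6.LocU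
import Pool.Agent.H63.VC6.SlotU
import Pool.Agent.H63.VC7.Link
import Pool.Agent.S3.Asm.Def
import Pool.Agent.S3.Ctr

/-!
# Trees: vertices `Fin (m + 1)`, edges `Fin m`

The edge `j` joins `par j` and `j + 1`, where `par j ≤ j`. Every tree with `m + 1` vertices is of
this form. The chain is `par j = j`.
-/

namespace Pool.Agent.AT

open Pool.Agent.S3
open Pool.Agent.H63.VC hiding ext
open Pool.Agent.H63.VC3 Pool.Agent.H63.VC4 Pool.Agent.H63.VC6 Pool.Agent.H63.VC7 Complex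
open Pool.Agent.H25.RK Filter Topology
open scoped BigOperators

/-- A tree with `m` edges. -/
class Tr (m : ℕ) where
  par : Fin m → Fin (m + 1)
  le : ∀ j, par j ≤ j.castSucc

variable {m : ℕ} [Tr m]

theorem Tr.lt (j : Fin m) : Tr.par j < j.succ :=
  lt_of_le_of_lt (Tr.le j) Fin.castSucc_lt_succ

theorem Tr.ne (j : Fin m) : Tr.par j ≠ j.succ := (Tr.lt j).ne

/-- A vertex of an edge. -/
theorem mem_inc {i : Fin (m + 1)} {j : Fin m}
    (h : j ∈ inc (Tr.par (m := m)) Fin.succ i) : i = Tr.par j ∨ i = j.succ := by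
  unfold inc at h
  rw [Finset.mem_filter] at h
  rcases h.2 with h | h
  · exact Or.inl h.symm
  · exact Or.inr h.symm

theorem mem_inc_par (j : Fin m) : j ∈ inc (Tr.par (m := m)) Fin.succ (Tr.par j) := by
  unfold inc
  exact Finset.mem_filter.2 ⟨Finset.mem_univ _, Or.inl rfl⟩

theorem mem_inc_succ (j : Fin m) : j ∈ inc (Tr.par (m := m)) Fin.succ j.succ := by
  unfold inc
  exact Finset.mem_filter.2 ⟨Finset.mem_univ _, Or.inr rfl⟩

/-- Every vertex is at an edge. -/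
theorem exists_edge (hm : 1 ≤ m) (i : Fin (m + 1)) : ∃ j : Fin m, i = Tr.par j ∨ i = j.succ := by
  induction i using Fin.cases with
  | zero =>
    refine ⟨⟨0, hm⟩, Or.inl ?_⟩
    have h2 : (Tr.par (m := m) ⟨0, hm⟩).val ≤ 0 := Tr.le (m := m) ⟨0, hm⟩
    exact Fin.ext (Nat.le_zero.1 h2).symm
  | succ k => exact ⟨k, Or.inr rfl⟩

/-- The data of a tree. The vertices in `Op` keep an integration variable, on the contour
`γ i`; the others are ends with `r i = s i = ±1` (two half twists). -/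
structure ChD (r : Fin (m + 1) → ℝ) (Op : Finset (Fin (m + 1))) (s : Fin (m + 1) → ℤ)
    (γ γ' : Fin (m + 1) → ℝ → ℂ) : Prop where
  hm : 1 ≤ m
  ctr : ∀ i ∈ Op, Ctr (γ i) (γ' i)
  cl_s : ∀ i ∉ Op, s i = 1 ∨ s i = -1
  cl_r : ∀ i ∉ Op, r i = s i
  cl_inc : ∀ i ∉ Op, ∃ j, inc (Tr.par (m := m)) Fin.succ i = {j}

/-- The part of the invariant with all indices at least `k0 M`. -/
noncomputable def J0 (r : Fin (m + 1) → ℝ) (M : ℕ) : ℂ :=
  ∑ k ∈ Fintype.piFinset (fun _ : Fin m => Finset.Ico (k0 M) M),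
    (∏ j, Cc 2 1 M (yk 2 M (k j) : ℝ)) *
      ∏ i, DG (r i) M (inc (Tr.par (m := m)) Fin.succ i) k

end Pool.Agent.AT
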